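import Pool.Agent.Lib_helper64.FT_B
import Pool.Agent.Lib_helper51.FT_A

set_option autoImplicit false

namespace Pool.Agent.FT

/-- Block B (unconditional, with helper51's A2). -/
theorem ker_le (M : ℕ) [NeZero M] (hM : 3 ≤ M) (R : AddSubgroup (ZMod M → ℤ)) (K : Finset ℤ)
    (hK : 2 * K.card ≤ M.totient)
    (hgen : ∀ x : ZMod M, (Pi.single x 1 : ZMod M → ℤ) ∈
      R ⊔ AddSubgroup.closure ((fun k : ℤ => (Pi.single (k : ZMod M) 1 : ZMod M → ℤ)) '' K))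
    (hR : ∀ D ∈ R, ∀ t : (ZMod M)ˣ, stq M D t = 0)
    (D : ZMod M → ℤ) (hD : ∀ t : (ZMod M)ˣ, stq M D t = 0) : D ∈ R :=
  ker_le_of M hM (fun χ hχ => exists_sum_ne_zero M χ hχ) R K hK hgen hR D hD

end Pool.Agent.FT
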