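import Pool.Agent.Lib_helper64.DD_U1

/-!
# MP_a2cbb7_co : block U (light usage)
-/

set_option autoImplicit false

namespace Pool.Agent.DD

open Finset Classical

noncomputable section

/-- two points determine the line -/
lemma U_isLine_eq (l : Set ℂ) (hl : IsLine l) (x y : ℂ) (hxy : x ≠ y) (hx : x ∈ l) (hy : y ∈ l) :
    l = ln x y := by
  obtain ⟨α, β, γ, h0, rfl⟩ := hl
  rw [Set.mem_ofPred_eq] at hx hy
  have hd := Q_ne_iff x y hxy
  have h2 : α * (y.re - x.re) + β * (y.im - x.im) = 0 := by linarith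
  ext p
  rw [Q_mem_ln, Set.mem_ofPred_eq]
  constructor
  · intro hp
    have h1 : α * (p.re - x.re) + β * (p.im - x.im) = 0 := by linarith
    rcases h0 with h0 | h0
    · apply mul_left_cancel₀ h0
      linear_combination (p.im - x.im) * h2 - (y.im - x.im) * h1
    · apply mul_left_cancel₀ h0
      linear_combination (y.re - x.re) * h1 - (p.re - x.re) * h2
  · intro hp
    have h1 : α * (p.re - x.re) + β * (p.im - x.im) = 0 := by
      rcases hd with hd | hd
      · apply mul_left_cancel₀ hd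
        rw [mul_zero]
        linear_combination β * hp + (p.re - x.re) * h2
      · apply mul_left_cancel₀ hd
        rw [mul_zero]
        linear_combination -α * hp + (p.im - x.im) * h2
    linarith

/-- the middle one of three collinear points sees one of the other two in its half plane -/
lemma U_mid (α β γ s : ℝ) (h0 : α ≠ 0 ∨ β ≠ 0) (x y z : ℂ) (hx : α * x.re + β * x.im = γ)
    (hy : α * y.re + β * y.im = γ) (hz : α * z.re + β * z.im = γ)
    (h1 : -β * x.re + α * x.im ≤ -β * y.re + α * y.im) (h2 : -β * y.re + α * y.im ≤ -β * z.re + α * z.im) :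
    Up s y x ∨ Up s y z := by
  have hpos : 0 < α ^ 2 + β ^ 2 := by
    rcases h0 with h | h <;> positivity
  have key : ∀ p : ℂ, α * p.re + β * p.im = γ →
      (α ^ 2 + β ^ 2) * ((p.im - y.im) - s * (p.re - y.re)) =
        (α + s * β) * ((-β * p.re + α * p.im) - (-β * y.re + α * y.im)) := by
    intro p hp
    linear_combination (β - s * α) * hp - (β - s * α) * hy
  unfold Up
  rcases le_total 0 (α + s * β) with h | h
  · right
    have := key z hz
    have h3 : 0 ≤ (α ^ 2 + β ^ 2) * ((z.im - y.im) - s * (z.re - y.re)) := by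
      rw [this]; exact mul_nonneg h (by linarith)
    have := nonneg_of_mul_nonneg_right h3 hpos
    linarith
  · left
    have := key x hx
    have h3 : 0 ≤ (α ^ 2 + β ^ 2) * ((x.im - y.im) - s * (x.re - y.re)) := by
      rw [this]; exact mul_nonneg_of_nonpos_of_nonpos h (by linarith)
    have := nonneg_of_mul_nonneg_right h3 hpos
    linarith

/-- among three points of a line there is an arrow -/
lemma U_arrow (σ : ℂ → ℝ) (l : Set ℂ) (hl : IsLine l) (x y z : ℂ) (hx : x ∈ l) (hy : y ∈ l) (hz : z ∈ l) :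
    (Up (σ x) x y ∨ Up (σ x) x z) ∨ (Up (σ y) y x ∨ Up (σ y) y z) ∨ (Up (σ z) z x ∨ Up (σ z) z y) := by
  obtain ⟨α, β, γ, h0, rfl⟩ := hl
  rw [Set.mem_ofPred_eq] at hx hy hz
  rcases le_total (-β * x.re + α * x.im) (-β * y.re + α * y.im) with h1 | h1 <;>
  rcases le_total (-β * y.re + α * y.im) (-β * z.re + α * z.im) with h2 | h2 <;>
  rcases le_total (-β * x.re + α * x.im) (-β * z.re + α * z.im) with h3 | h3
  · exact Or.inr (Or.inl (U_mid α β γ (σ y) h0 x y z hx hy hz h1 h2))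
  · exact Or.inr (Or.inl (U_mid α β γ (σ y) h0 x y z hx hy hz h1 h2))
  · exact Or.inr (Or.inr (U_mid α β γ (σ z) h0 x z y hx hz hy h3 h2))
  · exact Or.inl (U_mid α β γ (σ x) h0 z x y hz hx hy h3 h1).symm
  · exact Or.inl (U_mid α β γ (σ x) h0 y x z hy hx hz h1 h3)
  · exact Or.inr (Or.inr (U_mid α β γ (σ z) h0 y z x hy hz hx h2 h3).symm)
  · exact Or.inr (Or.inl (U_mid α β γ (σ y) h0 z y x hz hy hx h2 h1).symm)
  · exact Or.inr (Or.inl (U_mid α β γ (σ y) h0 z y x hz hy hx h2 h1).symm)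

/-- arrows on a line -/
def Uarr (E : Finset ℂ) (σ : ℂ → ℝ) (l : Set ℂ) : Finset (ℂ × ℂ) :=
  (E ×ˢ E).filter (fun t => t.1 ≠ t.2 ∧ t.1 ∈ l ∧ t.2 ∈ l ∧ Up (σ t.1) t.1 t.2)

lemma U_arr_card (E : Finset ℂ) (σ : ℂ → ℝ) (l : Set ℂ) (hl : IsLine l) :
    on E l ≤ (Uarr E σ l).card + 2 := by
  set S := (E.filter (fun p => p ∈ l)).filter (fun x => ∀ y ∈ E, y ∈ l → y ≠ x → ¬ Up (σ x) x y) with hS
  have hS2 : S.card ≤ 2 := by
    by_contra hcon
    push Not at hcon
    obtain ⟨x, hx, y, hy, z, hz, hxy, hxz, hyz⟩ := two_lt_card.mp hcon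
    rw [hS, mem_filter, mem_filter] at hx hy hz
    rcases U_arrow σ l hl x y z hx.1.2 hy.1.2 hz.1.2 with (h | h) | (h | h) | (h | h)
    · exact hx.2 y hy.1.1 hy.1.2 (Ne.symm hxy) h
    · exact hx.2 z hz.1.1 hz.1.2 (Ne.symm hxz) h
    · exact hy.2 x hx.1.1 hx.1.2 hxy h
    · exact hy.2 z hz.1.1 hz.1.2 (Ne.symm hyz) h
    · exact hz.2 x hx.1.1 hx.1.2 hxz h
    · exact hz.2 y hy.1.1 hy.1.2 hyz h
  have hsub : E.filter (fun p => p ∈ l) ⊆ S ∪ (Uarr E σ l).image (fun t => t.1) := by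
    intro x hx
    rw [mem_union]
    by_contra hcon
    push Not at hcon
    apply hcon.1
    rw [hS, mem_filter]
    refine ⟨hx, ?_⟩
    intro y hy hyl hyx hup
    apply hcon.2
    rw [mem_image]
    rw [mem_filter] at hx
    refine ⟨(x, y), ?_, rfl⟩
    unfold Uarr
    rw [mem_filter, mem_product]
    exact ⟨⟨hx.1, hy⟩, Ne.symm hyx, hx.2, hyl, hup⟩
  unfold on
  have h1 := card_le_card hsub
  have h2 := card_union_le S ((Uarr E σ l).image (fun t => t.1))
  have h3 : ((Uarr E σ l).image (fun t => t.1)).card ≤ (Uarr E σ l).card := card_image_le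
  omega

/-- total length of the lines with at least three points of the chain -/
lemma U_chain_sum (A E : Finset ℂ) (σ : ℂ → ℝ) (h : ℝ) (hch : Chain A E σ (1/20) h)
    (L : Finset (Set ℂ)) (hL : ∀ l ∈ L, IsLine l ∧ 3 ≤ on E l) :
    ∑ l ∈ L, (on E l : ℝ) ≤ 3 * (E.card * h) := by
  have h1 : ∀ l ∈ L, (on E l : ℝ) ≤ 3 * ((Uarr E σ l).card : ℝ) := by
    intro l hl
    have h2 := U_arr_card E σ l (hL l hl).1
    have h3 := (hL l hl).2
    have : on E l ≤ 3 * (Uarr E σ l).card := by omega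
    exact_mod_cast this
  have h2 : ∑ l ∈ L, ((Uarr E σ l).card : ℝ) ≤ E.card * h := by
    have h3 : ∑ l ∈ L, (Uarr E σ l).card = (L.biUnion (fun l => Uarr E σ l)).card := by
      rw [card_biUnion]
      intro l hl l' hl' hne
      rw [Function.onFun, disjoint_left]
      intro t ht ht'
      unfold Uarr at ht ht'
      rw [mem_filter] at ht ht'
      apply hne
      rw [U_isLine_eq l (hL l hl).1 t.1 t.2 ht.2.1 ht.2.2.1 ht.2.2.2.1,
        U_isLine_eq l' (hL l' hl').1 t.1 t.2 ht'.2.1 ht'.2.2.1 ht'.2.2.2.1]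
    have h4 : L.biUnion (fun l => Uarr E σ l) ⊆ E.biUnion (fun x => (A.filter (fun a => Up (σ x) x a)).image (fun a => (x, a))) := by
      intro t ht
      rw [mem_biUnion] at ht
      obtain ⟨l, _, ht⟩ := ht
      unfold Uarr at ht
      rw [mem_filter, mem_product] at ht
      rw [mem_biUnion]
      refine ⟨t.1, ht.1.1, ?_⟩
      rw [mem_image]
      exact ⟨t.2, by rw [mem_filter]; exact ⟨hch.sub ht.1.2, ht.2.2.2.2⟩, rfl⟩
    have h5 : ∑ l ∈ L, (Uarr E σ l).card ≤ ∑ x ∈ E, (A.filter (fun a => Up (σ x) x a)).card := by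
      rw [h3]
      refine (card_le_card h4).trans (card_biUnion_le.trans ?_)
      apply sum_le_sum
      intro x _
      exact card_image_le
    have h6 : ((∑ l ∈ L, (Uarr E σ l).card : ℕ) : ℝ) ≤ ((∑ x ∈ E, (A.filter (fun a => Up (σ x) x a)).card : ℕ) : ℝ) := by
      exact_mod_cast h5
    push_cast at h6
    refine h6.trans ?_
    rw [← nsmul_eq_mul, ← sum_const]
    exact sum_le_sum (fun x hx => hch.low x hx)
  calc ∑ l ∈ L, (on E l : ℝ) ≤ ∑ l ∈ L, 3 * ((Uarr E σ l).card : ℝ) := sum_le_sum h1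
    _ = 3 * ∑ l ∈ L, ((Uarr E σ l).card : ℝ) := by rw [mul_sum]
    _ ≤ _ := by linarith

/-- double counting of `richUse` -/
lemma U_double (A E : Finset ℂ) (q : ℝ) :
    (richUse A E q).card ≤ ∑ l ∈ (A.offDiag.image (fun t => bis t.1 t.2)).filter (fun l => 3 ≤ on E l),
      (pairsOn A q l).card * on E l := by
  have h1 : ∀ t ∈ richUse A E q, bis t.2.1 t.2.2 ∈
      (A.offDiag.image (fun t => bis t.1 t.2)).filter (fun l => 3 ≤ on E l) := by
    intro t ht
    unfold richUse at ht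
    rw [mem_filter, mem_product, mem_product] at ht
    rw [mem_filter, mem_image]
    exact ⟨⟨t.2, by rw [mem_offDiag]; exact ⟨ht.1.2.1, ht.1.2.2, ht.2.1⟩, rfl⟩, ht.2.2.2.2⟩
  rw [card_eq_sum_card_fiberwise h1]
  apply sum_le_sum
  intro l _
  rw [mul_comm]
  unfold on
  rw [← card_product]
  apply card_le_card
  intro t ht
  rw [mem_filter] at ht
  obtain ⟨ht, hb⟩ := ht
  unfold richUse at ht
  rw [mem_filter, mem_product, mem_product] at ht
  rw [mem_product, mem_filter, Q_mem_pairsOn]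
  refine ⟨⟨ht.1.1, ?_⟩, ⟨ht.1.2.1, ht.1.2.2, ht.2.1⟩, hb, ht.2.2.2.1⟩
  rw [← hb]
  exact ht.2.2.1

theorem light_usage (K ε : ℝ) (hK : 0 < K) (hε : 0 < ε) : ∃ δ : ℝ, 0 < δ ∧ ∃ N : ℕ,
    ∀ (A E : Finset ℂ) (σ : ℂ → ℝ), NC A → N ≤ A.card → Chain A E σ (1/20) (δ * A.card) →
      ((richUse A E (K * Real.sqrt A.card)).card : ℝ) ≤ ε * (A.card : ℝ) ^ 2 := by
  obtain ⟨M, N, hMN⟩ := rows_sum K (ε / 2) hK (by positivity)
  refine ⟨ε / (6 * (M + 1)), by positivity, N, ?_⟩
  intro A E σ hA hN hch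
  have h0 := hMN A E hA hch.sub hN
  set q := K * Real.sqrt A.card with hq
  set B := A.offDiag.image (fun t => bis t.1 t.2) with hB
  have hBl : ∀ l ∈ B, IsLine l := by
    intro l hl
    rw [hB, mem_image] at hl
    obtain ⟨t, ht, rfl⟩ := hl
    rw [mem_offDiag] at ht
    exact isLine_bis _ _ ht.2.2
  have h1 : ((richUse A E q).card : ℝ) ≤
      ∑ l ∈ B.filter (fun l => 3 ≤ on E l), (((pairsOn A q l).card * on E l : ℕ) : ℝ) := by
    have := U_double A E q
    have h2 : ((richUse A E q).card : ℝ) ≤ ((∑ l ∈ B.filter (fun l => 3 ≤ on E l),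
      (pairsOn A q l).card * on E l : ℕ) : ℝ) := by exact_mod_cast this
    rw [Nat.cast_sum] at h2
    exact h2
  have h2 : ∑ l ∈ B.filter (fun l => 3 ≤ on E l), (((pairsOn A q l).card * on E l : ℕ) : ℝ) ≤
      ∑ l ∈ B.filter (fun l => M < (pairsOn A q l).card), (((pairsOn A q l).card * on E l : ℕ) : ℝ) +
      M * ∑ l ∈ B.filter (fun l => 3 ≤ on E l), (on E l : ℝ) := by
    have e : ∀ l ∈ B.filter (fun l => 3 ≤ on E l), (((pairsOn A q l).card * on E l : ℕ) : ℝ) ≤
        (if M < (pairsOn A q l).card then (((pairsOn A q l).card * on E l : ℕ) : ℝ) else 0) + M * (on E l : ℝ) := by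
      intro l _
      split_ifs with h
      · have : (0:ℝ) ≤ M * (on E l : ℝ) := by positivity
        linarith
      · push Not at h
        rw [zero_add]
        have : (pairsOn A q l).card * on E l ≤ M * on E l := Nat.mul_le_mul_right _ h
        exact_mod_cast this
    refine (sum_le_sum e).trans ?_
    rw [sum_add_distrib, ← mul_sum]
    apply add_le_add_left
    rw [← sum_filter]
    apply sum_le_sum_of_subset_of_nonneg
    · intro l hl
      rw [mem_filter, mem_filter] at hl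
      rw [mem_filter]
      exact ⟨hl.1.1, hl.2⟩
    · intro l _ _
      positivity
  have h3 := U_chain_sum A E σ (ε / (6 * (M + 1)) * A.card) hch (B.filter (fun l => 3 ≤ on E l)) (by
    intro l hl
    rw [mem_filter] at hl
    exact ⟨hBl l hl.1, hl.2⟩)
  have hEA : (E.card : ℝ) ≤ A.card := by exact_mod_cast card_le_card hch.sub
  have hM : (0:ℝ) ≤ M := Nat.cast_nonneg _
  have h4 : (M:ℝ) * (3 * (E.card * (ε / (6 * (M + 1)) * A.card))) ≤ ε / 2 * (A.card:ℝ)^2 := by
    have hc : (0:ℝ) ≤ A.card := Nat.cast_nonneg _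
    calc (M:ℝ) * (3 * (E.card * (ε / (6 * (M + 1)) * A.card)))
        ≤ (M:ℝ) * (3 * (A.card * (ε / (6 * (M + 1)) * A.card))) := by
          have : (E.card:ℝ) * (ε / (6 * (M + 1)) * A.card) ≤ A.card * (ε / (6 * (M + 1)) * A.card) :=
            mul_le_mul_of_nonneg_right hEA (by positivity)
          have h5 := mul_le_mul_of_nonneg_left this (by positivity : (0:ℝ) ≤ M * 3)
          linarith
      _ = (M / (M + 1)) * (ε / 2 * (A.card:ℝ)^2) := by field_simp; ring
      _ ≤ 1 * (ε / 2 * (A.card:ℝ)^2) := by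
          apply mul_le_mul_of_nonneg_right _ (by positivity)
          rw [div_le_one (by positivity)]
          linarith
      _ = _ := one_mul _
  have h5 := mul_le_mul_of_nonneg_left h3 hM
  calc ((richUse A E q).card : ℝ) ≤ _ := h1
    _ ≤ _ := h2
    _ ≤ ε / 2 * (A.card:ℝ)^2 + ε / 2 * (A.card:ℝ)^2 := by linarith
    _ = _ := by ring

end

end Pool.Agent.DD
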