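import Pool.Agent.Lib_helper64.DD_T
import Pool.Agent.Lib_helper56.DD_C

/-! # MP_a2cbb7_co : `rows_count` and `T_lemma` (unconditional, from helper56's Szemeredi-Trotter) -/

set_option autoImplicit false

namespace Pool.Agent.DD

open Finset Classical

noncomputable section

theorem rows_count : ∃ C : ℝ, 0 < C ∧ ∀ (Y : Finset ℂ) (q : ℝ) (m : ℕ), NC Y → 1 ≤ m → 0 ≤ q →
    (((Y.offDiag.image (fun t => bis t.1 t.2)).filter (fun l => m ≤ (pairsOn Y q l).card)).card : ℝ)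
      ≤ C * ((Y.card : ℝ) ^ 2 / (m : ℝ) ^ 2 + (Y.card : ℝ) * q / m) :=
  rows_count_of rich_lines

theorem T_lemma : ∃ C : ℝ, 0 < C ∧ ∀ X Y : Finset ℂ, NC Y →
    (tripPairs X Y : ℝ) ≤ C * ((X.card : ℝ) ^ ((2:ℝ)/3) * (Y.card : ℝ) ^ ((4:ℝ)/3)
      + X.card * (Y.card : ℝ) ^ ((2:ℝ)/3) + (Y.card : ℝ) ^ 2) :=
  T_lemma_of rich_lines szemeredi_trotter

end

end Pool.Agent.DD
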