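import Pool.Agent.Lib_helper64.Basic

set_option autoImplicit false

namespace Pool.Agent.LC

universe uV uE uI

variable {V : Type uV} {E : Type uE} {ι : Type uI}

open Classical in
/-- number of darts of `L` crossing the boundary of `C` -/
noncomputable def cr (G : E → Bool → V) (C : Set V) (L : List (E × Bool)) : ℕ :=
  (L.filter (fun d => decide (¬ (tl G d ∈ C ↔ hd G d ∈ C)))).length

lemma cr_nil (G : E → Bool → V) (C : Set V) : cr G C [] = 0 := rfl

lemma cr_append (G : E → Bool → V) (C : Set V) (L L' : List (E × Bool)) :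
    cr G C (L ++ L') = cr G C L + cr G C L' := by
  simp [cr]

lemma cr_cons_pos (G : E → Bool → V) (C : Set V) (d : E × Bool) (L : List (E × Bool))
    (h : ¬ (tl G d ∈ C ↔ hd G d ∈ C)) : cr G C (d :: L) = cr G C L + 1 := by
  unfold cr
  rw [List.filter_cons_of_pos (by simpa using h)]
  simp

lemma cr_cons_neg (G : E → Bool → V) (C : Set V) (d : E × Bool) (L : List (E × Bool))
    (h : (tl G d ∈ C ↔ hd G d ∈ C)) : cr G C (d :: L) = cr G C L := by
  unfold cr
  rw [List.filter_cons_of_neg (by simpa using h)]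

lemma cr_parity (G : E → Bool → V) (C : Set V) {u v : V} {L : List (E × Bool)}
    (h : Wk G u L v) : Even (cr G C L) ↔ (u ∈ C ↔ v ∈ C) := by
  induction L generalizing u with
  | nil =>
    have : u = v := h
    subst this
    simp [cr_nil]
  | cons d L ih =>
    obtain ⟨h1, h2⟩ := h
    have := ih h2
    subst h1
    by_cases hd' : (tl G d ∈ C ↔ hd G d ∈ C)
    · rw [cr_cons_neg G C d L hd', this, hd']
    · rw [cr_cons_pos G C d L hd', Nat.even_add_one, this]
      tauto

lemma crossing_iff (G : E → Bool → V) (C : Set V) (d : E × Bool) :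
    (tl G d ∈ C ↔ hd G d ∈ C) ↔ (G d.1 false ∈ C ↔ G d.1 true ∈ C) := by
  rcases d with ⟨e, b⟩
  cases b <;> simp only [tl, hd, Bool.not_false, Bool.not_true]
  exact ⟨fun h => h.symm, fun h => h.symm⟩

lemma cut_ncard (G : E → Bool → V) (A : Set E) (C : Set V) (D : List (E × Bool))
    (hnd : (D.map Prod.fst).Nodup)
    (hD : ∀ e, e ∈ cutE G A C ↔ ∃ d ∈ D, d.1 = e ∧ ¬ (tl G d ∈ C ↔ hd G d ∈ C)) :
    (cutE G A C).Finite ∧ (cutE G A C).ncard = cr G C D := by
  classical
  set D' := D.filter (fun d => decide (¬ (tl G d ∈ C ↔ hd G d ∈ C))) with hD'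
  have hnd' : (D'.map Prod.fst).Nodup := by
    apply List.Nodup.sublist _ hnd
    exact List.Sublist.map _ (List.filter_sublist)
  have heq : cutE G A C = ((D'.map Prod.fst).toFinset : Set E) := by
    ext e
    rw [hD]
    simp only [List.coe_toFinset, Set.mem_ofPred_eq, List.mem_map, hD', List.mem_filter,
      decide_eq_true_eq]
    constructor
    · rintro ⟨d, h1, h2, h3⟩
      exact ⟨d, ⟨h1, h3⟩, h2⟩
    · rintro ⟨d, ⟨h1, h3⟩, h2⟩
      exact ⟨d, h1, h2, h3⟩
  constructor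
  · rw [heq]; exact Finset.finite_toSet _
  · rw [heq, Set.ncard_coe_finset, List.toFinset_card_of_nodup hnd', List.length_map]
    unfold cr
    rw [hD']

/-- shortening a walk to an edge-nodup walk -/
lemma exists_nodup_walk (G : E → Bool → V) {u v : V} {L : List (E × Bool)}
    (h : Wk G u L v) : ∃ L' : List (E × Bool), Wk G u L' v ∧ (L'.map Prod.fst).Nodup ∧
      ∀ d ∈ L', d ∈ L := by
  induction L generalizing u with
  | nil => exact ⟨[], h, by simp, by simp⟩
  | cons d L ih =>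
    obtain ⟨h1, h2⟩ := h
    obtain ⟨L', hw, hn, hs⟩ := ih h2
    by_cases hmem : d.1 ∈ L'.map Prod.fst
    · obtain ⟨d', hd', hdd⟩ := List.mem_map.1 hmem
      obtain ⟨P, R, rfl⟩ := List.append_of_mem hd'
      rw [wk_split] at hw
      have hn2 : ((d' :: R).map Prod.fst).Nodup := by
        rw [List.map_append] at hn
        exact (List.nodup_append.1 hn).2.1
      rcases eq_or_eq_rv (d := d) (d' := d') hdd.symm with rfl | rfl
      · refine ⟨d' :: R, ⟨h1, hw.2⟩, hn2, ?_⟩
        intro x hx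
        rcases List.mem_cons.1 hx with rfl | hx
        · simp
        · exact List.mem_cons_of_mem _ (hs x (by simp [hx]))
      · refine ⟨R, ?_, ?_, ?_⟩
        · have := hw.2
          rwa [hd_rv, h1] at this
        · rw [List.map_cons] at hn2
          exact (List.nodup_cons.1 hn2).2
        · intro x hx
          exact List.mem_cons_of_mem _ (hs x (by simp [hx]))
    · refine ⟨d :: L', ⟨h1, hw⟩, ?_, ?_⟩
      · rw [List.map_cons]
        exact List.nodup_cons.2 ⟨hmem, hn⟩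
      · intro x hx
        rcases List.mem_cons.1 hx with rfl | hx
        · simp
        · exact List.mem_cons_of_mem _ (hs x hx)

/-- unused darts of the graph on `X \ S` -/
def HD (G : E → Bool → V) (A : Set E) (S X : Set V) (W : Set (List (E × Bool)))
    (d : E × Bool) : Prop :=
  d.1 ∈ A ∧ tl G d ∈ X \ S ∧ hd G d ∈ X \ S ∧ ∀ L' ∈ W, ∀ d' ∈ L', d'.1 ≠ d.1

section
variable {G : E → Bool → V} {A : Set E} {c : V → Option ι} {t : ι} {S X : Set V}
    {K : Set (E × Bool)} {W : Set (List (E × Bool))} {f : E × Bool}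

/-- in a trail of a linkage, heads of all darts but the last one are in `X` -/
lemma IsTr.hdX {L : List (E × Bool)} (h : IsTr G A S X L) {P Q : List (E × Bool)} {d : E × Bool}
    (hL : L = P ++ d :: Q) (hQ : Q ≠ []) : hd G d ∈ X := by
  obtain ⟨u, hu, v, hw⟩ := h.wk
  rw [hL, wk_split] at hw
  obtain ⟨a, Q', rfl⟩ := List.exists_cons_of_ne_nil hQ
  have h1 : tl G a = hd G d := hw.2.1
  rw [← h1]
  apply h.tlX
  rw [hL]
  simp

lemma unused_K (hW : Lk G A S X K W) {k : E × Bool} (hk : k ∈ K) (hk2 : k ∈ Lv G A X) :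
    ∀ L' ∈ W, ∀ d' ∈ L', d'.1 ≠ k.1 := by
  intro L hL d hd' hdk
  rcases eq_or_eq_rv (d := k) (d' := d) hdk.symm with rfl | rfl
  · obtain ⟨P, Q, rfl⟩ := List.append_of_mem hd'
    by_cases hQ : Q = []
    · subst hQ
      obtain ⟨b, hb, hb2⟩ := hW.last _ hL
      simp at hb2
      subst hb2
      exact hb.2 hk
    · exact hk2.2.2 ((hW.tr _ hL).hdX rfl hQ)
  · have := (hW.tr _ hL).tlX _ hd'
    rw [tl_rv] at this
    exact hk2.2.2 this

lemma hd_last_notX (hW : Lk G A S X K W) {L : List (E × Bool)} (hL : L ∈ W)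
    {P : List (E × Bool)} {d : E × Bool} (h : L = P ++ [d]) : hd G d ∉ X := by
  obtain ⟨b, hb, hb2⟩ := hW.last _ hL
  rw [h] at hb2
  simp at hb2
  subst hb2
  exact hb.1.2.2

lemma visit (hadm : Adm G A c) (hreg : Reg c t X) (hW : Lk G A (Sc c t) X K W)
    (hK : K ⊆ Lv G A X) (hKS : ∀ k ∈ K, tl G k ∉ Sc c t) (hf : f ∈ K)
    (hfull : Full G A (Sc c t) W)
    (hcomp : ∀ k ∈ K, k ≠ f → ¬ ∃ L : List (E × Bool), Wk G (tl G f) L (tl G k) ∧
      ∀ d ∈ L, HD G A (Sc c t) X W d)
    (v : V) (Z : List (E × Bool)) (hZ : Wk G (tl G f) Z v) (hZn : (Z.map Prod.fst).Nodup)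
    (hZH : ∀ d ∈ Z, HD G A (Sc c t) X W d) (I : List (List (E × Bool))) :
    ∃ (α β : List (E × Bool)) (w : V) (F : List (E × Bool)), (α ++ β) ∈ W ∧ (α ++ β) ∉ I ∧
      α ≠ [] ∧ β ≠ [] ∧ (∃ u ∈ Sc c t, Wk G u α w) ∧ (∃ z, Wk G w β z) ∧ Wk G v F w ∧
      (F.map Prod.fst).Nodup ∧ ∀ d ∈ F, HD G A (Sc c t) X W d ∧ d.1 ∉ Z.map Prod.fst := by
  classical
  by_contra hcon
  push Not at hcon
  set S := Sc c t with hS
  set C : Set V := {w | ∃ L, Wk G v L w ∧ ∀ d ∈ L, HD G A S X W d ∧ d.1 ∉ Z.map Prod.fst} with hC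
  have hfX : f ∈ Lv G A X := hK hf
  have hvXS : v ∈ X \ S := by
    have h0 : tl G f ∈ X \ S := ⟨hfX.2.1, hKS f hf⟩
    cases hZ' : Z with
    | nil => rw [hZ'] at hZ; rw [← (show tl G f = v from hZ)]; exact h0
    | cons a Z' =>
      have hne : Z ≠ [] := by rw [hZ']; simp
      obtain ⟨P, d, hPd⟩ : ∃ P d, Z = P ++ [d] := ⟨Z.dropLast, Z.getLast hne, (List.dropLast_append_getLast hne).symm⟩
      rw [hPd, wk_concat] at hZ
      rw [← hZ.2]
      exact (hZH d (by rw [hPd]; simp)).2.2.1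
  have hCXS : C ⊆ X \ S := by
    rintro w ⟨L, hL, hLH⟩
    by_cases hne : L = []
    · subst hne
      rw [← (show v = w from hL)]; exact hvXS
    · obtain ⟨P, d, hPd⟩ : ∃ P d, L = P ++ [d] := ⟨L.dropLast, L.getLast hne, (List.dropLast_append_getLast hne).symm⟩
      rw [hPd, wk_concat] at hL
      rw [← hL.2]
      exact (hLH d (by rw [hPd]; simp)).1.2.2.1
  have hvC : v ∈ C := ⟨[], rfl, by simp⟩
  -- visiting trails belong to `I`
  have hvis : ∀ L ∈ W, (∃ d ∈ L, hd G d ∈ C) → L ∈ I := by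
    rintro L hL ⟨d, hd1, hd2⟩
    by_contra hLI
    obtain ⟨P, Q, rfl⟩ := List.append_of_mem hd1
    obtain ⟨F, hF, hFH⟩ := hd2
    obtain ⟨F', hF', hF'n, hF's⟩ := exists_nodup_walk G hF
    have hQ : Q ≠ [] := by
      rintro rfl
      exact hd_last_notX hW hL rfl (hCXS ⟨F, hF, hFH⟩).1
    obtain ⟨u, hu, z, hw⟩ := (hW.tr _ hL).wk
    rw [wk_split] at hw
    have e1 : P ++ d :: Q = (P ++ [d]) ++ Q := by simp
    rw [e1] at hL hLI
    obtain ⟨d', hd', hbad⟩ := hcon (P ++ [d]) Q (hd G d) F' hL hLI (by simp) hQ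
      ⟨u, hu, (wk_concat G P d).2 ⟨hw.1, rfl⟩⟩ ⟨z, hw.2⟩ hF' hF'n
    exact (hFH d' (hF's d' hd')).2 (hbad (hFH d' (hF's d' hd')).1)
  have hfH : ∀ d ∈ Z, d.1 ≠ f.1 := by
    intro d hd hdf
    have h1 := hZH d hd
    rcases eq_or_eq_rv (d := f) (d' := d) hdf.symm with rfl | rfl
    · exact hfX.2.2 h1.2.2.1.1
    · have := h1.2.1.1
      rw [tl_rv] at this
      exact hfX.2.2 this
  have hfU := unused_K hW hf hfX
  set vl : List (List (E × Bool)) :=
    I.dedup.filter (fun L => decide (L ∈ W ∧ ∃ d ∈ L, hd G d ∈ C)) with hvl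
  have hvlmem : ∀ L, L ∈ vl ↔ L ∈ W ∧ ∃ d ∈ L, hd G d ∈ C := by
    intro L
    simp only [hvl, List.mem_filter, List.mem_dedup, decide_eq_true_eq]
    exact ⟨fun h => h.2, fun h => ⟨hvis L h.1 h.2, h⟩⟩
  have hvlnd : vl.Nodup := (List.nodup_dedup I).filter _
  set tail : List (E × Bool) := if tl G f ∈ C then [f] else [] with htail
  have htl : ∀ d ∈ tail, d = f ∧ tl G f ∈ C := by
    intro d hd
    by_cases h : tl G f ∈ C
    · rw [htail, if_pos h] at hd
      exact ⟨by simpa using hd, h⟩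
    · rw [htail, if_neg h] at hd
      simp at hd
  -- nodup
  have hflat : ∀ l : List (List (E × Bool)), l.Nodup → (∀ L ∈ l, L ∈ W) →
      (l.flatten.map Prod.fst).Nodup ∧ Even (cr G C l.flatten) := by
    intro l
    induction l with
    | nil => intro _ _; simp [cr_nil]
    | cons L l ih =>
      intro hn hl
      obtain ⟨ih1, ih2⟩ := ih (List.nodup_cons.1 hn).2 (fun L' hL' => hl L' (List.mem_cons_of_mem _ hL'))
      have hLW : L ∈ W := hl L (by simp)
      constructor
      · rw [List.flatten_cons, List.map_append, List.nodup_append]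
        refine ⟨(hW.tr _ hLW).nodup, ih1, ?_⟩
        intro a ha b hb hab
        subst hab
        obtain ⟨d, hd1, hd2⟩ := List.mem_map.1 ha
        obtain ⟨d', hd1', hd2'⟩ := List.mem_map.1 hb
        obtain ⟨L', hL', hd'⟩ := List.mem_flatten.1 hd1'
        have := hW.disj L hLW L' (hl L' (List.mem_cons_of_mem _ hL')) d hd1 d' hd' (hd2.trans hd2'.symm)
        subst this
        exact (List.nodup_cons.1 hn).1 hL'
      · rw [List.flatten_cons, cr_append]
        refine Even.add ?_ ih2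
        obtain ⟨u, hu, z, hw⟩ := (hW.tr _ hLW).wk
        rw [cr_parity G C hw]
        have h1 : u ∉ C := fun h => (hCXS h).2 hu
        have h2 : z ∉ C := by
          have hne := (hW.tr _ hLW).ne
          have e1 := (List.dropLast_append_getLast hne).symm
          have h3 := hd_last_notX hW hLW e1
          rw [e1, wk_concat] at hw
          rw [← hw.2]
          exact fun h => h3 (hCXS h).1
        tauto
  obtain ⟨hfl1, hfl2⟩ := hflat vl hvlnd (fun L hL => ((hvlmem L).1 hL).1)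
  have hDnd : ((vl.flatten ++ Z ++ tail).map Prod.fst).Nodup := by
    rw [List.map_append, List.map_append, List.nodup_append, List.nodup_append]
    refine ⟨⟨hfl1, hZn, ?_⟩, ?_, ?_⟩
    · intro a ha b hb hab
      subst hab
      obtain ⟨d, hd1, hd2⟩ := List.mem_map.1 ha
      obtain ⟨L', hL', hd'⟩ := List.mem_flatten.1 hd1
      obtain ⟨d', hd1', hd2'⟩ := List.mem_map.1 hb
      exact (hZH d' hd1').2.2.2 L' ((hvlmem L').1 hL').1 d hd' (hd2.trans hd2'.symm)
    · rw [htail]
      split_ifs <;> simp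
    · intro a ha b hb hab
      subst hab
      obtain ⟨d', hd1', hd2'⟩ := List.mem_map.1 hb
      obtain ⟨rfl, _⟩ := htl d' hd1'
      rw [List.mem_append] at ha
      rcases ha with ha | ha
      · obtain ⟨d, hd1, hd2⟩ := List.mem_map.1 ha
        obtain ⟨L', hL', hd'⟩ := List.mem_flatten.1 hd1
        exact hfU L' ((hvlmem L').1 hL').1 d hd' (hd2.trans hd2'.symm)
      · obtain ⟨d, hd1, hd2⟩ := List.mem_map.1 ha
        exact hfH d hd1 (hd2.trans hd2'.symm)
  have hDcut : ∀ e, e ∈ cutE G A C ↔ ∃ d ∈ vl.flatten ++ Z ++ tail, d.1 = e ∧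
      ¬ (tl G d ∈ C ↔ hd G d ∈ C) := by
    intro e
    constructor
    · rintro ⟨heA, hcr⟩
      -- choose the dart leaving `C`
      obtain ⟨d, hde, hd1, hd2⟩ : ∃ d : E × Bool, d.1 = e ∧ tl G d ∈ C ∧ hd G d ∉ C := by
        by_cases h0 : G e false ∈ C
        · refine ⟨(e, false), rfl, h0, ?_⟩
          intro h1
          exact hcr ⟨fun _ => h1, fun _ => h0⟩
        · by_cases h1 : G e true ∈ C
          · exact ⟨(e, true), rfl, h1, h0⟩
          · exact absurd ⟨fun h => absurd h h0, fun h => absurd h h1⟩ hcr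
      by_cases hused : ∃ L' ∈ W, ∃ d' ∈ L', d'.1 = e
      · obtain ⟨L', hL', d', hd', hd'e⟩ := hused
        have hcr' : ¬ (tl G d' ∈ C ↔ hd G d' ∈ C) := by
          rw [crossing_iff, hd'e]; exact hcr
        refine ⟨d', ?_, hd'e, hcr'⟩
        have hL'vis : ∃ d ∈ L', hd G d ∈ C := by
          by_contra hno
          push Not at hno
          obtain ⟨u, hu, z, hw⟩ := (hW.tr _ hL').wk
          have h1 : u ∉ C := fun h => (hCXS h).2 hu
          have h2 := hw.tl_mem (P := fun x => x ∉ C) h1 hno d' hd'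
          exact hcr' ⟨fun h => absurd h h2, fun h => absurd h (hno d' hd')⟩
        have : L' ∈ vl := (hvlmem L').2 ⟨hL', hL'vis⟩
        rw [List.append_assoc, List.mem_append]
        exact Or.inl (List.mem_flatten.2 ⟨L', this, hd'⟩)
      · push Not at hused
        by_cases hZe : e ∈ Z.map Prod.fst
        · obtain ⟨d', hd', hd'e⟩ := List.mem_map.1 hZe
          refine ⟨d', by simp [hd'], hd'e, ?_⟩
          rw [crossing_iff, hd'e]; exact hcr
        · -- d is unused and not in Z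
          have htlXS := hCXS hd1
          obtain ⟨L, hL, hLH⟩ := hd1
          have hnXS : hd G d ∉ X \ S := by
            intro hXS
            apply hd2
            refine ⟨L ++ [d], (wk_concat G L d).2 ⟨hL, rfl⟩, ?_⟩
            intro d' hd'
            rcases List.mem_append.1 hd' with h | h
            · exact hLH d' h
            · rw [List.mem_singleton] at h
              subst h
              refine ⟨⟨by rw [hde]; exact heA, htlXS, hXS, ?_⟩, by rw [hde]; exact hZe⟩
              intro L' hL' d'' hd'' h''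
              exact hused L' hL' d'' hd'' (h''.trans hde)
          by_cases hS' : hd G d ∈ S
          · exfalso
            have : rv d ∈ Lv G A S := by
              refine ⟨by rw [rv_fst, hde]; exact heA, by rw [tl_rv]; exact hS', ?_⟩
              rw [hd_rv]; exact htlXS.2
            obtain ⟨L', hL', hh⟩ := hfull _ this
            have hmem : rv d ∈ L' := List.mem_of_mem_head? hh
            exact hused L' hL' _ hmem (by rw [rv_fst, hde])
          · have hX' : hd G d ∉ X := fun h => hnXS ⟨h, hS'⟩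
            have hdLv : d ∈ Lv G A X := ⟨by rw [hde]; exact heA, htlXS.1, hX'⟩
            by_cases hdK : d ∈ K
            · by_cases hdf : d = f
              · subst hdf
                refine ⟨d, ?_, hde, ?_⟩
                · have : tail = [d] := by rw [htail, if_pos (show tl G d ∈ C from ⟨L, hL, hLH⟩)]
                  rw [this]; simp
                · intro h
                  exact hd2 (h.1 ⟨L, hL, hLH⟩)
              · exfalso
                refine hcomp d hdK hdf ⟨Z ++ L, hZ.append hL, ?_⟩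
                intro d' hd'
                rcases List.mem_append.1 hd' with h | h
                · exact hZH d' h
                · exact (hLH d' h).1
            · exfalso
              obtain ⟨L', hL', hh⟩ := hW.cov d ⟨hdLv, hdK⟩
              exact hused L' hL' _ (List.mem_of_getLast? hh) hde
    · rintro ⟨d, hd, rfl, hcr⟩
      refine ⟨?_, ?_⟩
      · rw [List.mem_append, List.mem_append] at hd
        rcases hd with (hd | hd) | hd
        · obtain ⟨L', hL', hd'⟩ := List.mem_flatten.1 hd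
          exact (hW.tr _ ((hvlmem L').1 hL').1).sub _ hd'
        · exact (hZH d hd).1
        · obtain ⟨rfl, _⟩ := htl d hd
          exact hfX.1
      · rw [← crossing_iff]; exact hcr
  obtain ⟨hfin, hcard⟩ := cut_ncard G A C _ hDnd hDcut
  have heven := hadm C (fun x hx => hreg.2 (hCXS hx)) hfin
  rw [hcard, cr_append, cr_append] at heven
  by_cases h0 : tl G f ∈ C
  · have h1 : Even (cr G C Z) := by
      rw [cr_parity G C hZ]
      exact ⟨fun _ => hvC, fun _ => h0⟩
    have h2 : cr G C tail = 1 := by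
      rw [htail, if_pos h0, cr_cons_pos, cr_nil]
      intro h
      exact hfX.2.2 (hCXS (h.1 h0)).1
    rw [h2] at heven
    have := (hfl2.add h1)
    rw [Nat.even_add_one] at heven
    exact heven this
  · have h1 : ¬ Even (cr G C Z) := by
      rw [cr_parity G C hZ]
      intro h
      exact h0 (h.2 hvC)
    have h2 : cr G C tail = 0 := by
      rw [htail, if_neg h0, cr_nil]
    rw [h2, add_zero, Nat.even_add] at heven
    exact h1 (heven.1 hfl2)

end

/-- the sequence produced by iterating `visit` -/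
lemma absorb_seq {G : E → Bool → V} {A : Set E} {c : V → Option ι} {t : ι} {X : Set V}
    {K : Set (E × Bool)} {W : Set (List (E × Bool))} {f : E × Bool}
    (hadm : Adm G A c) (hreg : Reg c t X) (hW : Lk G A (Sc c t) X K W)
    (hK : K ⊆ Lv G A X) (hKS : ∀ k ∈ K, tl G k ∉ Sc c t) (hf : f ∈ K)
    (hfull : Full G A (Sc c t) W)
    (hcomp : ∀ k ∈ K, k ≠ f → ¬ ∃ L : List (E × Bool), Wk G (tl G f) L (tl G k) ∧
      ∀ d ∈ L, HD G A (Sc c t) X W d) :
    ∃ (v : ℕ → V) (α β F : ℕ → List (E × Bool)), v 0 = tl G f ∧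
      (∀ n, (α n ++ β n) ∈ W) ∧ (∀ m n, α m ++ β m = α n ++ β n → m = n) ∧
      (∀ n, α n ≠ []) ∧ (∀ n, β n ≠ []) ∧ (∀ n, ∃ u ∈ Sc c t, Wk G u (α n) (v (n + 1))) ∧
      (∀ n, ∃ z, Wk G (v (n + 1)) (β n) z) ∧ (∀ n, Wk G (v n) (F n) (v (n + 1))) ∧
      (∀ n, ((F n).map Prod.fst).Nodup) ∧ (∀ n, ∀ d ∈ F n, HD G A (Sc c t) X W d) ∧
      (∀ m n, ∀ d ∈ F m, ∀ d' ∈ F n, d.1 = d'.1 → m = n) := by
  classical
  have step := visit hadm hreg hW hK hKS hf hfull hcomp
  let State := {p : V × List (E × Bool) × List (List (E × Bool)) //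
    Wk G (tl G f) p.2.1 p.1 ∧ (p.2.1.map Prod.fst).Nodup ∧ ∀ d ∈ p.2.1, HD G A (Sc c t) X W d}
  have step' : ∀ s : State, ∃ (α β : List (E × Bool)) (w : V) (F : List (E × Bool)),
      (α ++ β) ∈ W ∧ (α ++ β) ∉ s.1.2.2 ∧
      α ≠ [] ∧ β ≠ [] ∧ (∃ u ∈ Sc c t, Wk G u α w) ∧ (∃ z, Wk G w β z) ∧ Wk G s.1.1 F w ∧
      (F.map Prod.fst).Nodup ∧ ∀ d ∈ F, HD G A (Sc c t) X W d ∧ d.1 ∉ s.1.2.1.map Prod.fst :=
    fun s => step s.1.1 s.1.2.1 s.2.1 s.2.2.1 s.2.2.2 s.1.2.2
  choose α β w F h1 h2 h3 h4 h5 h6 h7 h8 h9 using step'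
  let next : State → State := fun s => ⟨(w s, s.1.2.1 ++ F s, (α s ++ β s) :: s.1.2.2), by
    refine ⟨s.2.1.append (h7 s), ?_, ?_⟩
    · rw [List.map_append, List.nodup_append]
      refine ⟨s.2.2.1, h8 s, ?_⟩
      intro a ha b hb hab
      subst hab
      obtain ⟨d, hd, rfl⟩ := List.mem_map.1 hb
      exact (h9 s d hd).2 ha
    · intro d hd
      rcases List.mem_append.1 hd with h | h
      · exact s.2.2.2 d h
      · exact (h9 s d h).1⟩
  let s0 : State := ⟨(tl G f, [], []), by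
    refine ⟨rfl, by simp, by simp⟩⟩
  let s : ℕ → State := fun n => Nat.rec s0 (fun _ s => next s) n
  have hs : ∀ n, s (n + 1) = next (s n) := fun n => rfl
  have hI : ∀ m k, (α (s m) ++ β (s m)) ∈ (s (m + 1 + k)).1.2.2 := by
    intro m k
    induction k with
    | zero => rw [add_zero, hs]; exact List.mem_cons_self
    | succ k ih =>
      rw [← add_assoc, hs]
      exact List.mem_cons_of_mem _ ih
  have hZ : ∀ m k, ∀ d ∈ F (s m), d ∈ (s (m + 1 + k)).1.2.1 := by
    intro m k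
    induction k with
    | zero => intro d hd; rw [add_zero, hs]; exact List.mem_append_right _ hd
    | succ k ih =>
      intro d hd
      rw [← add_assoc, hs]
      exact List.mem_append_left _ (ih d hd)
  refine ⟨fun n => (s n).1.1, fun n => α (s n), fun n => β (s n), fun n => F (s n), rfl,
    fun n => h1 _, ?_, fun n => h3 _, fun n => h4 _, fun n => h5 _, fun n => h6 _, fun n => h7 _,
    fun n => h8 _, fun n d hd => (h9 _ d hd).1, ?_⟩
  · intro m n hmn
    rcases lt_trichotomy m n with h | h | h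
    · exfalso
      obtain ⟨k, rfl⟩ : ∃ k, n = m + 1 + k := ⟨n - (m + 1), by omega⟩
      have := hI m k
      rw [hmn] at this
      exact h2 _ this
    · exact h
    · exfalso
      obtain ⟨k, rfl⟩ : ∃ k, m = n + 1 + k := ⟨m - (n + 1), by omega⟩
      have := hI n k
      rw [← hmn] at this
      exact h2 _ this
  · intro m n d hd d' hd' hdd
    rcases lt_trichotomy m n with h | h | h
    · exfalso
      obtain ⟨k, rfl⟩ : ∃ k, n = m + 1 + k := ⟨n - (m + 1), by omega⟩
      exact (h9 _ d' hd').2 (hdd ▸ List.mem_map_of_mem (hZ m k d hd))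
    · exact h
    · exfalso
      obtain ⟨k, rfl⟩ : ∃ k, m = n + 1 + k := ⟨m - (n + 1), by omega⟩
      exact (h9 _ d hd).2 (hdd ▸ List.mem_map_of_mem (hZ n k d' hd'))

/-- W2: absorption. -/
theorem absorb {G : E → Bool → V} {A : Set E} {c : V → Option ι} {t : ι} {X : Set V}
    {K : Set (E × Bool)} {W : Set (List (E × Bool))} {f : E × Bool}
    (hadm : Adm G A c) (hreg : Reg c t X) (hW : Lk G A (Sc c t) X K W)
    (hK : K ⊆ Lv G A X) (hKS : ∀ k ∈ K, tl G k ∉ Sc c t) (hf : f ∈ K)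
    (hfull : Full G A (Sc c t) W)
    (hcomp : ∀ k ∈ K, k ≠ f → ¬ ∃ L : List (E × Bool), Wk G (tl G f) L (tl G k) ∧
      ∀ d ∈ L, d.1 ∈ A ∧ tl G d ∈ X \ Sc c t ∧ hd G d ∈ X \ Sc c t ∧
        ∀ L' ∈ W, ∀ d' ∈ L', d'.1 ≠ d.1) :
    ∃ W', Lk G A (Sc c t) X (K \ {f}) W' := by
  classical
  obtain ⟨v, α, β, F, hv0, hLW, hLinj, hαne, hβne, hα, hβ, hF, hFn, hFH, hFd⟩ :=
    absorb_seq hadm hreg hW hK hKS hf hfull hcomp
  set S := Sc c t with hS
  have hfX : f ∈ Lv G A X := hK hf
  have hfU := unused_K hW hf hfX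
  have hSX : S ⊆ X := hreg.1
  have hFf : ∀ n, ∀ d ∈ F n, d.1 ≠ f.1 := by
    intro n d hd hdf
    have h1 := hFH n d hd
    rcases eq_or_eq_rv (d := f) (d' := d) hdf.symm with rfl | rfl
    · exact hfX.2.2 h1.2.2.1.1
    · have := h1.2.1.1
      rw [tl_rv] at this
      exact hfX.2.2 this
  let bx : ℕ → List (E × Bool) := fun n => Nat.casesOn n [f] (fun k => β k)
  have hbx0 : bx 0 = [f] := rfl
  have hbx1 : ∀ k, bx (k + 1) = β k := fun k => rfl
  let T : ℕ → List (E × Bool) := fun n => α n ++ rvl (F n) ++ bx n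
  -- classification of darts of `T n`
  have htag : ∀ n, ∀ d ∈ T n, (∃ j, d ∈ α j ∧ n = j) ∨ (∃ j, d ∈ β j ∧ n = j + 1) ∨
      rv d ∈ F n ∨ (n = 0 ∧ d = f) := by
    intro n d hd
    simp only [T, List.mem_append, mem_rvl] at hd
    rcases hd with (hd | hd) | hd
    · exact Or.inl ⟨n, hd, rfl⟩
    · exact Or.inr (Or.inr (Or.inl hd))
    · cases n with
      | zero => rw [hbx0, List.mem_singleton] at hd; exact Or.inr (Or.inr (Or.inr ⟨rfl, hd⟩))
      | succ k => rw [hbx1] at hd; exact Or.inr (Or.inl ⟨k, hd, rfl⟩)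
  have hαL : ∀ j, ∀ d ∈ α j, d ∈ α j ++ β j := fun j d hd => List.mem_append_left _ hd
  have hβL : ∀ j, ∀ d ∈ β j, d ∈ α j ++ β j := fun j d hd => List.mem_append_right _ hd
  have hLL : ∀ i j, ∀ d ∈ α i ++ β i, ∀ d' ∈ α j ++ β j, d.1 = d'.1 → i = j := by
    intro i j d hd d' hd' hdd
    exact hLinj _ _ (hW.disj _ (hLW i) _ (hLW j) d hd d' hd' hdd)
  have hαβ : ∀ j, ∀ d ∈ α j, ∀ d' ∈ β j, d.1 ≠ d'.1 := by
    intro j d hd d' hd' hdd
    have := (hW.tr _ (hLW j)).nodup
    rw [List.map_append, List.nodup_append] at this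
    exact this.2.2 d.1 (List.mem_map_of_mem hd) d'.1 (List.mem_map_of_mem hd') hdd
  have hFu : ∀ n, ∀ d ∈ F n, ∀ L ∈ W, ∀ d' ∈ L, d'.1 ≠ d.1 := fun n d hd => (hFH n d hd).2.2.2
  have hTT : ∀ m n, ∀ d ∈ T m, ∀ d' ∈ T n, d.1 = d'.1 → m = n := by
    intro m n d hd d' hd' hdd
    rcases htag m d hd with ⟨i, hi, rfl⟩ | ⟨i, hi, rfl⟩ | hi | ⟨rfl, rfl⟩
    · rcases htag n d' hd' with ⟨j, hj, rfl⟩ | ⟨j, hj, rfl⟩ | hj | ⟨rfl, rfl⟩
      · exact hLL _ _ d (hαL _ d hi) d' (hαL _ d' hj) hdd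
      · have := hLL _ _ d (hαL _ d hi) d' (hβL _ d' hj) hdd
        subst this
        exact absurd hdd (hαβ _ d hi d' hj)
      · exact absurd hdd (hFu n _ hj _ (hLW _) d (hαL _ d hi))
      · exact absurd hdd (hfU _ (hLW _) d (hαL _ d hi))
    · rcases htag n d' hd' with ⟨j, hj, rfl⟩ | ⟨j, hj, rfl⟩ | hj | ⟨rfl, rfl⟩
      · have := hLL _ _ d (hβL _ d hi) d' (hαL _ d' hj) hdd
        subst this
        exact absurd hdd.symm (hαβ _ d' hj d hi)
      · rw [hLL _ _ d (hβL _ d hi) d' (hβL _ d' hj) hdd]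
      · exact absurd hdd (hFu n _ hj _ (hLW _) d (hβL _ d hi))
      · exact absurd hdd (hfU _ (hLW _) d (hβL _ d hi))
    · rcases htag n d' hd' with ⟨j, hj, rfl⟩ | ⟨j, hj, rfl⟩ | hj | ⟨rfl, rfl⟩
      · exact absurd hdd.symm (hFu m _ hi _ (hLW _) d' (hαL _ d' hj))
      · exact absurd hdd.symm (hFu m _ hi _ (hLW _) d' (hβL _ d' hj))
      · exact hFd m n _ hi _ hj hdd
      · exact absurd hdd (hFf m (rv d) hi)
    · rcases htag n d' hd' with ⟨j, hj, rfl⟩ | ⟨j, hj, rfl⟩ | hj | ⟨rfl, rfl⟩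
      · exact absurd hdd.symm (hfU _ (hLW _) d' (hαL _ d' hj))
      · exact absurd hdd.symm (hfU _ (hLW _) d' (hβL _ d' hj))
      · exact absurd hdd.symm (hFf n (rv d') hj)
      · rfl
  have hTW : ∀ n, ∀ L ∈ W, (∀ k, L ≠ α k ++ β k) → ∀ d ∈ T n, ∀ d' ∈ L, d.1 ≠ d'.1 := by
    intro n L hL hne d hd d' hd' hdd
    rcases htag n d hd with ⟨i, hi, rfl⟩ | ⟨i, hi, rfl⟩ | hi | ⟨rfl, rfl⟩
    · exact hne _ (hW.disj _ (hLW _) _ hL d (hαL _ d hi) d' hd' hdd).symm
    · exact hne _ (hW.disj _ (hLW _) _ hL d (hβL _ d hi) d' hd' hdd).symm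
    · exact hFu n _ hi _ hL d' hd' hdd.symm
    · exact hfU _ hL d' hd' hdd.symm
  -- the last dart of `T n`
  have hTlast : ∀ n, (T n).getLast? = (bx n).getLast? := by
    intro n
    simp only [T]
    rw [List.getLast?_append]
    have : bx n ≠ [] := by
      cases n with
      | zero => rw [hbx0]; simp
      | succ k => rw [hbx1]; exact hβne k
    obtain ⟨b, hb⟩ : ∃ b, (bx n).getLast? = some b :=
      ⟨(bx n).getLast this, List.getLast?_eq_some_getLast this⟩
    rw [hb]
    rfl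
  have hLlast : ∀ k, (α k ++ β k).getLast? = (β k).getLast? := by
    intro k
    rw [List.getLast?_append]
    obtain ⟨b, hb⟩ : ∃ b, (β k).getLast? = some b :=
      ⟨(β k).getLast (hβne k), List.getLast?_eq_some_getLast (hβne k)⟩
    rw [hb]
    rfl
  have hTtr : ∀ n, IsTr G A S X (T n) := by
    intro n
    refine ⟨?_, ?_, ?_, ?_, ?_, ?_⟩
    · simp [T, hαne n]
    · obtain ⟨u, hu, hw⟩ := hα n
      have h2 : ∃ z, Wk G (v n) (bx n) z := by
        cases n with
        | zero => rw [hbx0, hv0]; exact ⟨hd G f, rfl, rfl⟩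
        | succ k => rw [hbx1]; exact hβ k
      obtain ⟨z, hz⟩ := h2
      exact ⟨u, hu, z, (hw.append (hF n).rvl).append hz⟩
    · simp only [T]
      rw [List.map_append, List.map_append, List.nodup_append, List.nodup_append, map_fst_rvl]
      refine ⟨⟨?_, List.nodup_reverse.2 (hFn n), ?_⟩, ?_, ?_⟩
      · have := (hW.tr _ (hLW n)).nodup
        rw [List.map_append, List.nodup_append] at this
        exact this.1
      · intro a ha b hb hab
        subst hab
        rw [List.mem_reverse] at hb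
        obtain ⟨d, hd, hd2⟩ := List.mem_map.1 ha
        obtain ⟨d', hd', hd2'⟩ := List.mem_map.1 hb
        exact hFu n d' hd' _ (hLW n) d (hαL n d hd) (hd2.trans hd2'.symm)
      · cases n with
        | zero => rw [hbx0]; simp
        | succ k =>
          rw [hbx1]
          have := (hW.tr _ (hLW k)).nodup
          rw [List.map_append, List.nodup_append] at this
          exact this.2.1
      · intro a ha b hb hab
        subst hab
        obtain ⟨d', hd', hd2'⟩ := List.mem_map.1 hb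
        rw [List.mem_append, List.mem_reverse] at ha
        cases n with
        | zero =>
          rw [hbx0, List.mem_singleton] at hd'
          subst hd'
          rcases ha with ha | ha
          · obtain ⟨d, hd, hd2⟩ := List.mem_map.1 ha
            exact hfU _ (hLW 0) d (hαL 0 d hd) (hd2.trans hd2'.symm)
          · obtain ⟨d, hd, hd2⟩ := List.mem_map.1 ha
            exact hFf 0 d hd (hd2.trans hd2'.symm)
        | succ k =>
          rw [hbx1] at hd'
          rcases ha with ha | ha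
          · obtain ⟨d, hd, hd2⟩ := List.mem_map.1 ha
            have := hLL _ _ d (hαL _ d hd) d' (hβL _ d' hd') (hd2.trans hd2'.symm)
            omega
          · obtain ⟨d, hd, hd2⟩ := List.mem_map.1 ha
            exact hFu _ d hd _ (hLW k) d' (hβL _ d' hd') (hd2'.trans hd2.symm)
    · intro d hd
      rcases htag n d hd with ⟨i, hi, rfl⟩ | ⟨i, hi, rfl⟩ | hi | ⟨rfl, rfl⟩
      · exact (hW.tr _ (hLW _)).sub _ (hαL _ d hi)
      · exact (hW.tr _ (hLW _)).sub _ (hβL _ d hi)
      · exact (hFH n _ hi).1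
      · exact hfX.1
    · intro d hd
      rcases htag n d hd with ⟨i, hi, rfl⟩ | ⟨i, hi, rfl⟩ | hi | ⟨rfl, rfl⟩
      · exact (hW.tr _ (hLW _)).hdS _ (hαL _ d hi)
      · exact (hW.tr _ (hLW _)).hdS _ (hβL _ d hi)
      · have := (hFH n _ hi).2.1.2
        rwa [tl_rv] at this
      · exact fun h => hfX.2.2 (hSX h)
    · intro d hd
      rcases htag n d hd with ⟨i, hi, rfl⟩ | ⟨i, hi, rfl⟩ | hi | ⟨rfl, rfl⟩
      · exact (hW.tr _ (hLW _)).tlX _ (hαL _ d hi)
      · exact (hW.tr _ (hLW _)).tlX _ (hβL _ d hi)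
      · have := (hFH n _ hi).2.2.1.1
        rwa [hd_rv] at this
      · exact hfX.2.1
  refine ⟨{L | (∃ n, L = T n) ∨ (L ∈ W ∧ ∀ k, L ≠ α k ++ β k)}, ⟨⟨?_, ?_⟩, ?_, ?_⟩⟩
  · rintro L (⟨n, rfl⟩ | ⟨hL, _⟩)
    · exact hTtr n
    · exact hW.tr _ hL
  · rintro L (⟨m, rfl⟩ | ⟨hL, hLn⟩) L' (⟨n, rfl⟩ | ⟨hL', hLn'⟩) d hd d' hd' hdd
    · rw [hTT m n d hd d' hd' hdd]
    · exact absurd hdd (hTW m L' hL' hLn' d hd d' hd')
    · exact absurd hdd.symm (hTW n L hL hLn d' hd' d hd)
    · exact hW.disj _ hL _ hL' d hd d' hd' hdd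
  · rintro L (⟨n, rfl⟩ | ⟨hL, hLn⟩)
    · cases n with
      | zero =>
        refine ⟨f, ⟨hfX, fun h => h.2 rfl⟩, ?_⟩
        rw [hTlast, hbx0]; rfl
      | succ k =>
        obtain ⟨b, hb, hb2⟩ := hW.last _ (hLW k)
        refine ⟨b, ⟨hb.1, fun h => hb.2 h.1⟩, ?_⟩
        rw [hTlast, hbx1, ← hLlast, hb2]
    · obtain ⟨b, hb, hb2⟩ := hW.last _ hL
      exact ⟨b, ⟨hb.1, fun h => hb.2 h.1⟩, hb2⟩
  · rintro b ⟨hb1, hb2⟩
    by_cases hbf : b = f
    · subst hbf
      refine ⟨T 0, Or.inl ⟨0, rfl⟩, ?_⟩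
      rw [hTlast, hbx0]; rfl
    · have hbK : b ∉ K := fun h => hb2 ⟨h, hbf⟩
      obtain ⟨L, hL, hLl⟩ := hW.cov b ⟨hb1, hbK⟩
      by_cases hk : ∃ k, L = α k ++ β k
      · obtain ⟨k, rfl⟩ := hk
        refine ⟨T (k + 1), Or.inl ⟨_, rfl⟩, ?_⟩
        rw [hTlast, hbx1, ← hLlast, hLl]
      · push Not at hk
        exact ⟨L, Or.inr ⟨hL, hk⟩, hLl⟩

end Pool.Agent.LC
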