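import Pool.Agent.Lib_helper64.Basic

set_option autoImplicit false
set_option linter.unusedVariables false

namespace Pool.Agent.LC

universe uV uE uI

variable {V : Type uV} {E : Type uE} {ι : Type uI}

/-- edge-disjoint lists -/
def EDisj (L L' : List (E × Bool)) : Prop := ∀ d ∈ L, ∀ d' ∈ L', d.1 ≠ d'.1

lemma EDisj.symm {L L' : List (E × Bool)} (h : EDisj L L') : EDisj L' L :=
  fun d hd d' hd' he => h d' hd' d hd he.symm

lemma nodup_fst_append {L L' : List (E × Bool)} :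
    ((L ++ L').map Prod.fst).Nodup ↔
      (L.map Prod.fst).Nodup ∧ (L'.map Prod.fst).Nodup ∧ EDisj L L' := by
  rw [List.map_append, List.nodup_append]
  simp only [EDisj, List.mem_map, ne_eq]
  constructor
  · rintro ⟨h1, h2, h3⟩
    exact ⟨h1, h2, fun d hd d' hd' => h3 _ ⟨d, hd, rfl⟩ _ ⟨d', hd', rfl⟩⟩
  · rintro ⟨h1, h2, h3⟩
    refine ⟨h1, h2, ?_⟩
    rintro _ ⟨d, hd, rfl⟩ _ ⟨d', hd', rfl⟩
    exact h3 d hd d' hd'

lemma edisj_cons_left {d : E × Bool} {L L' : List (E × Bool)} :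
    EDisj (d :: L) L' ↔ (∀ d' ∈ L', d.1 ≠ d'.1) ∧ EDisj L L' := by
  simp [EDisj]

lemma edisj_cons_right {d : E × Bool} {L L' : List (E × Bool)} :
    EDisj L (d :: L') ↔ (∀ d' ∈ L, d'.1 ≠ d.1) ∧ EDisj L L' := by
  simp only [EDisj, List.mem_cons, ne_eq, forall_eq_or_imp]
  constructor
  · intro h
    exact ⟨fun d' h' => (h d' h').1, fun d' h' => (h d' h').2⟩
  · rintro ⟨h1, h2⟩ d' h'
    exact ⟨h1 d' h', h2 d' h'⟩

lemma edisj_append_left {L L' M : List (E × Bool)} :
    EDisj (L ++ L') M ↔ EDisj L M ∧ EDisj L' M := by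
  simp only [EDisj, List.mem_append]
  constructor
  · intro h
    exact ⟨fun d hd => h d (Or.inl hd), fun d hd => h d (Or.inr hd)⟩
  · rintro ⟨h1, h2⟩ d (hd | hd)
    · exact h1 d hd
    · exact h2 d hd

lemma edisj_append_right {L L' M : List (E × Bool)} :
    EDisj M (L ++ L') ↔ EDisj M L ∧ EDisj M L' := by
  constructor
  · intro h
    exact ⟨fun d hd d' hd' => h d hd d' (List.mem_append_left _ hd'),
      fun d hd d' hd' => h d hd d' (List.mem_append_right _ hd')⟩
  · rintro ⟨h1, h2⟩ d hd d' hd'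
    rcases List.mem_append.1 hd' with h | h
    · exact h1 d hd d' h
    · exact h2 d hd d' h

lemma edisj_rvl_left {L M : List (E × Bool)} : EDisj (rvl L) M ↔ EDisj L M := by
  constructor
  · intro h d hd d' hd'
    exact h (rv d) (by simpa using hd) d' hd'
  · intro h d hd d' hd'
    exact h (rv d) (by simpa using hd) d' hd'

lemma edisj_rvl_right {L M : List (E × Bool)} : EDisj M (rvl L) ↔ EDisj M L :=
  ⟨fun h => (edisj_rvl_left.1 h.symm).symm, fun h => (edisj_rvl_left.2 h.symm).symm⟩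

variable {G : E → Bool → V} {A : Set E} {S X P : Set V} {K : Set (E × Bool)}
  {W : Set (List (E × Bool))}

lemma IsTr.mono_X {L : List (E × Bool)} (h : IsTr G A S X L) (hX : ∀ d ∈ L, tl G d ∈ P) :
    IsTr G A S P L :=
  ⟨h.ne, h.wk, h.nodup, h.sub, h.hdS, hX⟩

lemma IsTr.left {L L' : List (E × Bool)} (h : IsTr G A S X (L ++ L')) (hne : L ≠ []) :
    IsTr G A S X L := by
  obtain ⟨u, hu, v, hw⟩ := h.wk
  obtain ⟨w, h1, h2⟩ := (wk_append G L L').1 hw
  exact ⟨hne, ⟨u, hu, w, h1⟩, (nodup_fst_append.1 h.nodup).1,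
    fun d hd => h.sub d (List.mem_append_left _ hd),
    fun d hd => h.hdS d (List.mem_append_left _ hd),
    fun d hd => h.tlX d (List.mem_append_left _ hd)⟩

/-- replace the part before by another trail ending at the same vertex -/
lemma IsTr.splice {L M : List (E × Bool)} {u v w : V} (hL : IsTr G A S X L) (hu : u ∈ S)
    (hLw : Wk G u L v) (hM : Wk G v M w) (hnd : (M.map Prod.fst).Nodup) (hdj : EDisj L M)
    (hsub : ∀ d ∈ M, d.1 ∈ A) (hS : ∀ d ∈ M, hd G d ∉ S) (hX : ∀ d ∈ M, tl G d ∈ X) :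
    IsTr G A S X (L ++ M) := by
  refine ⟨by simp [hL.ne], ⟨u, hu, w, hLw.append hM⟩, nodup_fst_append.2 ⟨hL.nodup, hnd, hdj⟩,
    ?_, ?_, ?_⟩
  · intro d h
    rcases List.mem_append.1 h with h | h
    · exact hL.sub d h
    · exact hsub d h
  · intro d h
    rcases List.mem_append.1 h with h | h
    · exact hL.hdS d h
    · exact hS d h
  · intro d h
    rcases List.mem_append.1 h with h | h
    · exact hL.tlX d h
    · exact hX d h

/-- in a trail, a dart has its tail in `S` iff it is the first dart -/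
lemma IsTr.first_iff {L α β : List (E × Bool)} {d : E × Bool} (h : IsTr G A S X L)
    (hL : L = α ++ d :: β) : tl G d ∈ S ↔ α = [] := by
  subst hL
  obtain ⟨u, hu, v, hw⟩ := h.wk
  have h1 := (wk_split G α β d).1 hw
  constructor
  · intro hd
    rcases List.eq_nil_or_concat α with h2 | ⟨α', a, h2⟩
    · exact h2
    · exfalso
      subst h2
      rw [List.concat_eq_append] at h1
      have h3 := ((wk_concat G α' a).1 h1.1).2
      apply h.hdS a (by simp)
      rw [h3]; exact hd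
  · rintro rfl
    have : u = tl G d := h1.1
    rw [← this]; exact hu

lemma Lk.unique (h : Lk G A S X K W) {L L' : List (E × Bool)} (hL : L ∈ W) (hL' : L' ∈ W)
    {d : E × Bool} (hd : d ∈ L) (hd' : d ∈ L') : L = L' :=
  h.disj L hL L' hL' d hd d hd' rfl

lemma mem_of_getLast? {L : List (E × Bool)} {b : E × Bool} (h : L.getLast? = some b) : b ∈ L := by
  obtain ⟨ys, rfl⟩ := List.getLast?_eq_some_iff.1 h
  simp

lemma mem_of_head? {L : List (E × Bool)} {b : E × Bool} (h : L.head? = some b) : b ∈ L := by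
  obtain ⟨ys, rfl⟩ := List.head?_eq_some_iff.1 h
  simp

/-- within a trail all of whose tails are in `X`, only the last dart can leave `X` -/
lemma IsTr.leave_last {L α β : List (E × Bool)} {d : E × Bool} (h : IsTr G A S X L)
    (hL : L = α ++ d :: β) (hd : hd G d ∉ X) : β = [] := by
  subst hL
  obtain ⟨u, hu, v, hw⟩ := h.wk
  have h1 := (wk_split G α β d).1 hw
  cases β with
  | nil => rfl
  | cons b β =>
    exfalso
    apply hd
    have : tl G b = Pool.Agent.LC.hd G d := h1.2.1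
    rw [← this]
    exact h.tlX b (by simp)

/-- a walk ending in `P` with some tail outside `P` enters `P` -/
lemma exists_enter {u v : V} {α : List (E × Bool)} (hw : Wk G u α v) (hv : v ∈ P)
    (hex : ∃ a ∈ α, tl G a ∉ P) : ∃ a ∈ α, tl G a ∉ P ∧ hd G a ∈ P := by
  induction α generalizing u with
  | nil => obtain ⟨a, ha, _⟩ := hex; simp at ha
  | cons a α ih =>
    by_cases h : ∃ a ∈ α, tl G a ∉ P
    · obtain ⟨b, hb, h1, h2⟩ := ih hw.2 h
      exact ⟨b, List.mem_cons_of_mem _ hb, h1, h2⟩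
    · push Not at h
      refine ⟨a, by simp, ?_, ?_⟩
      · obtain ⟨b, hb, h1⟩ := hex
        rcases List.mem_cons.1 hb with rfl | hb
        · exact h1
        · exact absurd (h b hb) h1
      · cases α with
        | nil => have : hd G a = v := hw.2
                 rw [this]; exact hv
        | cons b α =>
          have : tl G b = hd G a := hw.2.1
          rw [← this]
          exact h b (by simp)

lemma rv_notMem_of_nodup {L : List (E × Bool)} (h : (L.map Prod.fst).Nodup) {a : E × Bool}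
    (ha : a ∈ L) : rv a ∉ L := by
  intro hr
  have := List.inj_on_of_nodup_map h ha hr (rv_fst a).symm
  exact rv_ne a this.symm

/-- the trails of `W` never enter `P` when all darts leaving `P` inside `X` are used -/
lemma Lk.key (h : Lk G A S X K W)
    (hb : ∀ d, d.1 ∈ A → tl G d ∈ P → hd G d ∈ X → hd G d ∉ P → ∃ L ∈ W, d ∈ L)
    {L : List (E × Bool)} (hL : L ∈ W) {α β : List (E × Bool)} {d : E × Bool}
    (hLe : L = α ++ d :: β) (hd : tl G d ∈ P) : ∀ a ∈ α, tl G a ∈ P := by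
  by_contra hcon
  push Not at hcon
  have htr := h.tr _ hL
  obtain ⟨u, hu, v, hw⟩ := htr.wk
  rw [hLe] at hw
  have h1 := ((wk_split G α β d).1 hw).1
  obtain ⟨a, ha, h2, h3⟩ := exists_enter h1 hd hcon
  have haL : a ∈ L := by rw [hLe]; exact List.mem_append_left _ ha
  obtain ⟨L', hL', h4⟩ := hb (rv a) (by simpa using htr.sub a haL) (by simpa using h3)
    (by simpa using htr.tlX a haL) (by simpa using h2)
  have : L' = L := h.disj L' hL' L hL (rv a) h4 a haL (rv_fst a)
  subst this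
  exact rv_notMem_of_nodup htr.nodup haL h4

/-- restriction of a linkage to a smaller set `P` all of whose leaving darts inside `X` are used -/
lemma Lk.restrict (h : Lk G A S X K W) (hSP : S ⊆ P) (hPX : P ⊆ X)
    (hb : ∀ d, d.1 ∈ A → tl G d ∈ P → hd G d ∈ X → hd G d ∉ P → ∃ L ∈ W, d ∈ L) :
    ∃ W', Lk G A S P K W' ∧ ∀ L' ∈ W', ∃ L ∈ W, ∃ β, L = L' ++ β := by
  classical
  refine ⟨{L' | ∃ L ∈ W, ∃ b ∈ Lv G A P \ K, ∃ γ, L = L' ++ γ ∧ L'.getLast? = some b},
    ⟨⟨?_, ?_⟩, ?_, ?_⟩, ?_⟩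
  · rintro L' ⟨L, hL, b, hbP, γ, hLe, hlast⟩
    obtain ⟨α, rfl⟩ := List.getLast?_eq_some_iff.1 hlast
    have htr := h.tr _ hL
    have hL' : L = α ++ b :: γ := by rw [hLe]; simp
    have h1 := h.key hb hL hL' hbP.1.2.1
    have h2 : IsTr G A S X (α ++ [b]) := by
      rw [hLe] at htr
      exact htr.left (by simp)
    refine h2.mono_X ?_
    intro d hd
    rcases List.mem_append.1 hd with hd | hd
    · exact h1 d hd
    · rw [List.mem_singleton.1 hd]; exact hbP.1.2.1
  · rintro L1' ⟨L1, hL1, b1, hbP1, γ1, hLe1, hlast1⟩ L2' ⟨L2, hL2, b2, hbP2, γ2, hLe2, hlast2⟩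
      d hdm d' hdm' he
    have h12 : L1 = L2 := h.disj L1 hL1 L2 hL2 d (by rw [hLe1]; exact List.mem_append_left _ hdm) d'
      (by rw [hLe2]; exact List.mem_append_left _ hdm') he
    subst h12
    obtain ⟨α1, rfl⟩ := List.getLast?_eq_some_iff.1 hlast1
    obtain ⟨α2, rfl⟩ := List.getLast?_eq_some_iff.1 hlast2
    -- symmetric claim
    have claim : ∀ (α1 α2 γ1 γ2 : List (E × Bool)) (b1 b2 : E × Bool),
        L1 = (α1 ++ [b1]) ++ γ1 → L1 = (α2 ++ [b2]) ++ γ2 → hd G b1 ∉ P → tl G b2 ∈ P →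
        ¬ (α1 ++ [b1]).length < (α2 ++ [b2]).length := by
      intro α1 α2 γ1 γ2 b1 b2 e1 e2 hh1 ht2 hlt
      -- then α1 ++ [b1] is a start of α2
      have e3 : (α1 ++ [b1]) ++ γ1 = α2 ++ (b2 :: γ2) := by rw [← e1, e2]; simp
      have hle : (α1 ++ [b1]).length ≤ α2.length := by simp at hlt ⊢; omega
      obtain ⟨δ, hδ⟩ : ∃ δ, α2 = (α1 ++ [b1]) ++ δ := by
        have := List.append_eq_append_iff.1 e3
        rcases this with ⟨δ, h1, h2⟩ | ⟨δ, h1, h2⟩
        · exact ⟨δ, h1⟩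
        · have hl := congrArg List.length h1
          simp at hl hle
          have : δ = [] := by
            apply List.eq_nil_of_length_eq_zero
            omega
          subst this
          exact ⟨[], by simpa using h1.symm⟩
      obtain ⟨u, hu, v, hw⟩ := (h.tr _ hL1).wk
      have hk := h.key hb hL1 (show L1 = α2 ++ b2 :: γ2 by rw [e2]; simp) ht2
      have hwk : Wk G u (α1 ++ b1 :: (δ ++ b2 :: γ2)) v := by
        have : L1 = α1 ++ b1 :: (δ ++ b2 :: γ2) := by rw [e2, hδ]; simp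
        rwa [this] at hw
      have h5 := ((wk_split G _ _ _).1 hwk).2
      cases δ with
      | nil =>
        have : tl G b2 = hd G b1 := h5.1
        rw [this] at ht2
        exact hh1 ht2
      | cons c δ =>
        have : tl G c = hd G b1 := h5.1
        apply hh1
        rw [← this]
        exact hk c (by rw [hδ]; simp)
    have c1 := claim α1 α2 γ1 γ2 b1 b2 hLe1 hLe2 hbP1.1.2.2 hbP2.1.2.1
    have c2 := claim α2 α1 γ2 γ1 b2 b1 hLe2 hLe1 hbP2.1.2.2 hbP1.1.2.1
    have hlen : (α1 ++ [b1]).length = (α2 ++ [b2]).length := by omega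
    exact (List.append_inj (hLe1.symm.trans hLe2) hlen).1
  · rintro L' ⟨L, hL, b, hbP, γ, hLe, hlast⟩
    exact ⟨b, hbP, hlast⟩
  · intro b hbP
    by_cases hbX : hd G b ∈ X
    · obtain ⟨L, hL, hbL⟩ := hb b hbP.1.1 hbP.1.2.1 hbX hbP.1.2.2
      obtain ⟨α, β, hLe⟩ := List.append_of_mem hbL
      refine ⟨α ++ [b], ⟨L, hL, b, hbP, β, by rw [hLe]; simp, by simp⟩, by simp⟩
    · obtain ⟨L, hL, hlast⟩ := h.cov b ⟨⟨hbP.1.1, hPX hbP.1.2.1, hbX⟩, hbP.2⟩
      exact ⟨L, ⟨L, hL, b, hbP, [], by simp, hlast⟩, hlast⟩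
  · rintro L' ⟨L, hL, b, hbP, γ, hLe, hlast⟩
    exact ⟨L, hL, γ, hLe⟩

/-- residual reachability in exactly `n` steps -/
inductive Rch (G : E → Bool → V) (A : Set E) (S X : Set V) (W : Set (List (E × Bool))) :
    ℕ → V → Prop
  | base (d : E × Bool) : d.1 ∈ A → tl G d ∈ S → hd G d ∈ X → hd G d ∉ S →
      (∀ L ∈ W, ∀ d' ∈ L, d'.1 ≠ d.1) → Rch G A S X W 1 (hd G d)
  | step (n : ℕ) (d : E × Bool) : Rch G A S X W n (tl G d) → d.1 ∈ A → hd G d ∈ X →
      hd G d ∉ S → (∀ L ∈ W, d ∉ L) → Rch G A S X W (n + 1) (hd G d)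

/-- the reachable set -/
def RY (G : E → Bool → V) (A : Set E) (S X : Set V) (W : Set (List (E × Bool))) : Set V :=
  {y | ∃ n, Rch G A S X W n y}

lemma RY_sub : RY G A S X W ⊆ X \ S := by
  rintro y ⟨n, h⟩
  cases h with
  | base d h1 h2 h3 h4 h5 => exact ⟨h3, h4⟩
  | step n d h1 h2 h3 h4 h5 => exact ⟨h3, h4⟩

lemma RY_base {d : E × Bool} (h1 : d.1 ∈ A) (h2 : tl G d ∈ S) (h3 : hd G d ∈ X)
    (h4 : hd G d ∉ S) (h5 : ∀ L ∈ W, ∀ d' ∈ L, d'.1 ≠ d.1) : hd G d ∈ RY G A S X W :=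
  ⟨1, Rch.base d h1 h2 h3 h4 h5⟩

lemma RY_step {d : E × Bool} (h0 : tl G d ∈ RY G A S X W) (h1 : d.1 ∈ A)
    (h3 : hd G d ∈ X) (h4 : hd G d ∉ S) (h5 : ∀ L ∈ W, d ∉ L) : hd G d ∈ RY G A S X W := by
  obtain ⟨n, hn⟩ := h0
  exact ⟨n + 1, Rch.step n d hn h1 h3 h4 h5⟩

lemma RY_used (hW : ∀ L ∈ W, IsTr G A S X L) {d : E × Bool} (h1 : d.1 ∈ A)
    (h2 : tl G d ∈ S ∪ RY G A S X W) (h3 : hd G d ∈ X) (h4 : hd G d ∉ S ∪ RY G A S X W) :
    ∃ L ∈ W, d ∈ L := by
  by_contra hcon
  push Not at hcon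
  have h4S : hd G d ∉ S := fun h => h4 (Or.inl h)
  rcases h2 with h2 | h2
  · apply h4
    right
    refine RY_base h1 h2 h3 h4S ?_
    intro L hL d' hd' he
    rcases eq_or_eq_rv he with h | h
    · exact hcon L hL (h ▸ hd')
    · apply (hW L hL).hdS d' hd'
      have : d' = rv d := by rw [h]; simp
      rw [this]; simpa using h2
  · exact h4 (Or.inr (RY_step h2 h1 h3 h4S hcon))

/-- state of the augmentation -/
structure St (G : E → Bool → V) (A : Set E) (S P : Set V) (K : Set (E × Bool))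
    (W' : Set (List (E × Bool))) (L : List (E × Bool)) (y : V) : Prop where
  lk : Lk G A S P K W'
  tr : IsTr G A S P L
  wk : ∃ u ∈ S, Wk G u L y
  dj : ∀ L' ∈ W', EDisj L L'

lemma St.step_unused {W' : Set (List (E × Bool))} {L : List (E × Bool)} {d : E × Bool}
    (h : St G A S P K W' L (tl G d)) (hA : d.1 ∈ A) (hP : tl G d ∈ P) (hS : hd G d ∉ S)
    (h1 : ∀ L' ∈ W', ∀ d' ∈ L', d'.1 ≠ d.1) (h2 : ∀ d' ∈ L, d'.1 ≠ d.1) :
    St G A S P K W' (L ++ [d]) (hd G d) := by
  obtain ⟨u, hu, hw⟩ := h.wk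
  have hwd : Wk G (tl G d) [d] (hd G d) := ⟨rfl, rfl⟩
  refine ⟨h.lk, h.tr.splice hu hw hwd (by simp) ?_ ?_ ?_ ?_, ⟨u, hu, hw.append hwd⟩, ?_⟩
  · intro a ha b hb
    rw [List.mem_singleton.1 hb]
    exact h2 a ha
  · intro b hb; rw [List.mem_singleton.1 hb]; exact hA
  · intro b hb; rw [List.mem_singleton.1 hb]; exact hS
  · intro b hb; rw [List.mem_singleton.1 hb]; exact hP
  · intro L' hL'
    rw [edisj_append_left]
    refine ⟨h.dj L' hL', ?_⟩
    intro b hb c hc
    rw [List.mem_singleton.1 hb]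
    exact (h1 L' hL' c hc).symm

lemma St.step_extra {W' : Set (List (E × Bool))} {L α β : List (E × Bool)} {d : E × Bool}
    (h : St G A S P K W' L (tl G d)) (hS : hd G d ∉ S) (hL : L = α ++ rv d :: β) :
    St G A S P K W' α (hd G d) := by
  have hα : α ≠ [] := by
    intro h0
    have := (h.tr.first_iff hL).2 h0
    rw [tl_rv] at this
    exact hS this
  obtain ⟨u, hu, hw⟩ := h.wk
  rw [hL] at hw
  have h1 := ((wk_split G _ _ _).1 hw).1
  rw [tl_rv] at h1
  refine ⟨h.lk, ?_, ⟨u, hu, h1⟩, ?_⟩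
  · have := h.tr
    rw [hL] at this
    exact this.left hα
  · intro L' hL' a ha
    exact h.dj L' hL' a (by rw [hL]; exact List.mem_append_left _ ha)

lemma St.step_used {W' : Set (List (E × Bool))} {L L1 α β : List (E × Bool)} {d : E × Bool}
    (h : St G A S P K W' L (tl G d)) (hP : tl G d ∈ P) (hS : hd G d ∉ S) (hL1 : L1 ∈ W')
    (hL : L1 = α ++ rv d :: β) :
    St G A S P K ((W' \ {L1}) ∪ {L ++ β}) α (hd G d) := by
  have htr1 := h.lk.tr L1 hL1
  have hα : α ≠ [] := by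
    intro h0
    have := (htr1.first_iff hL).2 h0
    rw [tl_rv] at this
    exact hS this
  obtain ⟨u, hu, hw⟩ := h.wk
  obtain ⟨u1, hu1, v1, hw1⟩ := htr1.wk
  have hw1' := hw1
  rw [hL] at hw1'
  have h1 := (wk_split G _ _ _).1 hw1'
  rw [tl_rv, hd_rv] at h1
  obtain ⟨b, hbP, hlast⟩ := h.lk.last L1 hL1
  have hβ : β ≠ [] := by
    rintro rfl
    rw [hL] at hlast
    simp only [List.getLast?_append, List.getLast?_singleton, Option.some_or,
      Option.some.injEq] at hlast
    apply hbP.1.2.2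
    rw [← hlast]; simpa using hP
  have hlastβ : β.getLast? = some b := by
    rw [hL] at hlast
    rcases List.eq_nil_or_concat β with h0 | ⟨β', c, rfl⟩
    · exact absurd h0 hβ
    · rw [List.concat_eq_append, ← List.cons_append, ← List.append_assoc,
        List.getLast?_concat] at hlast
      rw [List.concat_eq_append, List.getLast?_concat]
      exact hlast
  have hnd : (L1.map Prod.fst).Nodup := htr1.nodup
  rw [hL] at hnd
  have hnd' := nodup_fst_append.1 hnd
  have hndβ : (β.map Prod.fst).Nodup := by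
    have := hnd'.2.1
    simp only [List.map_cons, List.nodup_cons] at this
    exact this.2
  have hαβ : EDisj α β := (edisj_cons_right.1 hnd'.2.2).2
  have hLα : EDisj L α := fun a ha c hc => h.dj L1 hL1 a ha c (by rw [hL]; exact List.mem_append_left _ hc)
  have hLβ : EDisj L β := fun a ha c hc => h.dj L1 hL1 a ha c (by rw [hL]; simp [hc])
  have hnew : IsTr G A S P (L ++ β) := by
    refine h.tr.splice hu hw h1.2 hndβ hLβ ?_ ?_ ?_
    · intro c hc; exact htr1.sub c (by rw [hL]; simp [hc])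
    · intro c hc; exact htr1.hdS c (by rw [hL]; simp [hc])
    · intro c hc; exact htr1.tlX c (by rw [hL]; simp [hc])
  have hdjn : ∀ L' ∈ W', L' ≠ L1 → EDisj L' (L ++ β) := by
    intro L' hL' hne
    rw [edisj_append_right]
    refine ⟨(h.dj L' hL').symm, ?_⟩
    intro a ha c hc he
    exact hne (h.lk.disj L' hL' L1 hL1 a ha c (by rw [hL]; simp [hc]) he)
  refine ⟨⟨⟨?_, ?_⟩, ?_, ?_⟩, ?_, ⟨u1, hu1, h1.1⟩, ?_⟩
  · rintro L' (⟨hL', hne⟩ | hL')
    · exact h.lk.tr L' hL'
    · rw [Set.mem_singleton_iff.1 hL']; exact hnew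
  · rintro L' (⟨hL', hne⟩ | hL') L'' (⟨hL'', hne'⟩ | hL'') a ha c hc he
    · exact h.lk.disj L' hL' L'' hL'' a ha c hc he
    · rw [Set.mem_singleton_iff.1 hL''] at hc
      exact absurd he (hdjn L' hL' hne a ha c hc)
    · rw [Set.mem_singleton_iff.1 hL'] at ha
      exact absurd he.symm (hdjn L'' hL'' hne' c hc a ha)
    · rw [Set.mem_singleton_iff.1 hL', Set.mem_singleton_iff.1 hL'']
  · rintro L' (⟨hL', hne⟩ | hL')
    · exact h.lk.last L' hL'
    · refine ⟨b, hbP, ?_⟩
      rw [Set.mem_singleton_iff.1 hL', List.getLast?_append, hlastβ]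
      rfl
  · intro b' hb'
    obtain ⟨L', hL', hl⟩ := h.lk.cov b' hb'
    by_cases hne : L' = L1
    · subst hne
      refine ⟨L ++ β, Or.inr rfl, ?_⟩
      rw [List.getLast?_append, hlastβ]
      rw [hlast] at hl
      rw [← hl]; rfl
    · exact ⟨L', Or.inl ⟨hL', hne⟩, hl⟩
  · rw [hL] at htr1
    exact htr1.left hα
  · rintro L' (⟨hL', hne⟩ | hL')
    · intro a ha c hc he
      exact hne (h.lk.disj L' hL' L1 hL1 c hc a (by rw [hL]; exact List.mem_append_left _ ha) he.symm)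
    · rw [Set.mem_singleton_iff.1 hL', edisj_append_right]
      exact ⟨hLα.symm, hαβ⟩

/-- **Augmentation lemma.** -/
theorem aug_core {W' : Set (List (E × Bool))} (hSRP : S ∪ RY G A S X W ⊆ P)
    (hW' : Lk G A S P K W') (hsub : ∀ L' ∈ W', ∃ L ∈ W, ∃ β, L = L' ++ β)
    (n : ℕ) (y : V) (hn : Rch G A S X W n y) (hmin : ∀ m < n, ¬ Rch G A S X W m y) :
    ∃ W'' L, St G A S P K W'' L y ∧
      ∀ d, (d ∈ L ∨ ∃ L' ∈ W'', d ∈ L') →
        (∃ L' ∈ W, d ∈ L') ∨ (∃ m ≤ n, Rch G A S X W m (hd G d)) := by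
  induction n generalizing y with
  | zero => cases hn
  | succ n ih =>
    cases hn with
    | base d h1 h2 h3 h4 h5 =>
      refine ⟨W', [d], ⟨hW', ⟨by simp, ⟨tl G d, h2, hd G d, rfl, rfl⟩, by simp, ?_, ?_, ?_⟩,
        ⟨tl G d, h2, rfl, rfl⟩, ?_⟩, ?_⟩
      · intro b hb; rw [List.mem_singleton.1 hb]; exact h1
      · intro b hb; rw [List.mem_singleton.1 hb]; exact h4
      · intro b hb; rw [List.mem_singleton.1 hb]; exact hSRP (Or.inl h2)
      · intro L' hL' a ha c hc he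
        rw [List.mem_singleton.1 ha] at he
        obtain ⟨L, hL, β, hβ⟩ := hsub L' hL'
        exact h5 L hL c (by rw [hβ]; exact List.mem_append_left _ hc) he.symm
      · rintro d' (hd' | ⟨L', hL', hd'⟩)
        · right
          rw [List.mem_singleton.1 hd']
          exact ⟨1, by omega, Rch.base d h1 h2 h3 h4 h5⟩
        · left
          obtain ⟨L, hL, β, hβ⟩ := hsub L' hL'
          exact ⟨L, hL, by rw [hβ]; exact List.mem_append_left _ hd'⟩
    | step _ d h0 h1 h3 h4 h5 =>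
      have hmin' : ∀ m < n, ¬ Rch G A S X W m (tl G d) := by
        intro m hm hr
        exact hmin (m + 1) (by omega) (Rch.step m d hr h1 h3 h4 h5)
      obtain ⟨W1, L1, hst, hinv⟩ := ih (tl G d) h0 hmin'
      have hP : tl G d ∈ P := hSRP (Or.inr ⟨n, h0⟩)
      have hRn : Rch G A S X W (n + 1) (hd G d) := Rch.step n d h0 h1 h3 h4 h5
      -- d is not used in the current state
      have hnot : ¬ (d ∈ L1 ∨ ∃ L' ∈ W1, d ∈ L') := by
        intro hh
        rcases hinv d hh with ⟨L', hL', hd'⟩ | ⟨m, hm, hr⟩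
        · exact h5 L' hL' hd'
        · exact hmin m (by omega) hr
      push Not at hnot
      by_cases hL1 : rv d ∈ L1
      · obtain ⟨α, β, hL⟩ := List.append_of_mem hL1
        refine ⟨W1, α, hst.step_extra h4 hL, ?_⟩
        rintro d' (hd' | ⟨L', hL', hd'⟩)
        · rcases hinv d' (Or.inl (by rw [hL]; exact List.mem_append_left _ hd')) with h | ⟨m, hm, h⟩
          · exact Or.inl h
          · exact Or.inr ⟨m, by omega, h⟩
        · rcases hinv d' (Or.inr ⟨L', hL', hd'⟩) with h | ⟨m, hm, h⟩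
          · exact Or.inl h
          · exact Or.inr ⟨m, by omega, h⟩
      · by_cases hW1 : ∃ L' ∈ W1, rv d ∈ L'
        · obtain ⟨L2, hL2, hmem⟩ := hW1
          obtain ⟨α, β, hL⟩ := List.append_of_mem hmem
          refine ⟨(W1 \ {L2}) ∪ {L1 ++ β}, α, hst.step_used hP h4 hL2 hL, ?_⟩
          rintro d' hd'
          have : d' ∈ L1 ∨ ∃ L' ∈ W1, d' ∈ L' := by
            rcases hd' with hd' | ⟨L', hL' | hL', hd'⟩
            · exact Or.inr ⟨L2, hL2, by rw [hL]; exact List.mem_append_left _ hd'⟩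
            · exact Or.inr ⟨L', hL'.1, hd'⟩
            · rw [Set.mem_singleton_iff.1 hL'] at hd'
              rcases List.mem_append.1 hd' with h | h
              · exact Or.inl h
              · exact Or.inr ⟨L2, hL2, by rw [hL]; simp [h]⟩
          rcases hinv d' this with h | ⟨m, hm, h⟩
          · exact Or.inl h
          · exact Or.inr ⟨m, by omega, h⟩
        · push Not at hW1
          have hu1 : ∀ L' ∈ W1, ∀ d' ∈ L', d'.1 ≠ d.1 := by
            intro L' hL' d' hd' he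
            rcases eq_or_eq_rv he.symm with h | h
            · exact hnot.2 L' hL' (h ▸ hd')
            · exact hW1 L' hL' (h ▸ hd')
          have hu2 : ∀ d' ∈ L1, d'.1 ≠ d.1 := by
            intro d' hd' he
            rcases eq_or_eq_rv he.symm with h | h
            · exact hnot.1 (h ▸ hd')
            · exact hL1 (h ▸ hd')
          refine ⟨W1, L1 ++ [d], hst.step_unused h1 hP h4 hu1 hu2, ?_⟩
          rintro d' (hd' | ⟨L', hL', hd'⟩)
          · rcases List.mem_append.1 hd' with hd' | hd'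
            · rcases hinv d' (Or.inl hd') with h | ⟨m, hm, h⟩
              · exact Or.inl h
              · exact Or.inr ⟨m, by omega, h⟩
            · rw [List.mem_singleton.1 hd']
              exact Or.inr ⟨n + 1, le_rfl, hRn⟩
          · rcases hinv d' (Or.inr ⟨L', hL', hd'⟩) with h | ⟨m, hm, h⟩
            · exact Or.inl h
            · exact Or.inr ⟨m, by omega, h⟩

lemma SRY_sub (hSX : S ⊆ X) : S ∪ RY G A S X W ⊆ X := by
  rintro v (hv | hv)
  · exact hSX hv
  · exact (RY_sub hv).1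

/-- **Augmentation theorem.** -/
theorem aug (hSX : S ⊆ X) (hW : Lk G A S X K W) :
    ∃ W', Lk G A S (S ∪ RY G A S X W) K W' ∧ (∀ L' ∈ W', ∃ L ∈ W, ∃ β, L = L' ++ β) ∧
      ∀ y ∈ RY G A S X W, ∃ W'' L, St G A S (S ∪ RY G A S X W) K W'' L y := by
  classical
  have hPX : S ∪ RY G A S X W ⊆ X := SRY_sub hSX
  obtain ⟨W', hW', hsub⟩ := hW.restrict (P := S ∪ RY G A S X W) Set.subset_union_left hPX
    (fun d h1 h2 h3 h4 => RY_used hW.tr h1 h2 h3 h4)
  refine ⟨W', hW', hsub, ?_⟩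
  rintro y ⟨n, hn⟩
  have hex : ∃ n, Rch G A S X W n y := ⟨n, hn⟩
  obtain ⟨W'', L, hst, _⟩ := aug_core subset_rfl hW' hsub (Nat.find hex) y (Nat.find_spec hex)
    (fun m hm => Nat.find_min hex hm)
  exact ⟨W'', L, hst⟩

/-- Augmentation keeping the whole region `X`. -/
theorem aug_whole (hSX : S ⊆ X) (hW : Lk G A S X K W) {y : V} (hy : y ∈ RY G A S X W) :
    ∃ W'' L, St G A S X K W'' L y := by
  classical
  obtain ⟨n, hn⟩ := hy
  have hex : ∃ n, Rch G A S X W n y := ⟨n, hn⟩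
  obtain ⟨W'', L, hst, _⟩ := aug_core (SRY_sub hSX) hW (fun L' hL' => ⟨L', hL', [], by simp⟩)
    (Nat.find hex) y (Nat.find_spec hex) (fun m hm => Nat.find_min hex hm)
  exact ⟨W'', L, hst⟩

end Pool.Agent.LC
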