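import Mathlib

/-!
# Infinite Lovasz-Cherkassky: basic definitions

A multigraph on vertex type `V` and edge type `E` is a map `G : E → Bool → V` (the two ends of
each edge). A dart is `(e, b) : E × Bool`; it goes from `G e b` to `G e (!b)`.
-/

set_option autoImplicit false

namespace Pool.Agent.LC

universe uV uE uI

variable {V : Type uV} {E : Type uE} {ι : Type uI}

/-- tail of a dart -/
def tl (G : E → Bool → V) (d : E × Bool) : V := G d.1 d.2

/-- head of a dart -/
def hd (G : E → Bool → V) (d : E × Bool) : V := G d.1 (!d.2)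

/-- reversed dart -/
def rv (d : E × Bool) : E × Bool := (d.1, !d.2)

@[simp] lemma tl_rv (G : E → Bool → V) (d : E × Bool) : tl G (rv d) = hd G d := rfl
@[simp] lemma hd_rv (G : E → Bool → V) (d : E × Bool) : hd G (rv d) = tl G d := by
  simp [hd, rv, tl]
@[simp] lemma rv_fst (d : E × Bool) : (rv d).1 = d.1 := rfl
@[simp] lemma rv_rv (d : E × Bool) : rv (rv d) = d := by simp [rv]
lemma rv_ne (d : E × Bool) : rv d ≠ d := by
  intro h
  have := congrArg Prod.snd h
  simp [rv] at this
lemma rv_injective : Function.Injective (rv : E × Bool → E × Bool) := fun a b h => by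
  rw [← rv_rv a, h, rv_rv]
lemma eq_or_eq_rv {d d' : E × Bool} (h : d.1 = d'.1) : d' = d ∨ d' = rv d := by
  rcases d with ⟨e, b⟩
  rcases d' with ⟨e', b'⟩
  simp only at h
  subst h
  cases b <;> cases b' <;> simp [rv]

/-- `Wk G u L v`: the list of darts `L` is a walk from `u` to `v`. -/
def Wk (G : E → Bool → V) : V → List (E × Bool) → V → Prop
  | u, [], v => u = v
  | u, d :: L, v => tl G d = u ∧ Wk G (hd G d) L v

@[simp] lemma wk_nil (G : E → Bool → V) (u v : V) : Wk G u [] v ↔ u = v := Iff.rfl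
@[simp] lemma wk_cons (G : E → Bool → V) (u v : V) (d : E × Bool) (L : List (E × Bool)) :
    Wk G u (d :: L) v ↔ tl G d = u ∧ Wk G (hd G d) L v := Iff.rfl

lemma wk_append (G : E → Bool → V) {u v : V} (L L' : List (E × Bool)) :
    Wk G u (L ++ L') v ↔ ∃ w, Wk G u L w ∧ Wk G w L' v := by
  induction L generalizing u with
  | nil => simp
  | cons d L ih =>
    simp only [List.cons_append, wk_cons, ih]
    constructor
    · rintro ⟨h, w, h1, h2⟩
      exact ⟨w, ⟨h, h1⟩, h2⟩
    · rintro ⟨w, ⟨h, h1⟩, h2⟩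
      exact ⟨h, w, h1, h2⟩

lemma Wk.append {G : E → Bool → V} {u v w : V} {L L' : List (E × Bool)}
    (h : Wk G u L v) (h' : Wk G v L' w) : Wk G u (L ++ L') w :=
  (wk_append G L L').2 ⟨v, h, h'⟩

lemma wk_concat (G : E → Bool → V) {u v : V} (L : List (E × Bool)) (d : E × Bool) :
    Wk G u (L ++ [d]) v ↔ Wk G u L (tl G d) ∧ hd G d = v := by
  rw [wk_append]
  constructor
  · rintro ⟨w, h1, h2, h3⟩
    exact ⟨h2 ▸ h1, h3⟩
  · rintro ⟨h1, h2⟩
    exact ⟨_, h1, rfl, h2⟩

/-- splitting a walk at a dart -/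
lemma wk_split (G : E → Bool → V) {u v : V} (L L' : List (E × Bool)) (d : E × Bool) :
    Wk G u (L ++ d :: L') v ↔ Wk G u L (tl G d) ∧ Wk G (hd G d) L' v := by
  rw [wk_append]
  constructor
  · rintro ⟨w, h1, h2, h3⟩
    exact ⟨h2 ▸ h1, h3⟩
  · rintro ⟨h1, h2⟩
    exact ⟨_, h1, rfl, h2⟩

lemma Wk.end_unique {G : E → Bool → V} {u v w : V} {L : List (E × Bool)}
    (h : Wk G u L v) (h' : Wk G u L w) : v = w := by
  induction L generalizing u with
  | nil => exact h.symm.trans h'
  | cons d L ih => exact ih h.2 h'.2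

/-- reversal of a list of darts -/
def rvl (L : List (E × Bool)) : List (E × Bool) := (L.map rv).reverse

@[simp] lemma rvl_nil : rvl ([] : List (E × Bool)) = [] := rfl
@[simp] lemma rvl_cons (d : E × Bool) (L : List (E × Bool)) : rvl (d :: L) = rvl L ++ [rv d] := by
  simp [rvl]
@[simp] lemma rvl_append (L L' : List (E × Bool)) : rvl (L ++ L') = rvl L' ++ rvl L := by
  simp [rvl]
@[simp] lemma rvl_rvl (L : List (E × Bool)) : rvl (rvl L) = L := by
  induction L with
  | nil => rfl
  | cons d L ih => simp [ih]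
@[simp] lemma mem_rvl {d : E × Bool} {L : List (E × Bool)} : d ∈ rvl L ↔ rv d ∈ L := by
  simp only [rvl, List.mem_reverse, List.mem_map]
  constructor
  · rintro ⟨a, ha, rfl⟩
    simpa using ha
  · intro h
    exact ⟨rv d, h, by simp⟩
@[simp] lemma rvl_eq_nil {L : List (E × Bool)} : rvl L = [] ↔ L = [] := by
  simp [rvl]

lemma map_fst_rvl (L : List (E × Bool)) : (rvl L).map Prod.fst = (L.map Prod.fst).reverse := by
  simp only [rvl, List.map_reverse, List.map_map]
  rfl

lemma Wk.rvl {G : E → Bool → V} {u v : V} {L : List (E × Bool)} (h : Wk G u L v) :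
    Wk G v (rvl L) u := by
  induction L generalizing u with
  | nil => exact h.symm
  | cons d L ih =>
    rw [rvl_cons, wk_concat]
    refine ⟨?_, ?_⟩
    · simpa using ih h.2
    · simpa using h.1

/-- heads of the darts of a walk: every dart's head is the tail of a later dart or the end -/
lemma Wk.hd_mem {G : E → Bool → V} {u v : V} {L : List (E × Bool)} (h : Wk G u L v)
    {P : V → Prop} (ht : ∀ d ∈ L, P (tl G d)) (hv : P v) : ∀ d ∈ L, P (hd G d) := by
  induction L generalizing u with
  | nil => simp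
  | cons d L ih =>
    intro d' hd'
    rcases List.mem_cons.1 hd' with rfl | h'
    · cases L with
      | nil => have : hd G d' = v := h.2
               rwa [this]
      | cons a L => have h1 : tl G a = hd G d' := h.2.1
                    rw [← h1]
                    exact ht a (by simp)
    · exact ih h.2 (fun d'' hd'' => ht d'' (List.mem_cons_of_mem _ hd'')) d' h'

/-- tails of the darts of a walk -/
lemma Wk.tl_mem {G : E → Bool → V} {u v : V} {L : List (E × Bool)} (h : Wk G u L v)
    {P : V → Prop} (hu : P u) (ht : ∀ d ∈ L, P (hd G d)) : ∀ d ∈ L, P (tl G d) := by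
  induction L generalizing u with
  | nil => simp
  | cons d L ih =>
    intro d' hd'
    rcases List.mem_cons.1 hd' with rfl | h'
    · rw [h.1]; exact hu
    · exact ih h.2 (ht d (by simp)) (fun d'' hd'' => ht d'' (List.mem_cons_of_mem _ hd'')) d' h'

/-- `IsTr G A S X L`: `L` is a nonempty trail with edges in `A`, whose first dart has its tail
in `S`, which never enters `S`, and all of whose darts have their tails in `X`. -/
structure IsTr (G : E → Bool → V) (A : Set E) (S X : Set V) (L : List (E × Bool)) : Prop where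
  ne : L ≠ []
  wk : ∃ u ∈ S, ∃ v, Wk G u L v
  nodup : (L.map Prod.fst).Nodup
  sub : ∀ d ∈ L, d.1 ∈ A
  hdS : ∀ d ∈ L, hd G d ∉ S
  tlX : ∀ d ∈ L, tl G d ∈ X

/-- A system of pairwise edge-disjoint trails. -/
structure Sys (G : E → Bool → V) (A : Set E) (S X : Set V) (W : Set (List (E × Bool))) : Prop where
  tr : ∀ L ∈ W, IsTr G A S X L
  disj : ∀ L ∈ W, ∀ L' ∈ W, ∀ d ∈ L, ∀ d' ∈ L', d.1 = d'.1 → L = L'

/-- The darts of `A` leaving `X`. -/
def Lv (G : E → Bool → V) (A : Set E) (X : Set V) : Set (E × Bool) :=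
  {b | b.1 ∈ A ∧ tl G b ∈ X ∧ hd G b ∉ X}

/-- `W` is a linkage from `S` onto the darts leaving `X` except those in `K`. -/
structure Lk (G : E → Bool → V) (A : Set E) (S X : Set V) (K : Set (E × Bool))
    (W : Set (List (E × Bool))) : Prop extends Sys G A S X W where
  last : ∀ L ∈ W, ∃ b ∈ Lv G A X \ K, L.getLast? = some b
  cov : ∀ b ∈ Lv G A X \ K, ∃ L ∈ W, L.getLast? = some b

/-- `W` uses every dart leaving `S` as a first dart. -/
def Full (G : E → Bool → V) (A : Set E) (S : Set V) (W : Set (List (E × Bool))) : Prop :=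
  ∀ e ∈ Lv G A S, ∃ L ∈ W, L.head? = some e

/-- Terminal set `t` of a partial colouring. -/
def Sc (c : V → Option ι) (t : ι) : Set V := {v | c v = some t}

/-- Inner (uncoloured) vertices. -/
def Nc (c : V → Option ι) : Set V := {v | c v = none}

/-- `X` is a `t`-region. -/
def Reg (c : V → Option ι) (t : ι) (X : Set V) : Prop := Sc c t ⊆ X ∧ X \ Sc c t ⊆ Nc c

/-- the edges with exactly one end in `X` -/
def cutE (G : E → Bool → V) (A : Set E) (X : Set V) : Set E :=
  {e | e ∈ A ∧ ¬ (G e false ∈ X ↔ G e true ∈ X)}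

/-- no set of inner vertices has a finite odd boundary -/
def Adm (G : E → Bool → V) (A : Set E) (c : V → Option ι) : Prop :=
  ∀ X ⊆ Nc c, (cutE G A X).Finite → Even (cutE G A X).ncard

/-- only trivial waves -/
def Loose (G : E → Bool → V) (A : Set E) (c : V → Option ι) : Prop :=
  ∀ t X W, Reg c t X → Lk G A (Sc c t) X ∅ W → X = Sc c t

/-- `c₁` extends the partial colouring `c` -/
def Ext (c c₁ : V → Option ι) : Prop := ∀ v t, c v = some t → c₁ v = some t

/-- full waves with loose quotient -/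
def Good (G : E → Bool → V) (A : Set E) (c : V → Option ι) : Prop :=
  ∃ c₁ : V → Option ι, Ext c c₁ ∧ Loose G A c₁ ∧
    ∀ t, ∃ W, Lk G A (Sc c t) (Sc c₁ t) ∅ W ∧ Full G A (Sc c t) W

/-- a trail between two different terminal sets, with inner vertices uncoloured -/
structure IsTT (G : E → Bool → V) (A : Set E) (c : V → Option ι) (t t' : ι)
    (R : List (E × Bool)) : Prop where
  ne : t ≠ t'
  wk : ∃ u ∈ Sc c t, ∃ v ∈ Sc c t', Wk G u R v
  nodup : (R.map Prod.fst).Nodup
  sub : ∀ d ∈ R, d.1 ∈ A
  inner : ∀ d ∈ R.dropLast, hd G d ∈ Nc c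

/-- edges of a list of darts -/
def edg (L : List (E × Bool)) : Set E := {e | ∃ d ∈ L, d.1 = e}

end Pool.Agent.LC
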