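import Mathlib

set_option autoImplicit false

open Cardinal Set

namespace Pool.Agent.LC

universe u

namespace AM

variable {E : Type u}

/-- The goal of one step. -/
structure HH (GG : Set (Set E)) (PP : Set (Finset E)) (TE : Set E) (A F M : Set E)
    (RR : Set (Finset E)) : Prop where
  sub : F ⊆ M
  card : #M ≤ max ℵ₀ #F
  good : A \ M ∈ GG
  pp : RR ⊆ PP
  inn : ∀ R ∈ RR, (R : Set E) ⊆ A ∩ M
  disj : ∀ R ∈ RR, ∀ R' ∈ RR, ∀ e, e ∈ R → e ∈ R' → R = R'
  cov : ∀ e ∈ A ∩ M ∩ TE, ∃ R ∈ RR, e ∈ R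

/-- finite subsets of `P` -/
def FS (P : Set E) : Set (Finset E) := {G | (G : Set E) ⊆ P}

lemma mk_FS_le (P : Set E) : #(FS P) ≤ max ℵ₀ #P := by
  have h1 : #(FS P) ≤ #(Finset P) := by
    classical
    refine mk_le_of_injective (f := fun G : FS P => G.1.subtype (· ∈ P)) ?_
    intro G G' h
    have h : G.1.subtype (· ∈ P) = G'.1.subtype (· ∈ P) := h
    have hG : ∀ x ∈ G.1, x ∈ P := fun x hx => G.2 hx
    have hG' : ∀ x ∈ G'.1, x ∈ P := fun x hx => G'.2 hx
    apply Subtype.ext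
    ext x
    constructor
    · intro hx
      have : (⟨x, hG x hx⟩ : P) ∈ G.1.subtype (· ∈ P) := by simpa using hx
      rw [h] at this
      simpa using this
    · intro hx
      have : (⟨x, hG' x hx⟩ : P) ∈ G'.1.subtype (· ∈ P) := by simpa using hx
      rw [← h] at this
      simpa using this
  refine h1.trans ?_
  rcases finite_or_infinite P with h | h
  · exact (Cardinal.lt_aleph0_of_finite _).le.trans (le_max_left _ _)
  · rw [mk_finset_of_infinite]
    exact le_max_right _ _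

/-- an enumeration of a set by ordinals below its cardinality -/
lemma exists_rk (S : Set E) : ∃ ρ : E → Ordinal.{u}, InjOn ρ S ∧ ∀ x ∈ S, ρ x < (#S).ord := by
  classical
  obtain ⟨r, hr, hr'⟩ := exists_ord_eq S
  refine ⟨fun x => if h : x ∈ S then Ordinal.typein r ⟨x, h⟩ else 0, ?_, ?_⟩
  · intro x hx y hy h
    simp only [hx, hy, dif_pos] at h
    have := (Ordinal.typein_injective r) h
    simpa using this
  · intro x hx
    simp only [hx, dif_pos]
    rw [hr']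
    exact Ordinal.typein_lt_type r _

/-- rank of an element in a set -/
noncomputable def rk (S : Set E) : E → Ordinal.{u} := (exists_rk S).choose

lemma rk_inj (S : Set E) : InjOn (rk S) S := (exists_rk S).choose_spec.1
lemma rk_lt (S : Set E) {x : E} (hx : x ∈ S) : rk S x < (#S).ord :=
  (exists_rk S).choose_spec.2 x hx

/-- truncation of a set at an ordinal -/
def tr (S : Set E) (o : Ordinal.{u}) : Set E := {x | x ∈ S ∧ rk S x < o}

lemma mk_tr_le (S : Set E) (o : Ordinal.{u}) : #(tr S o) ≤ o.card := by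
  have h : Cardinal.lift.{u+1} #(tr S o) ≤ Cardinal.lift.{u} #(Set.Iio o) := by
    refine lift_mk_le_lift_mk_of_injective (f := fun x : tr S o => (⟨rk S x.1, x.2.2⟩ : Set.Iio o)) ?_
    intro x y hxy
    have : rk S x.1 = rk S y.1 := congrArg Subtype.val hxy
    exact Subtype.ext (rk_inj S x.2.1 y.2.1 this)
  rw [mk_Iio_ordinal, Cardinal.lift_lift] at h
  exact Cardinal.lift_le.{max u (u+1)}.1 h

/-- union bound -/
lemma mk_iU_le {ι : Type u} (f : ι → Set E) (c : Cardinal.{u}) (hι : #ι ≤ c) (hc : ℵ₀ ≤ c)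
    (hf : ∀ i, #(f i) ≤ c) : #(⋃ i, f i) ≤ c := by
  refine (mk_iUnion_le f).trans ?_
  calc #ι * ⨆ i, #(f i) ≤ c * c := mul_le_mul' hι (ciSup_le' hf)
    _ = c := mul_eq_self hc

lemma mk_un_le (S T : Set E) (c : Cardinal.{u}) (hc : ℵ₀ ≤ c) (h1 : #S ≤ c) (h2 : #T ≤ c) :
    #(S ∪ T : Set E) ≤ c :=
  (mk_union_le S T).trans ((add_le_add h1 h2).trans (add_eq_self hc).le)

lemma mk_un_lt (S T : Set E) (c : Cardinal.{u}) (hc : ℵ₀ ≤ c) (h1 : #S < c) (h2 : #T < c) :
    #(S ∪ T : Set E) < c :=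
  (mk_union_le S T).trans_lt (add_lt_of_lt hc h1 h2)

section chain

variable (GG : Set (Set E)) (PP : Set (Finset E)) (TE : Set E)
  {I : Type u} [LinearOrder I] [WellFoundedLT I]

open Classical in
/-- one step -/
noncomputable def step (A F : Set E) : Set E × Set (Finset E) :=
  if h : ∃ MR : Set E × Set (Finset E), HH GG PP TE A F MR.1 MR.2 then h.choose else (∅, ∅)

lemma step_spec (A F : Set E) (h : ∃ M RR, HH GG PP TE A F M RR) :
    HH GG PP TE A F (step GG PP TE A F).1 (step GG PP TE A F).2 := by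
  have h' : ∃ MR : Set E × Set (Finset E), HH GG PP TE A F MR.1 MR.2 := by
    obtain ⟨M, RR, h⟩ := h
    exact ⟨(M, RR), h⟩
  rw [step, dif_pos h']
  exact h'.choose_spec

/-- the recursion -/
noncomputable def D (A : Set E) (Dem : I → Set E → Set E) : I → Set E × Set (Finset E) :=
  (wellFounded_lt (α := I)).fix fun i ih =>
    step GG PP TE (A \ ⋃ j : Set.Iio i, (ih j.1 j.2).1) (Dem i (⋃ j : Set.Iio i, (ih j.1 j.2).1))

/-- the union of the sets before `i` -/
noncomputable def PU (A : Set E) (Dem : I → Set E → Set E) (i : I) : Set E :=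
  ⋃ j : Set.Iio i, (D GG PP TE A Dem j.1).1

lemma D_eq (A : Set E) (Dem : I → Set E → Set E) (i : I) :
    D GG PP TE A Dem i = step GG PP TE (A \ PU GG PP TE A Dem i)
      (Dem i (PU GG PP TE A Dem i)) := by
  rw [D, WellFounded.fix_eq]
  rfl

variable {GG PP TE}

lemma PU_mono {A : Set E} {Dem : I → Set E → Set E} {i j : I} (h : i ≤ j) :
    PU GG PP TE A Dem i ⊆ PU GG PP TE A Dem j := by
  intro x hx
  simp only [PU, mem_iUnion] at hx ⊢
  obtain ⟨k, hk⟩ := hx
  exact ⟨⟨k.1, lt_of_lt_of_le k.2 h⟩, hk⟩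

lemma D_sub_PU {A : Set E} {Dem : I → Set E → Set E} {i j : I} (h : i < j) :
    (D GG PP TE A Dem i).1 ⊆ PU GG PP TE A Dem j := by
  intro x hx
  simp only [PU, mem_iUnion]
  exact ⟨⟨i, h⟩, hx⟩

/-- finite subsets of a directed union -/
lemma fin_sub {A : Set E} {Dem : I → Set E → Set E} {i : I} (hmin : ∃ j, j < i)
    (hlim : ∀ j < i, ∃ k, j < k ∧ k < i) (G : Finset E)
    (hG : (G : Set E) ⊆ PU GG PP TE A Dem i) :
    ∃ j < i, (G : Set E) ⊆ PU GG PP TE A Dem j := by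
  classical
  induction G using Finset.induction_on with
  | empty => obtain ⟨j, hj⟩ := hmin; exact ⟨j, hj, by simp⟩
  | insert a G ha ih =>
    rw [Finset.coe_insert, Set.insert_subset_iff] at hG
    obtain ⟨j, hj, hj'⟩ := ih hG.2
    obtain ⟨k, hk⟩ := mem_iUnion.1 hG.1
    obtain ⟨l, hl, hl'⟩ := hlim k.1 k.2
    have h1 : a ∈ PU GG PP TE A Dem (max j l) :=
      PU_mono (le_max_right j l) (D_sub_PU hl hk)
    refine ⟨max j l, max_lt hj hl', ?_⟩
    rw [Finset.coe_insert, Set.insert_subset_iff]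
    exact ⟨h1, hj'.trans (PU_mono (le_max_left _ _))⟩

/-- finite subsets of the full union -/
lemma fin_sub' {A : Set E} {Dem : I → Set E → Set E} [Nonempty I] [NoMaxOrder I] (G : Finset E)
    (hG : (G : Set E) ⊆ ⋃ i, (D GG PP TE A Dem i).1) :
    ∃ j, (G : Set E) ⊆ PU GG PP TE A Dem j := by
  classical
  induction G using Finset.induction_on with
  | empty => exact ⟨Classical.arbitrary I, by simp⟩
  | insert a G ha ih =>
    rw [Finset.coe_insert, Set.insert_subset_iff] at hG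
    obtain ⟨j, hj'⟩ := ih hG.2
    obtain ⟨k, hk⟩ := mem_iUnion.1 hG.1
    obtain ⟨l, hl⟩ := exists_gt k
    have h1 : a ∈ PU GG PP TE A Dem (max j l) :=
      PU_mono (le_max_right j l) (D_sub_PU hl hk)
    refine ⟨max j l, ?_⟩
    rw [Finset.coe_insert, Set.insert_subset_iff]
    exact ⟨h1, hj'.trans (PU_mono (le_max_left _ _))⟩

theorem chain_construct {A : Set E} (hA : A ∈ GG) {μ : Cardinal.{u}}
    (IH : ∀ F : Set E, #F < μ → ∀ A ∈ GG, ∃ M RR, HH GG PP TE A F M RR)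
    (Dem : I → Set E → Set E) (B : I → Cardinal.{u} → Prop)
    (hmono : ∀ i c c', c' ≤ c → B i c → B i c')
    (hR1 : ∀ i, ∀ M : I → Set E, (∀ j < i, B j #(M j)) → B i #(⋃ j : Set.Iio i, M j.1 : Set E))
    (hR2 : ∀ i, ∀ P : Set E, B i #P → #(Dem i P) < μ ∧ B i (max ℵ₀ #(Dem i P)))
    (hR3 : ∀ i, (∃ j, j < i) → (∀ j < i, ∃ k, j < k ∧ k < i) →
      (∀ j < i, Dem j (PU GG PP TE A Dem j) ⊆ (D GG PP TE A Dem j).1) →
      B i #(PU GG PP TE A Dem i) → A \ PU GG PP TE A Dem i ∈ GG) (i : I) :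
    B i #(PU GG PP TE A Dem i) ∧ B i #(D GG PP TE A Dem i).1 ∧
    A \ PU GG PP TE A Dem i ∈ GG ∧
    HH GG PP TE (A \ PU GG PP TE A Dem i) (Dem i (PU GG PP TE A Dem i)) (D GG PP TE A Dem i).1
      (D GG PP TE A Dem i).2 := by
  induction i using WellFoundedLT.induction with
  | ind i ih =>
    have hB : B i #(PU GG PP TE A Dem i) := hR1 i _ fun j hj => (ih j hj).2.1
    have hgood : A \ PU GG PP TE A Dem i ∈ GG := by
      by_cases hmin : ∃ j, j < i
      · by_cases hlim : ∀ j < i, ∃ k, j < k ∧ k < i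
        · exact hR3 i hmin hlim (fun j hj => (ih j hj).2.2.2.sub) hB
        · push Not at hlim
          obtain ⟨j, hj, hj'⟩ := hlim
          have h1 := (ih j hj).2.2.2.good
          have h2 : A \ PU GG PP TE A Dem i =
              (A \ PU GG PP TE A Dem j) \ (D GG PP TE A Dem j).1 := by
            rw [sdiff_sdiff]
            congr 1
            apply Subset.antisymm
            · intro x hx
              obtain ⟨k, hk⟩ := mem_iUnion.1 hx
              rcases lt_or_eq_of_le (not_lt.1 fun h => absurd k.2 (not_lt.2 (hj' k.1 h))) with h | h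
              · exact Or.inl (D_sub_PU h hk)
              · right
                rw [← h]
                exact hk
            · exact union_subset (PU_mono hj.le) (D_sub_PU hj)
          rw [h2]
          exact h1
      · have : PU GG PP TE A Dem i = ∅ := by
          rw [eq_empty_iff_forall_notMem]
          intro x hx
          obtain ⟨k, hk⟩ := mem_iUnion.1 hx
          exact hmin ⟨k.1, k.2⟩
        rw [this, sdiff_empty]
        exact hA
    obtain ⟨h1, h2⟩ := hR2 i _ hB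
    have h3 := step_spec GG PP TE (A \ PU GG PP TE A Dem i) (Dem i (PU GG PP TE A Dem i))
      (IH _ h1 _ hgood)
    rw [← D_eq] at h3
    exact ⟨hB, hmono i _ _ h3.card h2, hgood, h3⟩

/-- gluing the pieces -/
theorem chain_glue {A : Set E} (F : Set E) (Dem : I → Set E → Set E)
    (h : ∀ i, HH GG PP TE (A \ PU GG PP TE A Dem i) (Dem i (PU GG PP TE A Dem i))
      (D GG PP TE A Dem i).1 (D GG PP TE A Dem i).2)
    (hF : F ⊆ ⋃ i, (D GG PP TE A Dem i).1)
    (hcard : #(⋃ i, (D GG PP TE A Dem i).1 : Set E) ≤ max ℵ₀ #F)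
    (hgood : A \ ⋃ i, (D GG PP TE A Dem i).1 ∈ GG) :
    ∃ M RR, HH GG PP TE A F M RR := by
  refine ⟨⋃ i, (D GG PP TE A Dem i).1, ⋃ i, (D GG PP TE A Dem i).2, hF, hcard, hgood, ?_, ?_, ?_,
    ?_⟩
  · exact iUnion_subset fun i => (h i).pp
  · intro R hR
    obtain ⟨i, hi⟩ := mem_iUnion.1 hR
    intro x hx
    have := (h i).inn R hi hx
    exact ⟨this.1.1, mem_iUnion.2 ⟨i, this.2⟩⟩
  · intro R hR R' hR' e he he'
    obtain ⟨i, hi⟩ := mem_iUnion.1 hR
    obtain ⟨j, hj⟩ := mem_iUnion.1 hR'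
    rcases lt_trichotomy i j with hij | hij | hij
    · exact absurd (D_sub_PU hij ((h i).inn R hi he).2) ((h j).inn R' hj he').1.2
    · subst hij
      exact (h i).disj R hi R' hj e he he'
    · exact absurd (D_sub_PU hij ((h j).inn R' hj he').2) ((h i).inn R hi he).1.2
  · rintro e ⟨⟨heA, heM⟩, heT⟩
    obtain ⟨i, hi, hmin⟩ := (wellFounded_lt (α := I)).has_min {i | e ∈ (D GG PP TE A Dem i).1}
      (mem_iUnion.1 heM)
    have hnot : e ∉ PU GG PP TE A Dem i := by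
      intro hc
      obtain ⟨k, hk⟩ := mem_iUnion.1 hc
      exact hmin k.1 hk k.2
    obtain ⟨R, hR, hR'⟩ := (h i).cov e ⟨⟨⟨heA, hnot⟩, hi⟩, heT⟩
    exact ⟨R, mem_iUnion.2 ⟨i, hR⟩, hR'⟩

end chain

/-- closure under a set-valued function -/
lemma closure_exists (h : Finset E → Set E) (c : Cardinal.{u}) (hc : ℵ₀ ≤ c)
    (hh : ∀ G, #(h G) ≤ c) (F : Set E) (hF : #F ≤ c) :
    ∃ M : Set E, F ⊆ M ∧ #M ≤ c ∧ ∀ G : Finset E, (G : Set E) ⊆ M → h G ⊆ M := by
  classical
  let C : ℕ → Set E := fun n => Nat.rec F (fun _ S => S ∪ ⋃ G : FS S, h G.1) n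
  have hC : ∀ n, C (n+1) = C n ∪ ⋃ G : FS (C n), h G.1 := fun n => rfl
  have hmono : Monotone C := monotone_nat_of_le_succ fun n => by
    rw [hC]; exact subset_union_left
  have hcard : ∀ n, #(↥(C n)) ≤ c := by
    intro n
    induction n with
    | zero => exact hF
    | succ n ih =>
      rw [hC]
      exact mk_un_le _ _ _ hc ih (mk_iU_le _ _ ((mk_FS_le _).trans (max_le hc ih)) hc
        fun G => hh _)
  refine ⟨⋃ n : ULift.{u} ℕ, C n.down, ?_, ?_, ?_⟩
  · intro x hx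
    exact mem_iUnion.2 ⟨⟨0⟩, hx⟩
  · refine mk_iU_le _ _ ?_ hc fun n => hcard _
    simpa using hc
  · intro G hG
    have : ∃ n, (G : Set E) ⊆ C n := by
      induction G using Finset.induction_on with
      | empty => exact ⟨0, by simp⟩
      | insert a G ha ih =>
        rw [Finset.coe_insert, Set.insert_subset_iff] at hG
        obtain ⟨n, hn⟩ := ih hG.2
        obtain ⟨m, hm⟩ := mem_iUnion.1 hG.1
        refine ⟨max n m.down, ?_⟩
        rw [Finset.coe_insert, Set.insert_subset_iff]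
        exact ⟨hmono (le_max_right _ _) hm, hn.trans (hmono (le_max_left _ _))⟩
    obtain ⟨n, hn⟩ := this
    refine Subset.trans ?_ (subset_iUnion (fun n : ULift.{u} ℕ => C n.down) ⟨n+1⟩)
    show h G ⊆ C (n+1)
    rw [hC]
    refine Subset.trans ?_ subset_union_right
    exact subset_iUnion (fun G : FS (C n) => h G.1) ⟨G, hn⟩

/-- the union of a list of finite sets -/
def UL (l : List (Finset E)) : Set E := {e | ∃ R ∈ l, e ∈ R}

theorem case_countable (GG : Set (Set E)) (PP : Set (Finset E)) (TE : Set E)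
    (OS : ∀ A ∈ GG, ∀ e ∈ A ∩ TE, ∃ R ∈ PP, e ∈ R ∧ (R : Set E) ⊆ A ∧ A \ (R : Set E) ∈ GG)
    (CL : ∀ A ∈ GG, ∀ κ : Cardinal.{u}, κ.IsRegular → ℵ₀ < κ →
      ∃ f : Finset E → Set E, (∀ F, #(f F) < κ) ∧
        ∀ M : Set E, #M < κ → (∀ F : Finset E, (F : Set E) ⊆ M → f F ⊆ M) → A \ M ∈ GG)
    (F : Set E) (hF : #F ≤ ℵ₀) (A : Set E) (hA : A ∈ GG) :
    ∃ M RR, HH GG PP TE A F M RR := by
  classical
  obtain ⟨f, hf1, hf2⟩ := CL A hA (Order.succ ℵ₀) (isRegular_succ le_rfl) (Order.lt_succ _)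
  have hnx : ∀ (l : List (Finset E)) (e : E), ∃ R : Finset E,
      A \ UL l ∈ GG → e ∈ (A \ UL l) ∩ TE →
      R ∈ PP ∧ e ∈ R ∧ (R : Set E) ⊆ A \ UL l ∧ (A \ UL l) \ (R : Set E) ∈ GG := by
    intro l e
    by_cases h : A \ UL l ∈ GG ∧ e ∈ (A \ UL l) ∩ TE
    · obtain ⟨R, h1, h2, h3, h4⟩ := OS _ h.1 e h.2
      exact ⟨R, fun _ _ => ⟨h1, h2, h3, h4⟩⟩
    · exact ⟨∅, fun h1 h2 => absurd ⟨h1, h2⟩ h⟩
  choose nx hnx using hnx
  obtain ⟨M, hM1, hM2, hM3⟩ := closure_exists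
    (fun G => f G ∪ ⋃ (l : List (↥(G.powerset))) (e : G), (nx (l.map Subtype.val) e.1 : Set E))
    ℵ₀ le_rfl (by
      intro G
      refine mk_un_le _ _ _ le_rfl (Order.lt_succ_iff.1 (hf1 G)) ?_
      rw [le_aleph0_iff_set_countable]
      exact countable_iUnion fun l => countable_iUnion fun e => (Finset.finite_toSet _).countable)
    F hF
  have hMf : ∀ G : Finset E, (G : Set E) ⊆ M → f G ⊆ M := fun G hG =>
    subset_union_left.trans (hM3 G hG)
  have hMn : ∀ (l : List (Finset E)), (∀ R ∈ l, (R : Set E) ⊆ M) → ∀ e ∈ M,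
      (nx l e : Set E) ⊆ M := by
    intro l hl e he
    set G : Finset E := insert e (l.foldr (fun R S => R ∪ S) ∅) with hGdef
    have hfold : ∀ l' : List (Finset E), ∀ R ∈ l', R ⊆ l'.foldr (fun R S => R ∪ S) ∅ := by
      intro l'
      induction l' with
      | nil => simp
      | cons a l' ih =>
        intro R hR
        rw [List.foldr_cons]
        rcases List.mem_cons.1 hR with rfl | hR
        · exact Finset.subset_union_left
        · exact (ih R hR).trans Finset.subset_union_right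
    have hfold' : ∀ l' : List (Finset E), (∀ R ∈ l', (R : Set E) ⊆ M) →
        ((l'.foldr (fun R S => R ∪ S) ∅ : Finset E) : Set E) ⊆ M := by
      intro l'
      induction l' with
      | nil => simp
      | cons a l' ih =>
        intro h
        rw [List.foldr_cons, Finset.coe_union]
        exact union_subset (h a (by simp)) (ih fun R hR => h R (by simp [hR]))
    have hG : (G : Set E) ⊆ M := by
      rw [hGdef, Finset.coe_insert, Set.insert_subset_iff]
      exact ⟨he, hfold' l hl⟩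
    have hGl : ∀ R ∈ l, R ∈ G.powerset := fun R hR =>
      Finset.mem_powerset.2 ((hfold l R hR).trans (Finset.subset_insert _ _))
    refine Subset.trans ?_ (hM3 G hG)
    refine Subset.trans ?_ subset_union_right
    intro x hx
    refine mem_iUnion.2 ⟨l.attach.map fun R => ⟨R.1, hGl R.1 R.2⟩, mem_iUnion.2
      ⟨⟨e, by simp [hGdef]⟩, ?_⟩⟩
    have : (l.attach.map fun R => (⟨R.1, hGl R.1 R.2⟩ : ↥(G.powerset))).map Subtype.val = l := by
      rw [List.map_map]
      exact List.attach_map_subtype_val l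
    rw [this]
    exact hx
  rcases M.eq_empty_or_nonempty with hMe | hMe
  · refine ⟨M, ∅, hM1, hM2.trans (le_max_left _ _), hf2 M (hM2.trans_lt (Order.lt_succ _)) hMf,
      by simp, by simp, by simp, ?_⟩
    rintro e ⟨⟨_, h⟩, _⟩
    rw [hMe] at h
    exact absurd h (notMem_empty e)
  obtain ⟨s, hs⟩ := (le_aleph0_iff_set_countable.1 hM2).exists_eq_range hMe
  let l : ℕ → List (Finset E) := fun n => Nat.rec []
    (fun n L => if s n ∈ (A \ UL L) ∩ TE then nx L (s n) :: L else L) n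
  have hl0 : l 0 = [] := rfl
  have hls : ∀ n, l (n+1) = if s n ∈ (A \ UL (l n)) ∩ TE then nx (l n) (s n) :: l n else l n :=
    fun n => rfl
  have hinv : ∀ n, (∀ R ∈ l n, (R : Set E) ⊆ M ∧ R ∈ PP ∧ (R : Set E) ⊆ A) ∧ A \ UL (l n) ∈ GG ∧
      ∀ R ∈ l n, ∀ R' ∈ l n, ∀ e, e ∈ R → e ∈ R' → R = R' := by
    intro n
    induction n with
    | zero =>
      refine ⟨by simp [hl0], ?_, by simp [hl0]⟩
      have : UL (l 0) = (∅ : Set E) := by
        ext x; simp [UL, hl0]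
      rw [this, sdiff_empty]
      exact hA
    | succ n ih =>
      obtain ⟨h1, h2, h3⟩ := ih
      rw [hls]
      split_ifs with hc
      · obtain ⟨k1, k2, k3, k4⟩ := hnx (l n) (s n) h2 hc
        refine ⟨?_, ?_, ?_⟩
        · intro R hR
          rcases List.mem_cons.1 hR with rfl | hR
          · refine ⟨hMn _ (fun R hR => (h1 R hR).1) _ (hs ▸ mem_range_self n), k1,
              k3.trans sdiff_subset⟩
          · exact h1 R hR
        · have : A \ UL (nx (l n) (s n) :: l n) = (A \ UL (l n)) \ (nx (l n) (s n) : Set E) := by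
            ext x
            simp only [UL, mem_sdiff, mem_ofPred_eq, List.mem_cons, not_exists, not_and,
              Finset.mem_coe]
            constructor
            · rintro ⟨h, h'⟩
              exact ⟨⟨h, fun R hR => h' R (Or.inr hR)⟩, h' _ (Or.inl rfl)⟩
            · rintro ⟨⟨h, h'⟩, h''⟩
              refine ⟨h, ?_⟩
              rintro R (rfl | hR)
              · exact h''
              · exact h' R hR
          rw [this]
          exact k4
        · intro R hR R' hR' e he he'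
          rcases List.mem_cons.1 hR with rfl | hR
          · rcases List.mem_cons.1 hR' with rfl | hR'
            · rfl
            · exact absurd ⟨R', hR', he'⟩ (k3 he).2
          · rcases List.mem_cons.1 hR' with rfl | hR'
            · exact absurd ⟨R, hR, he⟩ (k3 he').2
            · exact h3 R hR R' hR' e he he'
      · exact ⟨h1, h2, h3⟩
  have hmono : ∀ n m, n ≤ m → ∀ R ∈ l n, R ∈ l m := by
    intro n m hnm
    induction m, hnm using Nat.le_induction with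
    | base => exact fun R hR => hR
    | succ m _ ih =>
      intro R hR
      rw [hls]
      split_ifs
      · exact List.mem_cons_of_mem _ (ih R hR)
      · exact ih R hR
  refine ⟨M, {R | ∃ n, R ∈ l n}, hM1, hM2.trans (le_max_left _ _),
    hf2 M (hM2.trans_lt (Order.lt_succ _)) hMf, ?_, ?_, ?_, ?_⟩
  · rintro R ⟨n, hn⟩
    exact ((hinv n).1 R hn).2.1
  · rintro R ⟨n, hn⟩
    exact subset_inter ((hinv n).1 R hn).2.2 ((hinv n).1 R hn).1
  · rintro R ⟨n, hn⟩ R' ⟨m, hm⟩ e he he'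
    exact (hinv (max n m)).2.2 R (hmono _ _ (le_max_left _ _) R hn) R'
      (hmono _ _ (le_max_right _ _) R' hm) e he he'
  · rintro e ⟨⟨heA, heM⟩, heT⟩
    rw [hs] at heM
    obtain ⟨n, rfl⟩ := heM
    by_cases hc : s n ∈ UL (l n)
    · obtain ⟨R, hR, hR'⟩ := hc
      exact ⟨R, ⟨n, hR⟩, hR'⟩
    · have h1 : s n ∈ (A \ UL (l n)) ∩ TE := ⟨⟨heA, hc⟩, heT⟩
      refine ⟨nx (l n) (s n), ⟨n+1, ?_⟩, (hnx (l n) (s n) (hinv n).2.1 h1).2.1⟩
      rw [hls, if_pos h1]
      exact List.mem_cons_self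

/-- the ordinal of an element of `o.ToType` -/
noncomputable def tyo {o : Ordinal.{u}} (i : o.ToType) : Ordinal.{u} :=
  (Ordinal.ToType.mk.symm i : Set.Iio o).1

lemma tyo_lt {o : Ordinal.{u}} (i : o.ToType) : tyo i < o := (Ordinal.ToType.mk.symm i).2

lemma tyo_lt_iff {o : Ordinal.{u}} {i j : o.ToType} : tyo i < tyo j ↔ i < j := by
  unfold tyo
  rw [Subtype.coe_lt_coe]
  exact (Ordinal.ToType.mk (o := o)).symm.lt_iff_lt

lemma tyo_mono {o : Ordinal.{u}} {i j : o.ToType} (h : i ≤ j) : tyo i ≤ tyo j := by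
  rcases h.eq_or_lt with rfl | h
  · exact le_rfl
  · exact (tyo_lt_iff.2 h).le

lemma tyo_surj {o : Ordinal.{u}} {ρ : Ordinal.{u}} (h : ρ < o) : ∃ i : o.ToType, tyo i = ρ :=
  ⟨Ordinal.ToType.mk ⟨ρ, h⟩, by simp [tyo]⟩

theorem case_regular (GG : Set (Set E)) (PP : Set (Finset E)) (TE : Set E)
    (CL : ∀ A ∈ GG, ∀ κ : Cardinal.{u}, κ.IsRegular → ℵ₀ < κ →
      ∃ f : Finset E → Set E, (∀ F, #(f F) < κ) ∧
        ∀ M : Set E, #M < κ → (∀ F : Finset E, (F : Set E) ⊆ M → f F ⊆ M) → A \ M ∈ GG)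
    (F : Set E) (hF : ℵ₀ < #F) (hreg : (#F).IsRegular)
    (IH : ∀ F' : Set E, #F' < #F → ∀ A ∈ GG, ∃ M RR, HH GG PP TE A F' M RR)
    (A : Set E) (hA : A ∈ GG) :
    ∃ M RR, HH GG PP TE A F M RR := by
  set μ := #F with hμ
  let I := μ.ord.ToType
  have hne : Nonempty I := by
    rw [Ordinal.nonempty_toType_iff]
    exact hreg.ord_pos.ne'
  have hlim : Order.IsSuccLimit μ.ord := isSuccLimit_ord hF.le
  let o : I → Ordinal.{u} := fun i => tyo i
  have ho : ∀ i, o i < μ.ord := fun i => tyo_lt i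
  have homono : ∀ i j, i ≤ j → o i ≤ o j := fun i j hij => tyo_mono hij
  have hocof : ∀ ρ < μ.ord, ∃ i, ρ < o i := by
    intro ρ hρ
    obtain ⟨i, hi⟩ := tyo_surj (hlim.succ_lt hρ)
    exact ⟨i, by rw [show o i = Order.succ ρ from hi]; exact Order.lt_succ ρ⟩
  have hnomax : NoMaxOrder I := by
    constructor
    intro a
    obtain ⟨i, hi⟩ := hocof _ (ho a)
    exact ⟨i, tyo_lt_iff.1 hi⟩
  obtain ⟨f, hf1, hf2⟩ := CL A hA μ hreg hF
  obtain ⟨f', hf'1, hf'2⟩ := CL A hA (Order.succ μ) (isRegular_succ hF.le)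
    (hF.trans (Order.lt_succ _))
  let Dem : I → Set E → Set E := fun i P => tr F (o i) ∪ ⋃ G : FS P, (f G.1 ∪ tr (f' G.1) (o i))
  have htr : ∀ S : Set E, ∀ i, #(tr S (o i)) < μ := fun S i =>
    (mk_tr_le _ _).trans_lt (lt_ord.1 (ho i))
  have hR2 : ∀ i, ∀ P : Set E, #P < μ → #(Dem i P) < μ ∧ max ℵ₀ #(Dem i P) < μ := by
    intro i P hP
    have h1 : #(Dem i P) < μ := by
      refine mk_un_lt _ _ _ hF.le (htr _ _) ?_
      refine (card_iUnion_lt_iff_forall_of_isRegular hreg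
        ((mk_FS_le P).trans_lt (max_lt hF hP))).2 fun G => ?_
      exact mk_un_lt _ _ _ hF.le (hf1 _) (htr _ _)
    exact ⟨h1, max_lt hF h1⟩
  have key := chain_construct (PP := PP) (TE := TE) hA IH Dem (fun _ c => c < μ)
    (fun i c c' h h' => h.trans_lt h')
    (by
      intro i M hM
      exact (card_iUnion_lt_iff_forall_of_isRegular hreg (mk_Iio_toType_ord_lt (c := μ) i)).2
        fun j => hM j.1 j.2)
    hR2
    (by
      intro i hmin hli hDem hB
      refine hf2 _ hB fun G hG => ?_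
      obtain ⟨j, hj, hj'⟩ := fin_sub hmin hli G hG
      refine Subset.trans ?_ ((hDem j hj).trans (D_sub_PU hj))
      refine Subset.trans ?_ subset_union_right
      refine Subset.trans ?_ (subset_iUnion _ (⟨G, hj'⟩ : FS _))
      exact subset_union_left)
  have hsubD : ∀ i, Dem i (PU GG PP TE A Dem i) ⊆ (D GG PP TE A Dem i).1 :=
    fun i => (key i).2.2.2.sub
  have hcard : #(⋃ i, (D GG PP TE A Dem i).1 : Set E) ≤ μ :=
    mk_iU_le _ _ ((mk_ord_toType μ).le) hF.le fun i => (key i).2.1.le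
  refine chain_glue F Dem (fun i => (key i).2.2.2) ?_ (hcard.trans (le_max_right _ _)) ?_
  · intro x hx
    obtain ⟨i, hi⟩ := hocof _ (rk_lt F hx)
    exact mem_iUnion.2 ⟨i, hsubD i (Or.inl ⟨hx, hi⟩)⟩
  · refine hf'2 _ (hcard.trans_lt (Order.lt_succ _)) fun G hG => ?_
    obtain ⟨j, hj⟩ := fin_sub' G hG
    intro x hx
    obtain ⟨i, hi⟩ := hocof (rk (f' G) x)
      ((rk_lt _ hx).trans_le (ord_le_ord.2 (Order.lt_succ_iff.1 (hf'1 G))))
    refine mem_iUnion.2 ⟨max i j, hsubD _ (Or.inr ?_)⟩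
    refine mem_iUnion.2 ⟨⟨G, hj.trans (PU_mono (le_max_right _ _))⟩, Or.inr ⟨hx, ?_⟩⟩
    exact hi.trans_le (homono _ _ (le_max_left _ _))

theorem case_singular (GG : Set (Set E)) (PP : Set (Finset E)) (TE : Set E)
    (CL : ∀ A ∈ GG, ∀ κ : Cardinal.{u}, κ.IsRegular → ℵ₀ < κ →
      ∃ f : Finset E → Set E, (∀ F, #(f F) < κ) ∧
        ∀ M : Set E, #M < κ → (∀ F : Finset E, (F : Set E) ⊆ M → f F ⊆ M) → A \ M ∈ GG)
    (F : Set E) (hF : ℵ₀ < #F) (hsing : (#F).IsSingular)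
    (IH : ∀ F' : Set E, #F' < #F → ∀ A ∈ GG, ∃ M RR, HH GG PP TE A F' M RR)
    (A : Set E) (hA : A ∈ GG) :
    ∃ M RR, HH GG PP TE A F M RR := by
  set μ := #F with hμ
  set θ := μ.ord.cof with hθ
  have hθμ : θ < μ := hsing.cof_ord_lt
  have hlim : Order.IsSuccLimit μ.ord := isSuccLimit_ord hF.le
  have hθ0 : ℵ₀ ≤ θ := Ordinal.aleph0_le_cof.2 hlim
  obtain ⟨s, hs1, hs2⟩ := Ordinal.exists_ord_cof_eq μ.ord.ToType
  rw [Ordinal.cof_toType, ← hθ] at hs2
  let I := ↥s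
  have hmkI : #I = θ := by
    have := congrArg Ordinal.card hs2
    rwa [card_ord, Ordinal.card_type] at this
  have hIio : ∀ i : I, #(Iio i) < θ := by
    intro i
    rw [← hmkI]
    exact mk_Iio_lt i (by rw [hmkI, hs2])
  have hne0 : Nonempty μ.ord.ToType := by
    rw [Ordinal.nonempty_toType_iff]
    exact (ord_pos.2 (aleph0_pos.trans hF)).ne'
  have hne : Nonempty I := by
    obtain ⟨x, hx, _⟩ := hs1 (Classical.arbitrary _)
    exact ⟨⟨x, hx⟩⟩
  let t : μ.ord.ToType → Ordinal.{u} := fun i => tyo i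
  have ht : ∀ i, t i < μ.ord := fun i => tyo_lt i
  have htmono : ∀ i j, i ≤ j → t i ≤ t j := fun i j hij => tyo_mono hij
  have htsurj : ∀ ρ < μ.ord, ∃ i, t i = ρ := fun ρ hρ => tyo_surj hρ
  have htcof : ∀ ρ < μ.ord, ∃ i : I, ρ < t i.1 := by
    intro ρ hρ
    obtain ⟨x, hx⟩ := htsurj _ (hlim.succ_lt hρ)
    obtain ⟨y, hy, hxy⟩ := hs1 x
    refine ⟨⟨y, hy⟩, lt_of_lt_of_le (Order.lt_succ ρ) ?_⟩
    rw [← hx]
    exact htmono _ _ hxy
  have hnomax : NoMaxOrder I := by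
    constructor
    intro a
    obtain ⟨i, hi⟩ := htcof _ (ht a.1)
    exact ⟨i, tyo_lt_iff.1 hi⟩
  let o : I → Ordinal.{u} := fun i => max θ.ord (⨆ j : Iio i, t j.1.1 + 1)
  have hbdd : ∀ i : I, BddAbove (range fun j : Iio i => t j.1.1 + 1) := fun i =>
    Ordinal.bddAbove_of_small
  have ho : ∀ i, o i < μ.ord := fun i =>
    max_lt (ord_lt_ord.2 hθμ) (Ordinal.iSup_add_one_lt_of_lt_cof (hIio i) fun j => ht _)
  have homono : ∀ i j, i ≤ j → o i ≤ o j := fun i j hij => by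
    refine max_le_max le_rfl ?_
    refine Ordinal.iSup_le fun k => ?_
    exact le_ciSup (hbdd j) (⟨k.1, k.2.trans_le hij⟩ : Iio j)
  have holt : ∀ i j : I, i < j → t i.1 < o j := fun i j hij => by
    refine lt_of_lt_of_le (Order.lt_add_one_iff.2 le_rfl) (le_max_of_le_right ?_)
    exact le_ciSup (hbdd j) (⟨i, hij⟩ : Iio j)
  have hocof : ∀ ρ < μ.ord, ∃ i, ρ < o i := by
    intro ρ hρ
    obtain ⟨i, hi⟩ := htcof ρ hρ
    obtain ⟨j, hj⟩ := exists_gt i
    exact ⟨j, hi.trans (holt i j hj)⟩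
  have hocont : ∀ i : I, (∃ j, j < i) → (∀ j < i, ∃ k, j < k ∧ k < i) → ∀ ρ < o i,
      ∃ j < i, ρ < o j := by
    intro i hmin hli ρ hρ
    rcases lt_max_iff.1 hρ with h | h
    · obtain ⟨j, hj⟩ := hmin
      exact ⟨j, hj, h.trans_le (le_max_left _ _)⟩
    · obtain ⟨j, hj⟩ := (Ordinal.lt_iSup_iff).1 h
      obtain ⟨k, hk, hk'⟩ := hli j.1 j.2
      exact ⟨k, hk', lt_of_le_of_lt (Order.lt_add_one_iff.1 hj) (holt _ _ hk)⟩
  have hoθ : ∀ i, θ ≤ (o i).card := fun i => by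
    rw [← ord_le]
    exact le_max_left _ _
  have hoinf : ∀ i, ℵ₀ ≤ (o i).card := fun i => hθ0.trans (hoθ i)
  have hcm : ∀ i j, i ≤ j → (o i).card ≤ (o j).card := fun i j h =>
    Ordinal.card_le_card (homono i j h)
  have hfc : ∀ c : I, ∃ f : Finset E → Set E, (∀ F, #(f F) < Order.succ (o c).card) ∧
        ∀ M : Set E, #M < Order.succ (o c).card →
          (∀ F : Finset E, (F : Set E) ⊆ M → f F ⊆ M) → A \ M ∈ GG := fun c =>
    CL A hA _ (isRegular_succ (hoinf c)) ((hoinf c).trans_lt (Order.lt_succ _))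
  choose f hf1 hf2 using hfc
  obtain ⟨f', hf'1, hf'2⟩ := CL A hA (Order.succ μ) (isRegular_succ hF.le)
    (hF.trans (Order.lt_succ _))
  let Dem : I → Set E → Set E := fun i P =>
    tr F (o i) ∪ ⋃ G : FS P, (tr (f' G.1) (o i) ∪ ⋃ c : I, tr (f c G.1) (o i))
  have hR2 : ∀ i, ∀ P : Set E, #P ≤ (o i).card →
      #(Dem i P) < μ ∧ max ℵ₀ #(Dem i P) ≤ (o i).card := by
    intro i P hP
    have h1 : #(Dem i P) ≤ (o i).card := by
      refine mk_un_le _ _ _ (hoinf i) (mk_tr_le _ _) ?_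
      refine mk_iU_le _ _ ((mk_FS_le P).trans (max_le (hoinf i) hP)) (hoinf i) fun G => ?_
      refine mk_un_le _ _ _ (hoinf i) (mk_tr_le _ _) ?_
      exact mk_iU_le _ _ (hmkI.le.trans (hoθ i)) (hoinf i) fun c => mk_tr_le _ _
    exact ⟨h1.trans_lt (lt_ord.1 (ho i)), max_le (hoinf i) h1⟩
  have key := chain_construct (PP := PP) (TE := TE) hA IH Dem (fun i c => c ≤ (o i).card)
    (fun i c c' h h' => h.trans h')
    (by
      intro i M hM
      exact mk_iU_le _ _ ((hIio i).le.trans (hoθ i)) (hoinf i)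
        fun j => (hM j.1 j.2).trans (hcm _ _ (le_of_lt j.2)))
    hR2
    (by
      intro i hmin hli hDem hB
      refine hf2 i _ (hB.trans_lt (Order.lt_succ _)) fun G hG => ?_
      obtain ⟨j, hj, hj'⟩ := fin_sub hmin hli G hG
      intro x hx
      have h1 : rk (f i G) x < o i :=
        ((rk_lt _ hx).trans_le (ord_le_ord.2 (Order.lt_succ_iff.1 (hf1 i G)))).trans_le
          (ord_card_le _)
      obtain ⟨k, hk, hk'⟩ := hocont i hmin hli _ h1
      refine D_sub_PU (max_lt hj hk) (hDem _ (max_lt hj hk) (Or.inr ?_))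
      refine mem_iUnion.2 ⟨⟨G, hj'.trans (PU_mono (le_max_left _ _))⟩, Or.inr ?_⟩
      exact mem_iUnion.2 ⟨i, hx, hk'.trans_le (homono _ _ (le_max_right _ _))⟩)
  have hsubD : ∀ i, Dem i (PU GG PP TE A Dem i) ⊆ (D GG PP TE A Dem i).1 :=
    fun i => (key i).2.2.2.sub
  have hcard : #(⋃ i, (D GG PP TE A Dem i).1 : Set E) ≤ μ :=
    mk_iU_le _ _ (hmkI.le.trans hθμ.le) hF.le
      fun i => (key i).2.1.trans (lt_ord.1 (ho i)).le
  refine chain_glue F Dem (fun i => (key i).2.2.2) ?_ (hcard.trans (le_max_right _ _)) ?_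
  · intro x hx
    obtain ⟨i, hi⟩ := hocof _ (rk_lt F hx)
    exact mem_iUnion.2 ⟨i, hsubD i (Or.inl ⟨hx, hi⟩)⟩
  · refine hf'2 _ (hcard.trans_lt (Order.lt_succ _)) fun G hG => ?_
    obtain ⟨j, hj⟩ := fin_sub' G hG
    intro x hx
    obtain ⟨i, hi⟩ := hocof (rk (f' G) x)
      ((rk_lt _ hx).trans_le (ord_le_ord.2 (Order.lt_succ_iff.1 (hf'1 G))))
    refine mem_iUnion.2 ⟨max i j, hsubD _ (Or.inr ?_)⟩
    refine mem_iUnion.2 ⟨⟨G, hj.trans (PU_mono (le_max_right _ _))⟩, Or.inl ⟨hx, ?_⟩⟩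
    exact hi.trans_le (homono _ _ (le_max_left _ _))

theorem main (GG : Set (Set E)) (PP : Set (Finset E)) (TE : Set E)
    (OS : ∀ A ∈ GG, ∀ e ∈ A ∩ TE, ∃ R ∈ PP, e ∈ R ∧ (R : Set E) ⊆ A ∧ A \ (R : Set E) ∈ GG)
    (CL : ∀ A ∈ GG, ∀ κ : Cardinal.{u}, κ.IsRegular → ℵ₀ < κ →
      ∃ f : Finset E → Set E, (∀ F, #(f F) < κ) ∧
        ∀ M : Set E, #M < κ → (∀ F : Finset E, (F : Set E) ⊆ M → f F ⊆ M) → A \ M ∈ GG) :
    ∀ μ : Cardinal.{u}, ∀ F : Set E, #F = μ → ∀ A ∈ GG, ∃ M RR, HH GG PP TE A F M RR := by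
  intro μ
  induction μ using WellFoundedLT.induction with
  | ind μ ih =>
    intro F hF A hA
    subst hF
    have IH : ∀ F' : Set E, #F' < #F → ∀ A ∈ GG, ∃ M RR, HH GG PP TE A F' M RR :=
      fun F' hF' A hA => ih _ hF' F' rfl A hA
    rcases le_or_gt #F ℵ₀ with h | h
    · exact case_countable GG PP TE OS CL F h A hA
    · rcases isRegular_or_isSingular h.le with h' | h'
      · exact case_regular GG PP TE CL F h h' IH A hA
      · exact case_singular GG PP TE CL F h h' IH A hA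

end AM

/-- W3: the cardinal induction. -/
theorem abstract_main {E : Type u} (GG : Set (Set E)) (PP : Set (Finset E)) (TE : Set E)
    (OS : ∀ A ∈ GG, ∀ e ∈ A ∩ TE, ∃ R ∈ PP, e ∈ R ∧ (R : Set E) ⊆ A ∧ A \ (R : Set E) ∈ GG)
    (CL : ∀ A ∈ GG, ∀ κ : Cardinal.{u}, κ.IsRegular → ℵ₀ < κ →
      ∃ f : Finset E → Set E, (∀ F, #(f F) < κ) ∧
        ∀ M : Set E, #M < κ → (∀ F : Finset E, (F : Set E) ⊆ M → f F ⊆ M) → A \ M ∈ GG) :
    ∀ A ∈ GG, ∃ RR ⊆ PP, (∀ R ∈ RR, (R : Set E) ⊆ A) ∧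
      (∀ R ∈ RR, ∀ R' ∈ RR, ∀ e, e ∈ R → e ∈ R' → R = R') ∧ ∀ e ∈ A ∩ TE, ∃ R ∈ RR, e ∈ R := by
  intro A hA
  obtain ⟨M, RR, h⟩ := AM.main GG PP TE OS CL _ A rfl A hA
  refine ⟨RR, h.pp, fun R hR => (h.inn R hR).trans inter_subset_left, h.disj, ?_⟩
  rintro e ⟨he, he'⟩
  exact h.cov e ⟨⟨he, h.sub he⟩, he'⟩

end Pool.Agent.LC
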