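import Pool.Agent.Lib_helper64.Clo

set_option autoImplicit false

open Cardinal Set

namespace Pool.Agent.LC

universe u

namespace CL4

/-- an enumeration of a set by ordinals below its cardinality -/
lemma exists_rk {E : Type u} (S : Set E) :
    ∃ ρ : E → Ordinal.{u}, InjOn ρ S ∧ ∀ x ∈ S, ρ x < (#S).ord := by
  classical
  obtain ⟨r, hr, hr'⟩ := exists_ord_eq S
  refine ⟨fun x => if h : x ∈ S then Ordinal.typein r ⟨x, h⟩ else 0, ?_, ?_⟩
  · intro x hx y hy h
    simp only [hx, hy, dif_pos] at h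
    have := (Ordinal.typein_injective r) h
    simpa using this
  · intro x hx
    simp only [hx, dif_pos]
    rw [hr']
    exact Ordinal.typein_lt_type r _

/-- rank of an element in a set -/
noncomputable def rk {E : Type u} (S : Set E) : E → Ordinal.{u} := (exists_rk S).choose

lemma rk_inj {E : Type u} (S : Set E) : InjOn (rk S) S := (exists_rk S).choose_spec.1
lemma rk_lt {E : Type u} (S : Set E) {x : E} (hx : x ∈ S) : rk S x < (#S).ord :=
  (exists_rk S).choose_spec.2 x hx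

/-- the ordinal of an element of `o.ToType` -/
noncomputable def tyo {o : Ordinal.{u}} (i : o.ToType) : Ordinal.{u} :=
  (Ordinal.ToType.mk.symm i : Set.Iio o).1

lemma tyo_lt {o : Ordinal.{u}} (i : o.ToType) : tyo i < o := (Ordinal.ToType.mk.symm i).2

lemma tyo_lt_iff {o : Ordinal.{u}} {i j : o.ToType} : tyo i < tyo j ↔ i < j := by
  unfold tyo
  rw [Subtype.coe_lt_coe]
  exact (Ordinal.ToType.mk (o := o)).symm.lt_iff_lt

lemma tyo_surj {o : Ordinal.{u}} {ρ : Ordinal.{u}} (h : ρ < o) : ∃ i : o.ToType, tyo i = ρ :=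
  ⟨Ordinal.ToType.mk ⟨ρ, h⟩, by simp [tyo]⟩

variable {E : Type u} {V : Type*}

/-- darts based in `Nj` whose tail is in `J` -/
def DS (J : Set V) (τ : E × Bool → V) (Nj : Set E) : Set (E × Bool) := {b | b.1 ∈ Nj ∧ τ b ∈ J}

open Classical in
/-- the label of the dart of rank `ρ` -/
noncomputable def xv (J : Set V) (x0 : V) (τ : E × Bool → V) (Nj : Set E) (ρ : Ordinal.{u}) : V :=
  if h : ∃ b ∈ DS J τ Nj, rk (DS J τ Nj) b = ρ then τ h.choose else x0

lemma xv_mem (J : Set V) (x0 : V) (hx0 : x0 ∈ J) (τ : E × Bool → V) (Nj : Set E)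
    (ρ : Ordinal.{u}) : xv J x0 τ Nj ρ ∈ J := by
  rw [xv]
  split_ifs with h
  · exact h.choose_spec.1.2
  · exact hx0

lemma xv_eq (J : Set V) (x0 : V) (τ : E × Bool → V) (Nj : Set E) (b : E × Bool)
    (hb : b ∈ DS J τ Nj) : xv J x0 τ Nj (rk (DS J τ Nj) b) = τ b := by
  have h : ∃ b' ∈ DS J τ Nj, rk (DS J τ Nj) b' = rk (DS J τ Nj) b := ⟨b, hb, rfl⟩
  rw [xv, dif_pos h]
  congr 1
  exact rk_inj _ h.choose_spec.1 hb h.choose_spec.2

open Classical in
/-- the set chosen at stage `i` -/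
noncomputable def nst (κ : Cardinal.{u}) (S : V → Set (Set E)) (f : Finset E → Set E) (x : V) :
    Set E :=
  if h : ∃ N ∈ S x, #N < κ ∧ Closd f N then h.choose else ∅

lemma nst_spec (κ : Cardinal.{u}) (S : V → Set (Set E)) (f : Finset E → Set E) (x : V)
    (h : ∃ N ∈ S x, #N < κ ∧ Closd f N) :
    nst κ S f x ∈ S x ∧ #(nst κ S f x) < κ ∧ Closd f (nst κ S f x) := by
  rw [nst, dif_pos h]
  exact h.choose_spec

open Classical in
/-- the recursion step -/
noncomputable def stp {I : Type u} [LinearOrder I] (κ : Cardinal.{u})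
    (J : Set V) (x0 : V) (S : V → Set (Set E)) (g : V → Set E → Finset E → Set E)
    (τ : E × Bool → V) (rI : I → Ordinal.{u}) (π : I → I × I) (i : I)
    (ih : ∀ j, j < i → V × Set E) : V × Set E :=
  let x : V := if h : (π i).1 < i then xv J x0 τ (ih _ h).2 (rI (π i).2) else x0
  (x, nst κ S (fun F => ⋃ j : Set.Iio i, ((ih j.1 j.2).2 ∪ g (ih j.1 j.2).1 (ih j.1 j.2).2 F)) x)

/-- the recursion -/
noncomputable def rec {I : Type u} [LinearOrder I] [WellFoundedLT I] (κ : Cardinal.{u})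
    (J : Set V) (x0 : V) (S : V → Set (Set E)) (g : V → Set E → Finset E → Set E)
    (τ : E × Bool → V) (rI : I → Ordinal.{u}) (π : I → I × I) : I → V × Set E :=
  (wellFounded_lt (α := I)).fix (stp κ J x0 S g τ rI π)

lemma rec_eq {I : Type u} [LinearOrder I] [WellFoundedLT I] (κ : Cardinal.{u})
    (J : Set V) (x0 : V) (S : V → Set (Set E)) (g : V → Set E → Finset E → Set E)
    (τ : E × Bool → V) (rI : I → Ordinal.{u}) (π : I → I × I) (i : I) :
    rec κ J x0 S g τ rI π i = stp κ J x0 S g τ rI π i fun j _ => rec κ J x0 S g τ rI π j := by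
  rw [rec, WellFounded.fix_eq]

end CL4

open CL4 in
/-- W4: the chain lemma (bookkeeping). -/
theorem chain_lemma {E : Type u} {V : Type*} {D : Type*} (κ : Cardinal.{u}) (hκ : κ.IsRegular)
    (hκ0 : ℵ₀ < κ) (J : Set V) (hJ : J.Nonempty) (S : V → Set (Set E))
    (hS : ∀ x ∈ J, Stat κ (S x))
    (g : V → Set E → Finset E → Set E) (hg : ∀ x ∈ J, ∀ N ∈ S x, ∀ F, #(g x N F) < κ)
    (τ : E × Bool → V) :
    ∃ (I : Type u) (_ : LinearOrder I) (_ : WellFoundedLT I) (_ : NoMaxOrder I) (_ : Nonempty I)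
      (N : I → Set E) (x : I → V) (m : E × Bool → I),
      (∀ i, x i ∈ J ∧ N i ∈ S (x i) ∧ #(N i) < κ) ∧
      (∀ i j, i < j → N i ⊆ N j ∧ Closd (g (x i) (N i)) (N j)) ∧
      (∀ b : E × Bool, (∃ i, b.1 ∈ N i) → τ b ∈ J → b.1 ∈ N (m b) ∧ x (m b) = τ b) ∧
      (∀ b b' : E × Bool, (∃ i, b.1 ∈ N i) → (∃ i, b'.1 ∈ N i) → τ b ∈ J → τ b' ∈ J →
        m b = m b' → b = b') := by
  classical
  obtain ⟨x0, hx0⟩ := hJ
  have hlim : Order.IsSuccLimit κ.ord := isSuccLimit_ord hκ0.le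
  have hne : Nonempty κ.ord.ToType := by
    rw [Ordinal.nonempty_toType_iff]
    exact hκ.ord_pos.ne'
  have hnomax : NoMaxOrder κ.ord.ToType := by
    constructor
    intro a
    obtain ⟨i, hi⟩ := tyo_surj (hlim.succ_lt (tyo_lt a))
    exact ⟨i, tyo_lt_iff.1 (by rw [hi]; exact Order.lt_succ _)⟩
  have hmk : #κ.ord.ToType = κ := mk_ord_toType κ
  have hIio : ∀ i : κ.ord.ToType, #(Iio i) < κ := fun i => mk_Iio_toType_ord_lt i
  obtain ⟨π, hπ⟩ : ∃ π : κ.ord.ToType → κ.ord.ToType × κ.ord.ToType,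
      ∀ p, ∀ i, ∃ j, i < j ∧ π j = p := by
    have h1 : #κ.ord.ToType = #((κ.ord.ToType × κ.ord.ToType) × κ.ord.ToType) := by
      rw [mk_prod, mk_prod]
      simp only [Cardinal.lift_id, hmk]
      rw [mul_eq_self hκ0.le, mul_eq_self hκ0.le]
    obtain ⟨ψ⟩ := Cardinal.eq.1 h1
    refine ⟨fun i => (ψ i).1, fun p i => ?_⟩
    by_contra hcon
    push Not at hcon
    have h2 : #κ.ord.ToType ≤ #(Iic i) := by
      refine mk_le_of_injective (f := fun k => (⟨ψ.symm (p, k), ?_⟩ : Iic i)) ?_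
      · by_contra h
        exact hcon _ (not_le.1 h) (by simp)
      · intro a b hab
        have : ψ.symm (p, a) = ψ.symm (p, b) := congrArg Subtype.val hab
        simpa using this
    obtain ⟨j, hj⟩ := exists_gt i
    have h3 : #(Iic i) ≤ #(Iio j) := mk_le_mk_of_subset (Iic_subset_Iio.2 hj)
    exact absurd (h2.trans h3) (not_le.2 (by rw [hmk]; exact hIio j))
  let R := rec κ J x0 S g τ (fun i : κ.ord.ToType => tyo i) π
  have hR1 : ∀ i, (R i).1 = if (π i).1 < i then xv J x0 τ (R (π i).1).2 (tyo (π i).2) else x0 :=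
    fun i => by
      show (rec _ _ _ _ _ _ _ _ _).1 = _
      rw [rec_eq, stp]
      simp only
      split_ifs <;> rfl
  have hR2 : ∀ i, (R i).2 = nst κ S (fun F => ⋃ j : Set.Iio i, ((R j.1).2 ∪
      g (R j.1).1 (R j.1).2 F)) (R i).1 := fun i => by
    show (rec _ _ _ _ _ _ _ _ _).2 = nst κ S _ (rec _ _ _ _ _ _ _ _ _).1
    rw [rec_eq]
    rfl
  have hx : ∀ i, (R i).1 ∈ J := by
    intro i
    rw [hR1]
    split_ifs with h
    · exact xv_mem _ _ hx0 _ _ _
    · exact hx0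
  have hmain : ∀ i, (R i).2 ∈ S (R i).1 ∧ #((R i).2) < κ ∧
      Closd (fun F => ⋃ j : Set.Iio i, ((R j.1).2 ∪ g (R j.1).1 (R j.1).2 F)) (R i).2 := by
    intro i
    induction i using WellFoundedLT.induction with
    | ind i ih =>
      rw [hR2 i]
      refine nst_spec _ _ _ _ (hS _ (hx i) _ fun F => ?_)
      refine (card_iUnion_lt_iff_forall_of_isRegular hκ (hIio i)).2 fun j => ?_
      refine (mk_union_le _ _).trans_lt (add_lt_of_lt hκ0.le (ih j.1 j.2).2.1 ?_)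
      exact hg _ (hx j.1) _ (ih j.1 j.2).1 F
  have hlt : ∀ i j, i < j → (R i).2 ⊆ (R j).2 ∧ Closd (g (R i).1 (R i).2) (R j).2 := by
    intro i j hij
    have h1 := (hmain j).2.2
    constructor
    · intro e he
      exact h1 ∅ (by simp) (mem_iUnion.2 ⟨⟨i, hij⟩, Or.inl he⟩)
    · intro F hF e he
      exact h1 F hF (mem_iUnion.2 ⟨⟨i, hij⟩, Or.inr he⟩)
  -- demands
  have hdem : ∀ b : E × Bool, ∃ i, (∃ i, b.1 ∈ (R i).2) → τ b ∈ J →
      (π i).1 < i ∧ b.1 ∈ (R (π i).1).2 ∧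
      rk (DS J τ (R (π i).1).2) b = tyo (π i).2 := by
    intro b
    by_cases h : (∃ i, b.1 ∈ (R i).2) ∧ τ b ∈ J
    · obtain ⟨⟨j, hj⟩, hb⟩ := h
      have h1 : rk (DS J τ (R j).2) b < κ.ord := by
        refine (rk_lt (DS J τ (R j).2) ⟨hj, hb⟩).trans (ord_lt_ord.2 ?_)
        have h2 : #(DS J τ (R j).2) ≤ #((R j).2 × Bool) := by
          refine mk_le_of_injective
            (f := fun b : DS J τ (R j).2 => (⟨b.1.1, b.2.1⟩, b.1.2)) ?_
          intro b b' hbb
          have h3 := congrArg (fun p : (R j).2 × Bool => (p.1.1, p.2)) hbb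
          exact Subtype.ext h3
        refine h2.trans_lt ?_
        rw [mk_prod]
        simp only [Cardinal.lift_id, Cardinal.lift_uzero]
        refine mul_lt_of_lt hκ0.le (hmain j).2.1 ?_
        refine lt_of_le_of_lt ?_ hκ0
        exact (Cardinal.lt_aleph0_of_finite _).le.trans (by simp)
      obtain ⟨k, hk⟩ := tyo_surj h1
      obtain ⟨i, hi, hi'⟩ := hπ (j, k) j
      refine ⟨i, fun _ _ => ?_⟩
      rw [hi']
      exact ⟨hi, hj, hk.symm⟩
    · exact ⟨Classical.arbitrary _, fun h1 h2 => absurd ⟨h1, h2⟩ h⟩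
  choose m hm using hdem
  refine ⟨κ.ord.ToType, inferInstance, inferInstance, hnomax, hne, fun i => (R i).2,
    fun i => (R i).1, m, fun i => ⟨hx i, (hmain i).1, (hmain i).2.1⟩, hlt, ?_, ?_⟩
  · intro b hb hb'
    obtain ⟨h1, h2, h3⟩ := hm b hb hb'
    refine ⟨(hlt _ _ h1).1 h2, ?_⟩
    show (R (m b)).1 = τ b
    rw [hR1, if_pos h1, ← h3]
    exact xv_eq _ _ _ _ _ ⟨h2, hb'⟩
  · intro b b' hb hb' h h' hbb
    obtain ⟨h1, h2, h3⟩ := hm b hb h
    obtain ⟨k1, k2, k3⟩ := hm b' hb' h'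
    rw [← hbb] at k1 k2 k3
    exact rk_inj (DS J τ (R (π (m b)).1).2) ⟨h2, h⟩ ⟨k2, h'⟩ (h3.trans k3.symm)

end Pool.Agent.LC
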