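import Pool.Agent.Lib_helper64.Zorn
import Pool.Agent.Lib_helper64.Chain

set_option autoImplicit false
set_option linter.unusedVariables false

open Cardinal

namespace Pool.Agent.LC

universe u uV uE uI uJ

namespace C1

/-- the trivial wave -/
lemma lk_triv {V : Type uV} {E : Type uE} (G : E → Bool → V) (A : Set E) (S : Set V) :
    Lk G A S S ∅ {L | ∃ b ∈ Lv G A S, L = [b]} := by
  refine ⟨⟨?_, ?_⟩, ?_, ?_⟩
  · rintro L ⟨b, hb, rfl⟩
    refine ⟨by simp, ⟨tl G b, hb.2.1, hd G b, rfl, rfl⟩, by simp, ?_, ?_, ?_⟩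
    · intro d hd; rw [List.mem_singleton.1 hd]; exact hb.1
    · intro d hd; rw [List.mem_singleton.1 hd]; exact hb.2.2
    · intro d hd; rw [List.mem_singleton.1 hd]; exact hb.2.1
  · rintro L ⟨b, hb, rfl⟩ L' ⟨b', hb', rfl⟩ d hd d' hd' he
    rw [List.mem_singleton.1 hd, List.mem_singleton.1 hd'] at he
    rcases eq_or_eq_rv he with h1 | h1
    · rw [h1]
    · exfalso
      apply hb.2.2
      have := hb'.2.1
      rw [h1] at this
      simpa using this
  · rintro L ⟨b, hb, rfl⟩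
    exact ⟨b, ⟨hb, by simp⟩, by simp⟩
  · rintro b ⟨hb, _⟩
    exact ⟨[b], ⟨b, hb, rfl⟩, by simp⟩

section basic

variable {V : Type uV} {E : Type uE} {G : E → Bool → V} {A A' B : Set E} {S X X' P : Set V}
  {W : Set (List (E × Bool))}

lemma IsTr.mono' {L : List (E × Bool)} (h : IsTr G A S X L) (hA : A ⊆ A') (hX : X ⊆ X') :
    IsTr G A' S X' L :=
  ⟨h.ne, h.wk, h.nodup, fun d hd => hA (h.sub d hd), h.hdS, fun d hd => hX (h.tlX d hd)⟩

/-- restriction of a linkage to a layer of edges -/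
lemma Lk.layer (h : Lk G A S X ∅ W) (hBA : B ⊆ A)
    (hc : ∀ L ∈ W, ∀ d ∈ L, d.1 ∈ B → ∀ d' ∈ L, d'.1 ∈ B) :
    Lk G B S X ∅ {L | L ∈ W ∧ ∀ d ∈ L, d.1 ∈ B} := by
  refine ⟨⟨?_, ?_⟩, ?_, ?_⟩
  · rintro L ⟨hL, hB⟩
    have := h.tr L hL
    exact ⟨this.ne, this.wk, this.nodup, hB, this.hdS, this.tlX⟩
  · rintro L ⟨hL, _⟩ L' ⟨hL', _⟩
    exact h.disj L hL L' hL'
  · rintro L ⟨hL, hB⟩
    obtain ⟨b, hb, hl⟩ := h.last L hL
    exact ⟨b, ⟨⟨hB b (mem_of_getLast? hl), hb.1.2⟩, by simp⟩, hl⟩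
  · rintro b ⟨hb, _⟩
    obtain ⟨L, hL, hl⟩ := h.cov b ⟨⟨hBA hb.1, hb.2⟩, by simp⟩
    exact ⟨L, ⟨hL, hc L hL b (mem_of_getLast? hl) hb.1⟩, hl⟩

/-- the edges of the trails of a system meeting a finite set are finitely many -/
lemma meet_finite (h : Sys G A S X W) (F : Finset E) :
    {e | ∃ R ∈ W, (∃ d ∈ R, d.1 ∈ F) ∧ ∃ d ∈ R, d.1 = e}.Finite := by
  classical
  have h1 : {R | R ∈ W ∧ ∃ d ∈ R, d.1 ∈ F}.Finite := by
    have : {R | R ∈ W ∧ ∃ d ∈ R, d.1 ∈ F} = ⋃ e ∈ (F : Set E), {R | R ∈ W ∧ ∃ d ∈ R, d.1 = e} := by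
      ext R
      simp only [Set.mem_iUnion, Set.mem_ofPred_eq, Finset.mem_coe]
      constructor
      · rintro ⟨hR, d, hd, hF⟩
        exact ⟨d.1, hF, hR, d, hd, rfl⟩
      · rintro ⟨e, he, hR, d, hd, rfl⟩
        exact ⟨hR, d, hd, he⟩
    rw [this]
    refine F.finite_toSet.biUnion ?_
    intro e _
    apply Set.Subsingleton.finite
    rintro R ⟨hR, d, hd, he⟩ R' ⟨hR', d', hd', he'⟩
    exact h.disj R hR R' hR' d hd d' hd' (he.trans he'.symm)
  have h2 : {e | ∃ R ∈ W, (∃ d ∈ R, d.1 ∈ F) ∧ ∃ d ∈ R, d.1 = e} ⊆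
      ⋃ R ∈ {R | R ∈ W ∧ ∃ d ∈ R, d.1 ∈ F}, {e | e ∈ R.map Prod.fst} := by
    rintro e ⟨R, hR, hF, d, hd, rfl⟩
    simp only [Set.mem_iUnion, Set.mem_ofPred_eq]
    exact ⟨R, ⟨hR, hF⟩, List.mem_map.2 ⟨d, hd, rfl⟩⟩
  refine (h1.biUnion ?_).subset h2
  intro R _
  exact List.finite_toSet _

end basic

section chain

variable {V : Type uV} {E : Type uE} {I : Type uJ} [LinearOrder I]

/-- the layers -/
def Bl (A : Set E) (N : I → Set E) (o : WithTop I) : Set E :=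
  {e | e ∈ A ∧ (∀ j : I, (j : WithTop I) < o → e ∉ N j) ∧ ∀ i : I, o = (i : WithTop I) → e ∈ N i}

/-- the union of the regions below -/
def Ul (S : Set V) (P : I → Set V) (o : WithTop I) : Set V :=
  {v | v ∈ S ∨ ∃ j : I, (j : WithTop I) < o ∧ v ∈ P j}

lemma Bl_unique {A : Set E} {N : I → Set E} {o o' : WithTop I} {e : E} (h : e ∈ Bl A N o)
    (h' : e ∈ Bl A N o') : o = o' := by
  have key : ∀ o o' : WithTop I, e ∈ Bl A N o → e ∈ Bl A N o' → ¬ o < o' := by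
    intro o o' h h' hlt
    cases o with
    | top => exact absurd hlt (by simp)
    | coe i => exact h'.2.1 i hlt (h.2.2 i rfl)
  rcases lt_trichotomy o o' with h1 | h1 | h1
  · exact absurd h1 (key _ _ h h')
  · exact h1
  · exact absurd h1 (key _ _ h' h)

lemma exists_Bl [WellFoundedLT I] {A : Set E} (N : I → Set E) {e : E} (he : e ∈ A) :
    ∃ o, e ∈ Bl A N o := by
  classical
  by_cases h : ∃ i, e ∈ N i
  · have hne : {i | e ∈ N i}.Nonempty := h
    refine ⟨((wellFounded_lt.min {i | e ∈ N i} hne : I) : WithTop I), he, ?_, ?_⟩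
    · intro j hj hjN
      exact wellFounded_lt.not_lt_min {i | e ∈ N i} hjN (WithTop.coe_lt_coe.1 hj)
    · intro i hi
      have := WithTop.coe_injective hi
      rw [← this]
      exact wellFounded_lt.min_mem {i | e ∈ N i} hne
  · push Not at h
    exact ⟨⊤, he, fun j _ => h j, fun i hi => absurd hi.symm (by simp)⟩

end chain

theorem chain_build {V : Type uV} {E : Type uE} {G : E → Bool → V} {A : Set E} {S : Set V}
    {I : Type uJ} [LinearOrder I] [WellFoundedLT I] [Nonempty I]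
    (N : I → Set E) (P : I → Set V) (x : I → V) (m : E × Bool → I)
    (W1 W2 : I → Set (List (E × Bool))) (L : I → List (E × Bool))
    (hSP : ∀ i, S ⊆ P i)
    (hmono : ∀ i j, i < j → N i ⊆ N j)
    (hW1 : ∀ i, Lk G (A \ N i) S (P i) ∅ (W1 i))
    (hst : ∀ i, St G (A \ N i) S (P i) ∅ (W2 i) (L i) (x i))
    (hx : ∀ i, x i ∈ P i)
    (hc1 : ∀ i j, i < j → ∀ R ∈ W1 i, ∀ d ∈ R, d.1 ∈ N j → ∀ d' ∈ R, d'.1 ∈ N j)
    (hc2 : ∀ i j, i < j → ∀ R ∈ W2 i, ∀ d ∈ R, d.1 ∈ N j → ∀ d' ∈ R, d'.1 ∈ N j)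
    (hc3 : ∀ i j, i < j → ∀ d ∈ L i, d.1 ∈ N j)
    (hJ : ∀ k, ∀ b : E × Bool, b.1 ∈ N k → tl G b ∈ P k \ S → b.1 ∈ N (m b) ∧ x (m b) = tl G b)
    (hinj : ∀ b b' : E × Bool, (∃ k, b.1 ∈ N k ∧ tl G b ∈ P k \ S) →
      (∃ k, b'.1 ∈ N k ∧ tl G b' ∈ P k \ S) → m b = m b' → b = b') :
    ∃ W, Lk G A S (⋃ i, P i) ∅ W := by
  classical
  have hmono' : ∀ i j, i ≤ j → N i ⊆ N j := by
    intro i j hij
    rcases hij.lt_or_eq with h | h
    · exact hmono i j h
    · rw [h]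
  -- trails meeting a layer stay in the layer
  have hstay : ∀ (WW : I → Set (List (E × Bool))),
      (∀ i, Lk G (A \ N i) S (P i) ∅ (WW i)) →
      (∀ i j, i < j → ∀ R ∈ WW i, ∀ d ∈ R, d.1 ∈ N j → ∀ d' ∈ R, d'.1 ∈ N j) →
      ∀ (o : WithTop I) (j : I), (j : WithTop I) < o → ∀ R ∈ WW j, ∀ d ∈ R, d.1 ∈ Bl A N o →
        ∀ d' ∈ R, d'.1 ∈ Bl A N o := by
    intro WW hWW hc o j hj R hR d hd hdo d' hd'
    have hsub := ((hWW j).tr R hR).sub
    refine ⟨(hsub d' hd').1, ?_, ?_⟩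
    · intro k hk hkN
      rcases le_or_gt k j with h | h
      · exact (hsub d' hd').2 (hmono' k j h hkN)
      · exact hdo.2.1 k hk (hc j k h R hR d' hd' hkN d hd)
    · intro i hi
      subst hi
      exact hc j i (WithTop.coe_lt_coe.1 hj) R hR d hd (hdo.2.2 i rfl) d' hd'
  have hBsub : ∀ (o : WithTop I) (j : I), (j : WithTop I) < o → Bl A N o ⊆ A \ N j := by
    intro o j hj e he
    exact ⟨he.1, he.2.1 j hj⟩
  have hlay : ∀ (WW : I → Set (List (E × Bool))),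
      (∀ i, Lk G (A \ N i) S (P i) ∅ (WW i)) →
      (∀ i j, i < j → ∀ R ∈ WW i, ∀ d ∈ R, d.1 ∈ N j → ∀ d' ∈ R, d'.1 ∈ N j) →
      ∀ (o : WithTop I) (j : I), (j : WithTop I) < o →
        Lk G (Bl A N o) S (P j) ∅ {R | R ∈ WW j ∧ ∀ d ∈ R, d.1 ∈ Bl A N o} := by
    intro WW hWW hc o j hj
    exact Lk.layer (hWW j) (hBsub o j hj) (fun R hR => hstay WW hWW hc o j hj R hR)
  have hlk2 : ∀ i, Lk G (A \ N i) S (P i) ∅ (W2 i) := fun i => (hst i).lk
  -- linkages in the layers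
  have hlayer : ∀ o : WithTop I, ∃ Wo, Lk G (Bl A N o) S (Ul S P o) ∅ Wo ∧
      ∀ j, (∃ d ∈ L j, d.1 ∈ Bl A N o) → ∀ R ∈ Wo, EDisj R (L j) := by
    intro o
    have hXX : ∀ X ∈ {X | ∃ j : I, (j : WithTop I) < o ∧ X = P j},
        ∃ W, Lk G (Bl A N o) S X ∅ W := by
      rintro X ⟨j, hj, rfl⟩
      exact ⟨_, hlay W1 hW1 hc1 o j hj⟩
    have hprop : ∀ j, (∃ d ∈ L j, d.1 ∈ Bl A N o) →
        (j : WithTop I) < o ∧ ∀ k : I, (k : WithTop I) < o → k ≤ j := by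
      rintro j ⟨d, hd, hdo⟩
      have hdj := ((hst j).tr.sub d hd).2
      constructor
      · by_contra hcon
        rw [not_lt] at hcon
        cases o with
        | top => exact absurd hcon (by simp)
        | coe i =>
          exact hdj (hmono' i j (WithTop.coe_le_coe.1 hcon) (hdo.2.2 i rfl))
      · intro k hk
        by_contra hcon
        rw [not_le] at hcon
        exact hdo.2.1 k hk (hc3 j k hcon d hd)
    by_cases hex : ∃ j : I, (j : WithTop I) < o ∧ ∀ k : I, (k : WithTop I) < o → k ≤ j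
    · obtain ⟨j, hj, hjmax⟩ := hex
      obtain ⟨W, hW, hext⟩ := wave_union (G := G) (A := Bl A N o) (S := S) (X0 := P j) (hSP j)
        (hlay W2 hlk2 hc2 o j hj) _ hXX
      have hU : P j ∪ ⋃₀ {X | ∃ j : I, (j : WithTop I) < o ∧ X = P j} = Ul S P o := by
        ext v
        constructor
        · rintro (hv | ⟨X, ⟨k, hk, rfl⟩, hv⟩)
          · exact Or.inr ⟨j, hj, hv⟩
          · exact Or.inr ⟨k, hk, hv⟩
        · rintro (hv | ⟨k, hk, hv⟩)
          · exact Or.inl (hSP j hv)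
          · exact Or.inr ⟨_, ⟨k, hk, rfl⟩, hv⟩
      rw [hU] at hW hext
      refine ⟨W, hW, ?_⟩
      intro j' hj' R hR a ha c hc he
      have hjj : j' = j := by
        obtain ⟨h1, h2⟩ := hprop j' hj'
        exact le_antisymm (hjmax j' h1) (h2 j hj)
      subst hjj
      -- both ends of c are in P j
      have hct : tl G c ∈ P j' := (hst j').tr.tlX c hc
      obtain ⟨u, hu, hwk⟩ := (hst j').wk
      have hch : hd G c ∈ P j' := hwk.hd_mem (P := fun v => v ∈ P j')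
        (fun d hd => (hst j').tr.tlX d hd) (hx j') c hc
      have hat : tl G a ∈ P j' := by
        rcases eq_or_eq_rv he.symm with h | h
        · rw [h]; exact hct
        · rw [h]; simpa using hch
      obtain ⟨R1, hR1, haR1⟩ := hext.2.2 R hR a ha hat
      exact (hst j').dj R1 hR1.1 c hc a haR1 he.symm
    · obtain ⟨W, hW, hext⟩ := wave_union (G := G) (A := Bl A N o) (S := S) (X0 := S) subset_rfl
        (lk_triv G (Bl A N o) S) _ hXX
      have hU : S ∪ ⋃₀ {X | ∃ j : I, (j : WithTop I) < o ∧ X = P j} = Ul S P o := by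
        ext v
        constructor
        · rintro (hv | ⟨X, ⟨k, hk, rfl⟩, hv⟩)
          · exact Or.inl hv
          · exact Or.inr ⟨k, hk, hv⟩
        · rintro (hv | ⟨k, hk, hv⟩)
          · exact Or.inl hv
          · exact Or.inr ⟨_, ⟨k, hk, rfl⟩, hv⟩
      rw [hU] at hW
      refine ⟨W, hW, ?_⟩
      intro j' hj'
      exact absurd ⟨j', hprop j' hj'⟩ hex
  choose Ws hWs hWd using hlayer
  have hSPu : S ⊆ ⋃ i, P i := by
    obtain ⟨i0⟩ := ‹Nonempty I›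
    exact (hSP i0).trans (Set.subset_iUnion P i0)
  have hPPu : ∀ i, P i ⊆ ⋃ i, P i := fun i => Set.subset_iUnion P i
  have hUPu : ∀ o, Ul S P o ⊆ ⋃ i, P i := by
    rintro o v (hv | ⟨j, _, hv⟩)
    · exact hSPu hv
    · exact hPPu j hv
  -- facts on the darts of type two
  have htwo : ∀ o, ∀ b ∈ Lv G A (⋃ i, P i), b.1 ∈ Bl A N o → tl G b ∉ Ul S P o →
      (∃ k, b.1 ∈ N k ∧ tl G b ∈ P k \ S) ∧ b.1 ∈ N (m b) ∧ x (m b) = tl G b := by
    intro o b hb hbo hU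
    obtain ⟨k, hk⟩ := Set.mem_iUnion.1 hb.2.1
    have hS : tl G b ∉ S := fun h => hU (Or.inl h)
    have hok : o ≤ (k : WithTop I) := by
      by_contra hcon
      rw [not_le] at hcon
      exact hU (Or.inr ⟨k, hcon, hk⟩)
    have hbk : b.1 ∈ N k := by
      cases o with
      | top => exact absurd hok (by simp)
      | coe i => exact hmono' i k (WithTop.coe_le_coe.1 hok) (hbo.2.2 i rfl)
    exact ⟨⟨k, hbk, hk, hS⟩, hJ k b hbk ⟨hk, hS⟩⟩
  have hLends : ∀ i, ∀ d ∈ L i, tl G d ∈ P i ∧ hd G d ∈ P i := by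
    intro i d hd
    obtain ⟨u, hu, hwk⟩ := (hst i).wk
    exact ⟨(hst i).tr.tlX d hd, hwk.hd_mem (P := fun v => v ∈ P i)
      (fun d hd => (hst i).tr.tlX d hd) (hx i) d hd⟩
  have hLN : ∀ i, ∀ d ∈ L i, d.1 ∉ N i := fun i d hd => ((hst i).tr.sub d hd).2
  -- a dart leaving the union is not on an extra trail
  have hLout : ∀ i, ∀ d ∈ L i, ∀ b ∈ Lv G A (⋃ i, P i), d.1 ≠ b.1 := by
    intro i d hdm b hb he
    have h1 := hLends i d hdm
    have : hd G b ∈ P i := by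
      rcases eq_or_eq_rv he with h | h
      · rw [h]; exact h1.2
      · rw [h]; simpa using h1.1
    exact hb.2.2 (hPPu i this)
  have hoo : ∀ b ∈ Lv G A (⋃ i, P i), ∀ b' ∈ Lv G A (⋃ i, P i), b.1 = b'.1 → b = b' := by
    intro b hb b' hb' he
    rcases eq_or_eq_rv he with h | h
    · exact h.symm
    · exfalso
      have := hb'.2.1
      rw [h] at this
      exact hb.2.2 (by simpa using this)
  -- a trail of type one against a dart of type two
  have h12 : ∀ o, ∀ R ∈ Ws o, ∀ b' ∈ Lv G A (⋃ i, P i), ∀ o', b'.1 ∈ Bl A N o' →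
      tl G b' ∉ Ul S P o' → EDisj R (L (m b') ++ [b']) := by
    intro o R hR b' hb' o' hbo' hU' a ha c hc he
    have hao : a.1 ∈ Bl A N o := ((hWs o).tr R hR).sub a ha
    rcases List.mem_append.1 hc with hc | hc
    · exact hWd o (m b') ⟨c, hc, he ▸ hao⟩ R hR a ha c hc he
    · rw [List.mem_singleton.1 hc] at he
      have hoo' : o = o' := Bl_unique (he ▸ hao) hbo'
      subst hoo'
      have hat := ((hWs o).tr R hR).tlX a ha
      rcases eq_or_eq_rv he.symm with h | h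
      · rw [h] at hat; exact hU' hat
      · rw [h] at hat
        exact hb'.2.2 (hUPu o (by simpa using hat))
  refine ⟨{R | ∃ b ∈ Lv G A (⋃ i, P i), ∃ o, b.1 ∈ Bl A N o ∧
    ((R ∈ Ws o ∧ R.getLast? = some b) ∨ (tl G b ∉ Ul S P o ∧ R = L (m b) ++ [b]))},
    ⟨⟨?_, ?_⟩, ?_, ?_⟩⟩
  · rintro R ⟨b, hb, o, hbo, (⟨hR, hl⟩ | ⟨hU, rfl⟩)⟩
    · exact IsTr.mono' ((hWs o).tr R hR) (fun e he => he.1) (hUPu o)
    · obtain ⟨-, hbm, hxm⟩ := htwo o b hb hbo hU
      obtain ⟨u, hu, hwk⟩ := (hst (m b)).wk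
      rw [hxm] at hwk
      refine IsTr.splice (IsTr.mono' (hst (m b)).tr (fun e he => he.1) (hPPu (m b))) hu hwk
        (w := hd G b) ⟨rfl, rfl⟩ (by simp) ?_ ?_ ?_ ?_
      · intro d hd c hc
        rw [List.mem_singleton.1 hc]
        exact hLout _ d hd b hb
      · intro d hd; rw [List.mem_singleton.1 hd]; exact hb.1
      · intro d hd; rw [List.mem_singleton.1 hd]; exact fun h => hb.2.2 (hSPu h)
      · intro d hd; rw [List.mem_singleton.1 hd]; exact hb.2.1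
  · rintro R ⟨b, hb, o, hbo, (⟨hR, hl⟩ | ⟨hU, rfl⟩)⟩ R' ⟨b', hb', o', hbo', (⟨hR', hl'⟩ | ⟨hU', rfl⟩)⟩
      a ha c hc he
    · have h1 := ((hWs o).tr R hR).sub a ha
      have h2 := ((hWs o').tr R' hR').sub c hc
      rw [he] at h1
      have := Bl_unique h1 h2
      subst this
      exact (hWs o).disj R hR R' hR' a ha c hc he
    · exact absurd he (h12 o R hR b' hb' o' hbo' hU' a ha c hc)
    · exact absurd he.symm (h12 o' R' hR' b hb o hbo hU c hc a ha)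
    · obtain ⟨hk, hbm, hxm⟩ := htwo o b hb hbo hU
      obtain ⟨hk', hbm', hxm'⟩ := htwo o' b' hb' hbo' hU'
      rcases List.mem_append.1 ha with ha | ha <;> rcases List.mem_append.1 hc with hc | hc
      · have hmm : m b = m b' := by
          rcases lt_trichotomy (m b) (m b') with h | h | h
          · exact absurd (he ▸ hc3 _ _ h a ha) (hLN _ c hc)
          · exact h
          · exact absurd (he.symm ▸ hc3 _ _ h c hc) (hLN _ a ha)
        rw [hinj b b' hk hk' hmm]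
      · rw [List.mem_singleton.1 hc] at he
        exact absurd he (hLout _ a ha b' hb')
      · rw [List.mem_singleton.1 ha] at he
        exact absurd he.symm (hLout _ c hc b hb)
      · rw [List.mem_singleton.1 ha, List.mem_singleton.1 hc] at he
        rw [hoo b hb b' hb' he]
  · rintro R ⟨b, hb, o, hbo, (⟨hR, hl⟩ | ⟨hU, rfl⟩)⟩
    · exact ⟨b, ⟨hb, by simp⟩, hl⟩
    · exact ⟨b, ⟨hb, by simp⟩, by simp⟩
  · rintro b ⟨hb, _⟩
    obtain ⟨o, hbo⟩ := exists_Bl (A := A) N hb.1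
    by_cases hU : tl G b ∈ Ul S P o
    · obtain ⟨R, hR, hl⟩ := (hWs o).cov b ⟨⟨hbo, hU, fun h => hb.2.2 (hUPu o h)⟩, by simp⟩
      exact ⟨R, ⟨b, hb, o, hbo, Or.inl ⟨hR, hl⟩⟩, hl⟩
    · exact ⟨_, ⟨b, hb, o, hbo, Or.inr ⟨hU, rfl⟩⟩, by simp⟩

lemma card_biUnion_finset_lt {E : Type u} {α : Type*} {κ : Cardinal.{u}} (hκ : ℵ₀ ≤ κ)
    (s : Finset α) (f : α → Set E) (h : ∀ a ∈ s, #(f a) < κ) : #(⋃ a ∈ s, f a : Set E) < κ := by
  classical
  induction s using Finset.induction_on with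
  | empty => simpa using (aleph0_pos.trans_le hκ)
  | insert a s ha ih =>
    rw [Finset.set_biUnion_insert]
    refine (mk_union_le _ _).trans_lt (add_lt_of_lt hκ (h a (by simp)) (ih ?_))
    intro b hb
    exact h b (Finset.mem_insert_of_mem hb)

lemma Stat.closd {E : Type u} {κ : Cardinal.{u}} (hκ : ℵ₀ ≤ κ) {S : Set (Set E)} (h : Stat κ S)
    {f : Finset E → Set E} (hf : ∀ F, #(f F) < κ) : Stat κ {M | M ∈ S ∧ Closd f M} := by
  intro f' hf'
  obtain ⟨N, hN, hNκ, hcl⟩ := h (fun F => f F ∪ f' F)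
    (fun F => (mk_union_le _ _).trans_lt (add_lt_of_lt hκ (hf F) (hf' F)))
  exact ⟨N, ⟨hN, fun F hF => Set.subset_union_left.trans (hcl F hF)⟩, hNκ,
    fun F hF => Set.subset_union_right.trans (hcl F hF)⟩

end C1

open C1 in
/-- W8: case 1 of the closure lemma -/
theorem cl_case1 {V : Type uV} {E : Type u} {ι : Type uI}
    (G : E → Bool → V) (A : Set E) (c : V → Option ι) (hL : Loose G A c) (t : ι)
    (κ : Cardinal.{u}) (hκ : κ.IsRegular) (hκ0 : ℵ₀ < κ) :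
    ∃ f : Finset E → Set E, (∀ F, #(f F) < κ) ∧
      ∀ M : Set E, #M < κ → Closd f M → ∀ X W, Reg c t X → Lk G (A \ M) (Sc c t) X ∅ W →
        Full G (A \ M) (Sc c t) W := by
  classical
  by_contra hcon
  push Not at hcon
  set S : Set V := Sc c t with hSdef
  set S0 : Set (Set E) := {M | ∃ X W, Reg c t X ∧ Lk G (A \ M) S X ∅ W ∧ ¬ Full G (A \ M) S W}
    with hS0def
  have hS0 : Stat κ S0 := by
    intro f hf
    obtain ⟨M, hM, hcl, X, W, hreg, hW, hF⟩ := hcon f hf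
    exact ⟨M, ⟨X, W, hreg, hW, hF⟩, hM, hcl⟩
  have hdata : ∀ M ∈ S0, ∃ P : Set V, Reg c t P ∧ P ≠ S ∧ (∃ W', Lk G (A \ M) S P ∅ W') ∧
      ∀ y ∈ P \ S, ∃ W'' L, St G (A \ M) S P ∅ W'' L y := by
    rintro M ⟨X, W, hreg, hW, hF⟩
    obtain ⟨W', hW', -, haug⟩ := aug hreg.1 hW
    refine ⟨S ∪ RY G (A \ M) S X W, ⟨Set.subset_union_left, ?_⟩, ?_, ⟨W', hW'⟩, ?_⟩
    · rintro v ⟨hv | hv, hvS⟩
      · exact absurd hv hvS
      · exact hreg.2 (RY_sub hv)
    · intro heq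
      apply hF
      intro e he
      by_contra hno
      push Not at hno
      have hfirst : ∀ R ∈ W, e ∉ R := by
        intro R hR heR
        obtain ⟨α, β, hRe⟩ := List.append_of_mem heR
        have := ((hW.tr R hR).first_iff hRe).1 he.2.1
        subst this
        exact hno R hR (by rw [hRe]; rfl)
      by_cases hX : hd G e ∈ X
      · have : hd G e ∈ RY G (A \ M) S X W := by
          refine RY_base he.1 he.2.1 hX he.2.2 ?_
          intro R hR d hd hde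
          rcases eq_or_eq_rv hde.symm with h | h
          · exact hfirst R hR (h ▸ hd)
          · apply (hW.tr R hR).hdS d hd
            rw [h]
            simpa using he.2.1
        have h2 : hd G e ∈ S ∪ RY G (A \ M) S X W := Or.inr this
        rw [heq] at h2
        exact he.2.2 h2
      · obtain ⟨R, hR, hl⟩ := hW.cov e ⟨⟨he.1, hreg.1 he.2.1, hX⟩, by simp⟩
        exact hfirst R hR (mem_of_getLast? hl)
    · rintro y ⟨hy | hy, hyS⟩
      · exact absurd hy hyS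
      · exact haug y hy
  choose! P hP using hdata
  choose! W1 hW1 using (fun M hM => (hP M hM).2.2.1)
  choose! W2 L hst using (fun M hM => (hP M hM).2.2.2)
  -- the sets S_x
  set Sx : V → Set (Set E) := fun x => {M | M ∈ S0 ∧ x ∈ P M \ S ∧ ∃ e ∈ M, ∃ b, G e b = x}
    with hSxdef
  set J : Set V := {x | Stat κ (Sx x)} with hJdef
  have hnJ : ∀ x, x ∉ J → ∃ f : Finset E → Set E, (∀ F, #(f F) < κ) ∧
      ∀ N ∈ Sx x, #N < κ → ¬ Closd f N := by
    intro x hx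
    by_contra hc
    push Not at hc
    exact hx (fun f hf => hc f hf)
  choose! fx hfx hfx2 using hnJ
  set fs : Finset E → Set E := fun F => ⋃ e ∈ F, ⋃ b ∈ (Finset.univ : Finset Bool),
    ⋃ F' ∈ F.powerset, (if G e b ∈ J then ∅ else fx (G e b) F') with hfsdef
  have hfs : ∀ F, #(fs F) < κ := by
    intro F
    refine card_biUnion_finset_lt hκ0.le _ _ (fun e _ => ?_)
    refine card_biUnion_finset_lt hκ0.le _ _ (fun b _ => ?_)
    refine card_biUnion_finset_lt hκ0.le _ _ (fun F' _ => ?_)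
    split_ifs with h
    · simpa using (aleph0_pos.trans hκ0)
    · exact hfx _ h F'
  have hfsJ : ∀ M ∈ S0, #M < κ → Closd fs M → ∀ e ∈ M, ∀ b, G e b ∈ P M \ S → G e b ∈ J := by
    intro M hM hMκ hcl e he b hb
    by_contra hnJ
    refine hfx2 _ hnJ M ⟨hM, hb, e, he, b, rfl⟩ hMκ ?_
    intro F' hF' y hy
    apply hcl (insert e F')
    · intro a ha
      rcases Finset.mem_insert.1 (Finset.mem_coe.1 ha) with rfl | ha
      · exact he
      · exact hF' ha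
    · simp only [hfsdef, Set.mem_iUnion]
      refine ⟨e, by simp, b, by simp, F', by simp, ?_⟩
      rw [if_neg hnJ]
      exact hy
  -- J is nonempty
  have hJne : J.Nonempty := by
    by_contra hJe
    rw [Set.not_nonempty_iff_eq_empty] at hJe
    obtain ⟨M, hM, hMκ, hcl⟩ := hS0 fs hfs
    have hends := hfsJ M hM hMκ hcl
    have htlS : ∀ b ∈ Lv G A (P M), b.1 ∈ M → tl G b ∈ S := by
      intro b hb hbM
      by_contra hS
      have := hends b.1 hbM b.2 ⟨hb.2.1, hS⟩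
      rw [hJe] at this
      exact this
    have hSP : S ⊆ P M := (hP M hM).1.1
    have hlk := hW1 M hM
    apply (hP M hM).2.1
    refine hL t (P M) (W1 M ∪ {R | ∃ b ∈ Lv G A (P M), b.1 ∈ M ∧ R = [b]}) (hP M hM).1
      ⟨⟨?_, ?_⟩, ?_, ?_⟩
    · rintro R (hR | ⟨b, hb, hbM, rfl⟩)
      · exact IsTr.mono' (hlk.tr R hR) Set.sdiff_subset subset_rfl
      · refine ⟨by simp, ⟨tl G b, htlS b hb hbM, hd G b, rfl, rfl⟩, by simp, ?_, ?_, ?_⟩
        · intro d hd; rw [List.mem_singleton.1 hd]; exact hb.1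
        · intro d hd; rw [List.mem_singleton.1 hd]; exact fun h => hb.2.2 (hSP h)
        · intro d hd; rw [List.mem_singleton.1 hd]; exact hb.2.1
    · rintro R (hR | ⟨b, hb, hbM, rfl⟩) R' (hR' | ⟨b', hb', hbM', rfl⟩) d hd d' hd' he
      · exact hlk.disj R hR R' hR' d hd d' hd' he
      · rw [List.mem_singleton.1 hd'] at he
        exact absurd (he ▸ hbM') ((hlk.tr R hR).sub d hd).2
      · rw [List.mem_singleton.1 hd] at he
        exact absurd (he ▸ hbM) ((hlk.tr R' hR').sub d' hd').2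
      · rw [List.mem_singleton.1 hd, List.mem_singleton.1 hd'] at he
        rcases eq_or_eq_rv he with h | h
        · rw [h]
        · exfalso
          have := hb'.2.1
          rw [h] at this
          exact hb.2.2 (by simpa using this)
    · rintro R (hR | ⟨b, hb, hbM, rfl⟩)
      · obtain ⟨b, hb, hl⟩ := hlk.last R hR
        exact ⟨b, ⟨⟨hb.1.1.1, hb.1.2⟩, by simp⟩, hl⟩
      · exact ⟨b, ⟨hb, by simp⟩, by simp⟩
    · rintro b ⟨hb, -⟩
      by_cases hbM : b.1 ∈ M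
      · exact ⟨[b], Or.inr ⟨b, hb, hbM, rfl⟩, by simp⟩
      · obtain ⟨R, hR, hl⟩ := hlk.cov b ⟨⟨⟨hb.1, hbM⟩, hb.2⟩, by simp⟩
        exact ⟨R, Or.inl hR, hl⟩
  -- the closing-off function
  set g : V → Set E → Finset E → Set E := fun x N F =>
    ({e | ∃ R ∈ W1 N, (∃ d ∈ R, d.1 ∈ F) ∧ ∃ d ∈ R, d.1 = e} ∪
      {e | ∃ R ∈ W2 N x, (∃ d ∈ R, d.1 ∈ F) ∧ ∃ d ∈ R, d.1 = e}) ∪
      {e | e ∈ (L N x).map Prod.fst} with hgdef
  have hgκ : ∀ x ∈ J, ∀ N ∈ {M | M ∈ Sx x ∧ Closd fs M}, ∀ F, #(g x N F) < κ := by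
    rintro x hx N ⟨hN, hNc⟩ F
    have hfin : (g x N F).Finite := by
      refine Set.Finite.union (Set.Finite.union ?_ ?_) (List.finite_toSet _)
      · exact meet_finite (hW1 N hN.1).toSys F
      · exact meet_finite (hst N hN.1 x hN.2.1).lk.toSys F
    exact (lt_aleph0_iff_set_finite.2 hfin).trans hκ0
  obtain ⟨I, hI1, hI2, hI3, hI4, N, x, m, h1, h2, h3, h4⟩ := chain_lemma (D := PUnit.{1}) κ hκ hκ0 J
    hJne (fun x => {M | M ∈ Sx x ∧ Closd fs M}) (fun x hx => C1.Stat.closd hκ0.le hx hfs) g hgκ (tl G)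
  have hNS0 : ∀ i, N i ∈ S0 := fun i => (h1 i).2.1.1.1
  have hxP : ∀ i, x i ∈ P (N i) \ S := fun i => (h1 i).2.1.1.2.1
  have hJm : ∀ k, ∀ b : E × Bool, b.1 ∈ N k → tl G b ∈ P (N k) \ S → tl G b ∈ J :=
    fun k b hb hbt => hfsJ (N k) (hNS0 k) (h1 k).2.2 (h1 k).2.1.2 b.1 hb b.2 hbt
  have hmeet1 : ∀ i j, i < j → ∀ R ∈ W1 (N i), ∀ d ∈ R, d.1 ∈ N j → ∀ d' ∈ R, d'.1 ∈ N j := by
    intro i j hij R hR d hd hdN d' hd'
    refine (h2 i j hij).2 {d.1} (by simpa using hdN) ?_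
    exact Or.inl (Or.inl ⟨R, hR, ⟨d, hd, by simp⟩, d', hd', rfl⟩)
  have hmeet2 : ∀ i j, i < j → ∀ R ∈ W2 (N i) (x i), ∀ d ∈ R, d.1 ∈ N j →
      ∀ d' ∈ R, d'.1 ∈ N j := by
    intro i j hij R hR d hd hdN d' hd'
    refine (h2 i j hij).2 {d.1} (by simpa using hdN) ?_
    exact Or.inl (Or.inr ⟨R, hR, ⟨d, hd, by simp⟩, d', hd', rfl⟩)
  have hmeet3 : ∀ i j, i < j → ∀ d ∈ L (N i) (x i), d.1 ∈ N j := by
    intro i j hij d hd
    refine (h2 i j hij).2 ∅ (by simp) ?_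
    exact Or.inr (List.mem_map.2 ⟨d, hd, rfl⟩)
  obtain ⟨W, hW⟩ := chain_build (G := G) (A := A) (S := S) N (fun i => P (N i)) x m
    (fun i => W1 (N i)) (fun i => W2 (N i) (x i)) (fun i => L (N i) (x i))
    (fun i => (hP _ (hNS0 i)).1.1) (fun i j hij => (h2 i j hij).1) (fun i => hW1 _ (hNS0 i))
    (fun i => hst _ (hNS0 i) _ (hxP i)) (fun i => (hxP i).1) hmeet1 hmeet2 hmeet3
    (fun k b hb hbt => h3 b ⟨k, hb⟩ (hJm k b hb hbt))
    (by
      rintro b b' ⟨k, hk, hkt⟩ ⟨k', hk', hkt'⟩ hmm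
      exact h4 b b' ⟨k, hk⟩ ⟨k', hk'⟩ (hJm k b hk hkt) (hJm k' b' hk' hkt') hmm)
  have hreg : Reg c t (⋃ i, P (N i)) := by
    constructor
    · obtain ⟨i0⟩ := hI4
      exact ((hP _ (hNS0 i0)).1.1).trans (Set.subset_iUnion (fun i => P (N i)) i0)
    · rintro v ⟨hv, hvS⟩
      obtain ⟨i, hi⟩ := Set.mem_iUnion.1 hv
      exact (hP _ (hNS0 i)).1.2 ⟨hi, hvS⟩
  have heq := hL t _ W hreg hW
  obtain ⟨i0⟩ := hI4
  have : x i0 ∈ ⋃ i, P (N i) := Set.mem_iUnion.2 ⟨i0, (hxP i0).1⟩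
  rw [heq] at this
  exact (hxP i0).2 this

end Pool.Agent.LC
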