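import Pool.Agent.Lib_helper64.Basic

set_option autoImplicit false

open Set

namespace Pool.Agent.LC

universe uV uE uI

variable {V : Type uV} {E : Type uE} {ι : Type uI}

namespace PY

/-- Stable matchings / kernels: two well-founded transitive relations have a common kernel. -/
lemma exists_kernel {I : Type uE} (lP lQ : I → I → Prop) (wP : WellFounded lP)
    (wQ : WellFounded lQ) (tP : ∀ a b c, lP a b → lP b c → lP a c)
    (tQ : ∀ a b c, lQ a b → lQ b c → lQ a c) (U : Set I) :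
    ∃ K ⊆ U, (∀ g ∈ K, ∀ h ∈ K, ¬ lP g h ∧ ¬ lQ g h) ∧
      ∀ g ∈ U, g ∉ K → (∃ k ∈ K, lP k g) ∨ (∃ k ∈ K, lQ k g) := by
  classical
  let RP : Set I → Set I := fun A => {g | g ∈ A ∧ ∃ h ∈ A, lP h g}
  let RQ : Set I → Set I := fun B => {g | g ∈ B ∧ ∃ h ∈ B, lQ h g}
  have mP : Monotone RP := fun A B hAB g hg => ⟨hAB hg.1, by
    obtain ⟨h, h1, h2⟩ := hg.2; exact ⟨h, hAB h1, h2⟩⟩
  have mQ : Monotone RQ := fun A B hAB g hg => ⟨hAB hg.1, by
    obtain ⟨h, h1, h2⟩ := hg.2; exact ⟨h, hAB h1, h2⟩⟩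
  let F : Set I →o Set I := ⟨fun A => U \ RQ (U \ RP A), fun A B hAB =>
    sdiff_subset_sdiff_right (mQ (sdiff_subset_sdiff_right (mP hAB)))⟩
  set A := OrderHom.lfp F with hA
  have hfix : U \ RQ (U \ RP A) = A := OrderHom.map_lfp F
  set B := U \ RP A with hB
  have hAU : A ⊆ U := by rw [← hfix]; exact sdiff_subset
  refine ⟨A ∩ B, fun g hg => hAU hg.1, ?_, ?_⟩
  · intro g hg h hh
    constructor
    · intro hlt
      exact hh.2.2 ⟨hh.1, g, hg.1, hlt⟩
    · intro hlt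
      have := hh.1
      rw [← hfix] at this
      exact this.2 ⟨hh.2, g, hg.2, hlt⟩
  · intro g hgU hg
    by_cases hgA : g ∈ A
    · left
      have h1 : g ∈ RP A := by
        by_contra h
        exact hg ⟨hgA, hgU, h⟩
      obtain ⟨h, ⟨hh1, hh2⟩, hmin⟩ := wP.has_min {h | h ∈ A ∧ lP h g} h1.2
      refine ⟨h, ⟨hh1, hAU hh1, ?_⟩, hh2⟩
      rintro ⟨_, k, hk, hk'⟩
      exact hmin k ⟨hk, tP _ _ _ hk' hh2⟩ hk'
    · right
      have h1 : g ∈ RQ B := by
        by_contra h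
        exact hgA (by rw [← hfix]; exact ⟨hgU, h⟩)
      obtain ⟨h, ⟨hh1, hh2⟩, hmin⟩ := wQ.has_min {h | h ∈ B ∧ lQ h g} h1.2
      have h2 : h ∉ RQ B := by
        rintro ⟨_, k, hk, hk'⟩
        exact hmin k ⟨hk, tQ _ _ _ hk' hh2⟩ hk'
      exact ⟨h, ⟨by rw [← hfix]; exact ⟨hh1.1, h2⟩, hh1⟩, hh2⟩

variable [DecidableEq E]

lemma idx_before {a b : List E} {g h : E} (hn : (a ++ g :: b).Nodup) (hh : h ∈ a) :
    (a ++ g :: b).idxOf h < (a ++ g :: b).idxOf g := by
  have hg : g ∉ a := fun hg => by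
    rw [List.nodup_append] at hn
    exact hn.2.2 g hg g (by simp) rfl
  rw [List.idxOf_append_of_mem hh, List.idxOf_append_of_notMem hg]
  have := List.idxOf_lt_length_iff.2 hh
  omega

lemma idx_after {a b : List E} {g h : E} (hn : (a ++ g :: b).Nodup) (hh : h ∈ b) :
    (a ++ g :: b).idxOf g < (a ++ g :: b).idxOf h := by
  rw [List.nodup_append] at hn
  have hg : g ∉ a := fun hg => hn.2.2 g hg g (by simp) rfl
  have hh' : h ∉ a := fun h' => hn.2.2 h h' h (by simp [hh]) rfl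
  have hne : g ≠ h := fun he => by
    have := hn.2.1
    rw [List.nodup_cons] at this
    exact this.1 (he ▸ hh)
  rw [List.idxOf_append_of_notMem hg, List.idxOf_append_of_notMem hh',
    List.idxOf_cons_self, List.idxOf_cons_ne _ hne]
  omega

end PY

open PY in
/-- W1: Pym's linkage theorem for edge-disjoint trail systems. -/
theorem pym {G : E → Bool → V} {A : Set E} {S X : Set V} {P Q : Set (List (E × Bool))}
    (hSX : S ⊆ X) (hP : Sys G A S X P) (hPl : ∀ L ∈ P, ∃ b ∈ Lv G A X, L.getLast? = some b)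
    (hPf : Full G A S P) (hQ : Lk G A S X ∅ Q) :
    ∃ W, Lk G A S X ∅ W ∧ Full G A S W := by
  classical
  -- trails through an edge
  let pL : E → List (E × Bool) := fun g => if h : ∃ L ∈ P, g ∈ L.map Prod.fst then h.choose else []
  let qL : E → List (E × Bool) := fun g => if h : ∃ L ∈ Q, g ∈ L.map Prod.fst then h.choose else []
  have hpL : ∀ L ∈ P, ∀ g ∈ L.map Prod.fst, pL g = L := by
    intro L hL g hg
    have h : ∃ L ∈ P, g ∈ L.map Prod.fst := ⟨L, hL, hg⟩
    have h1 : pL g = h.choose := dif_pos h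
    rw [h1]
    obtain ⟨h2, h3⟩ := h.choose_spec
    obtain ⟨d, hd, hd'⟩ := List.mem_map.1 h3
    obtain ⟨d', hd1, hd1'⟩ := List.mem_map.1 hg
    exact hP.disj _ h2 _ hL d hd d' hd1 (hd'.trans hd1'.symm)
  have hqL : ∀ L ∈ Q, ∀ g ∈ L.map Prod.fst, qL g = L := by
    intro L hL g hg
    have h : ∃ L ∈ Q, g ∈ L.map Prod.fst := ⟨L, hL, hg⟩
    have h1 : qL g = h.choose := dif_pos h
    rw [h1]
    obtain ⟨h2, h3⟩ := h.choose_spec
    obtain ⟨d, hd, hd'⟩ := List.mem_map.1 h3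
    obtain ⟨d', hd1, hd1'⟩ := List.mem_map.1 hg
    exact hQ.disj _ h2 _ hL d hd d' hd1 (hd'.trans hd1'.symm)
  let pp : E → ℕ := fun g => ((pL g).map Prod.fst).idxOf g
  let qp : E → ℕ := fun g => ((qL g).map Prod.fst).idxOf g
  let U : Set E := {g | (∃ L ∈ P, g ∈ L.map Prod.fst) ∧ ∃ L ∈ Q, g ∈ L.map Prod.fst}
  let lP : E → E → Prop := fun g h => pL g = pL h ∧ pp g < pp h
  let lQ : E → E → Prop := fun g h => qL g = qL h ∧ qp h < qp g ∧ qp g ≤ (qL g).length
  have wP : WellFounded lP :=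
    Subrelation.wf (r := InvImage (· < ·) pp) (fun {a b} h => h.2) (InvImage.wf _ wellFounded_lt)
  have wQ : WellFounded lQ := by
    refine Subrelation.wf (r := InvImage (· < ·) fun g => (qL g).length - qp g)
      (fun {a b} h => ?_) (InvImage.wf _ wellFounded_lt)
    obtain ⟨h1, h2, h3⟩ := h
    show (qL a).length - qp a < (qL b).length - qp b
    rw [← h1]
    omega
  obtain ⟨K, hKU, hKi, hKs⟩ := exists_kernel lP lQ wP wQ
    (fun a b c h h' => ⟨h.1.trans h'.1, h.2.trans h'.2⟩)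
    (fun a b c h h' => ⟨h.1.trans h'.1, h'.2.1.trans h.2.1, h.2.2⟩) U
  have hUp : ∀ g ∈ U, pL g ∈ P ∧ g ∈ (pL g).map Prod.fst := by
    rintro g ⟨⟨L, hL, hg⟩, _⟩
    rw [hpL L hL g hg]
    exact ⟨hL, hg⟩
  have hUq : ∀ g ∈ U, qL g ∈ Q ∧ g ∈ (qL g).map Prod.fst := by
    rintro g ⟨_, L, hL, hg⟩
    rw [hqL L hL g hg]
    exact ⟨hL, hg⟩
  have KP : ∀ g ∈ K, ∀ g' ∈ K, pL g = pL g' → g = g' := by
    intro g hg g' hg' h
    rcases lt_trichotomy (pp g) (pp g') with h1 | h1 | h1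
    · exact absurd ⟨h, h1⟩ (hKi g hg g' hg').1
    · have h2 : ((pL g).map Prod.fst).idxOf g = ((pL g).map Prod.fst).idxOf g' := by
        rw [show ((pL g).map Prod.fst).idxOf g = pp g from rfl, h1, h]
      exact (List.idxOf_inj (hUp g (hKU hg)).2).1 h2
    · exact absurd ⟨h.symm, h1⟩ (hKi g' hg' g hg).1
  have hqlt : ∀ g ∈ U, qp g < (qL g).length := by
    intro g hg
    have := List.idxOf_lt_length_iff.2 (hUq g hg).2
    simpa using this
  have KQ : ∀ g ∈ K, ∀ g' ∈ K, qL g = qL g' → g = g' := by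
    intro g hg g' hg' h
    rcases lt_trichotomy (qp g) (qp g') with h1 | h1 | h1
    · exact absurd ⟨h.symm, h1, (hqlt g' (hKU hg')).le⟩ (hKi g' hg' g hg).2
    · have h2 : ((qL g).map Prod.fst).idxOf g = ((qL g).map Prod.fst).idxOf g' := by
        rw [show ((qL g).map Prod.fst).idxOf g = qp g from rfl, h1, h]
      exact (List.idxOf_inj (hUq g (hKU hg)).2).1 h2
    · exact absurd ⟨h, h1, (hqlt g (hKU hg)).le⟩ (hKi g hg g' hg').2
  have F3 : ∀ h ∈ U, ∀ g ∈ K, ∀ g' ∈ K, pL h = pL g → pp h < pp g → qL h = qL g' →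
      qp g' < qp h → False := by
    intro h hh g hg g' hg' h1 h2 h3 h4
    by_cases hK : h ∈ K
    · exact (hKi h hK g hg).1 ⟨h1, h2⟩
    · rcases hKs h hh hK with ⟨k, hk, hk1, hk2⟩ | ⟨k, hk, hk1, hk2, hk3⟩
      · exact (hKi k hk g hg).1 ⟨hk1.trans h1, hk2.trans h2⟩
      · exact (hKi k hk g' hg').2 ⟨hk1.trans h3, h4.trans hk2, hk3⟩
  have F1 : ∀ L ∈ Q, ∃ g ∈ K, qL g = L := by
    intro L hL
    have htr := hQ.tr L hL
    obtain ⟨u, hu, v, hw⟩ := htr.wk
    cases hLL : L with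
    | nil => exact absurd hLL htr.ne
    | cons d L' =>
      rw [← hLL]
      have hdL : d ∈ L := by rw [hLL]; exact List.mem_cons_self
      rw [hLL] at hw
      have hdS : d ∈ Lv G A S := ⟨htr.sub d hdL, by rw [hw.1]; exact hu, htr.hdS d hdL⟩
      obtain ⟨M, hM, hM'⟩ := hPf d hdS
      have hMd : ∃ M', M = d :: M' := by
        cases M with
        | nil => simp at hM'
        | cons a M' => simp only [List.head?_cons, Option.some.injEq] at hM'
                       exact ⟨M', by rw [hM']⟩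
      obtain ⟨M', rfl⟩ := hMd
      have h1 : d.1 ∈ (d :: M').map Prod.fst := by simp
      have h2 : d.1 ∈ L.map Prod.fst := List.mem_map.2 ⟨d, hdL, rfl⟩
      have hU : d.1 ∈ U := ⟨⟨_, hM, h1⟩, ⟨L, hL, h2⟩⟩
      by_cases hK : d.1 ∈ K
      · exact ⟨d.1, hK, hqL L hL _ h2⟩
      · rcases hKs _ hU hK with ⟨k, hk, hk1, hk2⟩ | ⟨k, hk, hk1, hk2, hk3⟩
        · have h3 : pp d.1 = 0 := by
            show ((pL d.1).map Prod.fst).idxOf d.1 = 0
            rw [hpL _ hM _ h1, List.map_cons, List.idxOf_cons_self]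
          omega
        · exact ⟨k, hk, hk1.trans (hqL L hL _ h2)⟩
  have F2 : ∀ L ∈ P, ∃ g ∈ K, pL g = L := by
    intro L hL
    obtain ⟨b, hb, hb'⟩ := hPl L hL
    obtain ⟨M, hM, hM'⟩ := hQ.cov b ⟨hb, by simp⟩
    obtain ⟨L', hL'⟩ := List.getLast?_eq_some_iff.1 hb'
    obtain ⟨M', hMM⟩ := List.getLast?_eq_some_iff.1 hM'
    have h1 : b.1 ∈ L.map Prod.fst := by rw [hL']; simp
    have h2 : b.1 ∈ M.map Prod.fst := by rw [hMM]; simp
    have hU : b.1 ∈ U := ⟨⟨L, hL, h1⟩, ⟨M, hM, h2⟩⟩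
    by_cases hK : b.1 ∈ K
    · exact ⟨b.1, hK, hpL L hL _ h1⟩
    · rcases hKs _ hU hK with ⟨k, hk, hk1, hk2⟩ | ⟨k, hk, hk1, hk2, hk3⟩
      · exact ⟨k, hk, hk1.trans (hpL L hL _ h1)⟩
      · exfalso
        have h3 : qL b.1 = M := hqL M hM _ h2
        have h4 := hqlt k (hKU hk)
        rw [hk1, h3] at h4
        have h5 : qp b.1 = M'.length := by
          show ((qL b.1).map Prod.fst).idxOf b.1 = M'.length
          have hn := (hQ.tr M hM).nodup
          rw [h3]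
          rw [hMM, List.map_append] at hn ⊢
          have : b.1 ∉ M'.map Prod.fst := fun hc => by
            rw [List.nodup_append] at hn
            exact hn.2.2 _ hc b.1 (by simp) rfl
          rw [List.idxOf_append_of_notMem this]
          simp
        rw [hMM] at h4
        simp only [List.length_append, List.length_cons, List.length_nil] at h4
        omega
  -- splittings
  have hsp : ∀ g, ∃ (α : List (E × Bool)) (d : E × Bool) (β : List (E × Bool)),
      g ∈ U → pL g = α ++ d :: β ∧ d.1 = g := by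
    intro g
    by_cases hg : g ∈ U
    · obtain ⟨d, hd, hd'⟩ := List.mem_map.1 (hUp g hg).2
      obtain ⟨α, β, h⟩ := List.append_of_mem hd
      exact ⟨α, d, β, fun _ => ⟨h, hd'⟩⟩
    · exact ⟨[], (g, true), [], fun h => absurd h hg⟩
  have hsq : ∀ g, ∃ (γ : List (E × Bool)) (d : E × Bool) (δ : List (E × Bool)),
      g ∈ U → qL g = γ ++ d :: δ ∧ d.1 = g := by
    intro g
    by_cases hg : g ∈ U
    · obtain ⟨d, hd, hd'⟩ := List.mem_map.1 (hUq g hg).2
      obtain ⟨α, β, h⟩ := List.append_of_mem hd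
      exact ⟨α, d, β, fun _ => ⟨h, hd'⟩⟩
    · exact ⟨[], (g, true), [], fun h => absurd h hg⟩
  choose al dp be hp using hsp
  choose ga dq de hq using hsq
  let N : E → List (E × Bool) := fun g => if dp g = dq g then al g ++ dp g :: de g else al g ++ de g
  have hNmem : ∀ g ∈ K, ∀ d ∈ N g, (d ∈ pL g ∧ (pp d.1 < pp g ∨ d.1 = g)) ∨
      (d ∈ qL g ∧ qp g < qp d.1) := by
    intro g hg d hd
    have hgU := hKU hg
    have h1 : d ∈ al g ∨ (d = dp g) ∨ d ∈ de g := by
      simp only [N] at hd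
      split_ifs at hd with hc
      · rcases List.mem_append.1 hd with h | h
        · exact Or.inl h
        · rcases List.mem_cons.1 h with h | h
          · exact Or.inr (Or.inl h)
          · exact Or.inr (Or.inr h)
      · rcases List.mem_append.1 hd with h | h
        · exact Or.inl h
        · exact Or.inr (Or.inr h)
    have hnp := (hP.tr _ (hUp g hgU).1).nodup
    have hnq := (hQ.tr _ (hUq g hgU).1).nodup
    rcases h1 with h | h | h
    · left
      have hd' : d ∈ pL g := by rw [(hp g hgU).1]; simp [h]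
      refine ⟨hd', Or.inl ?_⟩
      have h2 : pL d.1 = pL g := hpL _ (hUp g hgU).1 _ (List.mem_map.2 ⟨d, hd', rfl⟩)
      show ((pL d.1).map Prod.fst).idxOf d.1 < ((pL g).map Prod.fst).idxOf g
      rw [h2]
      rw [(hp g hgU).1, List.map_append, List.map_cons, (hp g hgU).2] at hnp ⊢
      exact idx_before hnp (List.mem_map.2 ⟨d, h, rfl⟩)
    · left
      rw [h]
      exact ⟨by rw [(hp g hgU).1]; simp, Or.inr (hp g hgU).2⟩
    · right
      have hd' : d ∈ qL g := by rw [(hq g hgU).1]; simp [h]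
      refine ⟨hd', ?_⟩
      have h2 : qL d.1 = qL g := hqL _ (hUq g hgU).1 _ (List.mem_map.2 ⟨d, hd', rfl⟩)
      show ((qL g).map Prod.fst).idxOf g < ((qL d.1).map Prod.fst).idxOf d.1
      rw [h2]
      rw [(hq g hgU).1, List.map_append, List.map_cons, (hq g hgU).2] at hnq ⊢
      exact idx_after hnq (List.mem_map.2 ⟨d, h, rfl⟩)
  have hPQ : ∀ g ∈ K, ∀ g' ∈ K, ∀ h : E, (∃ d ∈ pL g, d.1 = h) → (pp h < pp g ∨ h = g) →
      (∃ d ∈ qL g', d.1 = h) → qp g' < qp h → False := by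
    intro g hg g' hg' h h1 h2 h3 h4
    obtain ⟨d, hd, rfl⟩ := h1
    obtain ⟨d', hd', hdd⟩ := h3
    have k1 : pL d.1 = pL g := hpL _ (hUp g (hKU hg)).1 _ (List.mem_map.2 ⟨d, hd, rfl⟩)
    have k2 : qL d.1 = qL g' := by
      rw [← hdd]
      exact hqL _ (hUq g' (hKU hg')).1 _ (List.mem_map.2 ⟨d', hd', rfl⟩)
    have k3 : d.1 ∈ U := ⟨⟨_, (hUp g (hKU hg)).1, List.mem_map.2 ⟨d, hd, rfl⟩⟩,
      ⟨_, (hUq g' (hKU hg')).1, List.mem_map.2 ⟨d', hd', hdd⟩⟩⟩
    rcases h2 with h2 | h2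
    · exact F3 _ k3 g hg g' hg' k1 h2 k2 h4
    · have : d.1 = g' := KQ _ (h2 ▸ hg) g' hg' k2
      rw [this] at h4
      exact lt_irrefl _ h4
  have hopp : ∀ g ∈ K, dp g ≠ dq g → dq g = rv (dp g) := by
    intro g hg hne
    have h1 : (dp g).1 = (dq g).1 := by rw [(hp g (hKU hg)).2, (hq g (hKU hg)).2]
    exact (eq_or_eq_rv h1).resolve_left fun h => hne h.symm
  have hdpmem : ∀ g ∈ K, dp g ∈ pL g := fun g hg => by rw [(hp g (hKU hg)).1]; simp
  have hdqmem : ∀ g ∈ K, dq g ∈ qL g := fun g hg => by rw [(hq g (hKU hg)).1]; simp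
  have hal : ∀ g ∈ K, dp g ≠ dq g → al g ≠ [] := by
    intro g hg hne h0
    have hgU := hKU hg
    obtain ⟨u, hu, v, hw⟩ := (hP.tr _ (hUp g hgU).1).wk
    rw [(hp g hgU).1, h0, List.nil_append] at hw
    have h1 := (hQ.tr _ (hUq g hgU).1).hdS _ (hdqmem g hg)
    rw [hopp g hg hne, hd_rv, hw.1] at h1
    exact h1 hu
  have hde : ∀ g ∈ K, dp g ≠ dq g → de g ≠ [] := by
    intro g hg hne h0
    have hgU := hKU hg
    obtain ⟨b, hb, hb'⟩ := hQ.last _ (hUq g hgU).1
    rw [(hq g hgU).1, h0] at hb'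
    have h2 : dq g = b := by simpa using hb'
    have h1 := (hP.tr _ (hUp g hgU).1).tlX _ (hdpmem g hg)
    rw [← h2, hopp g hg hne] at hb
    have h3 := hb.1.2.2
    rw [hd_rv] at h3
    exact h3 h1
  have hwk : ∀ g ∈ K, ∃ u ∈ S, ∃ v, Wk G u (N g) v := by
    intro g hg
    have hgU := hKU hg
    obtain ⟨u, hu, v, hw⟩ := (hP.tr _ (hUp g hgU).1).wk
    obtain ⟨u', hu', v', hw'⟩ := (hQ.tr _ (hUq g hgU).1).wk
    rw [(hp g hgU).1, wk_split] at hw
    rw [(hq g hgU).1, wk_split] at hw'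
    refine ⟨u, hu, v', ?_⟩
    simp only [N]
    split_ifs with hc
    · rw [wk_split]
      rw [← hc] at hw'
      exact ⟨hw.1, hw'.2⟩
    · refine hw.1.append ?_
      have := hw'.2
      rw [hopp g hg hc, hd_rv] at this
      exact this
  have hlastN : ∀ g ∈ K, (N g).getLast? = (qL g).getLast? := by
    intro g hg
    have hgU := hKU hg
    rw [(hq g hgU).1]
    simp only [N]
    split_ifs with hc
    · rw [hc]
      simp [List.getLast?_append, List.getLast?_cons]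
    · have h0 := hde g hg hc
      obtain ⟨x, hx⟩ : ∃ x, (de g).getLast? = some x := by
        rw [← Option.isSome_iff_exists]
        simpa using h0
      simp [List.getLast?_append, List.getLast?_cons, hx]
  have hheadN : ∀ g ∈ K, (N g).head? = (pL g).head? := by
    intro g hg
    have hgU := hKU hg
    rw [(hp g hgU).1]
    simp only [N]
    split_ifs with hc
    · simp [List.head?_append]
    · have h0 := hal g hg hc
      obtain ⟨x, hx⟩ : ∃ x, (al g).head? = some x := by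
        rw [← Option.isSome_iff_exists]
        simpa using h0
      simp [List.head?_append, hx]
  have hNtr : ∀ g ∈ K, ∀ d ∈ N g, (∃ L ∈ P, d ∈ L) ∨ ∃ L ∈ Q, d ∈ L := by
    intro g hg d hd
    rcases hNmem g hg d hd with h | h
    · exact Or.inl ⟨_, (hUp g (hKU hg)).1, h.1⟩
    · exact Or.inr ⟨_, (hUq g (hKU hg)).1, h.1⟩
  refine ⟨N '' K, ⟨⟨?_, ?_⟩, ?_, ?_⟩, ?_⟩
  · rintro _ ⟨g, hg, rfl⟩
    have hgU := hKU hg
    refine ⟨?_, hwk g hg, ?_, ?_, ?_, ?_⟩
    · intro h0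
      have h1 := hlastN g hg
      rw [h0] at h1
      obtain ⟨b, hb, hb'⟩ := hQ.last _ (hUq g hgU).1
      rw [hb'] at h1
      simp at h1
    · have hnp := (hP.tr _ (hUp g hgU).1).nodup
      have hnq := (hQ.tr _ (hUq g hgU).1).nodup
      rw [(hp g hgU).1, List.map_append, List.map_cons, List.nodup_append,
        List.nodup_cons] at hnp
      rw [(hq g hgU).1, List.map_append, List.map_cons, List.nodup_append,
        List.nodup_cons] at hnq
      have hdisj : ∀ a ∈ (al g).map Prod.fst, ∀ b ∈ (de g).map Prod.fst, a ≠ b := by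
        intro a ha b hb hab
        obtain ⟨d, hd, rfl⟩ := List.mem_map.1 ha
        obtain ⟨d', hd', rfl⟩ := List.mem_map.1 hb
        have e1 : d ∈ pL g := by rw [(hp g hgU).1]; simp [hd]
        have e2 : d' ∈ qL g := by rw [(hq g hgU).1]; simp [hd']
        refine hPQ g hg g hg d.1 ⟨d, e1, rfl⟩ (Or.inl ?_) ⟨d', e2, hab.symm⟩ ?_
        · have h2 : pL d.1 = pL g := hpL _ (hUp g hgU).1 _ (List.mem_map.2 ⟨d, e1, rfl⟩)
          have hnp := (hP.tr _ (hUp g hgU).1).nodup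
          show ((pL d.1).map Prod.fst).idxOf d.1 < ((pL g).map Prod.fst).idxOf g
          rw [h2]
          rw [(hp g hgU).1, List.map_append, List.map_cons, (hp g hgU).2] at hnp ⊢
          exact idx_before hnp (List.mem_map.2 ⟨d, hd, rfl⟩)
        · have h2 : qL d'.1 = qL g := hqL _ (hUq g hgU).1 _ (List.mem_map.2 ⟨d', e2, rfl⟩)
          have hnq := (hQ.tr _ (hUq g hgU).1).nodup
          rw [hab]
          show ((qL g).map Prod.fst).idxOf g < ((qL d'.1).map Prod.fst).idxOf d'.1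
          rw [h2]
          rw [(hq g hgU).1, List.map_append, List.map_cons, (hq g hgU).2] at hnq ⊢
          exact idx_after hnq (List.mem_map.2 ⟨d', hd', rfl⟩)
      simp only [N]
      split_ifs with hc
      · rw [List.map_append, List.map_cons, List.nodup_append, List.nodup_cons]
        refine ⟨hnp.1, ⟨?_, hnq.2.1.2⟩, ?_⟩
        · rw [hc]; exact hnq.2.1.1
        · intro a ha b hb
          rcases List.mem_cons.1 hb with rfl | hb
          · exact hnp.2.2 a ha _ List.mem_cons_self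
          · exact hdisj a ha b hb
      · rw [List.map_append, List.nodup_append]
        exact ⟨hnp.1, hnq.2.1.2, hdisj⟩
    · intro d hd
      rcases hNtr g hg d hd with ⟨L, hL, hdL⟩ | ⟨L, hL, hdL⟩
      · exact (hP.tr L hL).sub d hdL
      · exact (hQ.tr L hL).sub d hdL
    · intro d hd
      rcases hNtr g hg d hd with ⟨L, hL, hdL⟩ | ⟨L, hL, hdL⟩
      · exact (hP.tr L hL).hdS d hdL
      · exact (hQ.tr L hL).hdS d hdL
    · intro d hd
      rcases hNtr g hg d hd with ⟨L, hL, hdL⟩ | ⟨L, hL, hdL⟩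
      · exact (hP.tr L hL).tlX d hdL
      · exact (hQ.tr L hL).tlX d hdL
  · rintro _ ⟨g, hg, rfl⟩ _ ⟨g', hg', rfl⟩ d hd d' hd' hdd
    have : g = g' := by
      rcases hNmem g hg d hd with h | h <;> rcases hNmem g' hg' d' hd' with h' | h'
      · have k1 : pL d.1 = pL g := hpL _ (hUp g (hKU hg)).1 _ (List.mem_map.2 ⟨d, h.1, rfl⟩)
        have k2 : pL d'.1 = pL g' := hpL _ (hUp g' (hKU hg')).1 _ (List.mem_map.2 ⟨d', h'.1, rfl⟩)
        exact KP g hg g' hg' (by rw [← k1, ← k2, hdd])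
      · exact absurd (hPQ g hg g' hg' d.1 ⟨d, h.1, rfl⟩ h.2 ⟨d', h'.1, hdd.symm⟩
          (hdd ▸ h'.2)) id
      · exact absurd (hPQ g' hg' g hg d'.1 ⟨d', h'.1, rfl⟩ h'.2 ⟨d, h.1, hdd⟩
          (hdd ▸ h.2)) id
      · have k1 : qL d.1 = qL g := hqL _ (hUq g (hKU hg)).1 _ (List.mem_map.2 ⟨d, h.1, rfl⟩)
        have k2 : qL d'.1 = qL g' := hqL _ (hUq g' (hKU hg')).1 _ (List.mem_map.2 ⟨d', h'.1, rfl⟩)
        exact KQ g hg g' hg' (by rw [← k1, ← k2, hdd])
    rw [this]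
  · rintro _ ⟨g, hg, rfl⟩
    rw [hlastN g hg]
    exact hQ.last _ (hUq g (hKU hg)).1
  · intro b hb
    obtain ⟨L, hL, hL'⟩ := hQ.cov b hb
    obtain ⟨g, hg, hgL⟩ := F1 L hL
    refine ⟨N g, ⟨g, hg, rfl⟩, ?_⟩
    rw [hlastN g hg, hgL, hL']
  · intro e he
    obtain ⟨L, hL, hL'⟩ := hPf e he
    obtain ⟨g, hg, hgL⟩ := F2 L hL
    refine ⟨N g, ⟨g, hg, rfl⟩, ?_⟩
    rw [hheadN g hg, hgL, hL']

end Pool.Agent.LC
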