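import Pool.Agent.Lib_helper64.Case1
import Pool.Agent.Lib_helper64.Pym

set_option autoImplicit false
set_option linter.unusedVariables false

open Cardinal

namespace Pool.Agent.LC

universe u uV uE uI

namespace C2

section tt
variable {V : Type uV} {E : Type uE} {ι : Type uI} {G : E → Bool → V} {A : Set E}
  {c : V → Option ι}

lemma dropLast_rvl_mem {L : List (E × Bool)} {d : E × Bool} (hd' : d ∈ (rvl L).dropLast) :
    ∃ a L', L = a :: L' ∧ rv d ∈ L' := by
  cases L with
  | nil => simp at hd'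
  | cons a L' =>
    refine ⟨a, L', rfl, ?_⟩
    rw [rvl_cons, List.dropLast_concat] at hd'
    exact mem_rvl.1 hd'

/-- walk: heads of darts in `dropLast` are tails of later darts -/
lemma tl_of_mem_tail {G : E → Bool → V} {u v : V} {a : E × Bool} {L : List (E × Bool)}
    (h : Wk G u (a :: L) v) {d : E × Bool} (hd' : d ∈ L) :
    ∃ d' ∈ (a :: L).dropLast, hd G d' = tl G d := by
  induction L generalizing u a with
  | nil => simp at hd'
  | cons b L ih =>
    rcases List.mem_cons.1 hd' with rfl | h'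
    · exact ⟨a, by simp, h.2.1.symm⟩
    · obtain ⟨d', h1, h2⟩ := ih h.2 h'
      exact ⟨d', by rw [List.dropLast_cons_of_ne_nil (by simp)]; exact List.mem_cons_of_mem _ h1, h2⟩

/-- reversal of a T-trail -/
lemma tt_rev {t t' : ι} {R : List (E × Bool)} (h : IsTT G A c t t' R) :
    IsTT G A c t' t (rvl R) := by
  obtain ⟨u, hu, v, hv, hw⟩ := h.wk
  refine ⟨h.ne.symm, ⟨v, hv, u, hu, hw.rvl⟩, ?_, ?_, ?_⟩
  · rw [map_fst_rvl]; exact List.nodup_reverse.2 h.nodup
  · intro d hd'
    exact h.sub (rv d) (mem_rvl.1 hd')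
  · intro d hd'
    obtain ⟨a, L', rfl, hm⟩ := dropLast_rvl_mem hd'
    obtain ⟨d', h1, h2⟩ := tl_of_mem_tail hw hm
    have := h.inner d' h1
    rwa [h2, tl_rv] at this

lemma tt_hd {t t' : ι} {R : List (E × Bool)} (h : IsTT G A c t t' R) {d : E × Bool}
    (hd' : d ∈ R) : hd G d ∈ Nc c ∨ (hd G d ∈ Sc c t' ∧ R.getLast? = some d) := by
  obtain ⟨u, hu, v, hv, hw⟩ := h.wk
  have hne : R ≠ [] := List.ne_nil_of_mem hd'
  have e1 := (List.dropLast_append_getLast hne).symm
  rw [e1, List.mem_append, List.mem_singleton] at hd'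
  rcases hd' with hd' | hd'
  · exact Or.inl (h.inner d hd')
  · right
    rw [e1, wk_concat] at hw
    refine ⟨?_, ?_⟩
    · rw [hd', hw.2]; exact hv
    · rw [hd']; exact List.getLast?_eq_some_getLast hne

lemma tt_tl {t t' : ι} {R : List (E × Bool)} (h : IsTT G A c t t' R) {d : E × Bool}
    (hd' : d ∈ R) : tl G d ∈ Nc c ∨ (tl G d ∈ Sc c t ∧ R.head? = some d) := by
  have h1 := tt_hd (tt_rev h) (d := rv d) (by simpa using hd')
  rw [hd_rv] at h1
  rcases h1 with h1 | ⟨h1, h2⟩
  · exact Or.inl h1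
  · refine Or.inr ⟨h1, ?_⟩
    cases R with
    | nil => simp at hd'
    | cons a R' =>
      rw [rvl_cons, List.getLast?_concat] at h2
      have h3 := rv_injective (Option.some.inj h2)
      rw [h3]; rfl

lemma tt_ne {t t' : ι} {R : List (E × Bool)} (h : IsTT G A c t t' R) : R ≠ [] := by
  rintro rfl
  obtain ⟨u, hu, v, hv, hw⟩ := h.wk
  have : u = v := hw
  subst this
  have h1 : c u = some t := hu
  have h2 : c u = some t' := hv
  rw [h1] at h2
  exact h.ne (Option.some.inj h2)

lemma tt_start {t t' s : ι} {R : List (E × Bool)} (h : IsTT G A c t t' R) {e : E × Bool}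
    (he : R.head? = some e) (hs : tl G e ∈ Sc c s) : t = s := by
  have hs' : c (tl G e) = some s := hs
  rcases tt_tl h (mem_of_head? he) with h1 | ⟨h1, _⟩
  · have : c (tl G e) = none := h1
    rw [hs'] at this; exact absurd this (by simp)
  · have : c (tl G e) = some t := h1
    rw [hs'] at this; exact (Option.some.inj this).symm

end tt

section ext
variable {V : Type uV} {E : Type uE}

lemma wk_end_mem {G : E → Bool → V} {u v : V} {L : List (E × Bool)} {X : Set V}
    (h : Wk G u L v) (hu : u ∈ X) (hh : ∀ d ∈ L, hd G d ∈ X) : v ∈ X := by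
  rcases List.eq_nil_or_concat L with rfl | ⟨L', a, rfl⟩
  · have : u = v := h
    rwa [← this]
  · rw [List.concat_eq_append, wk_concat] at h
    rw [← h.2]; exact hh a (by simp)

lemma exists_first_split {α : Type*} (p : α → Prop) (L : List α) (h : ∃ d ∈ L, p d) :
    ∃ a g b, L = a ++ g :: b ∧ p g ∧ ∀ d ∈ a, ¬ p d := by
  induction L with
  | nil => obtain ⟨d, hd, _⟩ := h; simp at hd
  | cons x L ih =>
    by_cases hx : p x
    · exact ⟨[], x, L, rfl, hx, by simp⟩
    · obtain ⟨d, hd, hp⟩ := h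
      rcases List.mem_cons.1 hd with rfl | hd
      · exact absurd hp hx
      · obtain ⟨a, g, b, rfl, h1, h2⟩ := ih ⟨d, hd, hp⟩
        refine ⟨x :: a, g, b, rfl, h1, ?_⟩
        intro d' hd'
        rcases List.mem_cons.1 hd' with rfl | hd'
        · exact hx
        · exact h2 d' hd'

/-- extension of a system backwards along a linkage -/
theorem ext_sys {G : E → Bool → V} {A : Set E} {S Z Y S' X : Set V}
    {P0 W' : Set (List (E × Bool))}
    (hSZ : S ⊆ Z) (hP : Sys G A S Z P0) (hPl : ∀ R ∈ P0, ∃ b ∈ Lv G A Z, R.getLast? = some b)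
    (hPf : Full G A S P0) (hYZ : ∀ v ∈ Y, v ∉ Z) (hW : Lk G A S' Y ∅ W')
    (hXS' : ∀ v ∈ S', v ∉ X) (hZX : Z ⊆ X) (hXZY : X ⊆ Z ∪ Y) :
    ∃ P, Sys G A S X P ∧ (∀ R ∈ P, ∃ b ∈ Lv G A X, R.getLast? = some b) ∧ Full G A S P := by
  classical
  have key : ∀ R ∈ P0, ∃ T : List (E × Bool), (∀ a ∈ T, tl G a ∈ Y ∧ hd G a ∈ Y) ∧
      (T ≠ [] → ∃ L ∈ W', ∃ b, R.getLast? = some b ∧ rv b ∈ L ∧ hd G (rv b) ∉ Y ∧
        ∀ a ∈ T, rv a ∈ L) ∧
      IsTr G A S X (R ++ T) ∧ ∃ b' ∈ Lv G A X, (R ++ T).getLast? = some b' := by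
    intro R hR
    obtain ⟨b, hb, hl⟩ := hPl R hR
    have htr := hP.tr R hR
    have htrX : IsTr G A S X R := htr.mono_X (fun d hd => hZX (htr.tlX d hd))
    by_cases hbX : hd G b ∈ X
    · have hbY : hd G b ∈ Y := by
        rcases hXZY hbX with h | h
        · exact absurd h hb.2.2
        · exact h
      have htY : tl G b ∉ Y := fun h => hYZ _ h hb.2.1
      obtain ⟨L, hL, hLl⟩ := hW.cov (rv b) ⟨⟨hb.1, hbY, by simpa using htY⟩, by simp⟩
      obtain ⟨α, rfl⟩ := List.getLast?_eq_some_iff.1 hLl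
      have hLtr := hW.tr _ hL
      obtain ⟨u, hu, v, hw⟩ := hLtr.wk
      have hw1 := (wk_concat G α (rv b)).1 hw
      rw [tl_rv] at hw1
      have hw2 : Wk G (hd G b) (rvl α) u := hw1.1.rvl
      have hαY : ∀ a ∈ α, tl G a ∈ Y ∧ hd G a ∈ Y := fun a ha =>
        ⟨hLtr.tlX a (List.mem_append_left _ ha), hLtr.hd_mem_X rfl a ha⟩
      have hex : ∃ d ∈ rvl α, hd G d ∉ X := by
        by_contra hcon
        push Not at hcon
        exact hXS' u hu (wk_end_mem hw2 hbX hcon)
      obtain ⟨γ, d, δ, hsplit, hdX, hγX⟩ := exists_first_split (fun d => hd G d ∉ X) _ hex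
      simp only [not_not] at hγX
      rw [hsplit] at hw2
      have hw3 := (wk_split G γ δ d).1 hw2
      have hmem : ∀ a ∈ γ ++ [d], rv a ∈ α := by
        intro a ha
        apply mem_rvl.1
        rw [hsplit]
        rcases List.mem_append.1 ha with h | h
        · exact List.mem_append_left _ h
        · rw [List.mem_singleton.1 h]; simp
      have hTY : ∀ a ∈ γ ++ [d], tl G a ∈ Y ∧ hd G a ∈ Y := by
        intro a ha
        have := hαY _ (hmem a ha)
        rw [tl_rv, hd_rv] at this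
        exact ⟨this.2, this.1⟩
      have hnodα : ((rvl α).map Prod.fst).Nodup := by
        rw [map_fst_rvl]
        exact List.nodup_reverse.2 (nodup_fst_append.1 hLtr.nodup).1
      have hnodT : ((γ ++ [d]).map Prod.fst).Nodup := by
        have : rvl α = (γ ++ [d]) ++ δ := by rw [hsplit]; simp
        rw [this] at hnodα
        exact (nodup_fst_append.1 hnodα).1
      obtain ⟨u0, hu0, v0, hw0⟩ := htr.wk
      have hv0 : v0 = hd G b := by
        obtain ⟨ys, rfl⟩ := List.getLast?_eq_some_iff.1 hl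
        exact ((wk_concat G ys b).1 hw0).2.symm
      rw [hv0] at hw0
      have hwT : Wk G (hd G b) (γ ++ [d]) (hd G d) := (wk_concat G γ d).2 ⟨hw3.1, rfl⟩
      have htlγ : tl G d ∈ X := wk_end_mem hw3.1 hbX hγX
      refine ⟨γ ++ [d], hTY, ?_, ?_, d, ⟨?_, htlγ, hdX⟩, ?_⟩
      · intro _
        refine ⟨_, hL, b, hl, by simp, by simpa using htY, ?_⟩
        intro a ha
        exact List.mem_append_left _ (hmem a ha)
      · refine htrX.splice hu0 hw0 hwT hnodT ?_ ?_ ?_ ?_
        · intro a ha c hc he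
          have h1 := htr.tlX a ha
          have h2 := hTY c hc
          rcases eq_or_eq_rv he.symm with h | h
          · rw [h] at h1; exact hYZ _ h2.1 h1
          · rw [h, tl_rv] at h1; exact hYZ _ h2.2 h1
        · intro a ha
          exact hLtr.sub (rv a) (List.mem_append_left _ (hmem a ha))
        · intro a ha hS
          exact hYZ _ (hTY a ha).2 (hSZ hS)
        · intro a ha
          rcases List.mem_append.1 ha with h | h
          · exact hw3.1.tl_mem (P := fun v => v ∈ X) hbX hγX a h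
          · rw [List.mem_singleton.1 h]; exact htlγ
      · exact hLtr.sub (rv d) (List.mem_append_left _ (hmem d (by simp)))
      · rw [← List.append_assoc, List.getLast?_concat]
    · refine ⟨[], by simp, by simp, ?_, b, ⟨hb.1, hZX hb.2.1, hbX⟩, by simpa using hl⟩
      simpa using htrX
  choose! T hTY hTL hTtr hTlast using key
  refine ⟨{R' | ∃ R ∈ P0, R' = R ++ T R}, ⟨?_, ?_⟩, ?_, ?_⟩
  · rintro R' ⟨R, hR, rfl⟩
    exact hTtr R hR
  · rintro R1' ⟨R1, hR1, rfl⟩ R2' ⟨R2, hR2, rfl⟩ a ha c hc he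
    have hmix : ∀ R ∈ P0, ∀ R' ∈ P0, ∀ a ∈ R, ∀ c ∈ T R', a.1 ≠ c.1 := by
      intro R hR R' hR' a ha c hc he
      have h1 := (hP.tr R hR).tlX a ha
      have h2 := hTY R' hR' c hc
      rcases eq_or_eq_rv he.symm with h | h
      · rw [h] at h1; exact hYZ _ h2.1 h1
      · rw [h, tl_rv] at h1; exact hYZ _ h2.2 h1
    rcases List.mem_append.1 ha with ha | ha <;> rcases List.mem_append.1 hc with hc | hc
    · rw [hP.disj R1 hR1 R2 hR2 a ha c hc he]
    · exact absurd he (hmix R1 hR1 R2 hR2 a ha c hc)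
    · exact absurd he.symm (hmix R2 hR2 R1 hR1 c hc a ha)
    · obtain ⟨L1, hL1, b1, hl1, hb1, hb1Y, hT1⟩ := hTL R1 hR1 (List.ne_nil_of_mem ha)
      obtain ⟨L2, hL2, b2, hl2, hb2, hb2Y, hT2⟩ := hTL R2 hR2 (List.ne_nil_of_mem hc)
      have hLL : L1 = L2 := hW.disj L1 hL1 L2 hL2 (rv a) (hT1 a ha) (rv c) (hT2 c hc) he
      subst hLL
      obtain ⟨α1, β1, h1⟩ := List.append_of_mem hb1
      obtain ⟨α2, β2, h2⟩ := List.append_of_mem hb2
      have hβ1 := (hW.tr L1 hL1).leave_last h1 hb1Y
      have hβ2 := (hW.tr L1 hL1).leave_last h2 hb2Y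
      subst hβ1 hβ2
      rw [h1] at h2
      have h3 := List.append_inj' h2 (by simp)
      have h4 : b1 = b2 := by
        have := h3.2
        exact rv_injective (by simpa using this)
      subst h4
      rw [hP.disj R1 hR1 R2 hR2 b1 (mem_of_getLast? hl1) b1 (mem_of_getLast? hl2) rfl]
  · rintro R' ⟨R, hR, rfl⟩
    exact hTlast R hR
  · intro e he
    obtain ⟨R, hR, hh⟩ := hPf e he
    refine ⟨R ++ T R, ⟨R, hR, rfl⟩, ?_⟩
    rw [List.head?_append, hh]; rfl

end ext

end C2

open C1 C2 in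
/-- W9: case 2 of the closure lemma (`main2` is the main theorem for two terminal sets) -/
theorem cl_case2 {V : Type uV} {E : Type u} {ι : Type uI} (G : E → Bool → V)
    (main2 : ∀ (A : Set E) (c : V → Option Bool), Adm G A c → Loose G A c →
      ∃ RR : Set (List (E × Bool)), (∀ R ∈ RR, ∃ t t', IsTT G A c t t' R) ∧
        (∀ R ∈ RR, ∀ R' ∈ RR, ∀ d ∈ R, ∀ d' ∈ R', d.1 = d'.1 → R = R') ∧
        ∀ t, ∀ e ∈ Lv G A (Sc c t), ∃ R ∈ RR, R.head? = some e ∨ R.getLast? = some (rv e))
    (A : Set E) (c : V → Option ι) (hA : Adm G A c) (hL : Loose G A c)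
    (κ : Cardinal.{u}) (hκ : κ.IsRegular) (hκ0 : ℵ₀ < κ) :
    ∃ f : Finset E → Set E, (∀ F, #(f F) < κ) ∧
      ∀ M : Set E, #M < κ → Closd f M → ∀ t, (∀ e ∈ M, ∀ b, G e b ∉ Sc c t) →
        ∀ X W, Reg c t X → Lk G (A \ M) (Sc c t) X ∅ W →
          ∃ W', Lk G (A \ M) (Sc c t) X ∅ W' ∧ Full G (A \ M) (Sc c t) W' := by
  classical
  rcases isEmpty_or_nonempty ι with hι | hι
  · exact ⟨fun _ => ∅, fun F => by simpa using (aleph0_pos.trans hκ0), fun M _ _ t => hι.elim t⟩
  set J1 : Set V := {x | ∃ N : Set E, #N < κ ∧ ∃ t' X' W', Reg c t' X' ∧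
    Lk G (A \ N) (Sc c t') X' ∅ W' ∧ x ∈ X' \ Sc c t'} with hJ1def
  have hJ1 : ∀ x ∈ J1, ∃ N : Set E, ∃ t' X' W', #N < κ ∧ Reg c t' X' ∧
      Lk G (A \ N) (Sc c t') X' ∅ W' ∧ x ∈ X' \ Sc c t' := by
    rintro x ⟨N, h1, t', X', W', h2⟩
    exact ⟨N, t', X', W', h1, h2⟩
  choose! Nx tx Xx Wx hNκ hXreg hWlk hxX using hJ1
  set he : ι → Set E := fun t' => if h : ∃ e, ∃ b, G e b ∈ Sc c t' then {h.choose} else ∅
    with hedef
  have heκ : ∀ t', #(he t') < κ := by
    intro t'
    have hfin : (he t').Finite := by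
      simp only [hedef]
      split_ifs
      · exact Set.finite_singleton _
      · exact Set.finite_empty
    exact (lt_aleph0_iff_set_finite.2 hfin).trans hκ0
  set f : Finset E → Set E := fun F => ⋃ e ∈ F, ⋃ b ∈ (Finset.univ : Finset Bool),
    ⋃ F' ∈ F.powerset, (if G e b ∈ J1 then (Nx (G e b) ∪ he (tx (G e b))) ∪
      {a | ∃ R ∈ Wx (G e b), (∃ d ∈ R, d.1 ∈ F') ∧ ∃ d ∈ R, d.1 = a} else ∅) with hfdef
  refine ⟨f, ?_, ?_⟩
  · intro F
    refine card_biUnion_finset_lt hκ0.le _ _ (fun e _ => ?_)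
    refine card_biUnion_finset_lt hκ0.le _ _ (fun b _ => ?_)
    refine card_biUnion_finset_lt hκ0.le _ _ (fun F' _ => ?_)
    split_ifs with h
    · refine (mk_union_le _ _).trans_lt (add_lt_of_lt hκ0.le ?_ ?_)
      · exact (mk_union_le _ _).trans_lt (add_lt_of_lt hκ0.le (hNκ _ h) (heκ _))
      · exact (lt_aleph0_iff_set_finite.2 (meet_finite (hWlk _ h).toSys F')).trans hκ0
    · simpa using (aleph0_pos.trans hκ0)
  · intro M hMκ hcl t hMt X W hreg hW
    by_cases hE : ∃ e, ∃ b, G e b ∈ Sc c t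
    swap
    · exact ⟨W, hW, fun e hee => absurd ⟨e.1, e.2, hee.2.1⟩ hE⟩
    -- consequences of closure
    have hcl1 : ∀ x ∈ J1, (∃ e ∈ M, ∃ b, G e b = x) → Nx x ⊆ M ∧ he (tx x) ⊆ M ∧
        ∀ R ∈ Wx x, ∀ d ∈ R, d.1 ∈ M → ∀ d' ∈ R, d'.1 ∈ M := by
      rintro x hx ⟨e, heM, b, rfl⟩
      have hgen : ∀ F' : Finset E, (F' : Set E) ⊆ M → (Nx (G e b) ∪ he (tx (G e b))) ∪
          {a | ∃ R ∈ Wx (G e b), (∃ d ∈ R, d.1 ∈ F') ∧ ∃ d ∈ R, d.1 = a} ⊆ M := by
        intro F' hF' y hy
        apply hcl (insert e F')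
        · intro a ha
          rcases Finset.mem_insert.1 (Finset.mem_coe.1 ha) with rfl | ha
          · exact heM
          · exact hF' ha
        · simp only [hfdef, Set.mem_iUnion]
          refine ⟨e, by simp, b, by simp, F', by simp, ?_⟩
          rw [if_pos hx]
          exact hy
      refine ⟨fun y hy => hgen ∅ (by simp) (Or.inl (Or.inl hy)),
        fun y hy => hgen ∅ (by simp) (Or.inl (Or.inr hy)), ?_⟩
      intro R hR d hd hdM d' hd'
      exact hgen {d.1} (by simpa using hdM) (Or.inr ⟨R, hR, ⟨d, hd, by simp⟩, d', hd', rfl⟩)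
    set XM : Set V := {x | x ∈ X ∧ ∃ e ∈ M, ∃ b, G e b = x} with hXMdef
    have hXMJ : ∀ x ∈ XM, x ∈ J1 := by
      rintro x ⟨hxX, e, heM, b, rfl⟩
      exact ⟨M, hMκ, t, X, W, hreg, hW, hxX, hMt e heM b⟩
    have htx : ∀ x ∈ XM, tx x ≠ t := by
      intro x hx heq
      have h1 := (hcl1 x (hXMJ x hx) hx.2).2.1
      rw [heq] at h1
      simp only [hedef, dif_pos hE, Set.singleton_subset_iff] at h1
      obtain ⟨b, hb⟩ := hE.choose_spec
      exact hMt _ h1 b hb
    have hlkx : ∀ x ∈ XM, ∃ W2, Lk G (A \ M) (Sc c (tx x)) (Xx x) ∅ W2 := by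
      intro x hx
      obtain ⟨h1, h2, h3⟩ := hcl1 x (hXMJ x hx) hx.2
      have hlk := hWlk x (hXMJ x hx)
      refine ⟨_, C1.Lk.layer (B := A \ M) hlk (Set.sdiff_subset_sdiff_right h1) ?_⟩
      intro L hLm d hd hdM d' hd'
      exact ⟨((hlk.tr L hLm).sub d' hd').1, fun h => hdM.2 (h3 L hLm d' hd' h d hd)⟩
    set S' : Set V := {v | ∃ x ∈ XM, v ∈ Sc c (tx x)} with hS'def
    have hXX : ∀ Y ∈ {Y | ∃ x ∈ XM, Y = S' ∪ Xx x}, ∃ W, Lk G (A \ M) S' Y ∅ W := by
      rintro Y ⟨x, hx, rfl⟩
      obtain ⟨W2, hW2⟩ := hlkx x hx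
      obtain ⟨W3, hW3, -⟩ := hW2.restart (P := S') (fun v hv => ⟨x, hx, hv⟩) (by simp)
      exact ⟨W3, hW3⟩
    obtain ⟨W', hW', -⟩ := wave_union (G := G) (A := A \ M) (S := S') (X0 := S') subset_rfl
      (lk_triv G (A \ M) S') _ hXX
    set X' : Set V := S' ∪ ⋃₀ {Y | ∃ x ∈ XM, Y = S' ∪ Xx x} with hX'def
    have hS'c : ∀ v ∈ S', v ∉ Sc c t ∧ v ∉ Nc c := by
      rintro v ⟨x, hx, hv⟩
      have h1 : c v = some (tx x) := hv
      constructor
      · intro h2
        have h2' : c v = some t := h2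
        rw [h1] at h2'
        exact htx x hx (Option.some.inj h2')
      · intro h2
        have h2' : c v = none := h2
        rw [h1] at h2'
        exact absurd h2' (by simp)
    have hF1 : ∀ v ∈ X', v ∉ Sc c t := by
      rintro v (hv | ⟨Y, ⟨x, hx, rfl⟩, hv | hv⟩)
      · exact (hS'c v hv).1
      · exact (hS'c v hv).1
      · intro hvt
        by_cases hvx : v ∈ Sc c (tx x)
        · exact (hS'c v ⟨x, hx, hvx⟩).1 hvt
        · have h1 : c v = none := (hXreg x (hXMJ x hx)).2 ⟨hv, hvx⟩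
          have h2 : c v = some t := hvt
          rw [h1] at h2
          exact absurd h2 (by simp)
    have hF2 : ∀ x ∈ XM, x ∈ X' := by
      intro x hx
      exact Or.inr ⟨_, ⟨x, hx, rfl⟩, Or.inr (hxX x (hXMJ x hx)).1⟩
    have hF3 : ∀ v ∈ S', v ∉ X := by
      intro v hv hvX
      exact (hS'c v hv).2 (hreg.2 ⟨hvX, (hS'c v hv).1⟩)
    set Z : Set V := X \ X' with hZdef
    have hSZ : Sc c t ⊆ Z := fun v hv => ⟨hreg.1 hv, fun h => hF1 v h hv⟩
    have hF4 : ∀ e ∈ M, ∀ b, G e b ∉ Z := by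
      intro e heM b hb
      exact hb.2 (hF2 _ ⟨hb.1, e, heM, b, rfl⟩)
    -- the auxiliary two-colouring
    set c' : V → Option Bool := fun v => if v ∈ Sc c t then some true else
      if v ∈ Z then none else some false with hc'def
    have hc't : ∀ v, c' v = some true ↔ v ∈ Sc c t := by
      intro v
      simp only [hc'def]
      split_ifs with h1 h2 <;> simp [h1]
    have hc'f : ∀ v, c' v = some false ↔ v ∉ Z := by
      intro v
      simp only [hc'def]
      split_ifs with h1 h2
      · simpa using hSZ h1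
      · simpa using h2
      · simpa using h2
    have hc'n : ∀ v, c' v = none → v ∈ Z ∧ v ∉ Sc c t := by
      intro v hv
      simp only [hc'def] at hv
      split_ifs at hv with h1 h2
      exact ⟨h2, h1⟩
    obtain ⟨c'', WW, hext, hloose, hlk⟩ := exists_max G A c'
    have hSct : Sc c' true = Sc c t := Set.ext hc't
    have hreg'' : Reg c t (Sc c'' true) := by
      constructor
      · rw [← hSct]; exact hext.sc true
      · rintro v ⟨hv, hvt⟩
        have hvZ : v ∈ Z := by
          by_contra hvZ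
          have := hext v false ((hc'f v).2 hvZ)
          rw [show c'' v = some true from hv] at this
          exact absurd this (by simp)
        exact hreg.2 ⟨hvZ.1, hvt⟩
    have hS'' : Sc c'' true = Sc c t := by
      have h1 := hlk true
      rw [hSct] at h1
      exact hL t _ _ hreg'' h1
    have hnc : Nc c'' ⊆ Nc c := by
      intro v hv
      obtain ⟨h1, h2⟩ := hc'n v (hext.nc hv)
      exact hreg.2 ⟨h1.1, h2⟩
    obtain ⟨RR, hRR, hdis, hcov⟩ := main2 A c'' (fun Y hY => hA Y (hY.trans hnc)) hloose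
    -- the oriented system
    set P0 : Set (List (E × Bool)) := {R | ∃ e ∈ Lv G A (Sc c t), R.head? = some e ∧
      (R ∈ RR ∨ rvl R ∈ RR)} with hP0def
    have hbool : ∀ s s' : Bool, s ≠ s' → s = true → s' = false := by decide
    have hTT : ∀ R ∈ P0, IsTT G A c'' true false R := by
      rintro R ⟨e, hee, hh, hR⟩
      have h1 : tl G e ∈ Sc c'' true := by rw [hS'']; exact hee.2.1
      have h2 : ∃ s s', IsTT G A c'' s s' R := by
        rcases hR with hR | hR
        · exact hRR R hR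
        · obtain ⟨s, s', h⟩ := hRR _ hR
          have := tt_rev h
          rw [rvl_rvl] at this
          exact ⟨_, _, this⟩
      obtain ⟨s, s', h2⟩ := h2
      have h3 := tt_start h2 hh h1
      have h4 := hbool s s' h2.ne h3
      rw [h3, h4] at h2
      exact h2
    set Z1 : Set V := {v | c'' v ≠ some false} with hZ1def
    have hP0sys : Sys G A (Sc c t) Z1 P0 := by
      constructor
      · intro R hR
        have h := hTT R hR
        obtain ⟨u, hu, v, hv, hw⟩ := h.wk
        rw [hS''] at hu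
        refine ⟨tt_ne h, ⟨u, hu, v, hw⟩, h.nodup, h.sub, ?_, ?_⟩
        · intro d hd hdt
          rw [← hS''] at hdt
          have hdt' : c'' (LC.hd G d) = some true := hdt
          rcases tt_hd h hd with h1 | ⟨h1, _⟩
          · have h1' : c'' (LC.hd G d) = none := h1
            rw [hdt'] at h1'; exact absurd h1' (by simp)
          · have h1' : c'' (LC.hd G d) = some false := h1
            rw [hdt'] at h1'; exact absurd h1' (by simp)
        · intro d hd hdf
          rcases tt_tl h hd with h1 | ⟨h1, _⟩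
          · have h1' : c'' (tl G d) = none := h1
            rw [hdf] at h1'; exact absurd h1' (by simp)
          · have h1' : c'' (tl G d) = some true := h1
            rw [hdf] at h1'; exact absurd h1' (by simp)
      · intro R hR R' hR' d hd d' hd' hee
        have hT := hTT R hR
        have hT' := hTT R' hR'
        have hno : R ≠ rvl R' := by
          intro heq
          obtain ⟨e, he1, he2, he3⟩ := hR
          have h1 := tt_rev hT'
          rw [← heq] at h1
          have h2 : tl G e ∈ Sc c'' true := by rw [hS'']; exact he1.2.1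
          exact absurd (tt_start h1 he2 h2) (by simp)
        obtain ⟨e, he1, he2, he3⟩ := hR
        obtain ⟨e', he1', he2', he3'⟩ := hR'
        rcases he3 with h3 | h3 <;> rcases he3' with h3' | h3'
        · exact hdis R h3 R' h3' d hd d' hd' hee
        · have := hdis R h3 _ h3' d hd (rv d') (by simpa using hd') hee
          exact absurd this hno
        · have := hdis _ h3 R' h3' (rv d) (by simpa using hd) d' hd' hee
          exfalso
          apply hno
          rw [← this, rvl_rvl]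
        · have := hdis _ h3 _ h3' (rv d) (by simpa using hd) (rv d') (by simpa using hd') hee
          rw [← rvl_rvl R, this, rvl_rvl]
    have hP0last : ∀ R ∈ P0, ∃ b ∈ Lv G A Z1, R.getLast? = some b := by
      intro R hR
      have h := hTT R hR
      have hne := tt_ne h
      refine ⟨R.getLast hne, ⟨h.sub _ (List.getLast_mem hne),
        (hP0sys.tr R hR).tlX _ (List.getLast_mem hne), ?_⟩, List.getLast?_eq_some_getLast hne⟩
      obtain ⟨u, hu, v, hv, hw⟩ := h.wk
      have e1 := (List.dropLast_append_getLast hne).symm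
      rw [e1, wk_concat] at hw
      intro h2
      apply h2
      rw [hw.2]
      exact hv
    have hP0full : Full G A (Sc c t) P0 := by
      intro e hee
      have h1 : e ∈ Lv G A (Sc c'' true) := by rw [hS'']; exact hee
      obtain ⟨R, hR, hR' | hR'⟩ := hcov true e h1
      · exact ⟨R, ⟨e, hee, hR', Or.inl hR⟩, hR'⟩
      · have h2 : (rvl R).head? = some e := by
          obtain ⟨ys, rfl⟩ := List.getLast?_eq_some_iff.1 hR'
          simp
        exact ⟨rvl R, ⟨e, hee, h2, Or.inr (by rw [rvl_rvl]; exact hR)⟩, h2⟩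
    obtain ⟨P1, hP1, hP1l, hP1f⟩ := ext_sys (X := Z) (S' := Sc c' false) (Y := Sc c'' false)
      (by
        intro v hv
        rw [← hS''] at hv
        show c'' v ≠ some false
        rw [show c'' v = some true from hv]
        simp) hP0sys hP0last hP0full
      (fun v hv h => h hv) (hlk false) (fun v hv => (hc'f v).1 hv)
      (by
        intro v hv
        by_contra hvZ
        exact hv (hext v false ((hc'f v).2 hvZ)))
      (by
        intro v hv
        by_cases h : c'' v = some false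
        · exact Or.inr h
        · exact Or.inl h)
    -- pass to A \ M
    have hP1' : Sys G (A \ M) (Sc c t) Z P1 := by
      refine ⟨?_, hP1.disj⟩
      intro R hR
      have h := hP1.tr R hR
      exact ⟨h.ne, h.wk, h.nodup, fun d hd => ⟨h.sub d hd, fun hM => hF4 d.1 hM d.2 (h.tlX d hd)⟩,
        h.hdS, h.tlX⟩
    obtain ⟨P, hP, hPl, hPf⟩ := ext_sys (X := X) (S' := S') (Y := X') hSZ hP1'
      (by
        intro R hR
        obtain ⟨b, hb, hl⟩ := hP1l R hR
        exact ⟨b, ⟨⟨hb.1, fun hM => hF4 b.1 hM b.2 hb.2.1⟩, hb.2⟩, hl⟩)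
      (fun e hee => hP1f e ⟨hee.1.1, hee.2⟩)
      (fun v hv h => h.2 hv) hW' hF3 Set.sdiff_subset
      (by
        intro v hv
        by_cases h : v ∈ X'
        · exact Or.inr h
        · exact Or.inl ⟨hv, h⟩)
    exact pym hreg.1 hP hPl hPf hW

end Pool.Agent.LC
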