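import Mathlib

set_option autoImplicit false

open Cardinal

namespace Pool.Agent.LC

universe u

/-- closed under a set-valued function -/
def Closd {E : Type u} (f : Finset E → Set E) (M : Set E) : Prop :=
  ∀ F : Finset E, (F : Set E) ⊆ M → f F ⊆ M

/-- stationary family of sets of size `< κ` -/
def Stat {E : Type u} (κ : Cardinal.{u}) (S : Set (Set E)) : Prop :=
  ∀ f : Finset E → Set E, (∀ F, #(f F) < κ) → ∃ N ∈ S, #N < κ ∧ Closd f N

end Pool.Agent.LC
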