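import Pool.Agent.Lib_helper64.Basic
import Pool.Agent.Lib_helper64.Clo

set_option autoImplicit false
set_option linter.unusedVariables false

open Cardinal

namespace Pool.Agent.LC

universe u uV uE uI

variable {V : Type uV} {E : Type u} {ι : Type uI}

/-- `D` separates `x` from the set of vertices satisfying `Z` in `A` -/
def SepZ (G : E → Bool → V) (A D : Set E) (x : V) (Z : V → Prop) : Prop :=
  ∀ z L, Z z → Wk G x L z → ¬ ∀ d ∈ L, d.1 ∈ A \ D

lemma SepZ.mono {G : E → Bool → V} {A D M : Set E} {x : V} {Z : V → Prop}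
    (h : SepZ G A D x Z) (hD : D ⊆ M) : SepZ G A M x Z :=
  fun z L hz hw hL => h z L hz hw (fun d hd => ⟨(hL d hd).1, fun h' => (hL d hd).2 (hD h')⟩)

lemma exists_exit {G : E → Bool → V} {X : Set V} {u v : V} {L : List (E × Bool)}
    (hw : Wk G u L v) (hu : u ∈ X) (hv : v ∉ X) : ∃ d ∈ L, tl G d ∈ X ∧ hd G d ∉ X := by
  induction L generalizing u with
  | nil => have : u = v := hw
           rw [this] at hu; exact absurd hu hv
  | cons a L ih =>
    by_cases h : hd G a ∈ X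
    · obtain ⟨d, hd', h1⟩ := ih hw.2 h
      exact ⟨d, List.mem_cons_of_mem _ hd', h1⟩
    · exact ⟨a, by simp, by rw [hw.1]; exact hu, h⟩

/-- W6: admissibility is preserved by removing a closed set of edges -/
theorem cl_adm (G : E → Bool → V) (A : Set E) (c : V → Option ι) (hA : Adm G A c)
    (κ : Cardinal.{u}) (hκ : κ.IsRegular) (hκ0 : ℵ₀ < κ) :
    ∃ f : Finset E → Set E, (∀ F, #(f F) < κ) ∧
      ∀ M : Set E, #M < κ → Closd f M → Adm G (A \ M) c := by
  classical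
  have hD : ∀ (x : V) (Z : V → Prop), ∃ D : Set E, #D < κ ∧
      ∀ D0 : Set E, #D0 < κ → SepZ G A D0 x Z → SepZ G A D x Z := by
    intro x Z
    by_cases h : ∃ D : Set E, #D < κ ∧ SepZ G A D x Z
    · obtain ⟨D, h1, h2⟩ := h
      exact ⟨D, h1, fun _ _ _ => h2⟩
    · refine ⟨∅, ?_, ?_⟩
      · rw [Cardinal.mk_emptyCollection]
        exact lt_of_lt_of_le Cardinal.aleph0_pos hκ0.le
      · intro D0 h1 h2
        exact absurd ⟨D0, h1, h2⟩ h
  choose D hDs hDsep using hD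
  have hfin : ∀ (α : Type u) (s : Finset α), #(s : Set α) < κ := fun α s =>
    (Cardinal.lt_aleph0_of_finite _).trans hκ0
  refine ⟨fun F => ⋃ d, ⋃ (_ : d ∈ ((F ×ˢ Finset.univ : Finset (E × Bool)) : Set (E × Bool))),
    ⋃ d', ⋃ (_ : d' ∈ ((F ×ˢ Finset.univ : Finset (E × Bool)) : Set (E × Bool))),
      (D (tl G d) (fun z => z = tl G d') ∪ D (tl G d) (fun z => c z ≠ none)), ?_, ?_⟩
  · intro F
    refine (card_biUnion_lt_iff_forall_of_isRegular hκ (hfin _ _)).2 fun d _ => ?_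
    refine (card_biUnion_lt_iff_forall_of_isRegular hκ (hfin _ _)).2 fun d' _ => ?_
    exact (mk_union_le _ _).trans_lt (add_lt_of_lt hκ0.le (hDs _ _) (hDs _ _))
  intro M hM hcl X hX hfinX
  -- D's are contained in M
  have hDM1 : ∀ d d' : E × Bool, d.1 ∈ M → d'.1 ∈ M →
      D (tl G d) (fun z => z = tl G d') ⊆ M ∧ D (tl G d) (fun z => c z ≠ none) ⊆ M := by
    intro d d' hd hd'
    have h1 := hcl {d.1, d'.1} (by
      intro x hx
      simp only [Finset.coe_insert, Finset.coe_singleton, Set.mem_insert_iff,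
        Set.mem_singleton_iff] at hx
      rcases hx with rfl | rfl
      · exact hd
      · exact hd')
    constructor
    · refine Set.Subset.trans ?_ h1
      intro x hx
      simp only [Set.mem_iUnion]
      exact ⟨d, by simp, d', by simp, Or.inl hx⟩
    · refine Set.Subset.trans ?_ h1
      intro x hx
      simp only [Set.mem_iUnion]
      exact ⟨d, by simp, d', by simp, Or.inr hx⟩
  set D0 : Set E := cutE G (A \ M) X ∪ M with hD0
  have hD0s : #D0 < κ := (mk_union_le _ _).trans_lt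
    (add_lt_of_lt hκ0.le (hfinX.lt_aleph0.trans hκ0) hM)
  have hsep : ∀ x ∈ X, ∀ Z : V → Prop, (∀ z, Z z → z ∉ X) → SepZ G A D0 x Z := by
    intro x hx Z hZ z L hz hw hL
    obtain ⟨d, hd, h1, h2⟩ := exists_exit hw hx (hZ z hz)
    have h3 := hL d hd
    apply h3.2
    left
    refine ⟨⟨h3.1, fun h => h3.2 (Or.inr h)⟩, ?_⟩
    rcases d with ⟨e, b⟩
    cases b <;> simp only [tl, hd, Bool.not_false, Bool.not_true] at h1 h2
    · exact fun h => h2 (h.1 h1)
    · exact fun h => h2 (h.2 h1)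
  -- separations by M
  have hsepM1 : ∀ d d' : E × Bool, d.1 ∈ M → d'.1 ∈ M → tl G d ∈ X → tl G d' ∉ X →
      SepZ G A M (tl G d) (fun z => z = tl G d') := by
    intro d d' hd hd' h1 h2
    exact (hDsep _ _ D0 hD0s (hsep _ h1 _ (by rintro z rfl; exact h2))).mono (hDM1 d d' hd hd').1
  have hsepM2 : ∀ d : E × Bool, d.1 ∈ M → tl G d ∈ X →
      SepZ G A M (tl G d) (fun z => c z ≠ none) := by
    intro d hd h1
    exact (hDsep _ _ D0 hD0s (hsep _ h1 _ (by
      intro z hz hzX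
      exact hz (hX hzX)))).mono (hDM1 d d hd hd).2
  set C : Set V := {v | ∃ d : E × Bool, d.1 ∈ M ∧ tl G d ∈ X ∧ ∃ L, Wk G (tl G d) L v ∧
    ∀ a ∈ L, a.1 ∈ A \ M} with hC
  have hC1 : ∀ d : E × Bool, d.1 ∈ M → tl G d ∈ C → tl G d ∈ X := by
    rintro d hd ⟨d0, h1, h2, L, h3, h4⟩
    by_contra h
    exact hsepM1 d0 d h1 hd h2 h _ L rfl h3 h4
  have hC2 : C ⊆ Nc c := by
    rintro v ⟨d0, h1, h2, L, h3, h4⟩
    by_contra h
    exact hsepM2 d0 h1 h2 v L h h3 h4
  have hC3 : ∀ d : E × Bool, d.1 ∈ M → tl G d ∈ X → tl G d ∈ C :=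
    fun d hd h => ⟨d, hd, h, [], rfl, by simp⟩
  have hC4 : ∀ d : E × Bool, d.1 ∈ A \ M → tl G d ∈ C → LC.hd G d ∈ C := by
    rintro d hd ⟨d0, h1, h2, L, h3, h4⟩
    refine ⟨d0, h1, h2, L ++ [d], (wk_concat G L d).2 ⟨h3, rfl⟩, ?_⟩
    intro a ha
    rcases List.mem_append.1 ha with ha | ha
    · exact h4 a ha
    · rw [List.mem_singleton.1 ha]; exact hd
  have hC5 : ∀ e ∈ A \ M, (G e false ∈ C ↔ G e true ∈ C) := by
    intro e he
    exact ⟨fun h => hC4 (e, false) he h, fun h => hC4 (e, true) he h⟩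
  -- the two equalities of cuts
  have hM1 : ∀ e ∈ M, ∀ b, G e b ∉ X \ C := by
    rintro e he b ⟨h1, h2⟩
    exact h2 (hC3 (e, b) he h1)
  have hM2 : ∀ e ∈ M, ∀ b, G e b ∉ C \ X := by
    rintro e he b ⟨h1, h2⟩
    exact h2 (hC1 (e, b) he h1)
  have heq : ∀ Y : Set V, (∀ e ∈ M, ∀ b, G e b ∉ Y) → cutE G A Y = cutE G (A \ M) Y := by
    intro Y hY
    ext e
    constructor
    · rintro ⟨h1, h2⟩
      refine ⟨⟨h1, ?_⟩, h2⟩
      intro h3
      exact h2 ⟨fun h => absurd h (hY e h3 false), fun h => absurd h (hY e h3 true)⟩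
    · rintro ⟨h1, h2⟩
      exact ⟨h1.1, h2⟩
  have hcut1 : cutE G (A \ M) (X ∩ C) ∪ cutE G (A \ M) (X \ C) = cutE G (A \ M) X := by
    ext e
    constructor
    · rintro (⟨h1, h2⟩ | ⟨h1, h2⟩)
      · refine ⟨h1, fun h3 => h2 ?_⟩
        have := hC5 e h1
        constructor
        · rintro ⟨h4, h5⟩; exact ⟨h3.1 h4, this.1 h5⟩
        · rintro ⟨h4, h5⟩; exact ⟨h3.2 h4, this.2 h5⟩
      · refine ⟨h1, fun h3 => h2 ?_⟩
        have := hC5 e h1
        constructor
        · rintro ⟨h4, h5⟩; exact ⟨h3.1 h4, fun h => h5 (this.2 h)⟩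
        · rintro ⟨h4, h5⟩; exact ⟨h3.2 h4, fun h => h5 (this.1 h)⟩
    · rintro ⟨h1, h2⟩
      have := hC5 e h1
      by_cases h3 : G e false ∈ C
      · left
        refine ⟨h1, fun h4 => h2 ?_⟩
        exact ⟨fun h => (h4.1 ⟨h, h3⟩).1, fun h => (h4.2 ⟨h, this.1 h3⟩).1⟩
      · right
        refine ⟨h1, fun h4 => h2 ?_⟩
        exact ⟨fun h => (h4.1 ⟨h, h3⟩).1, fun h => (h4.2 ⟨h, fun h' => h3 (this.2 h')⟩).1⟩
  have hcut2 : cutE G (A \ M) (C \ X) = cutE G (A \ M) (X ∩ C) := by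
    ext e
    constructor
    · rintro ⟨h1, h2⟩
      refine ⟨h1, fun h3 => h2 ?_⟩
      have := hC5 e h1
      constructor
      · rintro ⟨h4, h5⟩
        exact ⟨this.1 h4, fun h => h5 (h3.2 ⟨h, this.1 h4⟩).1⟩
      · rintro ⟨h4, h5⟩
        exact ⟨this.2 h4, fun h => h5 (h3.1 ⟨h, this.2 h4⟩).1⟩
    · rintro ⟨h1, h2⟩
      refine ⟨h1, fun h3 => h2 ?_⟩
      have := hC5 e h1
      constructor
      · rintro ⟨h4, h5⟩
        refine ⟨?_, this.1 h5⟩
        by_contra h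
        exact (h3.2 ⟨this.1 h5, h⟩).2 h4
      · rintro ⟨h4, h5⟩
        refine ⟨?_, this.2 h5⟩
        by_contra h
        exact (h3.1 ⟨this.2 h5, h⟩).2 h4
  have hdisj : Disjoint (cutE G (A \ M) (X ∩ C)) (cutE G (A \ M) (X \ C)) := by
    rw [Set.disjoint_left]
    rintro e ⟨h1, h2⟩ ⟨_, h3⟩
    have := hC5 e h1
    by_cases h4 : G e false ∈ C
    · exact h3 ⟨fun h => absurd h4 h.2, fun h => absurd (this.1 h4) h.2⟩
    · exact h2 ⟨fun h => absurd h.2 h4, fun h => absurd (this.2 h.2) h4⟩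
  have hf1 : (cutE G (A \ M) (X ∩ C)).Finite := hfinX.subset (by
    rw [← hcut1]; exact Set.subset_union_left)
  have hf2 : (cutE G (A \ M) (X \ C)).Finite := hfinX.subset (by
    rw [← hcut1]; exact Set.subset_union_right)
  have he1 : Even (cutE G (A \ M) (X \ C)).ncard := by
    have := hA (X \ C) (Set.sdiff_subset.trans hX)
    rw [heq _ hM1] at this
    exact this hf2
  have he2 : Even (cutE G (A \ M) (X ∩ C)).ncard := by
    have := hA (C \ X) (Set.sdiff_subset.trans hC2)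
    rw [heq _ hM2, hcut2] at this
    exact this hf1
  rw [← hcut1, Set.ncard_union_eq hdisj hf1 hf2]
  exact he2.add he1

end Pool.Agent.LC
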