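import Pool.Agent.Lib_helper60.DD.Defs

/-!
# MP_a2cbb7_co : blocks Q (bisectors by multiplicity)
`rows_count_of` takes the Szemeredi-Trotter bound for rich lines as a hypothesis.
-/

set_option autoImplicit false

namespace Pool.Agent.DD

open Finset Classical

noncomputable section

/-- ordered pairs of `Y` with perpendicular bisector `l` which span a line with `< q` points -/
def pairsOn (Y : Finset ℂ) (q : ℝ) (l : Set ℂ) : Finset (ℂ × ℂ) :=
  Y.offDiag.filter (fun t => bis t.1 t.2 = l ∧ (on Y (ln t.1 t.2) : ℝ) < q)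

lemma Q_dist_eq_iff (p a b : ℂ) : dist p a = dist p b ↔
    (p.re-a.re)^2+(p.im-a.im)^2 = (p.re-b.re)^2+(p.im-b.im)^2 := by
  rw [Complex.dist_eq_re_im, Complex.dist_eq_re_im]
  rw [Real.sqrt_inj (by positivity) (by positivity)]

lemma Q_dist_eq_iff' (p a b c : ℂ) : dist a p = dist c b ↔
    (a.re-p.re)^2+(a.im-p.im)^2 = (c.re-b.re)^2+(c.im-b.im)^2 := by
  rw [Complex.dist_eq_re_im, Complex.dist_eq_re_im]
  rw [Real.sqrt_inj (by positivity) (by positivity)]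

lemma Q_mem_bis (p a b : ℂ) : p ∈ bis a b ↔
    2*(b.re-a.re)*p.re + 2*(b.im-a.im)*p.im = b.re^2+b.im^2-a.re^2-a.im^2 := by
  unfold bis
  rw [Set.mem_ofPred_eq, Q_dist_eq_iff]
  constructor <;> intro h <;> nlinarith [h]

lemma Q_mem_ln (p a b : ℂ) : p ∈ ln a b ↔
    (b.re-a.re)*(p.im-a.im) = (b.im-a.im)*(p.re-a.re) := by
  unfold ln
  simp [Complex.sub_re, Complex.sub_im]

lemma Q_ne_iff (a b : ℂ) (h : a ≠ b) : b.re - a.re ≠ 0 ∨ b.im - a.im ≠ 0 := by
  by_contra hc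
  push Not at hc
  apply h
  apply Complex.ext
  · linarith [hc.1]
  · linarith [hc.2]

theorem isLine_bis (a b : ℂ) (h : a ≠ b) : IsLine (bis a b) := by
  refine ⟨2*(b.re-a.re), 2*(b.im-a.im), b.re^2+b.im^2-a.re^2-a.im^2, ?_, ?_⟩
  · rcases Q_ne_iff a b h with h | h
    · left; exact mul_ne_zero two_ne_zero h
    · right; exact mul_ne_zero two_ne_zero h
  · ext p
    rw [Q_mem_bis]; rfl

theorem isLine_ln (a b : ℂ) (h : a ≠ b) : IsLine (ln a b) := by
  refine ⟨-(b.im-a.im), (b.re-a.re), (b.re-a.re)*a.im-(b.im-a.im)*a.re, ?_, ?_⟩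
  · rcases Q_ne_iff a b h with h | h
    · right; exact h
    · left; exact neg_ne_zero.mpr h
  · ext p
    rw [Q_mem_ln, Set.mem_ofPred_eq]
    constructor <;> intro h <;> nlinarith [h]

lemma Q_left_mem_ln (a b : ℂ) : a ∈ ln a b := by
  rw [Q_mem_ln]; ring

lemma Q_right_mem_ln (a b : ℂ) : b ∈ ln a b := by
  rw [Q_mem_ln]; ring

/-- equal bisectors: the difference vectors are parallel -/
lemma Q_par (a b a' b' : ℂ) (h : bis a b = bis a' b') :
    (b.re-a.re)*(b'.im-a'.im) = (b.im-a.im)*(b'.re-a'.re) := by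
  have h1 : (⟨(a.re+b.re)/2, (a.im+b.im)/2⟩ : ℂ) ∈ bis a' b' := by
    rw [← h, Q_mem_bis]; simp only; ring
  have h2 : (⟨(a.re+b.re)/2 - (b.im-a.im), (a.im+b.im)/2+(b.re-a.re)⟩ : ℂ) ∈ bis a' b' := by
    rw [← h, Q_mem_bis]; simp only; ring
  rw [Q_mem_bis] at h1 h2
  simp only at h1 h2
  nlinarith [h1, h2]

/-- two different pairs with the same bisector lie on one common line (no four concyclic) -/
theorem bis_eq_collinear (Y : Finset ℂ) (hY : NC Y) (a b a' b' : ℂ) (ha : a ∈ Y) (hb : b ∈ Y)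
    (ha' : a' ∈ Y) (hb' : b' ∈ Y) (hab : a ≠ b) (hab' : a' ≠ b') (h : bis a b = bis a' b') :
    a' ∈ ln a b ∧ b' ∈ ln a b := by
  have hpar := Q_par a b a' b' h
  have hboth : a' ∈ ln a b → b' ∈ ln a b := by
    intro h1
    rw [Q_mem_ln] at h1 ⊢
    nlinarith [h1, hpar]
  have hboth' : b' ∈ ln a b → a' ∈ ln a b := by
    intro h1
    rw [Q_mem_ln] at h1 ⊢
    nlinarith [h1, hpar]
  by_cases hmem : a' ∈ ln a b
  · exact ⟨hmem, hboth hmem⟩
  · exfalso
    have hmem' : b' ∉ ln a b := fun hh => hmem (hboth' hh)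
    -- centre
    have hne : (b.re-a.re)*(a'.im-a.im) - (b.im-a.im)*(a'.re-a.re) ≠ 0 := by
      intro h0; apply hmem; rw [Q_mem_ln]; linarith
    set δ : ℝ := (b.re-a.re)*(a'.im-a.im) - (b.im-a.im)*(a'.re-a.re) with hδ
    set m1 : ℝ := (a.re+b.re)/2 with hm1
    set m2 : ℝ := (a.im+b.im)/2 with hm2
    set s : ℝ := ((m1-a'.re)^2+(m2-a'.im)^2-(m1-a.re)^2-(m2-a.im)^2)/(2*δ) with hs
    have hsδ : 2 * δ * s = (m1-a'.re)^2+(m2-a'.im)^2-(m1-a.re)^2-(m2-a.im)^2 := by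
      rw [hs]; field_simp
    set z : ℂ := ⟨m1 - s*(b.im-a.im), m2 + s*(b.re-a.re)⟩ with hz
    have hzb : z ∈ bis a b := by
      rw [Q_mem_bis, hz]; simp only [hm1, hm2]; ring
    have hzb' : z ∈ bis a' b' := h ▸ hzb
    have e1 : dist a z = dist b z := by
      have : dist z a = dist z b := hzb
      rwa [dist_comm z a, dist_comm z b] at this
    have e2 : dist a' z = dist b' z := by
      have : dist z a' = dist z b' := hzb'
      rwa [dist_comm z a', dist_comm z b'] at this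
    have e3 : dist a z = dist a' z := by
      rw [Q_dist_eq_iff' z a z a']
      rw [hz]; simp only
      nlinarith [hsδ, hδ]
    have hsub : ({a, b, a', b'} : Finset ℂ) ⊆ Y.filter (fun p => dist p z = dist a z) := by
      intro p hp
      simp only [mem_insert, mem_singleton] at hp
      rw [mem_filter]
      rcases hp with rfl | rfl | rfl | rfl
      · exact ⟨ha, rfl⟩
      · exact ⟨hb, e1.symm⟩
      · exact ⟨ha', e3.symm⟩
      · exact ⟨hb', by rw [← e2, e3]⟩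
    have hcard : ({a, b, a', b'} : Finset ℂ).card = 4 := by
      have n1 : a ≠ a' := by rintro rfl; exact hmem (Q_left_mem_ln _ _)
      have n2 : b ≠ a' := by rintro rfl; exact hmem (Q_right_mem_ln _ _)
      have n3 : a ≠ b' := by rintro rfl; exact hmem' (Q_left_mem_ln _ _)
      have n4 : b ≠ b' := by rintro rfl; exact hmem' (Q_right_mem_ln _ _)
      rw [card_insert_of_notMem, card_insert_of_notMem, card_insert_of_notMem, card_singleton]
      · simpa using hab'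
      · simp [n2, n4]
      · simp [hab, n1, n3]
    have := card_le_card hsub
    rw [hcard] at this
    have h3 := hY z (dist a z)
    omega

/-! ### counting -/

/-- the statement of `rich_lines` (Szemeredi-Trotter) -/
def RichLinesStmt : Prop := ∃ C : ℝ, 0 < C ∧ ∀ (P : Finset ℂ) (L : Finset (Set ℂ)) (k : ℕ), 2 ≤ k →
    (∀ l ∈ L, IsLine l ∧ k ≤ on P l) →
    (L.card : ℝ) ≤ C * ((P.card : ℝ) ^ 2 / (k : ℝ) ^ 3 + (P.card : ℝ) / k)

lemma Q_ln_eq (a b a' b' : ℂ) (hab : a ≠ b) (hab' : a' ≠ b') (h1 : a' ∈ ln a b) (h2 : b' ∈ ln a b) :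
    ln a' b' = ln a b := by
  rw [Q_mem_ln] at h1 h2
  have hne := Q_ne_iff a b hab
  have hne' := Q_ne_iff a' b' hab'
  ext p
  rw [Q_mem_ln, Q_mem_ln]
  have hd : (b.re-a.re)*(b'.im-a'.im) = (b.im-a.im)*(b'.re-a'.re) := by nlinarith
  constructor
  · intro h
    rcases hne' with hn | hn
    · apply mul_left_cancel₀ hn
      linear_combination (b.re-a.re)*h + (p.re-a'.re)*hd + (b'.re-a'.re)*h1
    · apply mul_left_cancel₀ hn
      linear_combination (b.im-a.im)*h + (p.im-a'.im)*hd + (b'.im-a'.im)*h1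
  · intro h
    rcases hne with hn | hn
    · apply mul_left_cancel₀ hn
      linear_combination (b'.re-a'.re)*(h - h1) - (p.re-a'.re)*hd
    · apply mul_left_cancel₀ hn
      linear_combination (b'.im-a'.im)*(h - h1) - (p.im-a'.im)*hd

lemma Q_mem_pairsOn (Y : Finset ℂ) (q : ℝ) (l : Set ℂ) (t : ℂ × ℂ) : t ∈ pairsOn Y q l ↔
    (t.1 ∈ Y ∧ t.2 ∈ Y ∧ t.1 ≠ t.2) ∧ bis t.1 t.2 = l ∧ (on Y (ln t.1 t.2) : ℝ) < q := by
  unfold pairsOn
  rw [mem_filter, mem_offDiag]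

lemma Q_bis_inj (a b b' : ℂ) (h : bis a b = bis a b') (hab' : a ≠ b') : b = b' := by
  have hpar := Q_par a b a b' h
  have h1 : (⟨(a.re+b.re)/2, (a.im+b.im)/2⟩ : ℂ) ∈ bis a b' := by
    rw [← h, Q_mem_bis]; simp only; ring
  rw [Q_mem_bis] at h1
  simp only at h1
  have hne' := Q_ne_iff a b' hab'
  have hn2 : 0 < (b'.re-a.re)^2 + (b'.im-a.im)^2 := by
    rcases hne' with h | h
    · positivity
    · positivity
  -- (b' - b) is orthogonal and parallel to b' - a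
  have o1 : (b'.re-a.re)*(b'.re-b.re) + (b'.im-a.im)*(b'.im-b.im) = 0 := by nlinarith
  have o2 : (b'.re-a.re)*(b'.im-b.im) - (b'.im-a.im)*(b'.re-b.re) = 0 := by nlinarith
  have s1 : ((b'.re-a.re)^2 + (b'.im-a.im)^2) * (b'.re-b.re) = 0 := by
    linear_combination (b'.re-a.re) * o1 - (b'.im-a.im) * o2
  have s2 : ((b'.re-a.re)^2 + (b'.im-a.im)^2) * (b'.im-b.im) = 0 := by
    linear_combination (b'.im-a.im) * o1 + (b'.re-a.re) * o2
  apply Complex.ext
  · have := (mul_eq_zero.mp s1).resolve_left hn2.ne'; linarith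
  · have := (mul_eq_zero.mp s2).resolve_left hn2.ne'; linarith

/-- all pairs of a row lie on one line with at least as many points -/
lemma Q_row (Y : Finset ℂ) (hY : NC Y) (q : ℝ) (l : Set ℂ) (hne : (pairsOn Y q l).Nonempty) :
    ∃ l' : Set ℂ, IsLine l' ∧ (∀ t ∈ pairsOn Y q l, ln t.1 t.2 = l') ∧ (pairsOn Y q l).card ≤ on Y l' ∧
      (on Y l' : ℝ) < q ∧ 2 ≤ on Y l' ∧
      pairsOn Y q l ⊆ (Y.filter (fun p => p ∈ l')) ×ˢ (Y.filter (fun p => p ∈ l')) := by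
  obtain ⟨t0, ht0⟩ := hne
  have h0 := (Q_mem_pairsOn Y q l t0).1 ht0
  obtain ⟨⟨h0a, h0b, h0ne⟩, h0l, h0q⟩ := h0
  have key : ∀ t ∈ pairsOn Y q l, t.1 ∈ ln t0.1 t0.2 ∧ t.2 ∈ ln t0.1 t0.2 := by
    intro t ht
    obtain ⟨⟨ha, hb, hn⟩, hl, hq⟩ := (Q_mem_pairsOn Y q l t).1 ht
    exact bis_eq_collinear Y hY t0.1 t0.2 t.1 t.2 h0a h0b ha hb h0ne hn (by rw [h0l, hl])
  have hsub : pairsOn Y q l ⊆ (Y.filter (fun p => p ∈ ln t0.1 t0.2)) ×ˢ
      (Y.filter (fun p => p ∈ ln t0.1 t0.2)) := by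
    intro t ht
    obtain ⟨⟨ha, hb, hn⟩, hl, hq⟩ := (Q_mem_pairsOn Y q l t).1 ht
    rw [mem_product, mem_filter, mem_filter]
    exact ⟨⟨ha, (key t ht).1⟩, ⟨hb, (key t ht).2⟩⟩
  refine ⟨ln t0.1 t0.2, isLine_ln _ _ h0ne, ?_, ?_, h0q, ?_, hsub⟩
  · intro t ht
    obtain ⟨⟨ha, hb, hn⟩, hl, hq⟩ := (Q_mem_pairsOn Y q l t).1 ht
    exact Q_ln_eq _ _ _ _ h0ne hn (key t ht).1 (key t ht).2
  · unfold on
    apply card_le_card_of_injOn (fun t => t.1)
    · intro t ht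
      have := hsub ht
      rw [mem_product] at this
      exact this.1
    · intro t ht t' ht' heq
      obtain ⟨⟨ha, hb, hn⟩, hl, hq⟩ := (Q_mem_pairsOn Y q l t).1 ht
      obtain ⟨⟨ha', hb', hn'⟩, hl', hq'⟩ := (Q_mem_pairsOn Y q l t').1 ht'
      simp only at heq
      have : t.2 = t'.2 := by
        apply Q_bis_inj t.1 t.2 t'.2 _ (by rw [heq]; exact hn')
        rw [hl]; rw [heq, hl']
      exact Prod.ext heq this
  · have : ({t0.1, t0.2} : Finset ℂ) ⊆ Y.filter (fun p => p ∈ ln t0.1 t0.2) := by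
      intro p hp
      simp only [mem_insert, mem_singleton] at hp
      rw [mem_filter]
      rcases hp with rfl | rfl
      · exact ⟨h0a, Q_left_mem_ln _ _⟩
      · exact ⟨h0b, Q_right_mem_ln _ _⟩
    have h2 := card_le_card this
    rw [card_pair h0ne] at h2
    exact h2

lemma Q_sq_eq (m k : ℕ) (h : m ≤ k) : (k:ℝ)^2 = (m:ℝ)^2 + ∑ j ∈ Ioc m k, (2*(j:ℝ)-1) := by
  induction k, h using Nat.le_induction with
  | base => simp
  | succ n hn ih =>
    rw [Finset.sum_Ioc_succ_top hn]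
    push_cast
    linarith [ih]

/-- sum of squares over parent lines -/
lemma Q_sum_sq (C : ℝ) (hC : 0 < C)
    (hRL : ∀ (P : Finset ℂ) (L : Finset (Set ℂ)) (k : ℕ), 2 ≤ k →
      (∀ l ∈ L, IsLine l ∧ k ≤ on P l) →
      (L.card : ℝ) ≤ C * ((P.card : ℝ) ^ 2 / (k : ℝ) ^ 3 + (P.card : ℝ) / k))
    (Y : Finset ℂ) (q : ℝ) (m : ℕ) (hm : 1 ≤ m) (hq : 0 ≤ q) (L : Finset (Set ℂ))
    (hL : ∀ l ∈ L, IsLine l ∧ m ≤ on Y l ∧ 2 ≤ on Y l ∧ (on Y l : ℝ) < q) :
    ∑ l ∈ L, (on Y l : ℝ)^2 ≤ 3 * C * ((Y.card : ℝ)^2 / m + Y.card * q) := by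
  have hm0 : (0:ℝ) < m := by exact_mod_cast hm
  rcases L.eq_empty_or_nonempty with rfl | hLne
  · simp; positivity
  set Q := ⌊q⌋₊ with hQ
  have hQq : (Q:ℝ) ≤ q := Nat.floor_le hq
  have hle : ∀ l ∈ L, on Y l ≤ Q := fun l hl => Nat.le_floor (hL l hl).2.2.2.le
  obtain ⟨l0, hl0⟩ := hLne
  have hmQ : m ≤ Q := (hL l0 hl0).2.1.trans (hle l0 hl0)
  have hmq : (m:ℝ) ≤ q := le_trans (by exact_mod_cast hmQ) hQq
  have e1 : ∑ l ∈ L, (on Y l : ℝ)^2 = ∑ l ∈ L, ((m:ℝ)^2 + ∑ j ∈ Ioc m Q, (if j ≤ on Y l then (2*(j:ℝ)-1) else 0)) := by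
    apply sum_congr rfl
    intro l hl
    rw [Q_sq_eq m _ (hL l hl).2.1]
    congr 1
    rw [← sum_filter]
    apply sum_congr _ (fun _ _ => rfl)
    ext j
    simp only [mem_Ioc, mem_filter]
    have := hle l hl
    omega
  rw [e1, sum_add_distrib, sum_comm, sum_const, nsmul_eq_mul]
  -- number of lines
  have c0 : (L.card : ℝ) ≤ C * ((Y.card : ℝ) ^ 2 / (m : ℝ) ^ 3 + (Y.card : ℝ) / m) := by
    rcases Nat.lt_or_ge m 2 with h | h
    · have h1 : m = 1 := by omega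
      have := hRL Y L 2 le_rfl (fun l hl => ⟨(hL l hl).1, (hL l hl).2.2.1⟩)
      refine this.trans ?_
      subst h1
      push_cast
      apply mul_le_mul_of_nonneg_left _ hC.le
      have : (0:ℝ) ≤ Y.card := Nat.cast_nonneg _
      nlinarith [sq_nonneg (Y.card:ℝ)]
    · exact hRL Y L m h (fun l hl => ⟨(hL l hl).1, (hL l hl).2.1⟩)
  have c1 : (L.card : ℝ) * (m:ℝ)^2 ≤ C * ((Y.card : ℝ)^2 / m + Y.card * q) := by
    calc (L.card : ℝ) * (m:ℝ)^2 ≤ C * ((Y.card : ℝ) ^ 2 / (m : ℝ) ^ 3 + (Y.card : ℝ) / m) * (m:ℝ)^2 :=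
          mul_le_mul_of_nonneg_right c0 (by positivity)
      _ = C * ((Y.card : ℝ)^2 / m + Y.card * m) := by field_simp
      _ ≤ _ := by
          apply mul_le_mul_of_nonneg_left _ hC.le
          have : (Y.card:ℝ) * m ≤ Y.card * q := mul_le_mul_of_nonneg_left hmq (Nat.cast_nonneg _)
          linarith
  have c2 : ∑ j ∈ Ioc m Q, ∑ l ∈ L, (if j ≤ on Y l then (2*(j:ℝ)-1) else 0) ≤
      ∑ j ∈ Ioc m Q, (2 * C * (Y.card:ℝ)^2 * ((j:ℝ)^2)⁻¹ + 2 * C * Y.card) := by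
    apply sum_le_sum
    intro j hj
    rw [mem_Ioc] at hj
    rw [← sum_filter, sum_const, nsmul_eq_mul]
    have hj2 : 2 ≤ j := by omega
    have hj0 : (0:ℝ) < j := by positivity
    have := hRL Y (L.filter (fun l => j ≤ on Y l)) j hj2 (fun l hl => by
      rw [mem_filter] at hl; exact ⟨(hL l hl.1).1, hl.2⟩)
    have hj1 : (0:ℝ) ≤ 2 * (j:ℝ) - 1 := by
      have : (2:ℝ) ≤ j := by exact_mod_cast hj2
      linarith
    calc ((L.filter (fun l => j ≤ on Y l)).card : ℝ) * (2*(j:ℝ)-1)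
        ≤ C * ((Y.card : ℝ) ^ 2 / (j : ℝ) ^ 3 + (Y.card : ℝ) / j) * (2*(j:ℝ)-1) :=
          mul_le_mul_of_nonneg_right this hj1
      _ ≤ C * ((Y.card : ℝ) ^ 2 / (j : ℝ) ^ 3 + (Y.card : ℝ) / j) * (2*(j:ℝ)) := by
          apply mul_le_mul_of_nonneg_left _ (by positivity)
          linarith
      _ = 2 * C * (Y.card:ℝ)^2 * ((j:ℝ)^2)⁻¹ + 2 * C * Y.card := by
          field_simp
  have c3 : ∑ j ∈ Ioc m Q, (2 * C * (Y.card:ℝ)^2 * ((j:ℝ)^2)⁻¹ + 2 * C * Y.card) ≤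
      2 * C * ((Y.card : ℝ)^2 / m + Y.card * q) := by
    rw [sum_add_distrib, ← mul_sum, sum_const, nsmul_eq_mul, Nat.card_Ioc]
    have h1 : ∑ j ∈ Ioc m Q, ((j:ℝ)^2)⁻¹ ≤ (m:ℝ)⁻¹ := by
      have h1 := sum_Ioc_inv_sq_le_sub (α := ℝ) (k := m) (n := Q) (by omega) hmQ
      have : (0:ℝ) ≤ (Q:ℝ)⁻¹ := by positivity
      linarith
    have h2 : ((Q - m : ℕ) : ℝ) ≤ q := by
      refine le_trans ?_ hQq
      exact_mod_cast Nat.sub_le _ _
    have h3 : 2 * C * (Y.card:ℝ)^2 * ∑ j ∈ Ioc m Q, ((j:ℝ)^2)⁻¹ ≤ 2 * C * (Y.card:ℝ)^2 * (m:ℝ)⁻¹ :=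
      mul_le_mul_of_nonneg_left h1 (by positivity)
    have h4 : ((Q - m : ℕ) : ℝ) * (2 * C * Y.card) ≤ q * (2 * C * Y.card) :=
      mul_le_mul_of_nonneg_right h2 (by positivity)
    rw [div_eq_mul_inv]
    linarith
  linarith [c1, c2, c3]

theorem rows_count_of (hRL : RichLinesStmt) : ∃ C : ℝ, 0 < C ∧ ∀ (Y : Finset ℂ) (q : ℝ) (m : ℕ), NC Y → 1 ≤ m → 0 ≤ q →
    (((Y.offDiag.image (fun t => bis t.1 t.2)).filter (fun l => m ≤ (pairsOn Y q l).card)).card : ℝ)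
      ≤ C * ((Y.card : ℝ) ^ 2 / (m : ℝ) ^ 2 + (Y.card : ℝ) * q / m) := by
  obtain ⟨C, hC, hRL⟩ := hRL
  refine ⟨3 * C, by positivity, ?_⟩
  intro Y q m hY hm hq
  have hm0 : (0:ℝ) < m := by exact_mod_cast hm
  set S := (Y.offDiag.image (fun t => bis t.1 t.2)).filter (fun l => m ≤ (pairsOn Y q l).card) with hS
  have hne : ∀ l ∈ S, (pairsOn Y q l).Nonempty := by
    intro l hl
    rw [hS, mem_filter] at hl
    exact card_pos.mp (lt_of_lt_of_le hm hl.2)
  have hcard : ∀ l ∈ S, m ≤ (pairsOn Y q l).card := fun l hl => (mem_filter.mp hl).2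
  choose! par hpar using fun l (hl : l ∈ S) => Q_row Y hY q l (hne l hl)
  set L := S.image par with hL
  have hLprop : ∀ l ∈ L, IsLine l ∧ m ≤ on Y l ∧ 2 ≤ on Y l ∧ (on Y l : ℝ) < q := by
    intro l' hl'
    rw [hL, mem_image] at hl'
    obtain ⟨l, hl, rfl⟩ := hl'
    obtain ⟨h1, h2, h3, h4, h5, h6⟩ := hpar l hl
    exact ⟨h1, (hcard l hl).trans h3, h5, h4⟩
  have hsum := Q_sum_sq C hC hRL Y q m hm hq L hLprop
  -- m * |S| ≤ ∑ squares
  have hfib : (m:ℝ) * S.card ≤ ∑ l ∈ L, (on Y l : ℝ)^2 := by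
    have h1 : ((m * S.card : ℕ) : ℝ) ≤ ((∑ l ∈ L, (on Y l)^2 : ℕ) : ℝ) := by
      apply Nat.cast_le.mpr
      have h2 : S.card = ∑ l' ∈ L, (S.filter (fun l => par l = l')).card :=
        card_eq_sum_card_fiberwise (fun l hl => mem_image_of_mem par hl)
      rw [h2, mul_sum]
      apply sum_le_sum
      intro l' hl'
      have h3 : m * (S.filter (fun l => par l = l')).card ≤
          ∑ l ∈ S.filter (fun l => par l = l'), (pairsOn Y q l).card := by
        rw [mul_comm, ← smul_eq_mul]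
        apply card_nsmul_le_sum
        intro l hl
        exact hcard l (mem_filter.mp hl).1
      refine h3.trans ?_
      rw [← card_biUnion]
      · have h4 : (S.filter (fun l => par l = l')).biUnion (fun l => pairsOn Y q l) ⊆
            (Y.filter (fun p => p ∈ l')) ×ˢ (Y.filter (fun p => p ∈ l')) := by
          intro t ht
          rw [mem_biUnion] at ht
          obtain ⟨l, hl, htl⟩ := ht
          rw [mem_filter] at hl
          have := (hpar l hl.1).2.2.2.2.2 htl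
          rw [hl.2] at this
          exact this
        refine (card_le_card h4).trans ?_
        rw [card_product]
        unfold on
        rw [sq]
      · intro l hl l2 hl2 hne
        rw [Function.onFun, disjoint_left]
        intro t ht ht2
        apply hne
        rw [← ((Q_mem_pairsOn Y q l t).1 ht).2.1, ← ((Q_mem_pairsOn Y q l2 t).1 ht2).2.1]
    push_cast at h1
    exact h1
  have h5 : (m:ℝ) * S.card ≤ 3 * C * ((Y.card : ℝ)^2 / m + Y.card * q) := hfib.trans hsum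
  have h6 : (S.card:ℝ) ≤ 3 * C * ((Y.card : ℝ)^2 / m + Y.card * q) / m := by
    rw [le_div_iff₀ hm0]; linarith
  refine h6.trans (le_of_eq ?_)
  field_simp

end

end Pool.Agent.DD
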