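import Pool.Agent.Lib_helper64.DD_Q

/-!
# MP_a2cbb7_co : block T (the T-lemma)
`T_lemma_of` takes the Szemeredi-Trotter statements as hypotheses.
-/

set_option autoImplicit false

namespace Pool.Agent.DD

open Finset Classical

noncomputable section

/-- the statement of `szemeredi_trotter` -/
def STStmt : Prop := ∃ C : ℝ, 0 < C ∧ ∀ (P : Finset ℂ) (L : Finset (Set ℂ)),
    (∀ l ∈ L, IsLine l) →
    ∑ l ∈ L, (on P l : ℝ) ≤
      C * ((P.card : ℝ) ^ ((2:ℝ)/3) * (L.card : ℝ) ^ ((2:ℝ)/3) + P.card + L.card)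

/-! ### sums of powers -/

lemma T_cube (x : ℝ) (hx : 0 ≤ x) : (x ^ ((1:ℝ)/3)) ^ 3 = x := by
  rw [← Real.rpow_natCast, ← Real.rpow_mul hx]; norm_num

lemma T_pow23 (x : ℝ) (hx : 0 ≤ x) : x ^ ((2:ℝ)/3) = (x ^ ((1:ℝ)/3)) ^ 2 := by
  rw [← Real.rpow_natCast, ← Real.rpow_mul hx]; norm_num

lemma T_pow43 (x : ℝ) (hx : 0 ≤ x) : x ^ ((4:ℝ)/3) = (x ^ ((1:ℝ)/3)) ^ 4 := by
  rw [← Real.rpow_natCast, ← Real.rpow_mul hx]; norm_num

lemma T_pow23_sq (x : ℝ) (hx : 0 ≤ x) : (x ^ 2) ^ ((2:ℝ)/3) = x ^ ((4:ℝ)/3) := by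
  rw [← Real.rpow_natCast, ← Real.rpow_mul hx]; norm_num

/-- `∑ m^{-2/3} ≤ 3 Q^{1/3}` -/
lemma T_sum23 (Q : ℕ) : ∑ m ∈ Icc 1 Q, ((m:ℝ) ^ ((2:ℝ)/3))⁻¹ ≤ 3 * (Q:ℝ) ^ ((1:ℝ)/3) := by
  induction Q with
  | zero => simp; 
  | succ n ih =>
    rw [Finset.sum_Icc_succ_top (by omega)]
    set u : ℝ := ((n+1:ℕ):ℝ) ^ ((1:ℝ)/3) with hu
    set v : ℝ := (n:ℝ) ^ ((1:ℝ)/3) with hv
    have hu3 : u ^ 3 = n + 1 := by rw [hu, T_cube _ (by positivity)]; push_cast; rfl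
    have hv3 : v ^ 3 = n := T_cube _ (by positivity)
    have hu0 : 0 < u := by rw [hu]; positivity
    have hv0 : 0 ≤ v := by rw [hv]; positivity
    have huv : v ≤ u := by
      rw [hu, hv]; apply Real.rpow_le_rpow (by positivity) (by push_cast; linarith) (by norm_num)
    rw [T_pow23 _ (by positivity), ← hu]
    have key : (u ^ 2)⁻¹ ≤ 3 * (u - v) := by
      rw [inv_le_iff_one_le_mul₀ (by positivity)]
      have e : 1 = (u - v) * (u^2 + u*v + v^2) := by nlinarith [hu3, hv3]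
      have h1 : u^2 + u*v + v^2 ≤ 3 * u^2 := by nlinarith
      calc (1:ℝ) = (u - v) * (u^2 + u*v + v^2) := e
        _ ≤ (u - v) * (3 * u^2) := mul_le_mul_of_nonneg_left h1 (by linarith)
        _ = 3 * (u - v) * u^2 := by ring
    linarith

/-- `∑ m^{-4/3} ≤ 4` -/
lemma T_sum43 (Q : ℕ) : ∑ m ∈ Icc 1 Q, ((m:ℝ) ^ ((4:ℝ)/3))⁻¹ ≤ 4 := by
  have main : ∀ Q : ℕ, ∑ m ∈ Icc 1 (Q+1), ((m:ℝ) ^ ((4:ℝ)/3))⁻¹ ≤ 4 - 3 * (((Q+1:ℕ):ℝ) ^ ((1:ℝ)/3))⁻¹ := by
    intro Q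
    induction Q with
    | zero => simp; norm_num
    | succ n ih =>
      rw [Finset.sum_Icc_succ_top (by omega)]
      set u : ℝ := ((n+1+1:ℕ):ℝ) ^ ((1:ℝ)/3) with hu
      set v : ℝ := ((n+1:ℕ):ℝ) ^ ((1:ℝ)/3) with hv
      have hu3 : u ^ 3 = n + 2 := by rw [hu, T_cube _ (by positivity)]; push_cast; ring
      have hv3 : v ^ 3 = n + 1 := by rw [hv, T_cube _ (by positivity)]; push_cast; ring
      have hu0 : 0 < u := by rw [hu]; positivity
      have hv0 : 0 < v := by rw [hv]; positivity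
      have huv : v ≤ u := by
        rw [hu, hv]; apply Real.rpow_le_rpow (by positivity) (by push_cast; linarith) (by norm_num)
      rw [T_pow43 _ (by positivity), ← hu]
      have key : (u ^ 4)⁻¹ ≤ 3 * (v⁻¹ - u⁻¹) := by
        have e : 1 = (u - v) * (u^2 + u*v + v^2) := by nlinarith [hu3, hv3]
        have h1 : u^2 + u*v + v^2 ≤ 3 * u^2 := by nlinarith
        have h2 : (1:ℝ) ≤ (u - v) * (3 * u^2) := by
          calc (1:ℝ) = (u - v) * (u^2 + u*v + v^2) := e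
            _ ≤ (u - v) * (3 * u^2) := mul_le_mul_of_nonneg_left h1 (by linarith)
        have h3 : v⁻¹ - u⁻¹ = (u - v) / (u * v) := by field_simp
        rw [h3, inv_le_iff_one_le_mul₀ (by positivity)]
        have h4 : 3 * ((u - v) / (u * v)) * u ^ 4 = ((u - v) * (3 * u^2)) * (u / v) := by
          field_simp
        rw [h4]
        have h5 : 1 ≤ u / v := by rw [le_div_iff₀ hv0]; linarith
        nlinarith [h2, h5]
      linarith
  cases Q with
  | zero => simp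
  | succ n =>
    refine (main n).trans ?_
    have : (0:ℝ) ≤ (((n+1:ℕ):ℝ) ^ ((1:ℝ)/3))⁻¹ := by positivity
    linarith

/-! ### geometry -/

/-- three different points of a circle are not collinear -/
lemma T_noncoll (x a b c : ℂ) (hab : a ≠ b) (hac : a ≠ c) (hbc : b ≠ c)
    (h1 : dist b x = dist a x) (h2 : dist c x = dist a x) : c ∉ ln a b := by
  intro h
  rw [Q_mem_ln] at h
  rw [Q_dist_eq_iff'] at h1 h2
  -- c = a + s (b - a)
  rcases Q_ne_iff a b hab with hn | hn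
  · set s := (c.re - a.re) / (b.re - a.re) with hs
    have e1 : c.re - a.re = s * (b.re - a.re) := by rw [hs]; field_simp
    have e2 : c.im - a.im = s * (b.im - a.im) := by
      apply mul_left_cancel₀ hn
      rw [h, e1]; ring
    have q : (b.re-a.re)^2 + (b.im-a.im)^2 > 0 := by positivity
    have k1 : 2*((b.re-a.re)*(a.re-x.re) + (b.im-a.im)*(a.im-x.im)) + ((b.re-a.re)^2 + (b.im-a.im)^2) = 0 := by
      nlinarith [h1]
    have k2 : s * (2*((b.re-a.re)*(a.re-x.re) + (b.im-a.im)*(a.im-x.im)) + s * ((b.re-a.re)^2 + (b.im-a.im)^2)) = 0 := by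
      have c1 : c.re - x.re = (a.re - x.re) + s * (b.re - a.re) := by rw [← e1]; ring
      have c2 : c.im - x.im = (a.im - x.im) + s * (b.im - a.im) := by rw [← e2]; ring
      rw [c1, c2] at h2
      nlinarith [h2]
    rcases mul_eq_zero.mp k2 with k | k
    · apply hac
      rw [k] at e1 e2
      apply Complex.ext <;> linarith
    · have : (s - 1) * ((b.re-a.re)^2 + (b.im-a.im)^2) = 0 := by linarith
      have hs1 : s = 1 := by
        have := (mul_eq_zero.mp this).resolve_right q.ne'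
        linarith
      apply hbc
      rw [hs1] at e1 e2
      apply Complex.ext <;> linarith
  · set s := (c.im - a.im) / (b.im - a.im) with hs
    have e2 : c.im - a.im = s * (b.im - a.im) := by rw [hs]; field_simp
    have e1 : c.re - a.re = s * (b.re - a.re) := by
      apply mul_left_cancel₀ hn
      rw [← h, e2]; ring
    have q : (b.re-a.re)^2 + (b.im-a.im)^2 > 0 := by positivity
    have k1 : 2*((b.re-a.re)*(a.re-x.re) + (b.im-a.im)*(a.im-x.im)) + ((b.re-a.re)^2 + (b.im-a.im)^2) = 0 := by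
      nlinarith [h1]
    have k2 : s * (2*((b.re-a.re)*(a.re-x.re) + (b.im-a.im)*(a.im-x.im)) + s * ((b.re-a.re)^2 + (b.im-a.im)^2)) = 0 := by
      have c1 : c.re - x.re = (a.re - x.re) + s * (b.re - a.re) := by rw [← e1]; ring
      have c2 : c.im - x.im = (a.im - x.im) + s * (b.im - a.im) := by rw [← e2]; ring
      rw [c1, c2] at h2
      nlinarith [h2]
    rcases mul_eq_zero.mp k2 with k | k
    · apply hac
      rw [k] at e1 e2
      apply Complex.ext <;> linarith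
    · have : (s - 1) * ((b.re-a.re)^2 + (b.im-a.im)^2) = 0 := by linarith
      have hs1 : s = 1 := by
        have := (mul_eq_zero.mp this).resolve_right q.ne'
        linarith
      apply hbc
      rw [hs1] at e1 e2
      apply Complex.ext <;> linarith

/-- lines spanned by `Y` with at least `q` points -/
def Thv (Y : Finset ℂ) (q : ℝ) : Finset (Set ℂ) :=
  (Y.offDiag.image (fun t => ln t.1 t.2)).filter (fun l => q ≤ (on Y l : ℝ))

/-- points on at least two heavy lines -/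
def Tdh (Y : Finset ℂ) (q : ℝ) : Finset ℂ :=
  Y.filter (fun a => ∃ l ∈ Thv Y q, ∃ l' ∈ Thv Y q, l ≠ l' ∧ a ∈ l ∧ a ∈ l')

lemma T_two_lines (a b c d c' d' : ℂ) (hab : a ≠ b) (h1 : c ≠ d) (h2 : c' ≠ d')
    (ha : a ∈ ln c d) (hb : b ∈ ln c d) (ha' : a ∈ ln c' d') (hb' : b ∈ ln c' d') : ln c d = ln c' d' := by
  rw [← Q_ln_eq c d a b h1 hab ha hb, ← Q_ln_eq c' d' a b h2 hab ha' hb']

lemma Tdh_card (Y : Finset ℂ) (q : ℝ) : (Tdh Y q).card ≤ (Thv Y q).card ^ 2 := by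
  have hsub : Tdh Y q ⊆ (Thv Y q).offDiag.biUnion (fun p => Y.filter (fun a => a ∈ p.1 ∧ a ∈ p.2)) := by
    intro a ha
    unfold Tdh at ha
    rw [mem_filter] at ha
    obtain ⟨haY, l, hl, l', hl', hne, h1, h2⟩ := ha
    rw [mem_biUnion]
    exact ⟨(l, l'), by rw [mem_offDiag]; exact ⟨hl, hl', hne⟩, by rw [mem_filter]; exact ⟨haY, h1, h2⟩⟩
  refine (card_le_card hsub).trans ?_
  refine (card_biUnion_le_card_mul _ _ 1 ?_).trans ?_
  · intro p hp
    rw [mem_offDiag] at hp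
    obtain ⟨hl, hl', hne⟩ := hp
    rw [card_le_one]
    intro a ha b hb
    rw [mem_filter] at ha hb
    by_contra hab
    apply hne
    unfold Thv at hl hl'
    rw [mem_filter, mem_image] at hl hl'
    obtain ⟨⟨t, ht, e⟩, _⟩ := hl
    obtain ⟨⟨t', ht', e'⟩, _⟩ := hl'
    rw [mem_offDiag] at ht ht'
    rw [← e, ← e']
    rw [← e] at ha hb
    rw [← e'] at ha hb
    exact T_two_lines a b t.1 t.2 t'.1 t'.2 hab ht.2.2 ht'.2.2 ha.2.1 hb.2.1 ha.2.2 hb.2.2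
  · rw [mul_one, offDiag_card]
    have : (Thv Y q).card ^ 2 = (Thv Y q).card * (Thv Y q).card := sq _
    omega

/-- light pairs at `x` -/
def Tlt (Y : Finset ℂ) (q : ℝ) (x : ℂ) : Finset (ℂ × ℂ) :=
  Y.offDiag.filter (fun t => x ∈ bis t.1 t.2 ∧ (on Y (ln t.1 t.2) : ℝ) < q)

lemma T_reg_count (Y : Finset ℂ) (q : ℝ) (x : ℂ) :
    (Y.filter (fun a => (cls Y x a).card = 3)).card ≤ (Tdh Y q).card + (Tlt Y q x).card := by
  have hsub : Y.filter (fun a => (cls Y x a).card = 3) ⊆ Tdh Y q ∪ (Tlt Y q x).image (fun t => t.1) := by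
    intro a ha
    rw [mem_filter] at ha
    obtain ⟨haY, hcard⟩ := ha
    rw [mem_union]
    by_contra hcon
    push Not at hcon
    obtain ⟨hn1, hn2⟩ := hcon
    have hacls : a ∈ cls Y x a := by unfold cls; rw [mem_filter]; exact ⟨haY, rfl⟩
    have herase : ((cls Y x a).erase a).card = 2 := by rw [card_erase_of_mem hacls, hcard]
    obtain ⟨b, c, hbc, hset⟩ := card_eq_two.mp herase
    have hb : b ∈ (cls Y x a).erase a := by rw [hset]; simp
    have hc : c ∈ (cls Y x a).erase a := by rw [hset]; simp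
    rw [mem_erase] at hb hc
    obtain ⟨hba, hb⟩ := hb
    obtain ⟨hca, hc⟩ := hc
    unfold cls at hb hc
    rw [mem_filter] at hb hc
    have light : ∀ b : ℂ, b ≠ a → b ∈ Y → dist b x = dist a x → ln a b ∈ Thv Y q := by
      intro b hba hbY hbd
      by_contra hh
      apply hn2
      rw [mem_image]
      refine ⟨(a, b), ?_, rfl⟩
      unfold Tlt
      rw [mem_filter, mem_offDiag]
      refine ⟨⟨haY, hbY, Ne.symm hba⟩, ?_, ?_⟩
      · show dist x a = dist x b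
        rw [dist_comm x a, dist_comm x b, hbd]
      · by_contra hq
        apply hh
        unfold Thv
        rw [mem_filter, mem_image]
        exact ⟨⟨(a, b), by rw [mem_offDiag]; exact ⟨haY, hbY, Ne.symm hba⟩, rfl⟩, not_lt.mp hq⟩
    apply hn1
    unfold Tdh
    rw [mem_filter]
    refine ⟨haY, ln a b, light b hba hb.1 hb.2, ln a c, light c hca hc.1 hc.2, ?_, Q_left_mem_ln _ _, Q_left_mem_ln _ _⟩
    intro heq
    have : c ∈ ln a b := by rw [heq]; exact Q_right_mem_ln _ _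
    exact T_noncoll x a b c (Ne.symm hba) (Ne.symm hca) hbc hb.2 hc.2 this
  refine (card_le_card hsub).trans ((card_union_le _ _).trans ?_)
  exact Nat.add_le_add_left card_image_le _

/-- double counting of light incidences -/
lemma T_double (X Y : Finset ℂ) (q : ℝ) :
    ∑ x ∈ X, (Tlt Y q x).card =
      ∑ l ∈ Y.offDiag.image (fun t => bis t.1 t.2), (pairsOn Y q l).card * on X l := by
  have h1 : ∀ x, (Tlt Y q x).card = ∑ t ∈ Y.offDiag.filter (fun t => (on Y (ln t.1 t.2) : ℝ) < q),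
      (if x ∈ bis t.1 t.2 then 1 else 0) := by
    intro x
    rw [← card_filter]
    unfold Tlt
    rw [filter_filter]
    congr 1
    apply filter_congr
    intro t _
    exact and_comm
  simp_rw [h1]
  rw [sum_comm]
  have h2 : ∀ t : ℂ × ℂ, ∑ x ∈ X, (if x ∈ bis t.1 t.2 then 1 else 0) = on X (bis t.1 t.2) := by
    intro t
    rw [← card_filter]; rfl
  simp_rw [h2]
  have h3 : ∀ t ∈ Y.offDiag.filter (fun t => (on Y (ln t.1 t.2) : ℝ) < q),
      (fun t : ℂ × ℂ => bis t.1 t.2) t ∈ Y.offDiag.image (fun t => bis t.1 t.2) := by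
    intro t ht
    exact mem_image_of_mem _ (mem_filter.mp ht).1
  rw [← sum_fiberwise_of_maps_to h3]
  apply sum_congr rfl
  intro l hl
  have h4 : (Y.offDiag.filter (fun t => (on Y (ln t.1 t.2) : ℝ) < q)).filter
      (fun t => bis t.1 t.2 = l) = pairsOn Y q l := by
    unfold pairsOn
    rw [filter_filter]
    apply filter_congr
    intro t _
    exact and_comm
  rw [h4]
  have h5 : ∀ t ∈ pairsOn Y q l, on X (bis t.1 t.2) = on X l := by
    intro t ht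
    rw [((Q_mem_pairsOn Y q l t).1 ht).2.1]
  rw [sum_congr rfl h5, sum_const, smul_eq_mul]

/-- light incidences -/
lemma T_light (C2 C3 : ℝ) (hC2 : 0 < C2) (hC3 : 0 < C3)
    (hST : ∀ (P : Finset ℂ) (L : Finset (Set ℂ)), (∀ l ∈ L, IsLine l) →
      ∑ l ∈ L, (on P l : ℝ) ≤
        C2 * ((P.card : ℝ) ^ ((2:ℝ)/3) * (L.card : ℝ) ^ ((2:ℝ)/3) + P.card + L.card))
    (hrc : ∀ (Y : Finset ℂ) (q : ℝ) (m : ℕ), NC Y → 1 ≤ m → 0 ≤ q →
      (((Y.offDiag.image (fun t => bis t.1 t.2)).filter (fun l => m ≤ (pairsOn Y q l).card)).card : ℝ)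
        ≤ C3 * ((Y.card : ℝ) ^ 2 / (m : ℝ) ^ 2 + (Y.card : ℝ) * q / m))
    (X Y : Finset ℂ) (hY : NC Y) (q : ℝ) (hq : q = (Y.card:ℝ) ^ ((2:ℝ)/3)) :
    ∑ l ∈ Y.offDiag.image (fun t => bis t.1 t.2), (((pairsOn Y q l).card * on X l : ℕ) : ℝ) ≤
      C2 * (7 * C3 ^ ((2:ℝ)/3)) * ((X.card:ℝ) ^ ((2:ℝ)/3) * (Y.card:ℝ) ^ ((4:ℝ)/3)) +
      C2 * (X.card * (Y.card:ℝ) ^ ((2:ℝ)/3)) + C2 * (Y.card:ℝ) ^ 2 := by
  have hN : (0:ℝ) ≤ Y.card := Nat.cast_nonneg _
  have hq0 : 0 ≤ q := by rw [hq]; positivity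
  set Q := ⌊q⌋₊ with hQ
  have hQq : (Q:ℝ) ≤ q := Nat.floor_le hq0
  set B := Y.offDiag.image (fun t => bis t.1 t.2) with hB
  have hw : ∀ l ∈ B, (pairsOn Y q l).card ≤ Q := by
    intro l _
    rcases (pairsOn Y q l).eq_empty_or_nonempty with h | h
    · rw [h]; simp
    · obtain ⟨l', _, _, h3, h4, _⟩ := Q_row Y hY q l h
      exact h3.trans (Nat.le_floor h4.le)
  -- layer cake
  have e1 : ∑ l ∈ B, (((pairsOn Y q l).card * on X l : ℕ) : ℝ) =
      ∑ m ∈ Icc 1 Q, ∑ l ∈ B.filter (fun l => m ≤ (pairsOn Y q l).card), (on X l : ℝ) := by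
    have : ∀ l ∈ B, (((pairsOn Y q l).card * on X l : ℕ) : ℝ) =
        ∑ m ∈ Icc 1 Q, if m ≤ (pairsOn Y q l).card then (on X l : ℝ) else 0 := by
      intro l hl
      rw [← sum_filter, sum_const, nsmul_eq_mul]
      have : (Icc 1 Q).filter (fun m => m ≤ (pairsOn Y q l).card) = Icc 1 (pairsOn Y q l).card := by
        ext j
        simp only [mem_filter, mem_Icc]
        have := hw l hl
        omega
      rw [this, Nat.card_Icc]
      push_cast
      simp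
    rw [sum_congr rfl this, sum_comm]
    apply sum_congr rfl
    intro m _
    rw [sum_filter]
  rw [e1]
  -- number of rows
  have e2 : ∑ m ∈ Icc 1 Q, ((B.filter (fun l => m ≤ (pairsOn Y q l).card)).card : ℝ) ≤ (Y.card:ℝ) ^ 2 := by
    have h1 : ∑ m ∈ Icc 1 Q, (B.filter (fun l => m ≤ (pairsOn Y q l).card)).card =
        ∑ l ∈ B, (pairsOn Y q l).card := by
      simp_rw [card_filter]
      rw [sum_comm]
      apply sum_congr rfl
      intro l hl
      rw [← card_filter]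
      have : (Icc 1 Q).filter (fun m => m ≤ (pairsOn Y q l).card) = Icc 1 (pairsOn Y q l).card := by
        ext j
        simp only [mem_filter, mem_Icc]
        have := hw l hl
        omega
      rw [this, Nat.card_Icc]
      simp
    have h2 : ∑ l ∈ B, (pairsOn Y q l).card ≤ Y.card ^ 2 := by
      rw [← card_biUnion]
      · have : B.biUnion (fun l => pairsOn Y q l) ⊆ Y.offDiag := by
          intro t ht
          rw [mem_biUnion] at ht
          obtain ⟨l, _, h⟩ := ht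
          unfold pairsOn at h
          exact (mem_filter.mp h).1
        refine (card_le_card this).trans ?_
        rw [offDiag_card, sq]
        omega
      · intro l hl l2 hl2 hne
        rw [Function.onFun, disjoint_left]
        intro t ht ht2
        apply hne
        rw [← ((Q_mem_pairsOn Y q l t).1 ht).2.1, ← ((Q_mem_pairsOn Y q l2 t).1 ht2).2.1]
    rw [← h1] at h2
    exact_mod_cast h2
  have e3 : ∑ m ∈ Icc 1 Q, ((B.filter (fun l => m ≤ (pairsOn Y q l).card)).card : ℝ) ^ ((2:ℝ)/3) ≤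
      7 * C3 ^ ((2:ℝ)/3) * (Y.card:ℝ) ^ ((4:ℝ)/3) := by
    have h1 : ∀ m ∈ Icc 1 Q, ((B.filter (fun l => m ≤ (pairsOn Y q l).card)).card : ℝ) ^ ((2:ℝ)/3) ≤
        C3 ^ ((2:ℝ)/3) * ((Y.card:ℝ) ^ ((4:ℝ)/3) * ((m:ℝ) ^ ((4:ℝ)/3))⁻¹ +
          ((Y.card:ℝ) * q) ^ ((2:ℝ)/3) * ((m:ℝ) ^ ((2:ℝ)/3))⁻¹) := by
      intro m hm
      rw [mem_Icc] at hm
      have hm0 : (0:ℝ) < m := by exact_mod_cast hm.1
      calc ((B.filter (fun l => m ≤ (pairsOn Y q l).card)).card : ℝ) ^ ((2:ℝ)/3)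
          ≤ (C3 * ((Y.card : ℝ) ^ 2 / (m : ℝ) ^ 2 + (Y.card : ℝ) * q / m)) ^ ((2:ℝ)/3) :=
            Real.rpow_le_rpow (by positivity) (hrc Y q m hY hm.1 hq0) (by norm_num)
        _ = C3 ^ ((2:ℝ)/3) * ((Y.card : ℝ) ^ 2 / (m : ℝ) ^ 2 + (Y.card : ℝ) * q / m) ^ ((2:ℝ)/3) := by
            rw [Real.mul_rpow hC3.le (by positivity)]
        _ ≤ C3 ^ ((2:ℝ)/3) * (((Y.card : ℝ) ^ 2 / (m : ℝ) ^ 2) ^ ((2:ℝ)/3) +
              ((Y.card : ℝ) * q / m) ^ ((2:ℝ)/3)) := by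
            apply mul_le_mul_of_nonneg_left _ (by positivity)
            exact Real.rpow_add_le_add_rpow (by positivity) (by positivity) (by norm_num) (by norm_num)
        _ = _ := by
            rw [Real.div_rpow (by positivity) (by positivity), Real.div_rpow (by positivity) (by positivity),
              T_pow23_sq _ (by positivity), T_pow23_sq _ (by positivity)]
            simp only [div_eq_mul_inv]
    refine (sum_le_sum h1).trans ?_
    rw [← mul_sum, sum_add_distrib, ← mul_sum, ← mul_sum]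
    have h2 : (Y.card:ℝ) ^ ((4:ℝ)/3) * ∑ m ∈ Icc 1 Q, ((m:ℝ) ^ ((4:ℝ)/3))⁻¹ ≤ (Y.card:ℝ) ^ ((4:ℝ)/3) * 4 :=
      mul_le_mul_of_nonneg_left (T_sum43 Q) (by positivity)
    have h3 : ((Y.card:ℝ) * q) ^ ((2:ℝ)/3) * ∑ m ∈ Icc 1 Q, ((m:ℝ) ^ ((2:ℝ)/3))⁻¹ ≤
        3 * (Y.card:ℝ) ^ ((4:ℝ)/3) := by
      calc ((Y.card:ℝ) * q) ^ ((2:ℝ)/3) * ∑ m ∈ Icc 1 Q, ((m:ℝ) ^ ((2:ℝ)/3))⁻¹
          ≤ ((Y.card:ℝ) * q) ^ ((2:ℝ)/3) * (3 * q ^ ((1:ℝ)/3)) := by
            apply mul_le_mul_of_nonneg_left _ (by positivity)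
            refine (T_sum23 Q).trans ?_
            apply mul_le_mul_of_nonneg_left _ (by norm_num)
            exact Real.rpow_le_rpow (by positivity) hQq (by norm_num)
        _ = 3 * (Y.card:ℝ) ^ ((4:ℝ)/3) := by
            rw [Real.mul_rpow hN hq0, T_pow23 q hq0]
            have h4 : (q ^ ((1:ℝ)/3)) ^ 2 * q ^ ((1:ℝ)/3) = q := by
              have := T_cube q hq0
              nlinarith [this]
            have h5 : (Y.card:ℝ) ^ ((2:ℝ)/3) * (Y.card:ℝ) ^ ((2:ℝ)/3) = (Y.card:ℝ) ^ ((4:ℝ)/3) := by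
              rw [T_pow23 _ hN, T_pow43 _ hN]; ring
            calc (Y.card:ℝ) ^ ((2:ℝ)/3) * (q ^ ((1:ℝ)/3)) ^ 2 * (3 * q ^ ((1:ℝ)/3))
                = 3 * ((Y.card:ℝ) ^ ((2:ℝ)/3) * ((q ^ ((1:ℝ)/3)) ^ 2 * q ^ ((1:ℝ)/3))) := by ring
              _ = 3 * ((Y.card:ℝ) ^ ((2:ℝ)/3) * (Y.card:ℝ) ^ ((2:ℝ)/3)) := by rw [h4, ← hq]
              _ = _ := by rw [h5]
    calc C3 ^ ((2:ℝ)/3) * ((Y.card:ℝ) ^ ((4:ℝ)/3) * ∑ m ∈ Icc 1 Q, ((m:ℝ) ^ ((4:ℝ)/3))⁻¹ +
          ((Y.card:ℝ) * q) ^ ((2:ℝ)/3) * ∑ m ∈ Icc 1 Q, ((m:ℝ) ^ ((2:ℝ)/3))⁻¹)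
        ≤ C3 ^ ((2:ℝ)/3) * ((Y.card:ℝ) ^ ((4:ℝ)/3) * 4 + 3 * (Y.card:ℝ) ^ ((4:ℝ)/3)) := by
          apply mul_le_mul_of_nonneg_left (add_le_add h2 h3) (by positivity)
      _ = _ := by ring
  have e4 : ∀ m ∈ Icc 1 Q, ∑ l ∈ B.filter (fun l => m ≤ (pairsOn Y q l).card), (on X l : ℝ) ≤
      C2 * (X.card:ℝ) ^ ((2:ℝ)/3) * ((B.filter (fun l => m ≤ (pairsOn Y q l).card)).card : ℝ) ^ ((2:ℝ)/3)
        + C2 * X.card + C2 * ((B.filter (fun l => m ≤ (pairsOn Y q l).card)).card : ℝ) := by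
    intro m _
    refine (hST X _ ?_).trans (le_of_eq (by ring))
    intro l hl
    rw [mem_filter, hB, mem_image] at hl
    obtain ⟨⟨t, ht, rfl⟩, _⟩ := hl
    rw [mem_offDiag] at ht
    exact isLine_bis _ _ ht.2.2
  refine (sum_le_sum e4).trans ?_
  rw [sum_add_distrib, sum_add_distrib, ← mul_sum, ← mul_sum, ← mul_sum, sum_const, nsmul_eq_mul, Nat.card_Icc]
  have f1 : C2 * (X.card:ℝ) ^ ((2:ℝ)/3) *
      ∑ m ∈ Icc 1 Q, ((B.filter (fun l => m ≤ (pairsOn Y q l).card)).card : ℝ) ^ ((2:ℝ)/3) ≤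
      C2 * (X.card:ℝ) ^ ((2:ℝ)/3) * (7 * C3 ^ ((2:ℝ)/3) * (Y.card:ℝ) ^ ((4:ℝ)/3)) :=
    mul_le_mul_of_nonneg_left e3 (by positivity)
  have f2 : ((Q + 1 - 1 : ℕ) : ℝ) * (C2 * X.card) ≤ (Y.card:ℝ) ^ ((2:ℝ)/3) * (C2 * X.card) := by
    apply mul_le_mul_of_nonneg_right _ (by positivity)
    rw [Nat.add_sub_cancel, ← hq]
    exact hQq
  have f3 : C2 * ∑ m ∈ Icc 1 Q, ((B.filter (fun l => m ≤ (pairsOn Y q l).card)).card : ℝ) ≤ C2 * (Y.card:ℝ) ^ 2 :=
    mul_le_mul_of_nonneg_left e2 hC2.le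
  linarith [f1, f2, f3]

theorem T_lemma_of (hRL : RichLinesStmt) (hST : STStmt) : ∃ C : ℝ, 0 < C ∧ ∀ X Y : Finset ℂ, NC Y →
    (tripPairs X Y : ℝ) ≤ C * ((X.card : ℝ) ^ ((2:ℝ)/3) * (Y.card : ℝ) ^ ((4:ℝ)/3)
      + X.card * (Y.card : ℝ) ^ ((2:ℝ)/3) + (Y.card : ℝ) ^ 2) := by
  obtain ⟨C3, hC3, hrc⟩ := rows_count_of hRL
  obtain ⟨C2, hC2, hST⟩ := hST
  obtain ⟨C1, hC1, hRL⟩ := hRL
  refine ⟨4 * C1 ^ 2 + C2 * (7 * C3 ^ ((2:ℝ)/3)) + C2, by positivity, ?_⟩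
  intro X Y hY
  have hX0 : (0:ℝ) ≤ X.card := Nat.cast_nonneg _
  have hN : (0:ℝ) ≤ Y.card := Nat.cast_nonneg _
  set N : ℝ := (Y.card : ℝ) with hNdef
  set q : ℝ := N ^ ((2:ℝ)/3) with hq
  have hq0 : 0 ≤ q := by rw [hq]; positivity
  rcases Nat.lt_or_ge Y.card 3 with hsmall | hbig
  · -- no triples
    have : tripPairs X Y = 0 := by
      unfold tripPairs
      apply sum_eq_zero
      intro x _
      rw [card_eq_zero, filter_eq_empty_iff]
      intro a _ h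
      have : (cls Y x a).card ≤ Y.card := card_le_card (filter_subset _ _)
      omega
    rw [this]
    push_cast
    positivity
  -- heavy lines
  have hN3 : (3:ℝ) ≤ N := by rw [hNdef]; exact_mod_cast hbig
  set c : ℝ := N ^ ((1:ℝ)/3) with hc
  have hc0 : 0 < c := by rw [hc]; positivity
  have hc3 : c ^ 3 = N := T_cube N hN
  have hqc : q = c ^ 2 := T_pow23 N hN
  have hc1 : 1 ≤ c := by
    by_contra h
    push Not at h
    have : c ^ 3 < 1 := pow_lt_one₀ hc0.le h (by norm_num)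
    linarith
  have hq1 : 1 < q := by
    rw [hqc]
    by_contra h
    push Not at h
    have h1 : c ≤ 1 := by nlinarith
    have : c ^ 3 ≤ 1 := pow_le_one₀ hc0.le h1
    linarith
  have hHcard : ((Thv Y q).card : ℝ) ≤ 2 * C1 * c := by
    set k := ⌈q⌉₊ with hk
    have hk1 : 2 ≤ k := by
      have : 1 < k := by
        rw [hk, Nat.lt_ceil]
        exact_mod_cast hq1
      omega
    have hqk : q ≤ k := Nat.le_ceil q
    have h1 := hRL Y (Thv Y q) k hk1 (by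
      intro l hl
      unfold Thv at hl
      rw [mem_filter, mem_image] at hl
      obtain ⟨⟨t, ht, rfl⟩, h2⟩ := hl
      rw [mem_offDiag] at ht
      exact ⟨isLine_ln _ _ ht.2.2, Nat.ceil_le.mpr h2⟩)
    refine h1.trans ?_
    have h2 : N ^ 2 / (k:ℝ) ^ 3 ≤ c := by
      have hkpos : (0:ℝ) < k := by linarith
      rw [div_le_iff₀ (by positivity)]
      have h3 : q ^ 3 ≤ (k:ℝ) ^ 3 := pow_le_pow_left₀ hq0 hqk 3
      have h4 : q ^ 3 = N ^ 2 := by rw [hqc, ← hc3]; ring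
      have h5 : N ^ 2 ≤ (k:ℝ)^3 := by rw [← h4]; exact h3
      calc N ^ 2 ≤ 1 * (k:ℝ)^3 := by linarith
        _ ≤ c * (k:ℝ)^3 := mul_le_mul_of_nonneg_right hc1 (by positivity)
    have h3 : N / (k:ℝ) ≤ c := by
      have hkpos : (0:ℝ) < k := by linarith
      rw [div_le_iff₀ hkpos]
      have h4 : N = c * q := by rw [hqc, ← hc3]; ring
      calc N = c * q := h4
        _ ≤ c * k := mul_le_mul_of_nonneg_left hqk hc0.le
    calc C1 * (N ^ 2 / (k:ℝ) ^ 3 + N / (k:ℝ)) ≤ C1 * (c + c) :=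
          mul_le_mul_of_nonneg_left (add_le_add h2 h3) hC1.le
      _ = 2 * C1 * c := by ring
  have hDH : ((Tdh Y q).card : ℝ) ≤ 4 * C1 ^ 2 * q := by
    have h1 : ((Tdh Y q).card : ℝ) ≤ ((Thv Y q).card : ℝ) ^ 2 := by exact_mod_cast Tdh_card Y q
    refine h1.trans ?_
    calc ((Thv Y q).card : ℝ) ^ 2 ≤ (2 * C1 * c) ^ 2 :=
          pow_le_pow_left₀ (Nat.cast_nonneg _) hHcard 2
      _ = 4 * C1 ^ 2 * q := by rw [hqc]; ring
  have h1 : (tripPairs X Y : ℝ) ≤ X.card * ((Tdh Y q).card : ℝ) +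
      ∑ l ∈ Y.offDiag.image (fun t => bis t.1 t.2), (((pairsOn Y q l).card * on X l : ℕ) : ℝ) := by
    have h2 : tripPairs X Y ≤ X.card * (Tdh Y q).card +
        ∑ l ∈ Y.offDiag.image (fun t => bis t.1 t.2), (pairsOn Y q l).card * on X l := by
      unfold tripPairs
      rw [← T_double]
      calc ∑ x ∈ X, (Y.filter (fun a => (cls Y x a).card = 3)).card
          ≤ ∑ x ∈ X, ((Tdh Y q).card + (Tlt Y q x).card) := sum_le_sum (fun x _ => T_reg_count Y q x)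
        _ = _ := by rw [sum_add_distrib, sum_const, smul_eq_mul]
    have h3 : ((tripPairs X Y : ℕ) : ℝ) ≤ ((X.card * (Tdh Y q).card +
        ∑ l ∈ Y.offDiag.image (fun t => bis t.1 t.2), (pairsOn Y q l).card * on X l : ℕ) : ℝ) := by
      exact_mod_cast h2
    refine h3.trans (le_of_eq ?_)
    push_cast
    rfl
  have h2 := T_light C2 C3 hC2 hC3 hST hrc X Y hY q hq
  have h3 : (X.card:ℝ) * ((Tdh Y q).card : ℝ) ≤ X.card * (4 * C1 ^ 2 * q) :=
    mul_le_mul_of_nonneg_left hDH hX0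
  set U : ℝ := (X.card:ℝ) ^ ((2:ℝ)/3) * N ^ ((4:ℝ)/3) with hU
  have hU0 : 0 ≤ U := by rw [hU]; positivity
  set Z : ℝ := 7 * C3 ^ ((2:ℝ)/3) with hZ
  have hZ0 : 0 ≤ Z := by rw [hZ]; positivity
  have g1 : 0 ≤ C1 ^ 2 := by positivity
  have g2 : 0 ≤ C2 * Z := by positivity
  have g3 : 0 ≤ (X.card:ℝ) * q := by positivity
  have g4 : 0 ≤ N ^ 2 := by positivity
  calc (tripPairs X Y : ℝ) ≤ X.card * (4 * C1 ^ 2 * q) + (C2 * Z * U + C2 * (X.card * q) + C2 * N ^ 2) := by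
        linarith
    _ ≤ (4 * C1 ^ 2 + C2 * Z + C2) * (U + X.card * q + N ^ 2) := by
        nlinarith [mul_nonneg g1 hU0, mul_nonneg g1 g4, mul_nonneg g2 g3, mul_nonneg g2 g4,
          mul_nonneg hC2.le hU0, mul_nonneg hC2.le g3]

end

end Pool.Agent.DD
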