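import Pool.Agent.Lib_helper64.DD_QT

/-!
# MP_a2cbb7_co : the rows half of block U
-/

set_option autoImplicit false

namespace Pool.Agent.DD

open Finset Classical

noncomputable section

lemma U_key43 (n : ℕ) (hn : 1 ≤ n) : (((n+1:ℕ):ℝ) ^ ((4:ℝ)/3))⁻¹ ≤
    3 * (((n:ℝ) ^ ((1:ℝ)/3))⁻¹ - (((n+1:ℕ):ℝ) ^ ((1:ℝ)/3))⁻¹) := by
  set u : ℝ := ((n+1:ℕ):ℝ) ^ ((1:ℝ)/3) with hu
  set v : ℝ := (n:ℝ) ^ ((1:ℝ)/3) with hv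
  have hn0 : (0:ℝ) < n := by exact_mod_cast hn
  have hu3 : u ^ 3 = n + 1 := by rw [hu, T_cube _ (by positivity)]; push_cast; ring
  have hv3 : v ^ 3 = n := by rw [hv, T_cube _ (by positivity)]
  have hu0 : 0 < u := by rw [hu]; positivity
  have hv0 : 0 < v := by rw [hv]; positivity
  have huv : v ≤ u := by
    rw [hu, hv]; apply Real.rpow_le_rpow (by positivity) (by push_cast; linarith) (by norm_num)
  rw [T_pow43 _ (by positivity), ← hu]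
  have e : 1 = (u - v) * (u^2 + u*v + v^2) := by nlinarith [hu3, hv3]
  have h1 : u^2 + u*v + v^2 ≤ 3 * u^2 := by nlinarith
  have h2 : (1:ℝ) ≤ (u - v) * (3 * u^2) := by
    calc (1:ℝ) = (u - v) * (u^2 + u*v + v^2) := e
      _ ≤ (u - v) * (3 * u^2) := mul_le_mul_of_nonneg_left h1 (by linarith)
  have h3 : v⁻¹ - u⁻¹ = (u - v) / (u * v) := by field_simp
  rw [h3, inv_le_iff_one_le_mul₀ (by positivity)]
  have h4 : 3 * ((u - v) / (u * v)) * u ^ 4 = ((u - v) * (3 * u^2)) * (u / v) := by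
    field_simp
  rw [h4]
  have h5 : 1 ≤ u / v := by rw [le_div_iff₀ hv0]; linarith
  nlinarith [h2, h5]

lemma U_sum43 (M Q : ℕ) (hM : 1 ≤ M) :
    ∑ m ∈ Ioc M Q, ((m:ℝ) ^ ((4:ℝ)/3))⁻¹ ≤ 3 * ((M:ℝ) ^ ((1:ℝ)/3))⁻¹ := by
  have hpos : (0:ℝ) ≤ 3 * ((M:ℝ) ^ ((1:ℝ)/3))⁻¹ := by positivity
  rcases Nat.lt_or_ge Q M with h | h
  · rw [Ioc_eq_empty (by omega), sum_empty]; exact hpos
  · have main : ∀ Q, M ≤ Q → ∑ m ∈ Ioc M Q, ((m:ℝ) ^ ((4:ℝ)/3))⁻¹ ≤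
        3 * ((M:ℝ) ^ ((1:ℝ)/3))⁻¹ - 3 * ((Q:ℝ) ^ ((1:ℝ)/3))⁻¹ := by
      intro Q hQ
      induction Q, hQ using Nat.le_induction with
      | base => simp
      | succ n hn ih =>
        rw [Finset.sum_Ioc_succ_top hn]
        have := U_key43 n (by omega)
        linarith
    refine (main Q h).trans ?_
    have : (0:ℝ) ≤ ((Q:ℝ) ^ ((1:ℝ)/3))⁻¹ := by positivity
    linarith

/-- incidences with the rows with at least `m` pairs -/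
lemma U_rows (C2 C3 : ℝ) (hC2 : 0 < C2) (hC3 : 0 < C3)
    (hST : ∀ (P : Finset ℂ) (L : Finset (Set ℂ)), (∀ l ∈ L, IsLine l) →
      ∑ l ∈ L, (on P l : ℝ) ≤
        C2 * ((P.card : ℝ) ^ ((2:ℝ)/3) * (L.card : ℝ) ^ ((2:ℝ)/3) + P.card + L.card))
    (hrc : ∀ (Y : Finset ℂ) (q : ℝ) (m : ℕ), NC Y → 1 ≤ m → 0 ≤ q →
      (((Y.offDiag.image (fun t => bis t.1 t.2)).filter (fun l => m ≤ (pairsOn Y q l).card)).card : ℝ)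
        ≤ C3 * ((Y.card : ℝ) ^ 2 / (m : ℝ) ^ 2 + (Y.card : ℝ) * q / m))
    (A E : Finset ℂ) (hA : NC A) (hE : E ⊆ A) (q s k : ℝ) (hs : 0 ≤ s) (hk : 0 ≤ k) (hq : q = k ^ 3 * s ^ 3)
    (hn : (A.card : ℝ) = s ^ 6) (m : ℕ) (hm : 1 ≤ m) :
    ∑ l ∈ (A.offDiag.image (fun t => bis t.1 t.2)).filter (fun l => m ≤ (pairsOn A q l).card), (on E l : ℝ) ≤
      C2 * (C3 ^ ((2:ℝ)/3) * (s ^ 12 * ((m:ℝ) ^ ((4:ℝ)/3))⁻¹ + k ^ 2 * s ^ 10 * ((m:ℝ) ^ ((2:ℝ)/3))⁻¹) +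
        s ^ 6 + C3 * (s ^ 12 * ((m:ℝ) ^ 2)⁻¹ + k ^ 3 * s ^ 9 * (m:ℝ)⁻¹)) := by
  set L := (A.offDiag.image (fun t => bis t.1 t.2)).filter (fun l => m ≤ (pairsOn A q l).card) with hL
  have hm0 : (0:ℝ) < m := by exact_mod_cast hm
  have hq0 : 0 ≤ q := by rw [hq]; positivity
  have h0 : ∀ l ∈ L, IsLine l := by
    intro l hl
    rw [hL, mem_filter, mem_image] at hl
    obtain ⟨⟨t, ht, rfl⟩, _⟩ := hl
    rw [mem_offDiag] at ht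
    exact isLine_bis _ _ ht.2.2
  have h1 := hST E L h0
  have hEA : (E.card : ℝ) ≤ s ^ 6 := by rw [← hn]; exact_mod_cast card_le_card hE
  have h2 : (E.card : ℝ) ^ ((2:ℝ)/3) ≤ s ^ 4 := by
    have e : s ^ 4 = (s ^ 6) ^ ((2:ℝ)/3) := by
      rw [← Real.rpow_natCast, ← Real.rpow_natCast, ← Real.rpow_mul hs]; norm_num
    rw [e]
    exact Real.rpow_le_rpow (by positivity) hEA (by norm_num)
  have h3 : (L.card : ℝ) ≤ C3 * (s ^ 12 * ((m:ℝ) ^ 2)⁻¹ + k ^ 3 * s ^ 9 * (m:ℝ)⁻¹) := by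
    refine (hrc A q m hA hm hq0).trans (le_of_eq ?_)
    rw [hn, hq]
    field_simp
  have h4 : (L.card : ℝ) ^ ((2:ℝ)/3) ≤
      C3 ^ ((2:ℝ)/3) * (s ^ 8 * ((m:ℝ) ^ ((4:ℝ)/3))⁻¹ + k ^ 2 * s ^ 6 * ((m:ℝ) ^ ((2:ℝ)/3))⁻¹) := by
    calc (L.card : ℝ) ^ ((2:ℝ)/3)
        ≤ (C3 * (s ^ 12 * ((m:ℝ) ^ 2)⁻¹ + k ^ 3 * s ^ 9 * (m:ℝ)⁻¹)) ^ ((2:ℝ)/3) :=
          Real.rpow_le_rpow (by positivity) h3 (by norm_num)
      _ = C3 ^ ((2:ℝ)/3) * (s ^ 12 * ((m:ℝ) ^ 2)⁻¹ + k ^ 3 * s ^ 9 * (m:ℝ)⁻¹) ^ ((2:ℝ)/3) := by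
          rw [Real.mul_rpow hC3.le (by positivity)]
      _ ≤ C3 ^ ((2:ℝ)/3) * ((s ^ 12 * ((m:ℝ) ^ 2)⁻¹) ^ ((2:ℝ)/3) + (k ^ 3 * s ^ 9 * (m:ℝ)⁻¹) ^ ((2:ℝ)/3)) := by
          apply mul_le_mul_of_nonneg_left _ (by positivity)
          exact Real.rpow_add_le_add_rpow (by positivity) (by positivity) (by norm_num) (by norm_num)
      _ = _ := by
          have e1 : (s ^ 12 * ((m:ℝ) ^ 2)⁻¹) ^ ((2:ℝ)/3) = s ^ 8 * ((m:ℝ) ^ ((4:ℝ)/3))⁻¹ := by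
            rw [Real.mul_rpow (by positivity) (by positivity), Real.inv_rpow (by positivity),
              T_pow23_sq _ (by positivity)]
            congr 1
            rw [← Real.rpow_natCast, ← Real.rpow_natCast, ← Real.rpow_mul hs]; norm_num
          have e2 : (k ^ 3 * s ^ 9 * (m:ℝ)⁻¹) ^ ((2:ℝ)/3) = k ^ 2 * s ^ 6 * ((m:ℝ) ^ ((2:ℝ)/3))⁻¹ := by
            rw [Real.mul_rpow (by positivity) (by positivity), Real.mul_rpow (by positivity) (by positivity),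
              Real.inv_rpow (by positivity)]
            congr 2
            · rw [← Real.rpow_natCast, ← Real.rpow_natCast, ← Real.rpow_mul hk]; norm_num
            · rw [← Real.rpow_natCast, ← Real.rpow_natCast, ← Real.rpow_mul hs]; norm_num
          rw [e1, e2]
  refine h1.trans ?_
  apply mul_le_mul_of_nonneg_left _ hC2.le
  have h5 : (E.card : ℝ) ^ ((2:ℝ)/3) * (L.card : ℝ) ^ ((2:ℝ)/3) ≤
      s ^ 4 * (C3 ^ ((2:ℝ)/3) * (s ^ 8 * ((m:ℝ) ^ ((4:ℝ)/3))⁻¹ + k ^ 2 * s ^ 6 * ((m:ℝ) ^ ((2:ℝ)/3))⁻¹)) :=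
    mul_le_mul h2 h4 (by positivity) (by positivity)
  have h6 : s ^ 4 * (C3 ^ ((2:ℝ)/3) * (s ^ 8 * ((m:ℝ) ^ ((4:ℝ)/3))⁻¹ + k ^ 2 * s ^ 6 * ((m:ℝ) ^ ((2:ℝ)/3))⁻¹)) =
      C3 ^ ((2:ℝ)/3) * (s ^ 12 * ((m:ℝ) ^ ((4:ℝ)/3))⁻¹ + k ^ 2 * s ^ 10 * ((m:ℝ) ^ ((2:ℝ)/3))⁻¹) := by
    ring
  linarith

theorem rows_sum (K ε : ℝ) (hK : 0 < K) (hε : 0 < ε) : ∃ M N : ℕ, ∀ A E : Finset ℂ, NC A → E ⊆ A →
    N ≤ A.card →
    ∑ l ∈ (A.offDiag.image (fun t => bis t.1 t.2)).filter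
        (fun l => M < (pairsOn A (K * Real.sqrt A.card) l).card),
      (((pairsOn A (K * Real.sqrt A.card) l).card * on E l : ℕ) : ℝ) ≤ ε * (A.card:ℝ)^2 := by
  obtain ⟨C2, hC2, hST⟩ := szemeredi_trotter
  obtain ⟨C3, hC3, hrc⟩ := rows_count
  obtain ⟨D3, hD3, hD30⟩ : ∃ D3 : ℝ, D3 = C3 ^ ((2:ℝ)/3) ∧ 0 < D3 := ⟨_, rfl, by positivity⟩
  obtain ⟨k, hk0, hk3⟩ : ∃ k : ℝ, 0 < k ∧ k ^ 3 = K := ⟨K ^ ((1:ℝ)/3), by positivity, T_cube K hK.le⟩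
  -- choice of M
  obtain ⟨μ, hμ1, hμε⟩ : ∃ μ : ℕ, 1 ≤ μ ∧ 2 * (4 * C2 * D3 + 2 * C2 * C3) / ε ≤ μ := by
    refine ⟨⌈2 * (4 * C2 * D3 + 2 * C2 * C3) / ε⌉₊ + 1, by omega, ?_⟩
    push_cast
    have := Nat.le_ceil (2 * (4 * C2 * D3 + 2 * C2 * C3) / ε)
    linarith
  have hμ0 : (0:ℝ) < μ := by exact_mod_cast hμ1
  obtain ⟨M, hM, hM1⟩ : ∃ M : ℕ, M = μ ^ 3 ∧ 1 ≤ M := ⟨_, rfl, Nat.one_le_pow _ _ hμ1⟩
  have hM0 : (0:ℝ) < M := by exact_mod_cast hM1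
  have hMR : (M:ℝ) = (μ:ℝ) ^ 3 := by rw [hM]; push_cast; rfl
  have hMμ : (M:ℝ) ^ ((1:ℝ)/3) = μ := by
    rw [hMR, ← Real.rpow_natCast, ← Real.rpow_mul hμ0.le]; norm_num
  have hμM : (μ:ℝ) ≤ M := by
    rw [hMR]
    have h1 : (1:ℝ) ≤ μ := by exact_mod_cast hμ1
    calc (μ:ℝ) = μ ^ 1 := (pow_one _).symm
      _ ≤ μ ^ 3 := pow_le_pow_right₀ h1 (by norm_num)
  obtain ⟨W, hW, hW0⟩ : ∃ W : ℝ, W = C2 * (3 * D3 * k ^ 3 + k ^ 3 + 3 * C3 * k ^ 4 + D3 * k ^ 2 * M + M + C3 * k ^ 3)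
      ∧ 0 < W := ⟨_, rfl, by positivity⟩
  obtain ⟨N, hN⟩ : ∃ N : ℕ, N = ⌈(2 * W / ε) ^ 6⌉₊ + 1 := ⟨_, rfl⟩
  refine ⟨M, N, ?_⟩
  intro A E hA hE hNA
  set n : ℝ := (A.card : ℝ) with hn
  have hn1 : 1 ≤ n := by
    rw [hn]; exact_mod_cast (by omega : 1 ≤ A.card)
  have hn0 : 0 ≤ n := by linarith
  obtain ⟨s, hs0, hs6, hs1⟩ : ∃ s : ℝ, 0 < s ∧ n = s ^ 6 ∧ 1 ≤ s := by
    refine ⟨n ^ ((1:ℝ)/6), by positivity, ?_, Real.one_le_rpow hn1 (by norm_num)⟩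
    rw [← Real.rpow_natCast, ← Real.rpow_mul hn0]; norm_num
  have hsqrt : Real.sqrt n = s ^ 3 := by
    rw [hs6]
    rw [show s ^ 6 = (s ^ 3) ^ 2 by ring, Real.sqrt_sq (by positivity)]
  have hsW : 2 * W / ε ≤ s := by
    by_contra h
    push Not at h
    have h1 : s ^ 6 < (2 * W / ε) ^ 6 := pow_lt_pow_left₀ h hs0.le (by norm_num)
    have h2 : ((⌈(2 * W / ε) ^ 6⌉₊ + 1 : ℕ) : ℝ) ≤ n := by rw [hn, ← hN]; exact_mod_cast hNA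
    push_cast at h2
    have h3 := Nat.le_ceil ((2 * W / ε) ^ 6)
    rw [hs6] at h2
    linarith
  obtain ⟨q, hq⟩ : ∃ q : ℝ, q = K * Real.sqrt n := ⟨_, rfl⟩
  rw [← hq]
  have hqk : q = k ^ 3 * s ^ 3 := by rw [hq, hsqrt, hk3]
  have hq0 : 0 ≤ q := by rw [hqk]; positivity
  obtain ⟨Q, hQ⟩ : ∃ Q : ℕ, Q = ⌊q⌋₊ := ⟨_, rfl⟩
  have hQq : (Q:ℝ) ≤ q := by rw [hQ]; exact Nat.floor_le hq0
  have hQ3 : (Q:ℝ) ^ ((1:ℝ)/3) ≤ k * s := by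
    have : k * s = (k ^ 3 * s ^ 3) ^ ((1:ℝ)/3) := by
      rw [← mul_pow, ← Real.rpow_natCast, ← Real.rpow_mul (by positivity)]; norm_num
    rw [this, ← hqk]
    exact Real.rpow_le_rpow (by positivity) hQq (by norm_num)
  set B := A.offDiag.image (fun t => bis t.1 t.2) with hB
  have hw : ∀ l ∈ B, (pairsOn A q l).card ≤ Q := by
    intro l _
    rcases (pairsOn A q l).eq_empty_or_nonempty with h | h
    · rw [h]; simp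
    · obtain ⟨l', _, _, h3, h4, _⟩ := Q_row A hA q l h
      rw [hQ]
      exact h3.trans (Nat.le_floor h4.le)
  -- layer cake
  have e1 : ∑ l ∈ B.filter (fun l => M < (pairsOn A q l).card), (((pairsOn A q l).card * on E l : ℕ) : ℝ) =
      M * ∑ l ∈ B.filter (fun l => M + 1 ≤ (pairsOn A q l).card), (on E l : ℝ) +
      ∑ m ∈ Ioc M Q, ∑ l ∈ B.filter (fun l => m ≤ (pairsOn A q l).card), (on E l : ℝ) := by
    have h1 : ∀ l ∈ B.filter (fun l => M < (pairsOn A q l).card), (((pairsOn A q l).card * on E l : ℕ) : ℝ) =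
        M * (on E l : ℝ) + ∑ m ∈ Ioc M Q, if m ≤ (pairsOn A q l).card then (on E l : ℝ) else 0 := by
      intro l hl
      rw [mem_filter] at hl
      rw [← sum_filter, sum_const, nsmul_eq_mul]
      have : (Ioc M Q).filter (fun m => m ≤ (pairsOn A q l).card) = Ioc M (pairsOn A q l).card := by
        ext j
        simp only [mem_filter, mem_Ioc]
        have := hw l hl.1
        omega
      rw [this, Nat.card_Ioc, Nat.cast_sub hl.2.le]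
      push_cast
      ring
    rw [sum_congr rfl h1, sum_add_distrib, ← mul_sum, sum_comm]
    congr 1
    apply sum_congr rfl
    intro m hm
    rw [mem_Ioc] at hm
    rw [← sum_filter, filter_filter]
    apply sum_congr _ (fun _ _ => rfl)
    apply filter_congr
    intro l _
    constructor
    · rintro ⟨_, h⟩; exact h
    · intro h; exact ⟨by omega, h⟩
  rw [e1]
  have hrows := fun m hm => U_rows C2 C3 hC2 hC3 hST hrc A E hA hE q s k hs0.le hk0.le hqk hs6 m hm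
  -- the head
  have t1 : (M:ℝ) * ∑ l ∈ B.filter (fun l => M + 1 ≤ (pairsOn A q l).card), (on E l : ℝ) ≤
      C2 * (D3 * (s ^ 12 * (μ:ℝ)⁻¹ + k ^ 2 * s ^ 10 * M) + s ^ 6 * M +
        C3 * (s ^ 12 * (μ:ℝ)⁻¹ + k ^ 3 * s ^ 9)) := by
    have h1 := hrows (M + 1) (by omega)
    have h2 := mul_le_mul_of_nonneg_left h1 hM0.le
    refine h2.trans ?_
    have a1 : (M:ℝ) * (((M+1:ℕ):ℝ) ^ ((4:ℝ)/3))⁻¹ ≤ (μ:ℝ)⁻¹ := by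
      have h3 : (M:ℝ) * μ ≤ ((M+1:ℕ):ℝ) ^ ((4:ℝ)/3) := by
        calc (M:ℝ) * μ = (M:ℝ) ^ ((4:ℝ)/3) := by
              rw [T_pow43 _ hM0.le, hMμ, hMR]; ring
          _ ≤ _ := Real.rpow_le_rpow hM0.le (by push_cast; linarith) (by norm_num)
      rw [← div_eq_mul_inv, div_le_iff₀ (by positivity), inv_mul_eq_div, le_div_iff₀ hμ0]
      exact h3
    have a2 : (M:ℝ) * (((M+1:ℕ):ℝ) ^ ((2:ℝ)/3))⁻¹ ≤ M := by
      have : (((M+1:ℕ):ℝ) ^ ((2:ℝ)/3))⁻¹ ≤ 1 := by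
        apply inv_le_one_of_one_le₀
        apply Real.one_le_rpow _ (by norm_num)
        push_cast; linarith
      calc (M:ℝ) * (((M+1:ℕ):ℝ) ^ ((2:ℝ)/3))⁻¹ ≤ M * 1 := mul_le_mul_of_nonneg_left this hM0.le
        _ = M := mul_one _
    have a3 : (M:ℝ) * (((M+1:ℕ):ℝ) ^ 2)⁻¹ ≤ (μ:ℝ)⁻¹ := by
      rw [← div_eq_mul_inv, div_le_iff₀ (by positivity), inv_mul_eq_div, le_div_iff₀ hμ0]
      push_cast
      nlinarith [hμM, hM0]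
    have a4 : (M:ℝ) * ((M+1:ℕ):ℝ)⁻¹ ≤ 1 := by
      rw [← div_eq_mul_inv, div_le_one (by positivity)]
      push_cast; linarith
    have b1 : s ^ 12 * ((M:ℝ) * (((M+1:ℕ):ℝ) ^ ((4:ℝ)/3))⁻¹) ≤ s ^ 12 * (μ:ℝ)⁻¹ :=
      mul_le_mul_of_nonneg_left a1 (by positivity)
    have b2 : k ^ 2 * s ^ 10 * ((M:ℝ) * (((M+1:ℕ):ℝ) ^ ((2:ℝ)/3))⁻¹) ≤ k ^ 2 * s ^ 10 * M :=
      mul_le_mul_of_nonneg_left a2 (by positivity)
    have b3 : s ^ 12 * ((M:ℝ) * (((M+1:ℕ):ℝ) ^ 2)⁻¹) ≤ s ^ 12 * (μ:ℝ)⁻¹ :=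
      mul_le_mul_of_nonneg_left a3 (by positivity)
    have b4 : k ^ 3 * s ^ 9 * ((M:ℝ) * ((M+1:ℕ):ℝ)⁻¹) ≤ k ^ 3 * s ^ 9 * 1 :=
      mul_le_mul_of_nonneg_left a4 (by positivity)
    calc (M:ℝ) * (C2 * (C3 ^ ((2:ℝ)/3) * (s ^ 12 * (((M+1:ℕ):ℝ) ^ ((4:ℝ)/3))⁻¹ +
          k ^ 2 * s ^ 10 * (((M+1:ℕ):ℝ) ^ ((2:ℝ)/3))⁻¹) +
          s ^ 6 + C3 * (s ^ 12 * (((M+1:ℕ):ℝ) ^ 2)⁻¹ + k ^ 3 * s ^ 9 * ((M+1:ℕ):ℝ)⁻¹)))
        = C2 * (D3 * (s ^ 12 * ((M:ℝ) * (((M+1:ℕ):ℝ) ^ ((4:ℝ)/3))⁻¹) +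
          k ^ 2 * s ^ 10 * ((M:ℝ) * (((M+1:ℕ):ℝ) ^ ((2:ℝ)/3))⁻¹)) + s ^ 6 * M +
          C3 * (s ^ 12 * ((M:ℝ) * (((M+1:ℕ):ℝ) ^ 2)⁻¹) + k ^ 3 * s ^ 9 * ((M:ℝ) * ((M+1:ℕ):ℝ)⁻¹))) := by
          rw [← hD3]; ring
      _ ≤ _ := by
          apply mul_le_mul_of_nonneg_left _ hC2.le
          have c1 := mul_le_mul_of_nonneg_left (add_le_add b1 b2) hD30.le
          have c2 := mul_le_mul_of_nonneg_left (add_le_add b3 b4) hC3.le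
          linarith
  -- the tail
  have t2 : ∑ m ∈ Ioc M Q, ∑ l ∈ B.filter (fun l => m ≤ (pairsOn A q l).card), (on E l : ℝ) ≤
      C2 * (D3 * (s ^ 12 * (3 * (μ:ℝ)⁻¹) + k ^ 2 * s ^ 10 * (3 * (k * s))) + k ^ 3 * s ^ 3 * s ^ 6 +
        C3 * (s ^ 12 * (μ:ℝ)⁻¹ + k ^ 3 * s ^ 9 * (3 * (k * s)))) := by
    have h1 : ∑ m ∈ Ioc M Q, ∑ l ∈ B.filter (fun l => m ≤ (pairsOn A q l).card), (on E l : ℝ) ≤
        ∑ m ∈ Ioc M Q, C2 * (D3 * (s ^ 12 * ((m:ℝ) ^ ((4:ℝ)/3))⁻¹ + k ^ 2 * s ^ 10 * ((m:ℝ) ^ ((2:ℝ)/3))⁻¹) +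
        s ^ 6 + C3 * (s ^ 12 * ((m:ℝ) ^ 2)⁻¹ + k ^ 3 * s ^ 9 * (m:ℝ)⁻¹)) := by
      apply sum_le_sum
      intro m hm
      rw [mem_Ioc] at hm
      rw [hD3]
      exact hrows m (by omega)
    refine h1.trans ?_
    rw [← mul_sum]
    apply mul_le_mul_of_nonneg_left _ hC2.le
    rw [sum_add_distrib, sum_add_distrib, ← mul_sum, ← mul_sum, sum_add_distrib, sum_add_distrib,
      ← mul_sum, ← mul_sum, ← mul_sum, ← mul_sum, sum_const, nsmul_eq_mul, Nat.card_Ioc]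
    have s1 : ∑ m ∈ Ioc M Q, ((m:ℝ) ^ ((4:ℝ)/3))⁻¹ ≤ 3 * (μ:ℝ)⁻¹ := by
      have := U_sum43 M Q hM1
      rwa [hMμ] at this
    have s2 : ∑ m ∈ Ioc M Q, ((m:ℝ) ^ ((2:ℝ)/3))⁻¹ ≤ 3 * (k * s) := by
      have h2 : ∑ m ∈ Ioc M Q, ((m:ℝ) ^ ((2:ℝ)/3))⁻¹ ≤ ∑ m ∈ Icc 1 Q, ((m:ℝ) ^ ((2:ℝ)/3))⁻¹ := by
        apply sum_le_sum_of_subset_of_nonneg
        · intro m hm
          rw [mem_Ioc] at hm
          rw [mem_Icc]; omega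
        · intro m _ _; positivity
      refine h2.trans ((T_sum23 Q).trans ?_)
      apply mul_le_mul_of_nonneg_left hQ3 (by norm_num)
    have s3 : ∑ m ∈ Ioc M Q, ((m:ℝ) ^ 2)⁻¹ ≤ (μ:ℝ)⁻¹ := by
      rcases Nat.lt_or_ge Q M with h | h
      · rw [Ioc_eq_empty (by omega), sum_empty]; positivity
      have h2 := sum_Ioc_inv_sq_le_sub (α := ℝ) (k := M) (n := Q) (by omega) h
      have h3 : (0:ℝ) ≤ (Q:ℝ)⁻¹ := by positivity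
      have h4 : (M:ℝ)⁻¹ ≤ (μ:ℝ)⁻¹ := inv_anti₀ hμ0 hμM
      linarith
    have s4 : ∑ m ∈ Ioc M Q, (m:ℝ)⁻¹ ≤ 3 * (k * s) := by
      refine le_trans ?_ s2
      apply sum_le_sum
      intro m hm
      rw [mem_Ioc] at hm
      have hm1 : (1:ℝ) ≤ m := by exact_mod_cast (by omega : 1 ≤ m)
      apply inv_anti₀ (by positivity)
      calc (m:ℝ) ^ ((2:ℝ)/3) ≤ (m:ℝ) ^ (1:ℝ) := Real.rpow_le_rpow_of_exponent_le hm1 (by norm_num)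
        _ = m := Real.rpow_one _
    have s5 : ((Q - M : ℕ) : ℝ) ≤ k ^ 3 * s ^ 3 := by
      rw [← hqk]
      refine le_trans ?_ hQq
      exact_mod_cast Nat.sub_le _ _
    have u1 := mul_le_mul_of_nonneg_left s1 (by positivity : (0:ℝ) ≤ s ^ 12)
    have u2 := mul_le_mul_of_nonneg_left s2 (by positivity : (0:ℝ) ≤ k ^ 2 * s ^ 10)
    have u3 := mul_le_mul_of_nonneg_left s3 (by positivity : (0:ℝ) ≤ s ^ 12)
    have u4 := mul_le_mul_of_nonneg_left s4 (by positivity : (0:ℝ) ≤ k ^ 3 * s ^ 9)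
    have u5 := mul_le_mul_of_nonneg_right s5 (by positivity : (0:ℝ) ≤ s ^ 6)
    have v1 := mul_le_mul_of_nonneg_left (add_le_add u1 u2) hD30.le
    have v2 := mul_le_mul_of_nonneg_left (add_le_add u3 u4) hC3.le
    linarith
  -- final
  have main1 : (4 * C2 * D3 + 2 * C2 * C3) * (μ:ℝ)⁻¹ ≤ ε / 2 := by
    rw [← div_eq_mul_inv, div_le_iff₀ hμ0]
    rw [div_le_iff₀ hε] at hμε
    linarith
  have main2 : W * s ^ 11 ≤ ε / 2 * s ^ 12 := by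
    rw [div_le_iff₀ hε] at hsW
    have : W ≤ ε / 2 * s := by linarith
    calc W * s ^ 11 ≤ (ε / 2 * s) * s ^ 11 := mul_le_mul_of_nonneg_right this (by positivity)
      _ = ε / 2 * s ^ 12 := by ring
  have hsp : s ^ 10 ≤ s ^ 11 := pow_le_pow_right₀ hs1 (by norm_num)
  have hsp2 : s ^ 9 ≤ s ^ 11 := pow_le_pow_right₀ hs1 (by norm_num)
  have hsp3 : s ^ 6 ≤ s ^ 11 := pow_le_pow_right₀ hs1 (by norm_num)
  have lower : C2 * (3 * D3 * k ^ 3 * s ^ 11 + k ^ 3 * s ^ 9 + 3 * C3 * k ^ 4 * s ^ 10 +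
      D3 * k ^ 2 * M * s ^ 10 + M * s ^ 6 + C3 * k ^ 3 * s ^ 9) ≤ W * s ^ 11 := by
    rw [hW]
    have : C2 * (3 * D3 * k ^ 3 + k ^ 3 + 3 * C3 * k ^ 4 + D3 * k ^ 2 * M + M + C3 * k ^ 3) * s ^ 11 =
      C2 * (3 * D3 * k ^ 3 * s ^ 11 + k ^ 3 * s ^ 11 + 3 * C3 * k ^ 4 * s ^ 11 +
      D3 * k ^ 2 * M * s ^ 11 + M * s ^ 11 + C3 * k ^ 3 * s ^ 11) := by ring
    rw [this]
    apply mul_le_mul_of_nonneg_left _ hC2.le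
    gcongr
  have head : (4 * C2 * D3 + 2 * C2 * C3) * (μ:ℝ)⁻¹ * s ^ 12 ≤ ε / 2 * s ^ 12 :=
    mul_le_mul_of_nonneg_right main1 (by positivity)
  have e2 : n ^ 2 = s ^ 12 := by rw [hs6]; ring
  rw [e2]
  have tot := add_le_add t1 t2
  refine tot.trans ?_
  calc C2 * (D3 * (s ^ 12 * (μ:ℝ)⁻¹ + k ^ 2 * s ^ 10 * M) + s ^ 6 * M +
        C3 * (s ^ 12 * (μ:ℝ)⁻¹ + k ^ 3 * s ^ 9)) +
      C2 * (D3 * (s ^ 12 * (3 * (μ:ℝ)⁻¹) + k ^ 2 * s ^ 10 * (3 * (k * s))) + k ^ 3 * s ^ 3 * s ^ 6 +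
        C3 * (s ^ 12 * (μ:ℝ)⁻¹ + k ^ 3 * s ^ 9 * (3 * (k * s))))
      = (4 * C2 * D3 + 2 * C2 * C3) * (μ:ℝ)⁻¹ * s ^ 12 +
        C2 * (3 * D3 * k ^ 3 * s ^ 11 + k ^ 3 * s ^ 9 + 3 * C3 * k ^ 4 * s ^ 10 +
      D3 * k ^ 2 * M * s ^ 10 + M * s ^ 6 + C3 * k ^ 3 * s ^ 9) := by ring
    _ ≤ ε / 2 * s ^ 12 + ε / 2 * s ^ 12 := by linarith
    _ = ε * s ^ 12 := by ring

end

end Pool.Agent.DD
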