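import Pool.Agent.Lib_helper64.Zorn
import Pool.Agent.Lib_helper64.Absorb

set_option autoImplicit false
set_option linter.unusedVariables false

namespace Pool.Agent.LC

universe uV uE uI

variable {V : Type uV} {E : Type uE} {ι : Type uI}

section
variable {G : E → Bool → V} {A : Set E} {S X P : Set V} {K K' : Set (E × Bool)}
  {W : Set (List (E × Bool))}

lemma Lk.insert {M : List (E × Bool)} {k : E × Bool} (h : Lk G A S X K W)
    (hM : IsTr G A S X M) (hl : M.getLast? = some k) (hk : k ∈ Lv G A X)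
    (hdj : ∀ L' ∈ W, EDisj M L') : Lk G A S X (K \ {k}) (Insert.insert M W) := by
  refine ⟨⟨?_, ?_⟩, ?_, ?_⟩
  · rintro L (rfl | hL)
    · exact hM
    · exact h.tr L hL
  · rintro L (rfl | hL) L' (rfl | hL') d hd d' hd' he
    · rfl
    · exact absurd he (hdj L' hL' d hd d' hd')
    · exact absurd he.symm (hdj L hL d' hd' d hd)
    · exact h.disj L hL L' hL' d hd d' hd' he
  · rintro L (rfl | hL)
    · exact ⟨k, ⟨hk, by simp⟩, hl⟩
    · obtain ⟨b, hb, hlb⟩ := h.last L hL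
      exact ⟨b, ⟨hb.1, fun hh => hb.2 hh.1⟩, hlb⟩
  · intro b hb
    by_cases hbk : b = k
    · exact ⟨M, Or.inl rfl, hbk ▸ hl⟩
    · obtain ⟨L, hL, hlb⟩ := h.cov b ⟨hb.1, fun hh => hb.2 ⟨hh, hbk⟩⟩
      exact ⟨L, Or.inr hL, hlb⟩

lemma Lk.remove {L : List (E × Bool)} {b : E × Bool} (h : Lk G A S X K W) (hL : L ∈ W)
    (hl : L.getLast? = some b) : Lk G A S X (Insert.insert b K) (W \ {L}) := by
  refine ⟨⟨?_, ?_⟩, ?_, ?_⟩
  · rintro L' ⟨hL', _⟩
    exact h.tr L' hL'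
  · rintro L1 ⟨hL1, _⟩ L2 ⟨hL2, _⟩ d hd d' hd' he
    exact h.disj L1 hL1 L2 hL2 d hd d' hd' he
  · rintro L' ⟨hL', hne⟩
    obtain ⟨b', hb', hl'⟩ := h.last L' hL'
    refine ⟨b', ⟨hb'.1, ?_⟩, hl'⟩
    rintro (rfl | hh)
    · exact hne (h.unique hL' hL (mem_of_getLast? hl') (mem_of_getLast? hl))
    · exact hb'.2 hh
  · rintro b' ⟨hb', hn⟩
    obtain ⟨L', hL', hl'⟩ := h.cov b' ⟨hb', fun hh => hn (Or.inr hh)⟩
    refine ⟨L', ⟨hL', ?_⟩, hl'⟩
    intro heq
    rw [Set.mem_singleton_iff.1 heq, hl] at hl'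
    exact hn (Or.inl (Option.some.inj hl').symm)

lemma Lk.congrK (h : Lk G A S X K W) (hK : ∀ k ∈ Lv G A X, k ∈ K ↔ k ∈ K') :
    Lk G A S X K' W := by
  refine ⟨h.toSys, ?_, ?_⟩
  · intro L hL
    obtain ⟨b, hb, hl⟩ := h.last L hL
    exact ⟨b, ⟨hb.1, fun hh => hb.2 ((hK b hb.1).2 hh)⟩, hl⟩
  · intro b hb
    exact h.cov b ⟨hb.1, fun hh => hb.2 ((hK b hb.1).1 hh)⟩

lemma Lk.unused_K (h : Lk G A S X K W) {k : E × Bool} (hk : k ∈ K) (hkX : k ∈ Lv G A X) :
    ∀ L ∈ W, ∀ d ∈ L, d.1 ≠ k.1 := by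
  intro L hL d hd he
  rcases eq_or_eq_rv he with h1 | h1
  · subst h1
    obtain ⟨α, β, hLe⟩ := List.append_of_mem hd
    have hβ := (h.tr L hL).leave_last hLe hkX.2.2
    subst hβ
    obtain ⟨b, hb, hl⟩ := h.last L hL
    rw [hLe, List.getLast?_concat] at hl
    rw [Option.some.inj hl] at hk
    exact hb.2 hk
  · apply hkX.2.2
    have := (h.tr L hL).tlX d hd
    rw [h1]
    simpa using this

/-- a dart leaving `S` which is not a first dart is unused -/
lemma Sys.unused_first (h : Sys G A S X W) {e : E × Bool} (he : e ∈ Lv G A S)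
    (hn : ¬ ∃ L ∈ W, L.head? = some e) : ∀ L ∈ W, ∀ d ∈ L, d.1 ≠ e.1 := by
  intro L hL d hd heq
  rcases eq_or_eq_rv heq with h1 | h1
  · subst h1
    obtain ⟨α, β, hLe⟩ := List.append_of_mem hd
    have hα := ((h.tr L hL).first_iff hLe).1 he.2.1
    subst hα
    exact hn ⟨L, hL, by rw [hLe]; rfl⟩
  · apply (h.tr L hL).hdS d hd
    have h2 : d = rv e := by rw [h1]; simp
    rw [h2, hd_rv]
    exact he.2.1

lemma isTr_single {k : E × Bool} (hk : k ∈ Lv G A X) (hS : tl G k ∈ S) (hSX : S ⊆ X) :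
    IsTr G A S X [k] := by
  refine ⟨by simp, ⟨tl G k, hS, hd G k, rfl, rfl⟩, by simp, ?_, ?_, ?_⟩
  · intro d hd; rw [List.mem_singleton.1 hd]; exact hk.1
  · intro d hd; rw [List.mem_singleton.1 hd]; exact fun h => hk.2.2 (hSX h)
  · intro d hd; rw [List.mem_singleton.1 hd]; exact hk.2.1

/-- add the trivial trail `[k]` -/
lemma Lk.add_single (h : Lk G A S X K W) (hSX : S ⊆ X) {k : E × Bool} (hk : k ∈ K)
    (hkX : k ∈ Lv G A X) (hS : tl G k ∈ S) : Lk G A S X (K \ {k}) (Insert.insert [k] W) := by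
  refine h.insert (isTr_single hkX hS hSX) (by simp) hkX ?_
  intro L' hL' d hd d' hd' he
  rw [List.mem_singleton.1 hd] at he
  exact h.unused_K hk hkX L' hL' d' hd' he.symm

/-- finish an augmentation with a missing dart -/
lemma St.finish {W'' : Set (List (E × Bool))} {L : List (E × Bool)} {y : V}
    (h : St G A S P K W'' L y) {f : E × Bool} (hf : f ∈ K) (hfP : f ∈ Lv G A P)
    (hy : tl G f = y) (hSP : S ⊆ P) :
    Lk G A S P (K \ {f}) (Insert.insert (L ++ [f]) W'') := by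
  subst hy
  obtain ⟨u, hu, hw⟩ := h.wk
  have hwd : Wk G (tl G f) [f] (hd G f) := ⟨rfl, rfl⟩
  have hLf : ∀ a ∈ L, a.1 ≠ f.1 := by
    intro a ha he
    rcases eq_or_eq_rv he with h1 | h1
    · rw [h1] at hfP
      exact hfP.2.2 (hw.hd_mem (P := fun v => v ∈ P) h.tr.tlX (by rw [h1] at *; exact hfP.2.1) a ha)
    · apply hfP.2.2
      rw [h1]
      simpa using h.tr.tlX a ha
  refine h.lk.insert (h.tr.splice hu hw hwd (by simp) ?_ ?_ ?_ ?_) (by simp) hfP ?_
  · intro a ha b hb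
    rw [List.mem_singleton.1 hb]
    exact hLf a ha
  · intro b hb; rw [List.mem_singleton.1 hb]; exact hfP.1
  · intro b hb; rw [List.mem_singleton.1 hb]; exact fun hh => hfP.2.2 (hSP hh)
  · intro b hb; rw [List.mem_singleton.1 hb]; exact hfP.2.1
  · intro L' hL'
    rw [edisj_append_left]
    refine ⟨h.dj L' hL', ?_⟩
    intro d hd d' hd' he
    rw [List.mem_singleton.1 hd] at he
    exact h.lk.unused_K hf hfP L' hL' d' hd' he.symm

/-- if `W` is not full and `K` has no tails in `S`, there is a reachable vertex -/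
lemma Lk.exists_RY (h : Lk G A S X K W) (hSX : S ⊆ X) (hKS : ∀ k ∈ K, k ∈ Lv G A X → tl G k ∉ S)
    (hn : ¬ Full G A S W) : ∃ e ∈ Lv G A S, (∀ L ∈ W, ∀ d ∈ L, d.1 ≠ e.1) ∧
      hd G e ∈ RY G A S X W := by
  unfold Full at hn
  push Not at hn
  obtain ⟨e, he, hne⟩ := hn
  have hun := h.toSys.unused_first he (by push Not; exact hne)
  refine ⟨e, he, hun, RY_base he.1 he.2.1 ?_ he.2.2 hun⟩
  by_contra hX
  have heX : e ∈ Lv G A X := ⟨he.1, hSX he.2.1, hX⟩
  have heK : e ∉ K := fun hh => hKS e hh heX he.2.1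
  obtain ⟨L, hL, hl⟩ := h.cov e ⟨heX, heK⟩
  exact hun L hL e (mem_of_getLast? hl) rfl

end

variable {G : E → Bool → V} {A : Set E} {c : V → Option ι}

lemma Reg.sub {t : ι} {X P : Set V} (h : Reg c t X) (hS : Sc c t ⊆ P) (hP : P ⊆ X) :
    Reg c t P := ⟨hS, fun v hv => h.2 ⟨hP hv.1, hv.2⟩⟩

theorem def_one (hA : Adm G A c)
    (hL : Loose G A c) {t : ι} {X : Set V} {K : Set (E × Bool)} {W : Set (List (E × Bool))}
    (hreg : Reg c t X) (hW : Lk G A (Sc c t) X K W) (hK : (K ∩ Lv G A X).Subsingleton) :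
    X = Sc c t := by
  by_cases hf : ∃ f, f ∈ K ∩ Lv G A X
  swap
  · push Not at hf
    exact hL t X W hreg (hW.congrK (fun k hk => by
      constructor
      · intro h; exact absurd ⟨h, hk⟩ (hf k)
      · intro h; exact absurd h (by simp)))
  obtain ⟨f, hfK, hfX⟩ := hf
  have hKf : ∀ k ∈ Lv G A X, k ∈ K ↔ k ∈ ({f} : Set (E × Bool)) := by
    intro k hk
    constructor
    · intro h; exact hK ⟨h, hk⟩ ⟨hfK, hfX⟩
    · intro h; rw [Set.mem_singleton_iff.1 h]; exact hfK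
  have hW1 : Lk G A (Sc c t) X {f} W := hW.congrK hKf
  by_cases hfS : tl G f ∈ Sc c t
  · have := hW1.add_single hreg.1 rfl hfX hfS
    rw [Set.sdiff_self] at this
    exact hL t X _ hreg this
  by_cases hfull : Full G A (Sc c t) W
  · obtain ⟨W', hW'⟩ := absorb hA hreg hW1 (by simpa using hfX) (by simpa using hfS) rfl hfull
      (by
        intro k hk hkf
        exact absurd hk hkf)
    rw [Set.sdiff_self] at hW'
    exact hL t X _ hreg hW'
  · exfalso
    obtain ⟨e, he, hun, hY⟩ := hW1.exists_RY hreg.1 (by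
      intro k hk _
      rw [Set.mem_singleton_iff.1 hk]; exact hfS) hfull
    obtain ⟨W', hW', hpre, hst⟩ := aug hreg.1 hW1
    have hregP : Reg c t (Sc c t ∪ RY G A (Sc c t) X W) :=
      hreg.sub Set.subset_union_left (SRY_sub hreg.1)
    have hcon : Sc c t ∪ RY G A (Sc c t) X W ≠ Sc c t := by
      intro heq
      apply he.2.2
      rw [← heq]
      exact Or.inr hY
    by_cases hfY : tl G f ∈ RY G A (Sc c t) X W
    · obtain ⟨W'', L, h1⟩ := hst _ hfY
      have h2 := h1.finish (f := f) rfl ⟨hfX.1, Or.inr hfY, fun hh => hfX.2.2 (SRY_sub hreg.1 hh)⟩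
        rfl Set.subset_union_left
      rw [Set.sdiff_self] at h2
      exact hcon (hL t _ _ hregP h2)
    · refine hcon (hL t _ W' hregP (hW'.congrK ?_))
      intro k hk
      constructor
      · intro h
        rw [Set.mem_singleton_iff.1 h] at hk
        rcases hk.2.1 with h1 | h1
        · exact absurd h1 hfS
        · exact absurd h1 hfY
      · intro h; exact absurd h (by simp)

theorem def_two (hA : Adm G A c)
    (hL : Loose G A c) {t : ι} {X : Set V} {K : Set (E × Bool)} {W : Set (List (E × Bool))}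
    (hreg : Reg c t X) (hW : Lk G A (Sc c t) X K W) {k1 k2 : E × Bool}
    (hK : K ∩ Lv G A X ⊆ {k1, k2}) (hX : X ≠ Sc c t) :
    Full G A (Sc c t) W ∧ k1 ≠ k2 ∧ k1 ∈ K ∩ Lv G A X ∧ k2 ∈ K ∩ Lv G A X ∧
      tl G k1 ∉ Sc c t ∧ tl G k2 ∉ Sc c t := by
  have hns : ¬ (K ∩ Lv G A X).Subsingleton := fun h => hX (def_one hA hL hreg hW h)
  have hne : k1 ≠ k2 := by
    rintro rfl
    apply hns
    intro a ha b hb
    have h1 := hK ha
    have h2 := hK hb
    simp at h1 h2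
    rw [h1, h2]
  have hk1 : k1 ∈ K ∩ Lv G A X := by
    by_contra h
    apply hns
    intro a ha b hb
    have h1 := hK ha
    have h2 := hK hb
    rcases h1 with h1 | h1
    · exact absurd (h1 ▸ ha) h
    rcases h2 with h2 | h2
    · exact absurd (h2 ▸ hb) h
    rw [h1, h2]
  have hk2 : k2 ∈ K ∩ Lv G A X := by
    by_contra h
    apply hns
    intro a ha b hb
    have h1 := hK ha
    have h2 := hK hb
    rcases h1 with h1 | h1
    swap
    · exact absurd (h1 ▸ ha) h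
    rcases h2 with h2 | h2
    swap
    · exact absurd (h2 ▸ hb) h
    rw [h1, h2]
  have hs1 : ∀ k ∈ K, k ∈ Lv G A X → tl G k ∉ Sc c t := by
    intro k hk hkX hkS
    have h1 := hW.add_single hreg.1 hk hkX hkS
    apply hX
    refine def_one hA hL hreg h1 ?_
    rintro a ⟨⟨ha1, ha2⟩, ha3⟩ b ⟨⟨hb1, hb2⟩, hb3⟩
    have hka := hK ⟨hk, hkX⟩
    have h1 := hK ⟨ha1, ha3⟩
    have h2 := hK ⟨hb1, hb3⟩
    simp only [Set.mem_insert_iff, Set.mem_singleton_iff] at hka h1 h2 ha2 hb2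
    rcases hka with rfl | rfl <;> rcases h1 with rfl | rfl <;> rcases h2 with rfl | rfl <;>
      first | rfl | exact absurd rfl ha2 | exact absurd rfl hb2
  refine ⟨?_, hne, hk1, hk2, hs1 k1 hk1.1 hk1.2, hs1 k2 hk2.1 hk2.2⟩
  by_contra hfull
  have hW1 : Lk G A (Sc c t) X {k1, k2} W := hW.congrK (by
    intro k hk
    constructor
    · intro h; exact hK ⟨h, hk⟩
    · rintro (rfl | rfl)
      · exact hk1.1
      · exact hk2.1)
  obtain ⟨e, he, hun, hY⟩ := hW.exists_RY hreg.1 hs1 hfull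
  obtain ⟨W', hW', hpre, hst⟩ := aug hreg.1 hW1
  have hregP : Reg c t (Sc c t ∪ RY G A (Sc c t) X W) :=
    hreg.sub Set.subset_union_left (SRY_sub hreg.1)
  have hcon : Sc c t ∪ RY G A (Sc c t) X W ≠ Sc c t := by
    intro heq
    apply he.2.2
    rw [← heq]
    exact Or.inr hY
  by_cases h1Y : tl G k1 ∈ RY G A (Sc c t) X W
  · obtain ⟨W'', L, h1⟩ := hst _ h1Y
    have h2 := h1.finish (f := k1) (by simp)
      ⟨hk1.2.1, Or.inr h1Y, fun hh => hk1.2.2.2 (SRY_sub hreg.1 hh)⟩ rfl Set.subset_union_left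
    refine hcon (def_one hA hL hregP h2 ?_)
    rintro a ⟨⟨ha1, ha2⟩, ha3⟩ b ⟨⟨hb1, hb2⟩, hb3⟩
    simp only [Set.mem_insert_iff, Set.mem_singleton_iff] at ha1 ha2 hb1 hb2
    rcases ha1 with rfl | rfl
    · exact absurd rfl ha2
    · rcases hb1 with rfl | rfl
      · exact absurd rfl hb2
      · rfl
  · refine hcon (def_one hA hL hregP hW' ?_)
    rintro a ⟨ha1, ha3⟩ b ⟨hb1, hb3⟩
    have haux : k1 ∉ Lv G A (Sc c t ∪ RY G A (Sc c t) X W) := by
      rintro ⟨_, h1 | h1, _⟩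
      · exact hs1 k1 hk1.1 hk1.2 h1
      · exact h1Y h1
    rcases ha1 with rfl | rfl
    · exact absurd ha3 haux
    · rcases hb1 with rfl | rfl
      · exact absurd hb3 haux
      · rfl

/-- exchange of a missing dart -/
theorem exchange (hA : Adm G A c)
    (hL : Loose G A c) {t : ι} {X : Set V} {W : Set (List (E × Bool))} {f g1 g0 : E × Bool}
    (hreg : Reg c t X) (hW : Lk G A (Sc c t) X {f, g1} W) (hX : X ≠ Sc c t)
    (hg0 : g0 ∈ Lv G A X) (h0f : g0 ≠ f) (h01 : g0 ≠ g1) (hg0S : tl G g0 ∉ Sc c t) :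
    ∃ W', Lk G A (Sc c t) X {f, g0} W' := by
  obtain ⟨-, hfg, hfK, hgK, hfS, hgS⟩ := def_two hA hL hreg hW Set.inter_subset_left hX
  obtain ⟨L0, hL0, hl0⟩ := hW.cov g0 ⟨hg0, by simp [h0f, h01]⟩
  have h0 := hW.remove hL0 hl0
  obtain ⟨e0, β, hLe⟩ := List.exists_cons_of_ne_nil (hW.tr L0 hL0).ne
  have he0 : e0 ∈ Lv G A (Sc c t) := by
    refine ⟨(hW.tr L0 hL0).sub e0 (by rw [hLe]; simp), ((hW.tr L0 hL0).tl_notMem hLe).1,
      (hW.tr L0 hL0).hdS e0 (by rw [hLe]; simp)⟩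
  have hun : ∀ L ∈ W \ {L0}, ∀ d ∈ L, d.1 ≠ e0.1 := by
    rintro L ⟨hL1, hne⟩ d hd he
    exact hne (hW.disj L hL1 L0 hL0 d hd e0 (by rw [hLe]; simp) he)
  have hhd : hd G e0 ∈ X := by
    by_contra hh
    have := (hW.tr L0 hL0).leave_last (α := []) hLe hh
    subst this
    rw [hLe] at hl0
    have : e0 = g0 := by simpa using hl0
    rw [← this] at hg0S
    exact hg0S he0.2.1
  have hY : hd G e0 ∈ RY G A (Sc c t) X (W \ {L0}) :=
    RY_base he0.1 he0.2.1 hhd he0.2.2 hun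
  have hregP : Reg c t (Sc c t ∪ RY G A (Sc c t) X (W \ {L0})) :=
    hreg.sub Set.subset_union_left (SRY_sub hreg.1)
  have hcon : Sc c t ∪ RY G A (Sc c t) X (W \ {L0}) ≠ Sc c t := by
    intro heq
    apply he0.2.2
    rw [← heq]
    exact Or.inr hY
  have hg1Y : tl G g1 ∈ RY G A (Sc c t) X (W \ {L0}) := by
    by_contra hn
    obtain ⟨W', hW', hpre, -⟩ := aug hreg.1 h0
    have hfull := (def_two hA hL (k1 := g0) (k2 := f) hregP hW' (by
      rintro a ⟨ha1, ha2⟩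
      rcases ha1 with rfl | rfl | rfl
      · simp
      · simp
      · exfalso
        rcases ha2.2.1 with h1 | h1
        · exact hgS h1
        · exact hn h1) hcon).1
    obtain ⟨L', hL', hh⟩ := hfull e0 he0
    obtain ⟨L, hL1, γ, hLγ⟩ := hpre L' hL'
    exact hun L hL1 e0 (by rw [hLγ]; exact List.mem_append_left _ (mem_of_head? hh)) rfl
  obtain ⟨W'', L, hst⟩ := aug_whole hreg.1 h0 hg1Y
  have h2 := hst.finish (f := g1) (by simp) hgK.2 rfl hreg.1
  refine ⟨_, h2.congrK ?_⟩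
  intro k hk
  simp only [Set.mem_sdiff, Set.mem_insert_iff, Set.mem_singleton_iff]
  constructor
  · rintro ⟨rfl | rfl | rfl, h3⟩
    · simp
    · simp
    · exact absurd rfl h3
  · rintro (rfl | rfl)
    · exact ⟨by simp, hfg⟩
    · exact ⟨by simp, h01⟩

/-- with two missing darts there is an unused connection between them -/
theorem connect (hA : Adm G A c)
    (hL : Loose G A c) {t : ι} {X : Set V} {W : Set (List (E × Bool))} {f g0 : E × Bool}
    (hreg : Reg c t X) (hW : Lk G A (Sc c t) X {f, g0} W) (hX : X ≠ Sc c t) :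
    ∃ L : List (E × Bool), Wk G (tl G f) L (tl G g0) ∧
      ∀ d ∈ L, d.1 ∈ A ∧ tl G d ∈ X \ Sc c t ∧ hd G d ∈ X \ Sc c t ∧
        ∀ L' ∈ W, ∀ d' ∈ L', d'.1 ≠ d.1 := by
  obtain ⟨hfull, hfg, hfK, hgK, hfS, hgS⟩ := def_two hA hL hreg hW Set.inter_subset_left hX
  by_contra hcon
  obtain ⟨W', hW'⟩ := absorb (f := f) hA hreg hW (by
    rintro k (rfl | rfl)
    · exact hfK.2
    · exact hgK.2) (by
    rintro k (rfl | rfl)
    · exact hfS
    · exact hgS) (by simp) hfull (by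
    rintro k (rfl | rfl) hkf
    · exact absurd rfl hkf
    · exact hcon)
  apply hX
  refine def_one hA hL hreg hW' ?_
  rintro a ⟨⟨ha1, ha2⟩, ha3⟩ b ⟨⟨hb1, hb2⟩, hb3⟩
  simp only [Set.mem_insert_iff, Set.mem_singleton_iff] at ha1 ha2 hb1 hb2
  rcases ha1 with rfl | rfl
  · exact absurd rfl ha2
  · rcases hb1 with rfl | rfl
    · exact absurd rfl hb2
    · rfl

end Pool.Agent.LC
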