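import Pool.Agent.Lib_helper78.FT.Defs

set_option autoImplicit false

namespace Pool.Agent.FT

namespace BlockB

/-- The sawtooth vector of a residue class. -/
noncomputable def gv (M : ℕ) [NeZero M] (x : ZMod M) : (ZMod M)ˣ → ℂ :=
  fun t => ((((t : ZMod M) * x).val : ℕ) : ℂ) / M - if x = 0 then 0 else 1 / 2

/-- The complexified Stickelberger map. -/
noncomputable def Psi (M : ℕ) [NeZero M] : (ZMod M → ℤ) →+ ((ZMod M)ˣ → ℂ) where
  toFun D := ∑ x, (D x : ℂ) • gv M x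
  map_zero' := by simp
  map_add' := by intro D E; simp [add_smul, Finset.sum_add_distrib]

variable {M : ℕ} [NeZero M]

lemma Psi_apply (D : ZMod M → ℤ) (t : (ZMod M)ˣ) : Psi M D t = ((stq M D t : ℚ) : ℂ) := by
  simp only [Psi, AddMonoidHom.coe_mk, ZeroHom.coe_mk, Finset.sum_apply, Pi.smul_apply, smul_eq_mul,
    stq, gv]
  push_cast
  refine Finset.sum_congr rfl fun x _ => ?_
  split_ifs <;> simp

lemma Psi_single (x : ZMod M) : Psi M (Pi.single x 1) = gv M x := by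
  simp only [Psi, AddMonoidHom.coe_mk, ZeroHom.coe_mk]
  rw [Finset.sum_eq_single x]
  · simp
  · intro y _ hy
    simp [Pi.single_eq_of_ne hy]
  · simp

lemma gv_mul (x : ZMod M) (s t : (ZMod M)ˣ) : gv M x (s * t) = gv M ((s : ZMod M) * x) t := by
  unfold gv
  have h1 : (((s * t : (ZMod M)ˣ) : ZMod M) * x) = (t : ZMod M) * ((s : ZMod M) * x) := by
    push_cast; ring
  have h2 : ((s : ZMod M) * x = 0) ↔ x = 0 := by simp
  rw [h1]; simp only [h2]

omit [NeZero M] in
lemma neg_one_ne_one (hM : 3 ≤ M) : (-1 : ZMod M) ≠ 1 := by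
  intro h
  have h2 : ((2 : ℕ) : ZMod M) = 0 := by
    have : (1 : ZMod M) + 1 = 0 := by
      nth_rewrite 1 [← h]; ring
    push_cast
    rw [← this]; norm_num
  rw [ZMod.natCast_eq_zero_iff] at h2
  have := Nat.le_of_dvd (by norm_num) h2
  omega

lemma sum_units_eq_zero (χ : DirichletCharacter ℂ M) (hχ : χ.Odd) :
    ∑ s : (ZMod M)ˣ, χ (s : ZMod M) = 0 := by
  have h : ∑ s : (ZMod M)ˣ, χ (s : ZMod M) = ∑ s : (ZMod M)ˣ, χ ((-s : (ZMod M)ˣ) : ZMod M) :=
    (Equiv.sum_comp (Equiv.neg (ZMod M)ˣ) (fun s : (ZMod M)ˣ => χ (s : ZMod M))).symm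
  have h2 : ∑ s : (ZMod M)ˣ, χ ((-s : (ZMod M)ˣ) : ZMod M) = - ∑ s : (ZMod M)ˣ, χ (s : ZMod M) := by
    rw [← Finset.sum_neg_distrib]
    refine Finset.sum_congr rfl fun s _ => ?_
    rw [Units.val_neg, DirichletCharacter.Odd.eval_neg _ _ hχ]
  rw [h2] at h
  linear_combination h / 2

lemma odd_mem (A2 : ∀ χ : DirichletCharacter ℂ M, χ.Odd →
      ∃ x : ZMod M, ∑ s : (ZMod M)ˣ, χ (s : ZMod M) * ((((s : ZMod M) * x).val : ℕ) : ℂ) ≠ 0)
    (S : Submodule ℂ ((ZMod M)ˣ → ℂ)) (hS : ∀ x, gv M x ∈ S)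
    (χ : DirichletCharacter ℂ M) (hχ : χ.Odd) :
    (fun t : (ZMod M)ˣ => χ (t : ZMod M)) ∈ S := by
  have hχ' : (χ⁻¹).Odd := by
    unfold DirichletCharacter.Odd at hχ ⊢
    rw [MulChar.inv_apply_eq_inv', hχ]; norm_num
  obtain ⟨x, hx⟩ := A2 χ⁻¹ hχ'
  set c : ℂ := ∑ s : (ZMod M)ˣ, χ⁻¹ (s : ZMod M) * ((((s : ZMod M) * x).val : ℕ) : ℂ) with hc
  have hM0 : (M : ℂ) ≠ 0 := by exact_mod_cast NeZero.ne M
  have hv : (∑ s : (ZMod M)ˣ, χ⁻¹ (s : ZMod M) • gv M ((s : ZMod M) * x)) ∈ S :=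
    Submodule.sum_mem _ fun s _ => Submodule.smul_mem _ _ (hS _)
  have hcv : ∑ s : (ZMod M)ˣ, χ⁻¹ (s : ZMod M) * gv M x s = c / M := by
    have h0 := sum_units_eq_zero (χ⁻¹) hχ'
    simp only [gv]
    simp only [mul_sub, Finset.sum_sub_distrib]
    rw [← Finset.sum_mul, h0, zero_mul, sub_zero, hc, Finset.sum_div]
    refine Finset.sum_congr rfl fun s _ => ?_
    ring
  have key : (∑ s : (ZMod M)ˣ, χ⁻¹ (s : ZMod M) • gv M ((s : ZMod M) * x)) =
      (c / M) • (fun t : (ZMod M)ˣ => χ (t : ZMod M)) := by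
    funext t
    simp only [Finset.sum_apply, Pi.smul_apply, smul_eq_mul]
    have h1 : ∑ s : (ZMod M)ˣ, χ⁻¹ (s : ZMod M) * gv M ((s : ZMod M) * x) t =
        ∑ s : (ZMod M)ˣ, χ (t : ZMod M) *
          (χ⁻¹ ((s * t : (ZMod M)ˣ) : ZMod M) * gv M x ((s * t : (ZMod M)ˣ))) := by
      refine Finset.sum_congr rfl fun s _ => ?_
      rw [gv_mul, Units.val_mul, map_mul]
      have h2 : χ (t : ZMod M) * χ⁻¹ (t : ZMod M) = 1 := by
        rw [MulChar.inv_apply_eq_inv', mul_inv_cancel₀]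
        exact (IsUnit.map χ t.isUnit).ne_zero
      linear_combination (-(χ⁻¹ (s : ZMod M) * gv M ((s : ZMod M) * x) t)) * h2
    have h3 := Equiv.sum_comp (Equiv.mulRight t)
        (fun s : (ZMod M)ˣ => χ⁻¹ (s : ZMod M) * gv M x s)
    simp only [Equiv.coe_mulRight] at h3
    rw [h1, ← Finset.mul_sum, h3, hcv]
    ring
  rw [key] at hv
  have hne : c / M ≠ 0 := div_ne_zero hx hM0
  have := S.smul_mem (c / M)⁻¹ hv
  rwa [smul_smul, inv_mul_cancel₀ hne, one_smul] at this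

/-- Twice the number of odd characters is `φ(M)`. -/
lemma card_odd (hM : 3 ≤ M) :
    2 * Nat.card {χ : DirichletCharacter ℂ M // χ.Odd} = M.totient := by
  classical
  have h0 := DirichletCharacter.sum_characters_eq_zero ℂ (n := M) (neg_one_ne_one hM)
  have h1 : ∀ χ : DirichletCharacter ℂ M, χ (-1) = 1 - 2 * (if χ.Odd then 1 else 0) := by
    intro χ
    split_ifs with h
    · rw [h]; norm_num
    · rcases χ.even_or_odd with h' | h'
      · rw [h']; norm_num
      · exact absurd h' h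
  simp only [h1] at h0
  rw [Finset.sum_sub_distrib, ← Finset.mul_sum, Finset.sum_boole] at h0
  simp only [Finset.sum_const, Finset.card_univ, nsmul_eq_mul, mul_one] at h0
  have hc := DirichletCharacter.card_eq_totient_of_hasEnoughRootsOfUnity ℂ M
  rw [Nat.card_eq_fintype_card] at hc
  rw [hc] at h0
  have h3 : Nat.card {χ : DirichletCharacter ℂ M // χ.Odd} =
      (Finset.univ.filter fun χ : DirichletCharacter ℂ M => χ.Odd).card := by
    rw [Nat.card_eq_fintype_card, Fintype.card_subtype]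
  rw [h3]
  have h4 : (M.totient : ℂ) = 2 * ((Finset.univ.filter
      fun χ : DirichletCharacter ℂ M => χ.Odd).card : ℂ) := by
    linear_combination h0
  exact_mod_cast h4.symm

omit [NeZero M] in
/-- The odd characters restricted to units are linearly independent. -/
lemma linInd : LinearIndependent ℂ
    (fun (χ : {χ : DirichletCharacter ℂ M // χ.Odd}) (t : (ZMod M)ˣ) => χ.1 (t : ZMod M)) := by
  have h := linearIndependent_monoidHom (ZMod M)ˣ ℂ
  let F : {χ : DirichletCharacter ℂ M // χ.Odd} → ((ZMod M)ˣ →* ℂ) :=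
    fun χ => (χ.1.toMonoidHom).comp (Units.coeHom (ZMod M))
  have hF : Function.Injective F := by
    intro χ ψ hχψ
    apply Subtype.ext
    apply MulChar.ext
    intro a
    exact DFunLike.congr_fun hχψ a
  exact h.comp F hF

end BlockB

open BlockB in
/-- Block B with A2 as a hypothesis. -/
theorem ker_le_of (M : ℕ) [NeZero M] (hM : 3 ≤ M)
    (A2 : ∀ χ : DirichletCharacter ℂ M, χ.Odd →
      ∃ x : ZMod M, ∑ s : (ZMod M)ˣ, χ (s : ZMod M) * ((((s : ZMod M) * x).val : ℕ) : ℂ) ≠ 0)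
    (R : AddSubgroup (ZMod M → ℤ)) (K : Finset ℤ)
    (hK : 2 * K.card ≤ M.totient)
    (hgen : ∀ x : ZMod M, (Pi.single x 1 : ZMod M → ℤ) ∈
      R ⊔ AddSubgroup.closure ((fun k : ℤ => (Pi.single (k : ZMod M) 1 : ZMod M → ℤ)) '' K))
    (hR : ∀ D ∈ R, ∀ t : (ZMod M)ˣ, stq M D t = 0)
    (D : ZMod M → ℤ) (hD : ∀ t : (ZMod M)ˣ, stq M D t = 0) : D ∈ R := by
  classical
  -- the family of vectors indexed by `K`
  set b : K → ((ZMod M)ˣ → ℂ) := fun k => gv M ((k : ℤ) : ZMod M) with hb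
  set S : Submodule ℂ ((ZMod M)ˣ → ℂ) := Submodule.span ℂ (Set.range b) with hS
  have hPsiR : ∀ D ∈ R, Psi M D = 0 := by
    intro D hD
    funext t
    rw [Psi_apply, hR D hD t]; simp
  -- elements of the closure are integral combinations
  have hcl : ∀ D ∈ AddSubgroup.closure
      ((fun k : ℤ => (Pi.single (k : ZMod M) 1 : ZMod M → ℤ)) '' K),
      ∃ c : K → ℤ, D = ∑ k : K, c k • (Pi.single (((k : ℤ)) : ZMod M) 1 : ZMod M → ℤ) := by
    intro D hD
    induction hD using AddSubgroup.closure_induction with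
    | mem y hy =>
      obtain ⟨k, hk, rfl⟩ := hy
      refine ⟨Pi.single ⟨k, hk⟩ 1, ?_⟩
      rw [Finset.sum_eq_single ⟨k, hk⟩]
      · simp
      · intro j _ hj
        rw [Pi.single_eq_of_ne hj]; simp
      · simp
    | zero => exact ⟨0, by simp⟩
    | add y z _ _ hy hz =>
      obtain ⟨c, hc⟩ := hy
      obtain ⟨d, hd⟩ := hz
      exact ⟨c + d, by rw [hc, hd, ← Finset.sum_add_distrib]; simp [add_smul]⟩
    | neg y _ hy =>
      obtain ⟨c, hc⟩ := hy
      exact ⟨-c, by rw [hc, ← Finset.sum_neg_distrib]; simp⟩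
  have hPsiC : ∀ c : K → ℤ,
      Psi M (∑ k : K, c k • (Pi.single (((k : ℤ)) : ZMod M) 1 : ZMod M → ℤ)) =
        ∑ k : K, (c k : ℂ) • b k := by
    intro c
    rw [map_sum]
    refine Finset.sum_congr rfl fun k _ => ?_
    rw [map_zsmul, Psi_single, hb, ← Int.cast_smul_eq_zsmul ℂ]
  -- every element is in `R` plus integral combinations
  have hdec : ∀ D : ZMod M → ℤ, D ∈ R ⊔ AddSubgroup.closure
      ((fun k : ℤ => (Pi.single (k : ZMod M) 1 : ZMod M → ℤ)) '' K) := by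
    intro D
    have : D = ∑ x : ZMod M, D x • (Pi.single x 1 : ZMod M → ℤ) := by
      funext y
      simp [Finset.sum_apply, Pi.single_apply]
    rw [this]
    exact AddSubgroup.sum_mem _ fun x _ => AddSubgroup.zsmul_mem _ (hgen x) _
  have hdec' : ∀ D : ZMod M → ℤ, ∃ r ∈ R, ∃ c : K → ℤ,
      D = r + ∑ k : K, c k • (Pi.single (((k : ℤ)) : ZMod M) 1 : ZMod M → ℤ) := by
    intro D
    obtain ⟨r, hr, z, hz, hrz⟩ := AddSubgroup.mem_sup.mp (hdec D)
    obtain ⟨c, hc⟩ := hcl z hz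
    exact ⟨r, hr, c, by rw [← hc, hrz]⟩
  have hgS : ∀ x, gv M x ∈ S := by
    intro x
    obtain ⟨r, hr, c, hc⟩ := hdec' (Pi.single x 1)
    have h := congrArg (Psi M) hc
    rw [map_add, hPsiR r hr, zero_add, Psi_single, hPsiC] at h
    rw [h]
    exact Submodule.sum_mem _ fun k _ =>
      Submodule.smul_mem _ _ (Submodule.subset_span ⟨k, rfl⟩)
  have hodd : ∀ χ : {χ : DirichletCharacter ℂ M // χ.Odd},
      (fun t : (ZMod M)ˣ => χ.1 (t : ZMod M)) ∈ S := fun χ => odd_mem A2 S hgS χ.1 χ.2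
  -- dimension count
  have hdim : Nat.card {χ : DirichletCharacter ℂ M // χ.Odd} ≤ Module.finrank ℂ S := by
    let f : {χ : DirichletCharacter ℂ M // χ.Odd} → S := fun χ => ⟨_, hodd χ⟩
    have hf : LinearIndependent ℂ f := by
      apply LinearIndependent.of_comp S.subtype
      exact linInd
    have := hf.fintype_card_le_finrank
    rwa [Nat.card_eq_fintype_card]
  have hcard : Fintype.card K ≤ (Set.range b).finrank ℂ := by
    have h1 := card_odd (M := M) hM
    have h2 : (Set.range b).finrank ℂ = Module.finrank ℂ S := rfl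
    rw [h2, Fintype.card_coe]
    omega
  have hbind : LinearIndependent ℂ b := linearIndependent_iff_card_le_finrank_span.mpr hcard
  obtain ⟨r, hr, c, hc⟩ := hdec' D
  have hPsiD : Psi M D = 0 := by
    funext t
    rw [Psi_apply, hD t]; simp
  have h := congrArg (Psi M) hc
  rw [map_add, hPsiR r hr, zero_add, hPsiD, hPsiC] at h
  have hzero := Fintype.linearIndependent_iff.mp hbind (fun k => (c k : ℂ)) h.symm
  have hc0 : ∀ k, c k = 0 := fun k => by exact_mod_cast hzero k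
  rw [hc]
  simp only [hc0, zero_smul, Finset.sum_const_zero, add_zero]
  exact hr

end Pool.Agent.FT
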