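import Pool.Agent.Lib_helper64.TT

set_option autoImplicit false

namespace Pool.Agent.LC

/-- every edge is oriented by `Quot.out` -/
noncomputable def ori (V : Type) : Sym2 V → Bool → V :=
  fun e b => if b then (Quot.out e).2 else (Quot.out e).1

lemma ori_spec {V : Type} (e : Sym2 V) : e = s(ori V e false, ori V e true) := by
  have h : Quot.mk _ (Quot.out e) = e := Quot.out_eq e
  conv_lhs => rw [← h]
  rfl

lemma ori_dart {V : Type} (d : Sym2 V × Bool) : d.1 = s(tl (ori V) d, hd (ori V) d) := by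
  rcases d with ⟨e, b⟩
  cases b
  · exact ori_spec e
  · rw [Sym2.eq_swap]; exact ori_spec e

lemma toWalk {V : Type} {G : SimpleGraph V} {u v : V} {L : List (Sym2 V × Bool)}
    (h : Wk (ori V) u L v) (hL : ∀ d ∈ L, d.1 ∈ G.edgeSet) :
    ∃ w : G.Walk u v, (∀ e ∈ w.edges, ∃ d ∈ L, d.1 = e) ∧
      ∀ x ∈ w.support, x = u ∨ ∃ d ∈ L, hd (ori V) d = x := by
  induction L generalizing u with
  | nil =>
    have : u = v := h
    subst this
    exact ⟨SimpleGraph.Walk.nil, by simp, by simp⟩
  | cons d L ih =>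
    obtain ⟨h1, h2⟩ := h
    obtain ⟨w, hw1, hw2⟩ := ih h2 (fun d' hd' => hL d' (List.mem_cons_of_mem _ hd'))
    have hadj : G.Adj u (hd (ori V) d) := by
      have h3 := hL d (by simp)
      rw [ori_dart d, h1] at h3
      exact h3
    refine ⟨SimpleGraph.Walk.cons hadj w, ?_, ?_⟩
    · intro e he
      rw [SimpleGraph.Walk.edges_cons, List.mem_cons] at he
      rcases he with rfl | he
      · refine ⟨d, by simp, ?_⟩
        conv_lhs => rw [ori_dart d, h1]
      · obtain ⟨d', hd', h'⟩ := hw1 e he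
        exact ⟨d', List.mem_cons_of_mem _ hd', h'⟩
    · intro x hx
      rw [SimpleGraph.Walk.support_cons, List.mem_cons] at hx
      rcases hx with rfl | hx
      · exact Or.inl rfl
      · rcases hw2 x hx with rfl | ⟨d', hd', h'⟩
        · exact Or.inr ⟨d, by simp, rfl⟩
        · exact Or.inr ⟨d', List.mem_cons_of_mem _ hd', h'⟩

lemma ori_mem {V : Type} (e : Sym2 V) (b : Bool) : ori V e b ∈ e := by
  have h : ori V e b ∈ s(ori V e false, ori V e true) := by
    cases b <;> simp
  rwa [← ori_spec e] at h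

lemma mem_ori {V : Type} {e : Sym2 V} {x : V} (h : x ∈ e) : ∃ b, x = ori V e b := by
  rw [ori_spec e, Sym2.mem_iff] at h
  rcases h with h | h
  · exact ⟨false, h⟩
  · exact ⟨true, h⟩

lemma cutE_ori {V : Type} (A : Set (Sym2 V)) (X : Set V) :
    cutE (ori V) A X = {e : Sym2 V | e ∈ A ∧ (∃ x : V, x ∈ e ∧ x ∈ X) ∧ (∃ y : V, y ∈ e ∧ y ∉ X)} := by
  ext e
  simp only [cutE, Set.mem_ofPred_eq]
  constructor
  · rintro ⟨hA, hc⟩
    refine ⟨hA, ?_⟩
    by_cases h0 : ori V e false ∈ X
    · by_cases h1 : ori V e true ∈ X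
      · exact absurd ⟨fun _ => h1, fun _ => h0⟩ hc
      · exact ⟨⟨_, ori_mem e false, h0⟩, ⟨_, ori_mem e true, h1⟩⟩
    · by_cases h1 : ori V e true ∈ X
      · exact ⟨⟨_, ori_mem e true, h1⟩, ⟨_, ori_mem e false, h0⟩⟩
      · exact absurd ⟨fun h => absurd h h0, fun h => absurd h h1⟩ hc
  · rintro ⟨hA, ⟨x, hx1, hx2⟩, ⟨y, hy1, hy2⟩⟩
    refine ⟨hA, ?_⟩
    intro hiff
    obtain ⟨b, rfl⟩ := mem_ori hx1
    obtain ⟨b', rfl⟩ := mem_ori hy1
    cases b <;> cases b' <;> tauto

/-- W5 with `exists_max` and `main_thm` as hypotheses. -/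
theorem final_assembly_of
    (exists_max : ∀ (V : Type) (E : Type) (ι : Type) (G : E → Bool → V) (A : Set E)
      (c : V → Option ι),
      ∃ (c₁ : V → Option ι) (W : ι → Set (List (E × Bool))), Ext c c₁ ∧ Loose G A c₁ ∧
      ∀ t, Lk G A (Sc c t) (Sc c₁ t) ∅ (W t))
    (main_thm : ∀ (V : Type) (E : Type) (ι : Type) (G : E → Bool → V) (A : Set E)
      (c : V → Option ι), Adm G A c → Loose G A c →
      ∃ RR : Set (List (E × Bool)), (∀ R ∈ RR, ∃ t t', IsTT G A c t t' R) ∧
      (∀ R ∈ RR, ∀ R' ∈ RR, ∀ d ∈ R, ∀ d' ∈ R', d.1 = d'.1 → R = R') ∧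
      ∀ t, ∀ e ∈ Lv G A (Sc c t), ∃ R ∈ RR, R.head? = some e ∨ R.getLast? = some (rv e)) :
  ∀ (V : Type) (G : SimpleGraph V) (T : Set V),
    (∀ X : Set V, X ⊆ Tᶜ →
      ({e : Sym2 V | e ∈ G.edgeSet ∧ (∃ x : V, x ∈ e ∧ x ∈ X) ∧ (∃ y : V, y ∈ e ∧ y ∉ X)}).Finite →
      Even (Set.ncard {e : Sym2 V | e ∈ G.edgeSet ∧ (∃ x : V, x ∈ e ∧ x ∈ X) ∧ (∃ y : V, y ∈ e ∧ y ∉ X)})) →
    ∃ (ι : Type) (a : ι → V) (b : ι → V) (p : (i : ι) → G.Walk (a i) (b i)),
      (∀ i : ι, (p i).IsPath ∧ a i ∈ T ∧ b i ∈ T ∧ a i ≠ b i ∧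
        ∀ v : V, v ∈ (p i).support → v ∈ T → v = a i ∨ v = b i) ∧
      (∀ i j : ι, i ≠ j → ∀ e : Sym2 V, e ∈ (p i).edges → e ∉ (p j).edges) ∧
      ∀ t : V, t ∈ T → ∃ f : ι → Sym2 V,
        (∀ i : ι, (a i = t ∨ b i = t) → f i ∈ (p i).edges) ∧
        ∃ X : Set V, t ∈ X ∧ (∀ u : V, u ∈ T → u ≠ t → u ∉ X) ∧
          {e : Sym2 V | ∃ i : ι, (a i = t ∨ b i = t) ∧ f i = e} =
            {e : Sym2 V | e ∈ G.edgeSet ∧ (∃ x : V, x ∈ e ∧ x ∈ X) ∧ (∃ y : V, y ∈ e ∧ y ∉ X)} := by
  classical
  intro V G T hT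
  let c : V → Option V := fun v => if v ∈ T then some v else none
  have hcT : ∀ v ∈ T, c v = some v := fun v hv => if_pos hv
  have hcs : ∀ v t, c v = some t → v ∈ T ∧ v = t := by
    intro v t h
    by_cases hv : v ∈ T
    · rw [hcT v hv] at h
      exact ⟨hv, Option.some.inj h⟩
    · exact absurd (show c v = none from if_neg hv) (by rw [h]; simp)
  obtain ⟨c₁, W, hext, hloose, hW⟩ := exists_max V (Sym2 V) V (ori V) G.edgeSet c
  have hc1T : ∀ v ∈ T, c₁ v = some v := fun v hv => hext v v (hcT v hv)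
  have hadm : Adm (ori V) G.edgeSet c₁ := by
    intro X hX hfin
    rw [cutE_ori] at hfin ⊢
    refine hT X ?_ hfin
    intro x hx hxT
    have h1 : c₁ x = none := hX hx
    rw [hc1T x hxT] at h1
    exact absurd h1 (by simp)
  obtain ⟨RR, hRR, hRd, hRc⟩ := main_thm V (Sym2 V) V (ori V) G.edgeSet c₁ hadm hloose
  -- terminals of a trail, first and last darts
  choose a b hab using fun i : RR => hRR i.1 i.2
  have hfirst : ∀ i : RR, ∃ g, i.1.head? = some g ∧ g ∈ Lv (ori V) G.edgeSet (Sc c₁ (a i)) := by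
    intro i
    obtain ⟨g, R', hR, hg⟩ := (hab i).first
    exact ⟨g, by rw [hR]; rfl, hg⟩
  choose g hg1 hg2 using hfirst
  have hlast : ∀ i : RR, ∃ r, i.1.getLast? = some r ∧ rv r ∈ Lv (ori V) G.edgeSet (Sc c₁ (b i)) := by
    intro i
    obtain ⟨g, R', hR, hg⟩ := (hab i).rev.first
    refine ⟨rv g, ?_, by rwa [rv_rv]⟩
    have : i.1 = rvl (g :: R') := by rw [← hR, rvl_rvl]
    rw [this, rvl_cons, List.getLast?_concat]
  choose r hr1 hr2 using hlast
  have hgmem : ∀ i : RR, g i ∈ i.1 := fun i => List.mem_of_mem_head? (hg1 i)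
  have hrmem : ∀ i : RR, r i ∈ i.1 := fun i => List.mem_of_getLast? (hr1 i)
  have hL : ∀ i : RR, ∃ L ∈ W (a i), L.getLast? = some (g i) :=
    fun i => (hW (a i)).cov (g i) ⟨hg2 i, fun h => h⟩
  choose L hLW hLl using hL
  have hL' : ∀ i : RR, ∃ L ∈ W (b i), L.getLast? = some (rv (r i)) :=
    fun i => (hW (b i)).cov (rv (r i)) ⟨hr2 i, fun h => h⟩
  choose L' hLW' hLl' using hL'
  -- general facts about a trail of `W t`
  have hWt : ∀ t, ∀ M ∈ W t, ∀ m, M.getLast? = some m → t ∈ T ∧ Wk (ori V) t M.dropLast (tl (ori V) m) := by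
    intro t M hM m hm
    obtain ⟨u, hu, z, hw⟩ := ((hW t).tr M hM).wk
    obtain ⟨huT, rfl⟩ := hcs u t hu
    have hne := ((hW u).tr M hM).ne
    have e1 := (List.dropLast_append_getLast hne).symm
    have e2 : M.getLast hne = m := by
      rw [List.getLast?_eq_some_getLast hne] at hm
      exact Option.some.inj hm
    rw [e1, wk_concat, e2] at hw
    exact ⟨huT, hw.1⟩
  have hWA : ∀ t, ∀ M ∈ W t, ∀ d ∈ M.dropLast, d.1 ∈ G.edgeSet := fun t M hM d hd =>
    ((hW t).tr M hM).sub d (List.mem_of_mem_dropLast hd)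
  have haT : ∀ i, a i ∈ T := fun i => (hWt _ _ (hLW i) _ (hLl i)).1
  have hbT : ∀ i, b i ∈ T := fun i => (hWt _ _ (hLW' i) _ (hLl' i)).1
  let P : RR → List (Sym2 V × Bool) := fun i => (L i).dropLast ++ i.1 ++ rvl (L' i).dropLast
  have hPw : ∀ i, Wk (ori V) (a i) (P i) (b i) := by
    intro i
    have h1 := (hWt _ _ (hLW i) _ (hLl i)).2
    have h2 := (hWt _ _ (hLW' i) _ (hLl' i)).2.rvl
    rw [tl_rv] at h2
    obtain ⟨u, hu, v, hv, hw⟩ := (hab i).wk
    refine (h1.append ?_).append h2
    have e1 : tl (ori V) (g i) = u := by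
      cases hR : i.1 with
      | nil => have := hg1 i; rw [hR] at this; simp at this
      | cons x xs =>
        have h3 := hg1 i
        rw [hR] at h3 hw
        simp only [List.head?_cons, Option.some.injEq] at h3
        rw [← h3]; exact hw.1
    have e2 : hd (ori V) (r i) = v := by
      have hne : i.1 ≠ [] := List.ne_nil_of_mem (hgmem i)
      have e3 := (List.dropLast_append_getLast hne).symm
      have e4 : i.1.getLast hne = r i := by
        have := hr1 i
        rw [List.getLast?_eq_some_getLast hne] at this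
        exact Option.some.inj this
      rw [e3, wk_concat, e4] at hw
      exact hw.2
    rw [e1, e2]; exact hw
  have hPA : ∀ i, ∀ d ∈ P i, d.1 ∈ G.edgeSet := by
    intro i d hd
    simp only [P, List.mem_append, mem_rvl] at hd
    rcases hd with (hd | hd) | hd
    · exact hWA _ _ (hLW i) d hd
    · exact (hab i).sub d hd
    · exact hWA _ _ (hLW' i) (rv d) hd
  -- classification of darts of `P i`
  have hPc : ∀ i, ∀ d ∈ P i, (d ∈ (L i).dropLast) ∨ d ∈ i.1 ∨ rv d ∈ (L' i).dropLast := by
    intro i d hd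
    simp only [P, List.mem_append, mem_rvl] at hd
    tauto
  choose w hw1 hw2 using fun i => toWalk (hPw i) (hPA i)
  have hne : ∀ i, a i ≠ b i := fun i => (hab i).ne
  -- colours of the vertices on the walk
  have hcol : ∀ i, ∀ x, (x = a i ∨ ∃ d ∈ P i, hd (ori V) d = x) →
      c₁ x = some (a i) ∨ c₁ x = some (b i) ∨ c₁ x = none := by
    rintro i x (rfl | ⟨d, hd', rfl⟩)
    · exact Or.inl (hc1T _ (haT i))
    · rcases hPc i d hd' with h | h | h
      · exact Or.inl (lk_dropLast ((hW _).tr _ (hLW i)) h).2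
      · rcases (hab i).hd_cases h with h | ⟨h, _⟩
        · exact Or.inr (Or.inr h)
        · exact Or.inr (Or.inl h)
      · have := (lk_dropLast ((hW _).tr _ (hLW' i)) h).1
        rw [tl_rv] at this
        exact Or.inr (Or.inl this)
  have hin : ∀ i, ∀ d ∈ P i, d ∈ i.1 ∨ ∃ t M m d0, M ∈ W t ∧ M.getLast? = some m ∧
      d0 ∈ M.dropLast ∧ d0.1 = d.1 ∧ ∃ m' ∈ i.1, m'.1 = m.1 := by
    intro i d hd
    rcases hPc i d hd with h | h | h
    · exact Or.inr ⟨_, _, _, d, hLW i, hLl i, h, rfl, g i, hgmem i, rfl⟩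
    · exact Or.inl h
    · exact Or.inr ⟨_, _, _, rv d, hLW' i, hLl' i, h, rfl, r i, hrmem i, rfl⟩
  have hcross : ∀ i t, ∀ d ∈ P i, ¬ (tl (ori V) d ∈ Sc c₁ t ↔ hd (ori V) d ∈ Sc c₁ t) →
      (a i = t ∧ d = g i) ∨ (b i = t ∧ d = r i) := by
    intro i t d hd' hcr
    have hsome : ∀ x, x ∈ Sc c₁ t → ∀ s, x ∈ Sc c₁ s → s = t := by
      intro x h1 s h2
      have h1 : c₁ x = some t := h1
      have h2 : c₁ x = some s := h2
      rw [h1] at h2
      exact (Option.some.inj h2).symm
    have hins : ∀ s, tl (ori V) d ∈ Sc c₁ s → hd (ori V) d ∈ Sc c₁ s → False := by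
      intro s h1 h2
      apply hcr
      constructor
      · intro h
        have := hsome _ h _ h1
        rwa [this] at h2
      · intro h
        have := hsome _ h _ h2
        rwa [this] at h1
    rcases hPc i d hd' with h | h | h
    · have := lk_dropLast ((hW _).tr _ (hLW i)) h
      exact (hins _ this.1 this.2).elim
    · by_cases h1 : tl (ori V) d ∈ Sc c₁ t
      · left
        rcases (hab i).tl_cases h with h2 | ⟨h2, h3⟩
        · have h1 : c₁ (tl (ori V) d) = some t := h1
          have h2 : c₁ (tl (ori V) d) = none := h2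
          rw [h1] at h2; exact absurd h2 (by simp)
        · refine ⟨hsome _ h1 _ h2, ?_⟩
          rw [hg1 i] at h3
          exact (Option.some.inj h3).symm
      · have h1' : hd (ori V) d ∈ Sc c₁ t := by
          by_contra h2
          exact hcr ⟨fun h => absurd h h1, fun h => absurd h h2⟩
        right
        rcases (hab i).hd_cases h with h2 | ⟨h2, h3⟩
        · have h1 : c₁ (hd (ori V) d) = some t := h1'
          have h2 : c₁ (hd (ori V) d) = none := h2
          rw [h1] at h2; exact absurd h2 (by simp)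
        · refine ⟨hsome _ h1' _ h2, ?_⟩
          rw [hr1 i] at h3
          exact (Option.some.inj h3).symm
    · have := lk_dropLast ((hW _).tr _ (hLW' i)) h
      rw [tl_rv, hd_rv] at this
      exact (hins _ this.2 this.1).elim
  refine ⟨RR, a, b, fun i => (w i).bypass, ?_, ?_, ?_⟩
  · intro i
    refine ⟨(w i).bypass_isPath, haT i, hbT i, hne i, ?_⟩
    intro v hv hvT
    have hv' := (w i).support_bypass_subset_support hv
    have h1 := hcol i v (hw2 i v hv')
    rw [hc1T v hvT] at h1
    rcases h1 with h1 | h1 | h1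
    · exact Or.inl (Option.some.inj h1)
    · exact Or.inr (Option.some.inj h1)
    · exact absurd h1 (by simp)
  · intro i j hij e he1 he2
    apply hij
    obtain ⟨d, hd1, hde⟩ := hw1 i e ((w i).edges_bypass_subset_edges he1)
    obtain ⟨d', hd1', hde'⟩ := hw1 j e ((w j).edges_bypass_subset_edges he2)
    have hdd : d.1 = d'.1 := hde.trans hde'.symm
    rcases hin i d hd1 with h | ⟨t, M, m, d0, hM, hm, hd0, hd0d, m', hm', hmm⟩
    · rcases hin j d' hd1' with h' | ⟨t, M, m, d0, hM, hm, hd0, hd0d, m', hm', hmm⟩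
      · exact Subtype.ext (hRd _ i.2 _ j.2 d h d' h' hdd)
      · exfalso
        have h3 := lk_dropLast ((hW _).tr _ hM) hd0
        rcases eq_or_eq_rv (d := d) (d' := d0) (hdd.trans hd0d.symm) with rfl | rfl
        · exact (hab i).not_inside h h3.1 h3.2
        · rw [tl_rv, hd_rv] at h3
          exact (hab i).not_inside h h3.2 h3.1
    · rcases hin j d' hd1' with h' | ⟨t2, M2, m2, d2, hM2, hm2, hd2, hd2d, m2', hm2', hmm2⟩
      · exfalso
        have h3 := lk_dropLast ((hW _).tr _ hM) hd0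
        rcases eq_or_eq_rv (d := d') (d' := d0) (hdd.symm.trans hd0d.symm) with rfl | rfl
        · exact (hab j).not_inside h' h3.1 h3.2
        · rw [tl_rv, hd_rv] at h3
          exact (hab j).not_inside h' h3.2 h3.1
      · have h02 : d0.1 = d2.1 := hd0d.trans (hdd.trans hd2d.symm)
        have h3 := lk_dropLast ((hW _).tr _ hM) hd0
        have h4 := lk_dropLast ((hW _).tr _ hM2) hd2
        have ht : t = t2 := by
          have g3 : c₁ (tl (ori V) d0) = some t := h3.1
          rcases eq_or_eq_rv (d := d0) (d' := d2) h02 with rfl | rfl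
          · have g4 : c₁ (tl (ori V) d2) = some t2 := h4.1
            rw [g3] at g4; exact Option.some.inj g4
          · have g4 : c₁ (hd (ori V) (rv d0)) = some t2 := h4.2
            rw [hd_rv, g3] at g4; exact Option.some.inj g4
        subst ht
        have hMM := (hW t).disj M hM M2 hM2 d0 (List.mem_of_mem_dropLast hd0) d2
          (List.mem_of_mem_dropLast hd2) h02
        subst hMM
        rw [hm] at hm2
        have hm2 := Option.some.inj hm2
        subst hm2
        exact Subtype.ext (hRd _ i.2 _ j.2 m' hm' m2' hm2' (hmm.trans hmm2.symm))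
  · intro t ht
    have hbd : ∀ (i : RR) (δ : G.Dart), δ ∈ ((w i).bypass).darts →
        ¬ (δ.fst ∈ Sc c₁ t ↔ δ.snd ∈ Sc c₁ t) → ∃ d ∈ P i, d.1 ∈ ((w i).bypass).edges ∧
          ((a i = t ∧ d = g i) ∨ (b i = t ∧ d = r i)) := by
      intro i δ hδ hcr
      have h1 : δ.edge ∈ ((w i).bypass).edges := List.mem_map_of_mem hδ
      obtain ⟨d, hd1, hde⟩ := hw1 i δ.edge ((w i).edges_bypass_subset_edges h1)
      refine ⟨d, hd1, hde ▸ h1, hcross i t d hd1 ?_⟩
      have h2 : s(tl (ori V) d, hd (ori V) d) = s(δ.fst, δ.snd) := by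
        rw [← ori_dart d, hde]; rfl
      rw [Sym2.eq_iff] at h2
      rcases h2 with ⟨h2, h3⟩ | ⟨h2, h3⟩
      · rw [h2, h3]; exact hcr
      · rw [h2, h3]; exact fun h => hcr h.symm
    refine ⟨fun i => if a i = t then (g i).1 else (r i).1, ?_, Sc c₁ t, hc1T t ht, ?_, ?_⟩
    · intro i hi
      by_cases hai : a i = t
      · have hbi : b i ≠ t := fun h => hne i (hai.trans h.symm)
        obtain ⟨δ, hδ, hδ1, hδ2⟩ := ((w i).bypass).exists_boundary_dart (Sc c₁ t)
          (by rw [← hai]; exact hc1T _ (haT i))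
          (by intro h
              have h1 : c₁ (b i) = some t := h
              rw [hc1T _ (hbT i)] at h1
              exact hbi (Option.some.inj h1))
        obtain ⟨d, hd1, hd2, hd3⟩ := hbd i δ hδ (fun h => hδ2 (h.1 hδ1))
        simp only [hai, if_true]
        rcases hd3 with ⟨_, rfl⟩ | ⟨h, _⟩
        · exact hd2
        · exact absurd h hbi
      · have hbi : b i = t := by
          rcases hi with h | h
          · exact absurd h hai
          · exact h
        obtain ⟨δ, hδ, hδ1, hδ2⟩ := ((w i).bypass).exists_boundary_dart (Sc c₁ t)ᶜ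
          (by intro h
              have h1 : c₁ (a i) = some t := h
              rw [hc1T _ (haT i)] at h1
              exact hai (Option.some.inj h1))
          (by intro h
              apply h
              rw [← hbi]; exact hc1T _ (hbT i))
        obtain ⟨d, hd1, hd2, hd3⟩ := hbd i δ hδ (fun h => hδ1 (h.2 (not_not.1 hδ2)))
        simp only [hai, if_false]
        rcases hd3 with ⟨h, _⟩ | ⟨_, rfl⟩
        · exact absurd h hai
        · exact hd2
    · intro u hu hut h
      have h1 : c₁ u = some t := h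
      rw [hc1T _ hu] at h1
      exact hut (Option.some.inj h1)
    · rw [← cutE_ori]
      ext e
      constructor
      · rintro ⟨i, hi, hfe⟩
        have hcut : ∀ d : Sym2 V × Bool, d ∈ Lv (ori V) G.edgeSet (Sc c₁ t) →
            d.1 ∈ cutE (ori V) G.edgeSet (Sc c₁ t) := by
          intro d hd'
          refine ⟨hd'.1, ?_⟩
          have h1 : ¬ (tl (ori V) d ∈ Sc c₁ t ↔ hd (ori V) d ∈ Sc c₁ t) :=
            fun h => hd'.2.2 (h.1 hd'.2.1)
          rcases d with ⟨e, b⟩
          cases b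
          · exact h1
          · exact fun h => h1 h.symm
        by_cases hai : a i = t
        · simp only [hai, if_true] at hfe
          rw [← hfe]
          apply hcut
          rw [← hai]; exact hg2 i
        · have hbi : b i = t := by
            rcases hi with h | h
            · exact absurd h hai
            · exact h
          simp only [hai, if_false] at hfe
          rw [← hfe, ← rv_fst]
          apply hcut
          rw [← hbi]; exact hr2 i
      · rintro ⟨heA, hcr⟩
        obtain ⟨d, hde, hd1, hd2⟩ : ∃ d : Sym2 V × Bool, d.1 = e ∧ tl (ori V) d ∈ Sc c₁ t ∧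
            hd (ori V) d ∉ Sc c₁ t := by
          by_cases h0 : ori V e false ∈ Sc c₁ t
          · refine ⟨(e, false), rfl, h0, ?_⟩
            intro h1
            exact hcr ⟨fun _ => h1, fun _ => h0⟩
          · by_cases h1 : ori V e true ∈ Sc c₁ t
            · exact ⟨(e, true), rfl, h1, h0⟩
            · exact absurd ⟨fun h => absurd h h0, fun h => absurd h h1⟩ hcr
        have hdL : d ∈ Lv (ori V) G.edgeSet (Sc c₁ t) := ⟨by rw [hde]; exact heA, hd1, hd2⟩
        have hsome : ∀ x, x ∈ Sc c₁ t → ∀ s, x ∈ Sc c₁ s → s = t := by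
          intro x h1 s h2
          have h1 : c₁ x = some t := h1
          have h2 : c₁ x = some s := h2
          rw [h1] at h2
          exact (Option.some.inj h2).symm
        obtain ⟨R, hR, hRR'⟩ := hRc t d hdL
        rcases hRR' with h | h
        · have e1 : g ⟨R, hR⟩ = d := by
            have := hg1 ⟨R, hR⟩
            rw [h] at this
            exact (Option.some.inj this).symm
          have e2 : a ⟨R, hR⟩ = t := by
            have := (hg2 ⟨R, hR⟩).2.1
            rw [e1] at this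
            exact hsome _ hd1 _ this
          refine ⟨⟨R, hR⟩, Or.inl e2, ?_⟩
          simp only [e2, if_true]
          rw [e1, hde]
        · have e1 : r ⟨R, hR⟩ = rv d := by
            have := hr1 ⟨R, hR⟩
            rw [h] at this
            exact (Option.some.inj this).symm
          have e2 : b ⟨R, hR⟩ = t := by
            have := (hr2 ⟨R, hR⟩).2.1
            rw [e1, rv_rv] at this
            exact hsome _ hd1 _ this
          have e3 : a ⟨R, hR⟩ ≠ t := fun h => hne ⟨R, hR⟩ (h.trans e2.symm)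
          refine ⟨⟨R, hR⟩, Or.inr e2, ?_⟩
          simp only [e3, if_false]
          rw [e1, rv_fst, hde]

end Pool.Agent.LC
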