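import Pool.Agent.Lib_helper64.TT

set_option autoImplicit false
set_option linter.unusedVariables false

namespace Pool.Agent.LC

universe u uV uE uI

variable {V : Type uV} {E : Type u} {ι : Type uI}
variable {G : E → Bool → V} {A D : Set E} {c c1 c2 : V → Option ι}

/-- in a walk whose non-first tails are inner, the non-last heads are inner -/
lemma inner_of_tail {P : V → Prop} {a : E × Bool} {L : List (E × Bool)} {u v : V}
    (h : Wk G u (a :: L) v) (hL : ∀ d ∈ L, P (tl G d)) : ∀ d ∈ (a :: L).dropLast, P (hd G d) := by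
  induction L generalizing a u with
  | nil => simp
  | cons b L ih =>
    intro d hd'
    rw [List.dropLast_cons_of_ne_nil (by simp)] at hd'
    rcases List.mem_cons.1 hd' with rfl | hd'
    · have : tl G b = hd G d := h.2.1
      rw [← this]; exact hL b (by simp)
    · exact ih h.2 (fun d' h' => hL d' (List.mem_cons_of_mem _ h')) d hd'

/-- edges with both ends in one terminal set -/
def Inside (G : E → Bool → V) (c1 : V → Option ι) (D : Set E) : Prop :=
  ∀ a ∈ D, ∃ s, ∀ b, G a b ∈ Sc c1 s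

lemma Inside.dart (h : Inside G c1 D) {d : E × Bool} (hd' : d.1 ∈ D) :
    ∃ s, tl G d ∈ Sc c1 s ∧ hd G d ∈ Sc c1 s := by
  obtain ⟨s, hs⟩ := h d.1 hd'
  exact ⟨s, hs _, hs _⟩

lemma loose_inside (h : Inside G c1 D) (hext : Ext c1 c2) (hL : Loose G A c2) :
    Loose G (A \ D) c2 := by
  intro s Y W0 hreg hW
  refine hL s Y W0 hreg ⟨⟨?_, hW.disj⟩, ?_, ?_⟩
  · intro L hLW
    exact isTr_congr (hW.tr L hLW) (fun _ _ => rfl) (fun d hd => ((hW.tr L hLW).sub d hd).1)
  · intro L hLW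
    obtain ⟨b, hb, hl⟩ := hW.last L hLW
    exact ⟨b, ⟨⟨hb.1.1.1, hb.1.2⟩, hb.2⟩, hl⟩
  · rintro b ⟨hb, hbK⟩
    refine hW.cov b ⟨⟨⟨hb.1, ?_⟩, hb.2⟩, hbK⟩
    intro hbD
    obtain ⟨s', h1, h2⟩ := h.dart hbD
    have h1' := hext.sc s' h1
    have h2' := hext.sc s' h2
    by_cases hs : s' = s
    · subst hs
      exact hb.2.2 (hreg.1 h2')
    · by_cases h3 : tl G b ∈ Sc c2 s
      · exact hs (sc_disj h1' h3)
      · exact nc_sc (hreg.2 ⟨hb.2.1, h3⟩) h1'

lemma lk_inside (h : Inside G c1 D) (hext : Ext c1 c2) {s : ι} {W0 : Set (List (E × Bool))}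
    (hW : Lk G A (Sc c1 s) (Sc c2 s) ∅ W0) : Lk G (A \ D) (Sc c1 s) (Sc c2 s) ∅ W0 := by
  have hav : ∀ L ∈ W0, ∀ d ∈ L, d.1 ∉ D := by
    intro L hLW d hd hdD
    obtain ⟨s', h1, h2⟩ := h.dart hdD
    have h3 := (hW.tr L hLW).tlX d hd
    have hs := sc_disj h3 (hext.sc s' h1)
    subst hs
    exact (hW.tr L hLW).hdS d hd h2
  refine ⟨⟨?_, hW.disj⟩, ?_, ?_⟩
  · intro L hLW
    exact isTr_congr (hW.tr L hLW) (fun _ _ => rfl)
      (fun d hd => ⟨(hW.tr L hLW).sub d hd, hav L hLW d hd⟩)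
  · intro L hLW
    obtain ⟨b, hb, hl⟩ := hW.last L hLW
    exact ⟨b, ⟨⟨⟨hb.1.1, hav L hLW b (mem_of_getLast? hl)⟩, hb.1.2⟩, hb.2⟩, hl⟩
  · rintro b ⟨hb, hbK⟩
    exact hW.cov b ⟨⟨hb.1.1, hb.2⟩, hbK⟩

/-- W7: lifting a T-trail and goodness through full linkages -/
theorem lift_good (hext : Ext c c1)
    (W : ι → Set (List (E × Bool))) (hW : ∀ t, Lk G A (Sc c t) (Sc c1 t) ∅ (W t))
    (hF : ∀ t, Full G A (Sc c t) (W t)) {t t' : ι} {R : List (E × Bool)}
    (hR : IsTT G A c1 t t' R) {e g : E × Bool} (hg : R.head? = some g)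
    {L : List (E × Bool)} (hL : L ∈ W t) (hLe : L.head? = some e) (hLg : L.getLast? = some g)
    (hgood : Good G (A \ edg R) c1) :
    ∃ R', IsTT G A c t t' R' ∧ R'.head? = some e ∧ Good G (A \ edg R') c := by
  classical
  -- the two ends
  obtain ⟨ρ, hρ⟩ := List.head?_eq_some_iff.1 hg
  obtain ⟨q, R1, hR1, hq⟩ := hR.rev.first
  obtain ⟨L', hL', hl'⟩ := (hW t').cov q ⟨hq, by simp⟩
  obtain ⟨l, hlam⟩ := List.getLast?_eq_some_iff.1 hLg
  obtain ⟨m, hmu⟩ := List.getLast?_eq_some_iff.1 hl'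
  obtain ⟨L1, hL1⟩ := List.head?_eq_some_iff.1 hLe
  have hRlast : R = rvl R1 ++ [rv q] := by
    have := congrArg rvl hR1
    rwa [rvl_rvl, rvl_cons] at this
  have trL := (hW t).tr L hL
  have trL' := (hW t').tr L' hL'
  have hqR : rv q ∈ R := by rw [hRlast]; simp
  have hgR : g ∈ R := by rw [hρ]; simp
  obtain ⟨u, hu, v, huv⟩ := trL.wk
  obtain ⟨u', hu', v', huv'⟩ := trL'.wk
  obtain ⟨a, ha, b, hb, hab⟩ := hR.wk
  have hl_in : ∀ d ∈ l, tl G d ∈ Sc c1 t ∧ hd G d ∈ Sc c1 t := by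
    intro d hd
    refine lk_dropLast trL ?_
    rw [hlam, List.dropLast_concat]; exact hd
  have hm_in : ∀ d ∈ m, tl G d ∈ Sc c1 t' ∧ hd G d ∈ Sc c1 t' := by
    intro d hd
    refine lk_dropLast trL' ?_
    rw [hmu, List.dropLast_concat]; exact hd
  have hRin : ∀ d ∈ R, ∀ s, ¬ (tl G d ∈ Sc c1 s ∧ hd G d ∈ Sc c1 s) := by
    rintro d hd s ⟨h1, h2⟩
    exact hR.not_inside hd h1 h2
  have hsame : ∀ (d d' : E × Bool) (s : ι), d.1 = d'.1 → (tl G d ∈ Sc c1 s ∧ hd G d ∈ Sc c1 s) →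
      (tl G d' ∈ Sc c1 s ∧ hd G d' ∈ Sc c1 s) := by
    intro d d' s h1 h2
    rcases eq_or_eq_rv h1 with h3 | h3
    · rw [h3]; exact h2
    · rw [h3]; simpa using h2.symm
  -- the walk
  have hwl : Wk G u l a := by
    rw [hlam] at huv
    have h1 := ((wk_concat G l g).1 huv).1
    rw [hρ] at hab
    have h2 : tl G g = a := hab.1
    rwa [h2] at h1
  have hwm : Wk G b (rvl m) u' := by
    rw [hmu] at huv'
    have h1 := ((wk_concat G m q).1 huv').1
    rw [hRlast] at hab
    have h2 := ((wk_concat G _ _).1 hab).2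
    rw [hd_rv] at h2
    rw [h2] at h1
    exact h1.rvl
  have hdlR : EDisj l R := fun d hd d' hd' h => hRin d' hd' t (hsame d d' t h (hl_in d hd))
  have hdlm : EDisj l (rvl m) := by
    rw [edisj_rvl_right]
    intro d hd d' hd' h
    exact hR.ne (sc_disj (hsame d d' t h (hl_in d hd)).1 (hm_in d' hd').1)
  have hdRm : EDisj R (rvl m) := by
    rw [edisj_rvl_right]
    intro d hd d' hd' h
    exact hRin d hd t' (hsame d' d t' h.symm (hm_in d' hd'))
  have hndl : (l.map Prod.fst).Nodup := by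
    have := trL.nodup
    rw [hlam] at this
    exact (nodup_fst_append.1 this).1
  have hndm : ((rvl m).map Prod.fst).Nodup := by
    have := trL'.nodup
    rw [hmu] at this
    rw [map_fst_rvl]
    exact List.nodup_reverse.2 (nodup_fst_append.1 this).1
  set R' : List (E × Bool) := l ++ (R ++ rvl m) with hR'
  have hR'e : R' = e :: (L1 ++ (ρ ++ rvl m)) := by
    rw [hR', hρ]
    have : l ++ (g :: ρ ++ rvl m) = (l ++ [g]) ++ (ρ ++ rvl m) := by simp
    rw [this, ← hlam, hL1]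
    rfl
  have hedg : edg R' = edg R ∪ (edg l ∪ edg m) := by
    ext x
    simp only [edg, hR', Set.mem_ofPred_eq, Set.mem_union, List.mem_append, mem_rvl]
    constructor
    · rintro ⟨d, hd | hd | hd, rfl⟩
      · exact Or.inr (Or.inl ⟨d, hd, rfl⟩)
      · exact Or.inl ⟨d, hd, rfl⟩
      · exact Or.inr (Or.inr ⟨rv d, hd, rfl⟩)
    · rintro (⟨d, hd, rfl⟩ | ⟨d, hd, rfl⟩ | ⟨d, hd, rfl⟩)
      · exact ⟨d, Or.inr (Or.inl hd), rfl⟩
      · exact ⟨d, Or.inl hd, rfl⟩
      · exact ⟨rv d, Or.inr (Or.inr (by simpa using hd)), rfl⟩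
  have hwR' : Wk G u R' u' := hwl.append (hab.append hwm)
  have hTT : IsTT G A c t t' R' := by
    refine ⟨hR.ne, ⟨u, hu, u', hu', hwR'⟩, ?_, ?_, ?_⟩
    · rw [hR', nodup_fst_append, nodup_fst_append]
      exact ⟨hndl, ⟨hR.nodup, hndm, hdRm⟩, edisj_append_right.2 ⟨hdlR, hdlm⟩⟩
    · intro d hd
      rw [hR'] at hd
      rcases List.mem_append.1 hd with hd | hd
      · exact trL.sub d (by rw [hlam]; simp [hd])
      rcases List.mem_append.1 hd with hd | hd
      · exact hR.sub d hd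
      · exact trL'.sub (rv d) (by rw [hmu]; simp [mem_rvl.1 hd])
    · rw [hR'e] at hwR' ⊢
      refine inner_of_tail (P := fun x => x ∈ Nc c) hwR' ?_
      intro d hd
      rcases List.mem_append.1 hd with hd | hd
      · refine (hext.reg t).2 ⟨trL.tlX d (by rw [hL1]; simp [hd]), (trL.tl_notMem hL1).2 d hd⟩
      rcases List.mem_append.1 hd with hd | hd
      · rcases hR.tl_cases (d := d) (by rw [hρ]; simp [hd]) with h1 | ⟨h1, h2⟩
        · exact hext.nc h1
        · exfalso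
          rw [hρ] at h2
          have h3 : g = d := by simpa using h2
          have := hR.nodup
          rw [hρ, List.map_cons, List.nodup_cons] at this
          exact this.1 (h3 ▸ List.mem_map_of_mem (f := Prod.fst) hd)
      · have hdm := mem_rvl.1 hd
        have h1 := (hm_in _ hdm).2
        rw [hd_rv] at h1
        have h2 := trL'.hdS (rv d) (by rw [hmu]; simp [hdm])
        rw [hd_rv] at h2
        exact (hext.reg t').2 ⟨h1, h2⟩
  refine ⟨R', hTT, by rw [hR'e]; rfl, ?_⟩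
  obtain ⟨c2, hext2, hL2, hW2⟩ := hgood
  have hins : Inside G c1 (edg l ∪ edg m) := by
    rintro x (⟨d, hd, rfl⟩ | ⟨d, hd, rfl⟩)
    · refine ⟨t, ?_⟩
      have := hl_in d hd
      rcases d with ⟨x, b⟩
      intro b'
      by_cases hbb : b' = b
      · rw [hbb]; exact this.1
      · have : b' = !b := by cases b <;> cases b' <;> simp_all
        rw [this]; exact (hl_in _ hd).2
    · refine ⟨t', ?_⟩
      have := hm_in d hd
      rcases d with ⟨x, b⟩
      intro b'
      by_cases hbb : b' = b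
      · rw [hbb]; exact this.1
      · have : b' = !b := by cases b <;> cases b' <;> simp_all
        rw [this]; exact (hm_in _ hd).2
  have hAR : A \ edg R' = (A \ edg R) \ (edg l ∪ edg m) := by
    rw [hedg]
    ext x
    simp only [Set.mem_sdiff, Set.mem_union]
    tauto
  have hclosed : ∀ s, ∀ L0 ∈ W s, (∃ d ∈ L0, d.1 ∈ edg R') → ∀ d ∈ L0, d.1 ∈ edg R' := by
    have hLall : ∀ d ∈ L, d.1 ∈ edg R' := by
      intro d hd
      rw [hlam] at hd
      rw [hedg]
      rcases List.mem_append.1 hd with hd | hd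
      · exact Or.inr (Or.inl ⟨d, hd, rfl⟩)
      · rw [List.mem_singleton.1 hd]; exact Or.inl ⟨g, hgR, rfl⟩
    have hL'all : ∀ d ∈ L', d.1 ∈ edg R' := by
      intro d hd
      rw [hmu] at hd
      rw [hedg]
      rcases List.mem_append.1 hd with hd | hd
      · exact Or.inr (Or.inr ⟨d, hd, rfl⟩)
      · rw [List.mem_singleton.1 hd]; exact Or.inl ⟨rv q, hqR, rfl⟩
    rintro s L0 hL0 ⟨d, hd, hdR⟩
    have htl : tl G d ∈ Sc c1 s := ((hW s).tr L0 hL0).tlX d hd
    rw [hedg] at hdR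
    rcases hdR with ⟨d1, hd1, h1⟩ | ⟨d1, hd1, h1⟩ | ⟨d1, hd1, h1⟩
    · rcases eq_or_eq_rv h1 with h2 | h2
      · -- d = d1
        rw [h2] at htl hd
        have h3 := (hR.ends hd1).1 htl
        rw [hg] at h3
        have h4 : g = d1 := Option.some.inj h3
        have hgt : tl G g ∈ Sc c1 t := trL.tlX g (by rw [hlam]; simp)
        rw [← h4] at htl hd
        have hst := sc_disj htl hgt
        subst hst
        have : L0 = L := (hW s).unique hL0 hL hd (mem_of_getLast? hLg)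
        rw [this]; exact hLall
      · rw [h2, tl_rv] at htl
        rw [h2] at hd
        have h3 := (hR.ends hd1).2 htl
        rw [hRlast, List.getLast?_concat] at h3
        have h4 : rv q = d1 := Option.some.inj h3
        rw [← h4, rv_rv] at hd
        rw [← h4, hd_rv] at htl
        have hst := sc_disj htl hq.2.1
        subst hst
        have : L0 = L' := (hW s).unique hL0 hL' hd (mem_of_getLast? hl')
        rw [this]; exact hL'all
    · have h2 := hsame d1 d t h1 (hl_in d1 hd1)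
      have hst := sc_disj htl h2.1
      subst hst
      have : L0 = L := (hW s).disj L0 hL0 L hL d hd d1 (by rw [hlam]; simp [hd1]) h1.symm
      rw [this]; exact hLall
    · have h2 := hsame d1 d t' h1 (hm_in d1 hd1)
      have hst := sc_disj htl h2.1
      subst hst
      have : L0 = L' := (hW s).disj L0 hL0 L' hL' d hd d1 (by rw [hmu]; simp [hd1]) h1.symm
      rw [this]; exact hL'all
  refine ⟨c2, hext.trans hext2, ?_, fun s => ?_⟩
  · rw [hAR]; exact loose_inside hins hext2 hL2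
  · obtain ⟨W3, hW3, hF3⟩ := hW2 s
    have h1 := (hW s).restrictM (hclosed s)
    have h2 := (hF s).restrictM (hclosed s)
    have h3 : Lk G (A \ edg R') (Sc c1 s) (Sc c2 s) ∅ W3 := by
      rw [hAR]; exact lk_inside hins hext2 hW3
    have h4 : Full G (A \ edg R') (Sc c1 s) W3 := by
      intro x hx
      refine hF3 x ⟨⟨hx.1.1, fun h => hx.1.2 ?_⟩, hx.2⟩
      rw [hedg]; exact Or.inl h
    exact ⟨_, h1.comp h3 (hext.sc s) (hext2.sc s) (by simp), full_comp h2 h1 h4⟩

end Pool.Agent.LC
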