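import Pool.Agent.Lib_helper64.OS
import Pool.Agent.Lib_helper64.Card
import Pool.Agent.Lib_helper64.ClAdm
import Pool.Agent.Lib_helper64.Case1
import Pool.Agent.Lib_helper64.Case2

set_option autoImplicit false
set_option linter.unusedVariables false

open Cardinal

namespace Pool.Agent.LC

universe u uV uE uI

variable {V : Type uV} {E : Type u} {ι : Type uI}

/-- there is a small closure function all of whose small closed sets satisfy `P` -/
def Club {E : Type u} (κ : Cardinal.{u}) (P : Set E → Prop) : Prop :=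
  ∃ f : Finset E → Set E, (∀ F, #(f F) < κ) ∧ ∀ M : Set E, #M < κ → Closd f M → P M

lemma union_small {κ : Cardinal.{u}} (hκ0 : ℵ₀ < κ) {s t : Set E} (hs : #s < κ) (ht : #t < κ) :
    #(s ∪ t : Set E) < κ :=
  (mk_union_le s t).trans_lt (add_lt_of_lt hκ0.le hs ht)

lemma closd_union {f g : Finset E → Set E} {M : Set E} (h : Closd (fun F => f F ∪ g F) M) :
    Closd f M ∧ Closd g M :=
  ⟨fun F hF => Set.subset_union_left.trans (h F hF),
    fun F hF => Set.subset_union_right.trans (h F hF)⟩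

lemma Club.and {κ : Cardinal.{u}} (hκ0 : ℵ₀ < κ) {P Q : Set E → Prop} (hP : Club κ P)
    (hQ : Club κ Q) : Club κ (fun M => P M ∧ Q M) := by
  obtain ⟨f, hf, hf2⟩ := hP
  obtain ⟨g, hg, hg2⟩ := hQ
  refine ⟨fun F => f F ∪ g F, fun F => union_small hκ0 (hf F) (hg F), fun M hM hcl => ?_⟩
  exact ⟨hf2 M hM (closd_union hcl).1, hg2 M hM (closd_union hcl).2⟩

lemma Club.mono {κ : Cardinal.{u}} {P Q : Set E → Prop} (hP : Club κ P)
    (h : ∀ M, P M → Q M) : Club κ Q := by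
  obtain ⟨f, hf, hf2⟩ := hP
  exact ⟨f, hf, fun M hM hcl => h M (hf2 M hM hcl)⟩

/-- diagonal intersection over edges -/
lemma Club.diag {κ : Cardinal.{u}} (hκ : κ.IsRegular) (hκ0 : ℵ₀ < κ) {P : E → Set E → Prop}
    (hP : ∀ e, Club κ (P e)) : Club κ (fun M => ∀ e ∈ M, P e M) := by
  classical
  choose f hf hf2 using hP
  refine ⟨fun F => ⋃ e, ⋃ (_ : e ∈ (F : Set E)), ⋃ F', ⋃ (_ : F' ∈ (F.powerset : Set (Finset E))),
    f e F', ?_, ?_⟩
  · intro F
    have h1 : ∀ (α : Type u) (s : Finset α), #(s : Set α) < κ := fun α s =>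
      (Cardinal.lt_aleph0_of_finite _).trans hκ0
    refine (card_biUnion_lt_iff_forall_of_isRegular hκ (h1 _ F)).2 fun e he => ?_
    exact (card_biUnion_lt_iff_forall_of_isRegular hκ (h1 _ F.powerset)).2 fun F' _ => hf e F'
  · intro M hM hcl e he
    refine hf2 e M hM ?_
    intro F hF
    refine Set.Subset.trans ?_ (hcl (insert e F) ?_)
    · intro x hx
      simp only [Set.mem_iUnion]
      exact ⟨e, by simp, F, by simp, hx⟩
    · intro x hx
      rw [Finset.coe_insert] at hx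
      rcases hx with rfl | hx
      · exact he
      · exact hF hx

/-- finite closure: countable closure functions -/
lemma club_of_finite {κ : Cardinal.{u}} (hκ0 : ℵ₀ < κ) {P : Set E → Prop}
    (f : Finset E → Set E) (hf : ∀ F, (f F).Finite) (h : ∀ M : Set E, Closd f M → P M) :
    Club κ P :=
  ⟨f, fun F => (hf F).lt_aleph0.trans hκ0, fun M _ hcl => h M hcl⟩

/-- statement of the closure property for loose graphs -/
def CLw (G : E → Bool → V) (ι : Type uI) : Prop :=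
  ∀ (A : Set E) (c : V → Option ι), Adm G A c → Loose G A c →
    ∀ κ : Cardinal.{u}, κ.IsRegular → ℵ₀ < κ →
      Club κ (fun M => ∀ t X W, Reg c t X → Lk G (A \ M) (Sc c t) X ∅ W →
        ∃ W', Lk G (A \ M) (Sc c t) X ∅ W' ∧ Full G (A \ M) (Sc c t) W')

theorem cl_good {G : E → Bool → V} (hCL : CLw G ι) (A : Set E) (c : V → Option ι)
    (hA : Adm G A c) (hG : Good G A c) (κ : Cardinal.{u}) (hκ : κ.IsRegular) (hκ0 : ℵ₀ < κ) :
    Club κ (fun M => Adm G (A \ M) c ∧ Good G (A \ M) c) := by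
  classical
  obtain ⟨c1, hext, hL1, hW⟩ := hG
  choose W hlk hfull using hW
  have h1 : Club κ (fun M => ∀ t, ∀ L ∈ W t, (∃ d ∈ L, d.1 ∈ M) → ∀ d ∈ L, d.1 ∈ M) := by
    refine club_of_finite hκ0 (fun F => {a | ∃ t, ∃ L ∈ W t, ∃ d ∈ L, d.1 ∈ F ∧ a ∈ edg L}) ?_ ?_
    · intro F
      have hsub : {a | ∃ t, ∃ L ∈ W t, ∃ d ∈ L, d.1 ∈ F ∧ a ∈ edg L} ⊆
          ⋃ d ∈ ((F ×ˢ Finset.univ : Finset (E × Bool)) : Set (E × Bool)),
            {a | ∃ t, ∃ L ∈ W t, d ∈ L ∧ a ∈ edg L} := by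
        rintro a ⟨t, L, hL, d, hd, hdF, ha⟩
        simp only [Set.mem_iUnion]
        exact ⟨d, by simpa using hdF, t, L, hL, hd, ha⟩
      refine Set.Finite.subset (Set.Finite.biUnion (Finset.finite_toSet _) ?_) hsub
      intro d _
      by_cases hex : ∃ t, ∃ L ∈ W t, d ∈ L
      · obtain ⟨t, L, hL, hd⟩ := hex
        refine Set.Finite.subset (s := edg L) ?_ ?_
        · have : edg L = Prod.fst '' {d | d ∈ L} := by
            ext a; simp only [edg, Set.mem_ofPred_eq, Set.mem_image]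
          rw [this]
          exact (List.finite_toSet L).image _
        · rintro a ⟨t', L', hL', hd', ha⟩
          have ht : t' = t := sc_disj (c := c1) ((hlk t').tr L' hL' |>.tlX d hd')
            ((hlk t).tr L hL |>.tlX d hd)
          subst ht
          have := (hlk t').unique hL' hL hd' hd
          rw [← this]; exact ha
      · convert Set.finite_empty
        ext a
        constructor
        · rintro ⟨t, L, hL, hd, _⟩
          exact absurd ⟨t, L, hL, hd⟩ hex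
        · intro h; exact absurd h (by simp)
    · intro M hcl t L hL hex d hd
      obtain ⟨d0, hd0, hdM⟩ := hex
      exact hcl {d0.1} (by simpa using hdM) ⟨t, L, hL, d0, hd0, by simp, d, hd, rfl⟩
  have h2 := hCL A c1 (hA.ext hext) hL1 κ hκ hκ0
  have h3 : Club κ (fun M => Adm G (A \ M) c) := cl_adm G A c hA κ hκ hκ0
  refine ((h1.and hκ0 h2).and hκ0 h3).mono ?_
  rintro M ⟨⟨hM1, hM2⟩, hM3⟩
  refine ⟨hM3, ?_⟩
  obtain ⟨c2, W2, hext2, hL2, hlk2⟩ := exists_max G (A \ M) c1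
  refine ⟨c2, hext.trans hext2, hL2, fun t => ?_⟩
  obtain ⟨W3, hW3, hF3⟩ := hM2 t _ _ (hext2.reg t) (hlk2 t)
  have hr := (hlk t).restrictM (hM1 t)
  have hfr := (hfull t).restrictM (hM1 t)
  exact ⟨_, hr.comp hW3 (hext.sc t) (hext2.sc t) (by simp), full_comp hfr hr hF3⟩

/-- conclusion of the main theorem -/
def TSys (G : E → Bool → V) (A : Set E) (c : V → Option ι) : Prop :=
  ∃ RR : Set (List (E × Bool)), (∀ R ∈ RR, ∃ t t', IsTT G A c t t' R) ∧
    (∀ R ∈ RR, ∀ R' ∈ RR, ∀ d ∈ R, ∀ d' ∈ R', d.1 = d'.1 → R = R') ∧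
    ∀ t, ∀ e ∈ Lv G A (Sc c t), ∃ R ∈ RR, R.head? = some e ∨ R.getLast? = some (rv e)

theorem main_of_cl {G : E → Bool → V} (hCL : CLw G ι) (A : Set E) (c : V → Option ι)
    (hA : Adm G A c) (hL : Loose G A c) : TSys G A c := by
  classical
  obtain ⟨RR, hPP, hsub, hdis, hcov⟩ := abstract_main
    {A | Adm G A c ∧ Good G A c}
    {F : Finset E | ∃ t t' R, IsTT G Set.univ c t t' R ∧ ∀ e, e ∈ F ↔ e ∈ edg R}
    {a | ∃ b t, (a, b) ∈ Lv G Set.univ (Sc c t)} (by
      rintro A ⟨hA, hG⟩ e ⟨heA, b, t, hb⟩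
      obtain ⟨t', R, hR, hRh, hA', hG'⟩ := os_good hA hG (t := t) (e := (e, b)) ⟨heA, hb.2⟩
      have hF : ∀ x, x ∈ (R.map Prod.fst).toFinset ↔ x ∈ edg R := by
        intro x
        simp [edg]
      have hcoe : (((R.map Prod.fst).toFinset : Finset E) : Set E) = edg R := by
        ext x; exact hF x
      refine ⟨(R.map Prod.fst).toFinset, ⟨t, t', R, hR.mono (fun _ _ => Set.mem_univ _), hF⟩,
        ?_, ?_, ?_⟩
      · exact (hF e).2 ⟨_, mem_of_head? hRh, rfl⟩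
      · rw [hcoe]
        rintro x ⟨d, hd, rfl⟩
        exact hR.sub d hd
      · rw [hcoe]
        exact ⟨hA', hG'⟩) (by
      rintro A ⟨hA, hG⟩ κ hκ hκ0
      obtain ⟨f, hf, hf2⟩ := cl_good hCL A c hA hG κ hκ hκ0
      exact ⟨f, hf, fun M hM hcl => hf2 M hM hcl⟩) A ⟨hA, good_of_loose hL⟩
  have hPP' : ∀ F : RR, ∃ R, (∃ t t', IsTT G A c t t' R) ∧ ∀ e, e ∈ F.1 ↔ e ∈ edg R := by
    rintro ⟨F, hF⟩
    obtain ⟨t, t', R, hR, hFe⟩ := hPP hF
    refine ⟨R, ⟨t, t', hR.mono ?_⟩, hFe⟩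
    intro d hd
    exact hsub F hF ((hFe d.1).2 ⟨d, hd, rfl⟩)
  choose R hR hRe using hPP'
  refine ⟨Set.range R, ?_, ?_, ?_⟩
  · rintro _ ⟨F, rfl⟩
    exact hR F
  · rintro _ ⟨F, rfl⟩ _ ⟨F', rfl⟩ d hd d' hd' he
    have : F.1 = F'.1 := hdis F.1 F.2 F'.1 F'.2 d.1 ((hRe F d.1).2 ⟨d, hd, rfl⟩)
      ((hRe F' d.1).2 ⟨d', hd', he.symm⟩)
    rw [Subtype.ext this]
  · intro t e he
    obtain ⟨F, hF, heF⟩ := hcov e.1 ⟨he.1, e.2, t, Set.mem_univ _, he.2⟩
    obtain ⟨d, hd, hde⟩ := (hRe ⟨F, hF⟩ e.1).1 heF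
    refine ⟨R ⟨F, hF⟩, ⟨_, rfl⟩, ?_⟩
    obtain ⟨t1, t2, hTT⟩ := hR ⟨F, hF⟩
    rcases eq_or_eq_rv hde.symm with h1 | h1
    · left
      rw [← h1]
      exact (hTT.ends hd).1 (by rw [h1]; exact he.2.1)
    · right
      rw [← h1]
      exact (hTT.ends hd).2 (by rw [h1, hd_rv]; exact he.2.1)

theorem clw_bool (G : E → Bool → V) : CLw G Bool := by
  intro A c hA hL κ hκ hκ0
  have h1 : ∀ t : Bool, Club κ (fun M => ∀ X W, Reg c t X → Lk G (A \ M) (Sc c t) X ∅ W →
        Full G (A \ M) (Sc c t) W) := fun t => cl_case1 G A c hL t κ hκ hκ0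
  refine ((h1 true).and hκ0 (h1 false)).mono ?_
  rintro M ⟨hM1, hM2⟩ t X W hreg hW
  cases t with
  | true => exact ⟨W, hW, hM1 X W hreg hW⟩
  | false => exact ⟨W, hW, hM2 X W hreg hW⟩

theorem main_bool (G : E → Bool → V) (A : Set E) (c : V → Option Bool) (hA : Adm G A c)
    (hL : Loose G A c) : TSys G A c := main_of_cl (clw_bool G) A c hA hL

theorem clw_gen (G : E → Bool → V) : CLw G ι := by
  classical
  intro A c hA hL κ hκ hκ0
  have h1 : ∀ e : E, Club κ (fun M => ∀ b t, G e b ∈ Sc c t → ∀ X W, Reg c t X →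
      Lk G (A \ M) (Sc c t) X ∅ W → Full G (A \ M) (Sc c t) W) := by
    intro e
    have h2 : ∀ b, Club κ (fun M => ∀ t, G e b ∈ Sc c t → ∀ X W, Reg c t X →
      Lk G (A \ M) (Sc c t) X ∅ W → Full G (A \ M) (Sc c t) W) := by
      intro b
      rcases nc_or c (G e b) with h3 | ⟨t, h3⟩
      · refine club_of_finite hκ0 (fun _ => ∅) (fun _ => Set.finite_empty) ?_
        intro M _ t ht
        exact absurd ht (fun h => nc_sc h3 h)
      · have h4 : Club κ (fun M => ∀ X W, Reg c t X → Lk G (A \ M) (Sc c t) X ∅ W →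
          Full G (A \ M) (Sc c t) W) := cl_case1 G A c hL t κ hκ hκ0
        refine h4.mono ?_
        intro M hM t' ht'
        have := sc_disj h3 ht'
        subst this
        exact hM
    refine ((h2 true).and hκ0 (h2 false)).mono ?_
    rintro M ⟨hM1, hM2⟩ b
    cases b with
    | true => exact hM1
    | false => exact hM2
  have h3 : Club κ (fun M => ∀ t, (∀ e ∈ M, ∀ b, G e b ∉ Sc c t) →
        ∀ X W, Reg c t X → Lk G (A \ M) (Sc c t) X ∅ W →
          ∃ W', Lk G (A \ M) (Sc c t) X ∅ W' ∧ Full G (A \ M) (Sc c t) W') :=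
    cl_case2 G (main_bool G) A c hA hL κ hκ hκ0
  refine ((Club.diag hκ hκ0 h1).and hκ0 h3).mono ?_
  rintro M ⟨hM1, hM2⟩ t X W hreg hW
  by_cases h : ∃ e ∈ M, ∃ b, G e b ∈ Sc c t
  · obtain ⟨e, he, b, hb⟩ := h
    exact ⟨W, hW, hM1 e he b t hb X W hreg hW⟩
  · push Not at h
    exact hM2 t h X W hreg hW

/-- **Main theorem.** -/
theorem main_thm (G : E → Bool → V) (A : Set E) (c : V → Option ι) (hA : Adm G A c)
    (hL : Loose G A c) : TSys G A c := main_of_cl (clw_gen G) A c hA hL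

end Pool.Agent.LC
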