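import Pool.Agent.Lib_helper64.OSBase

set_option autoImplicit false
set_option linter.unusedVariables false

namespace Pool.Agent.LC

universe u uV uE uI

variable {V : Type uV} {E : Type u} {ι : Type uI}

/-- splitting off the pair of darts `e : s → w`, `f : w → x`: the dart `e` now goes `s → x` -/
noncomputable def spl (G : E → Bool → V) (e f : E × Bool) : E → Bool → V := by
  classical
  exact fun e' b => if e' = e.1 then (if b = e.2 then tl G e else hd G f) else G e' b

section
variable {G : E → Bool → V} {A : Set E} {c : V → Option ι}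

lemma os_spl_ne {e f : E × Bool} {a : E} (h : a ≠ e.1) : G a = spl G e f a := by
  classical
  funext b
  simp [spl, h]

lemma os_spl_tl {e f : E × Bool} : tl (spl G e f) e = tl G e := by
  classical
  simp [spl, tl]

lemma os_spl_hd {e f : E × Bool} : hd (spl G e f) e = hd G f := by
  classical
  simp [spl, hd]

lemma full_of_self {S : Set V} {W : Set (List (E × Bool))} (hW : Lk G A S S ∅ W) :
    Full G A S W := by
  intro b hb
  obtain ⟨L, hL, hl⟩ := hW.cov b ⟨hb, by simp⟩
  obtain ⟨α, rfl⟩ := List.getLast?_eq_some_iff.1 hl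
  have := ((hW.tr _ hL).first_iff (β := []) rfl).1 hb.2.1
  subst this
  exact ⟨_, hL, rfl⟩

lemma cutE_iff {G : E → Bool → V} {A : Set E} {U : Set V} {e : E × Bool} :
    e.1 ∈ cutE G A U ↔ e.1 ∈ A ∧ ¬ (tl G e ∈ U ↔ hd G e ∈ U) := by
  rw [crossing_iff]; rfl

/-- W10: splitting preserves admissibility -/
theorem split_adm (hA : Adm G A c)
    {t : ι} {e f : E × Bool} (he : e.1 ∈ A) (hf : f.1 ∈ A) (hne : e.1 ≠ f.1)
    (hs : tl G e ∈ Sc c t) (hw : hd G e ∈ Nc c) (hfw : tl G f = hd G e) :
    Adm (spl G e f) (A \ {f.1}) c := by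
  classical
  intro U hU hfin
  set G1 := spl G e f with hG1
  have hsU : tl G e ∉ U := fun h => nc_sc (hU h) hs
  have hGe : ∀ a : E, a ≠ e.1 → G1 a = G a := fun a ha => (os_spl_ne ha).symm
  -- common part
  set B := cutE G (A \ {e.1, f.1}) U with hB
  have h1 : ∀ a, a ≠ e.1 → a ≠ f.1 → (a ∈ cutE G1 (A \ {f.1}) U ↔ a ∈ B) := by
    intro a ha1 ha2
    simp only [cutE, hB, Set.mem_ofPred_eq, Set.mem_sdiff, Set.mem_insert_iff,
      Set.mem_singleton_iff, ha1, ha2, hGe a ha1]
    simp
  have h2 : ∀ a, a ≠ e.1 → a ≠ f.1 → (a ∈ cutE G A U ↔ a ∈ B) := by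
    intro a ha1 ha2
    simp only [cutE, hB, Set.mem_ofPred_eq, Set.mem_sdiff, Set.mem_insert_iff,
      Set.mem_singleton_iff, ha1, ha2]
    simp
  have hBe : e.1 ∉ B := fun h => h.1.2 (by simp)
  have hBf : f.1 ∉ B := fun h => h.1.2 (by simp)
  have e1 : e.1 ∈ cutE G1 (A \ {f.1}) U ↔ hd G f ∈ U := by
    rw [cutE_iff, hG1, os_spl_tl, os_spl_hd]
    constructor
    · rintro ⟨_, h⟩
      by_contra hx
      exact h ⟨fun h' => absurd h' hsU, fun h' => absurd h' hx⟩
    · intro h
      exact ⟨⟨he, hne⟩, fun h' => hsU (h'.2 h)⟩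
  have f1 : f.1 ∉ cutE G1 (A \ {f.1}) U := fun h => h.1.2 rfl
  have e2 : e.1 ∈ cutE G A U ↔ hd G e ∈ U := by
    rw [cutE_iff]
    constructor
    · rintro ⟨_, h⟩
      by_contra hx
      exact h ⟨fun h' => absurd h' hsU, fun h' => absurd h' hx⟩
    · intro h
      exact ⟨he, fun h' => hsU (h'.2 h)⟩
  have f2 : f.1 ∈ cutE G A U ↔ ¬ (hd G e ∈ U ↔ hd G f ∈ U) := by
    rw [cutE_iff, hfw]
    exact ⟨fun h => h.2, fun h => ⟨hf, h⟩⟩
  have hAU := hA U hU
  have hBfin : B.Finite := hfin.subset (by
    intro a ha
    have ha1 : a ≠ e.1 := fun h => hBe (h ▸ ha)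
    have ha2 : a ≠ f.1 := fun h => hBf (h ▸ ha)
    exact (h1 a ha1 ha2).2 ha)
  by_cases hwU : hd G e ∈ U <;> by_cases hxU : hd G f ∈ U
  · have : cutE G1 (A \ {f.1}) U = cutE G A U := by
      ext a
      by_cases ha1 : a = e.1
      · subst ha1; rw [e1, e2]; simp [hwU, hxU]
      by_cases ha2 : a = f.1
      · subst ha2; rw [f2]; simp [hwU, hxU, f1]
      · rw [h1 a ha1 ha2, h2 a ha1 ha2]
    rw [this] at hfin ⊢
    exact hAU hfin
  · have h3 : cutE G1 (A \ {f.1}) U = B := by
      ext a
      by_cases ha1 : a = e.1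
      · subst ha1; rw [e1]; simp [hxU, hBe]
      by_cases ha2 : a = f.1
      · subst ha2; simp [f1, hBf]
      · rw [h1 a ha1 ha2]
    have h4 : cutE G A U = insert e.1 (insert f.1 B) := by
      ext a
      simp only [Set.mem_insert_iff]
      by_cases ha1 : a = e.1
      · subst ha1; rw [e2]; simp [hwU]
      by_cases ha2 : a = f.1
      · subst ha2; rw [f2]; simp [hwU, hxU]
      · rw [h2 a ha1 ha2]; simp [ha1, ha2]
    rw [h3]
    rw [h4] at hAU
    have h5 := hAU ((hBfin.insert _).insert _)
    rw [Set.ncard_insert_of_notMem (by simp [hne, hBe]) (hBfin.insert _),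
      Set.ncard_insert_of_notMem hBf hBfin] at h5
    have : B.ncard + 1 + 1 = B.ncard + 2 := by ring
    rw [this] at h5
    exact (Nat.even_add.1 h5).2 (by norm_num)
  · have h3 : cutE G1 (A \ {f.1}) U = insert e.1 B := by
      ext a
      simp only [Set.mem_insert_iff]
      by_cases ha1 : a = e.1
      · subst ha1; rw [e1]; simp [hxU]
      by_cases ha2 : a = f.1
      · subst ha2; simp [f1, hBf, hne.symm]
      · rw [h1 a ha1 ha2]; simp [ha1]
    have h4 : cutE G A U = insert f.1 B := by
      ext a
      simp only [Set.mem_insert_iff]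
      by_cases ha1 : a = e.1
      · subst ha1; rw [e2]; simp [hwU, hne, hBe]
      by_cases ha2 : a = f.1
      · subst ha2; rw [f2]; simp [hwU, hxU]
      · rw [h2 a ha1 ha2]; simp [ha2]
    rw [h3, Set.ncard_insert_of_notMem hBe hBfin]
    rw [h4] at hAU
    have h5 := hAU (hBfin.insert _)
    rwa [Set.ncard_insert_of_notMem hBf hBfin] at h5
  · have : cutE G1 (A \ {f.1}) U = cutE G A U := by
      ext a
      by_cases ha1 : a = e.1
      · subst ha1; rw [e1, e2]; simp [hwU, hxU]
      by_cases ha2 : a = f.1
      · subst ha2; rw [f2]; simp [hwU, hxU, f1]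
      · rw [h1 a ha1 ha2, h2 a ha1 ha2]
    rw [this] at hfin ⊢
    exact hAU hfin

variable {S X : Set V} {W : Set (List (E × Bool))} {e f : E × Bool}

lemma sp_lv {b : E × Bool} (h1 : b.1 ≠ e.1) (h2 : b.1 ≠ f.1) :
    b ∈ Lv (spl G e f) (A \ {f.1}) X ↔ b ∈ Lv G A X := by
  have h := os_spl_ne (G := G) (f := f) h1
  constructor
  · rintro ⟨h3, h4, h5⟩
    exact ⟨h3.1, by rw [tl_congr h]; exact h4, by rw [hd_congr h]; exact h5⟩
  · rintro ⟨h3, h4, h5⟩
    exact ⟨⟨h3, h2⟩, by rw [← tl_congr h]; exact h4, by rw [← hd_congr h]; exact h5⟩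

lemma sp_tr {L : List (E × Bool)} (h : IsTr (spl G e f) (A \ {f.1}) S X L)
    (he : ∀ d ∈ L, d.1 ≠ e.1) : IsTr G A S X L :=
  isTr_congr h (fun d hd => (os_spl_ne (he d hd)).symm) (fun d hd => (h.sub d hd).1)

/-- replacing the trail that uses `e` -/
lemma sp_replace {K : Set (E × Bool)} (hW : Lk (spl G e f) (A \ {f.1}) S X ∅ W)
    {Le : List (E × Bool)} (hLe : Le ∈ W) {d0 : E × Bool} (hd0 : d0 ∈ Le) (hd0e : d0.1 = e.1)
    {be : E × Bool} (hbe : Le.getLast? = some be) {M : List (E × Bool)} {bM : E × Bool}
    (hM : IsTr G A S X M) (hMl : M.getLast? = some bM) (hbM : bM ∈ Lv G A X \ K)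
    (hMe : ∀ d ∈ M, d.1 = f.1 ∨ ∃ d' ∈ Le, d'.1 = d.1)
    (hK1 : ∀ b ∈ Lv G A X, b ∉ K → b ≠ bM → b.1 ≠ e.1 ∧ b.1 ≠ f.1 ∧ b ≠ be)
    (hK2 : ∀ b ∈ Lv G A X, b.1 ≠ e.1 → b.1 ≠ f.1 → b ≠ be → b ∉ K) :
    Lk G A S X K (insert M (W \ {Le})) := by
  have hoth : ∀ L ∈ W \ {Le}, ∀ d ∈ L, d.1 ≠ e.1 := by
    rintro L ⟨hL, hne⟩ d hd h
    exact hne (hW.disj L hL Le hLe d hd d0 hd0 (h.trans hd0e.symm))
  have hf : ∀ L ∈ W, ∀ d ∈ L, d.1 ≠ f.1 := fun L hL d hd h => ((hW.tr L hL).sub d hd).2 h
  have hdj : ∀ L ∈ W \ {Le}, EDisj M L := by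
    intro L hL d hd d' hd' h
    rcases hMe d hd with h1 | ⟨d1, hd1, h1⟩
    · exact hf L hL.1 d' hd' (by rw [← h, h1])
    · exact hL.2 (hW.disj L hL.1 Le hLe d' hd' d1 hd1 (by rw [← h, h1]))
  refine ⟨⟨?_, ?_⟩, ?_, ?_⟩
  · rintro L (rfl | hL)
    · exact hM
    · exact sp_tr (hW.tr L hL.1) (hoth L hL)
  · rintro L (rfl | hL) L' (rfl | hL') d hd d' hd' h
    · rfl
    · exact absurd h (hdj L' hL' d hd d' hd')
    · exact absurd h.symm (hdj L hL d' hd' d hd)
    · exact hW.disj L hL.1 L' hL'.1 d hd d' hd' h
  · rintro L (rfl | hL)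
    · exact ⟨bM, hbM, hMl⟩
    · obtain ⟨b, hb, hl⟩ := hW.last L hL.1
      have hm := mem_of_getLast? hl
      have hbe1 := hoth L hL b hm
      have hbf := hf L hL.1 b hm
      have hbX := (sp_lv hbe1 hbf).1 hb.1
      refine ⟨b, ⟨hbX, hK2 b hbX hbe1 hbf ?_⟩, hl⟩
      rintro rfl
      exact hL.2 (hW.unique hL.1 hLe hm (mem_of_getLast? hbe))
  · rintro b ⟨hb, hbK⟩
    by_cases h : b = bM
    · exact ⟨M, Or.inl rfl, by rw [h]; exact hMl⟩
    · obtain ⟨h1, h2, h3⟩ := hK1 b hb hbK h
      obtain ⟨L, hL, hl⟩ := hW.cov b ⟨(sp_lv h1 h2).2 hb, by simp⟩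
      refine ⟨L, Or.inr ⟨hL, ?_⟩, hl⟩
      intro h4
      rw [Set.mem_singleton_iff.1 h4, hbe] at hl
      exact h3 (Option.some.inj hl).symm

/-- no trail uses `e` -/
lemma sp_same {K : Set (E × Bool)} (hW : Lk (spl G e f) (A \ {f.1}) S X ∅ W)
    (hun : ∀ L ∈ W, ∀ d ∈ L, d.1 ≠ e.1)
    (hK1 : ∀ b ∈ Lv G A X, b ∉ K → b.1 ≠ e.1 ∧ b.1 ≠ f.1)
    (hK2 : ∀ b ∈ Lv G A X, b.1 ≠ e.1 → b.1 ≠ f.1 → b ∉ K) : Lk G A S X K W := by
  have hf : ∀ L ∈ W, ∀ d ∈ L, d.1 ≠ f.1 := fun L hL d hd h => ((hW.tr L hL).sub d hd).2 h
  refine ⟨⟨fun L hL => sp_tr (hW.tr L hL) (hun L hL), hW.disj⟩, ?_, ?_⟩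
  · intro L hL
    obtain ⟨b, hb, hl⟩ := hW.last L hL
    have hm := mem_of_getLast? hl
    have hbX := (sp_lv (hun L hL b hm) (hf L hL b hm)).1 hb.1
    exact ⟨b, ⟨hbX, hK2 b hbX (hun L hL b hm) (hf L hL b hm)⟩, hl⟩
  · rintro b ⟨hb, hbK⟩
    obtain ⟨h1, h2⟩ := hK1 b hb hbK
    exact hW.cov b ⟨(sp_lv h1 h2).2 hb, by simp⟩

lemma sp_full_back (hne : e.1 ≠ f.1) (hw : hd G e ∉ S) (hfw : tl G f = hd G e) (hx : hd G f ∉ S)
    (hfull : ∀ b ∈ Lv G A S, b.1 ≠ e.1 → ∃ L ∈ W, L.head? = some b)
    (he : e ∈ Lv (spl G e f) (A \ {f.1}) S → ∃ L ∈ W, L.head? = some e) :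
    Full (spl G e f) (A \ {f.1}) S W := by
  intro b hb
  by_cases h1 : b.1 = e.1
  · rcases eq_or_eq_rv h1.symm with h2 | h2
    · rw [h2] at hb ⊢
      exact he hb
    · exfalso
      have := hb.2.1
      rw [h2, tl_rv, os_spl_hd] at this
      exact hx this
  · have h2 : b.1 ≠ f.1 := fun h => hb.1.2 h
    exact hfull b ((sp_lv h1 h2).1 hb) h1

/-- W10: after splitting every wave linkage is full (uses def_one, def_two) -/
theorem split_full (hA : Adm G A c)
    (hL : Loose G A c) {t : ι} {e f : E × Bool} (he : e.1 ∈ A) (hf : f.1 ∈ A) (hne : e.1 ≠ f.1)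
    (hs : tl G e ∈ Sc c t) (hw : hd G e ∈ Nc c) (hfw : tl G f = hd G e)
    (hx : hd G f ∉ Sc c t) {t' : ι} {X : Set V} {W : Set (List (E × Bool))}
    (hreg : Reg c t' X) (hW : Lk (spl G e f) (A \ {f.1}) (Sc c t') X ∅ W) :
    Full (spl G e f) (A \ {f.1}) (Sc c t') W ∧
      (t' = t → X ≠ Sc c t → hd G f ∈ X ∧ hd G e ∉ X ∧ ∃ L ∈ W, L.head? = some e) := by
  classical
  by_cases hXS : X = Sc c t'
  · subst hXS
    refine ⟨full_of_self hW, ?_⟩
    rintro rfl h
    exact absurd rfl h
  have hcon : ∀ W', ¬ Lk G A (Sc c t') X ∅ W' := fun W' h => hXS (hL t' X W' hreg h)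
  have hwS : hd G e ∉ Sc c t' := fun h => nc_sc hw h
  have hnf : f.1 ≠ e.1 := hne.symm
  -- darts on `e`, `f` leaving `X` in `G`
  have hbe : ∀ b ∈ Lv G A X, b.1 = e.1 →
      (b = e ∧ tl G e ∈ X ∧ hd G e ∉ X) ∨ (b = rv e ∧ hd G e ∈ X ∧ tl G e ∉ X) := by
    intro b hb h
    rcases eq_or_eq_rv h.symm with h2 | h2
    · rw [h2] at hb; exact Or.inl ⟨h2, hb.2⟩
    · rw [h2] at hb; exact Or.inr ⟨h2, by simpa using hb.2⟩
  have hbf : ∀ b ∈ Lv G A X, b.1 = f.1 →
      (b = f ∧ hd G e ∈ X ∧ hd G f ∉ X) ∨ (b = rv f ∧ hd G f ∈ X ∧ hd G e ∉ X) := by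
    intro b hb h
    rcases eq_or_eq_rv h.symm with h2 | h2
    · rw [h2] at hb
      have := hb.2
      rw [hfw] at this
      exact Or.inl ⟨h2, this⟩
    · rw [h2] at hb
      have := hb.2
      rw [tl_rv, hd_rv, hfw] at this
      exact Or.inr ⟨h2, this⟩
  -- trails using e in G1
  have hff : ∀ L ∈ W, ∀ d ∈ L, d.1 ≠ f.1 := fun L hL d hd h => ((hW.tr L hL).sub d hd).2 h
  by_cases htt : t' = t
  · subst htt
    have hsX : tl G e ∈ X := hreg.1 hs
    have huse : ∀ L ∈ W, ∀ d ∈ L, d.1 = e.1 → d = e ∧ ∃ β, L = e :: β := by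
      intro L hLW d hd h
      rcases eq_or_eq_rv h.symm with h2 | h2
      · refine ⟨h2, ?_⟩
        subst h2
        obtain ⟨α, β, hαβ⟩ := List.append_of_mem hd
        have := ((hW.tr L hLW).first_iff hαβ).1 (by rw [os_spl_tl]; exact hs)
        subst this
        exact ⟨β, hαβ⟩
      · exfalso
        apply (hW.tr L hLW).hdS d hd
        rw [h2, hd_rv, os_spl_tl]; exact hs
    by_cases hxX : hd G f ∈ X
    · by_cases hwX : hd G e ∈ X
      · -- contradiction
        exfalso
        by_cases hex : ∃ L ∈ W, ∃ d ∈ L, d.1 = e.1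
        · obtain ⟨L, hLW, d, hd, hde⟩ := hex
          obtain ⟨hd2, β, hβ⟩ := huse L hLW d hd hde
          have tr := hW.tr L hLW
          obtain ⟨b, hb, hl⟩ := hW.last L hLW
          have hβne : β ≠ [] := by
            rintro rfl
            rw [hβ] at hl
            have : e = b := by simpa using hl
            rw [← this] at hb
            apply hb.1.2.2
            rw [os_spl_hd]; exact hxX
          have hlβ : β.getLast? = some b := by
            rw [hβ] at hl
            obtain ⟨a, β', rfl⟩ := List.exists_cons_of_ne_nil hβne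
            rw [List.getLast?_cons_cons] at hl
            exact hl
          have hnd := tr.nodup
          rw [hβ, List.map_cons, List.nodup_cons] at hnd
          have hβe : ∀ d ∈ β, d.1 ≠ e.1 := by
            intro d hd h
            exact hnd.1 (h ▸ List.mem_map_of_mem (f := Prod.fst) hd)
          have hβf : ∀ d ∈ β, d.1 ≠ f.1 := by
            intro d hd
            exact hff L hLW d (by rw [hβ]; simp [hd])
          have hbe1 : b.1 ≠ e.1 := hβe b (mem_of_getLast? hlβ)
          have hbf1 : b.1 ≠ f.1 := hβf b (mem_of_getLast? hlβ)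
          obtain ⟨u, hu, v, huv⟩ := tr.wk
          rw [hβ, wk_cons, os_spl_tl, os_spl_hd] at huv
          refine hcon _ (sp_replace (K := ∅) (M := e :: f :: β) (bM := b) hW hLW hd hde hl ?_ ?_ ?_
            ?_ ?_ ?_)
          · refine ⟨by simp, ⟨tl G e, hs, v, rfl, hfw, ?_⟩, ?_, ?_, ?_, ?_⟩
            · exact wk_congr (fun d hd => (os_spl_ne (hβe d hd)).symm) huv.2
            · rw [List.map_cons, List.map_cons, List.nodup_cons, List.nodup_cons]
              refine ⟨?_, ?_, hnd.2⟩
              · intro h
                rcases List.mem_cons.1 h with h | h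
                · exact hne h
                · exact hnd.1 h
              · intro h
                obtain ⟨d, hd, hde⟩ := List.mem_map.1 h
                exact hβf d hd hde
            · intro d hd
              rcases List.mem_cons.1 hd with rfl | hd
              · exact he
              · rcases List.mem_cons.1 hd with rfl | hd
                · exact hf
                · exact (tr.sub d (by rw [hβ]; simp [hd])).1
            · intro d hd
              rcases List.mem_cons.1 hd with rfl | hd
              · exact hwS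
              · rcases List.mem_cons.1 hd with rfl | hd
                · exact hx
                · have := tr.hdS d (by rw [hβ]; simp [hd])
                  rwa [← hd_congr (os_spl_ne (hβe d hd))] at this
            · intro d hd
              rcases List.mem_cons.1 hd with rfl | hd
              · exact hsX
              · rcases List.mem_cons.1 hd with rfl | hd
                · rw [hfw]; exact hwX
                · have := tr.tlX d (by rw [hβ]; simp [hd])
                  rwa [← tl_congr (os_spl_ne (hβe d hd))] at this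
          · obtain ⟨a, β', rfl⟩ := List.exists_cons_of_ne_nil hβne
            rw [List.getLast?_cons_cons, List.getLast?_cons_cons]
            exact hlβ
          · exact ⟨(sp_lv hbe1 hbf1).1 hb.1, by simp⟩
          · intro d hd
            rcases List.mem_cons.1 hd with rfl | hd
            · exact Or.inr ⟨d, by rw [hβ]; simp, rfl⟩
            · rcases List.mem_cons.1 hd with rfl | hd
              · exact Or.inl rfl
              · exact Or.inr ⟨d, by rw [hβ]; simp [hd], rfl⟩
          · intro b' hb' _ hne'
            refine ⟨fun h => ?_, fun h => ?_, hne'⟩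
            · rcases hbe b' hb' h with h3 | h3
              · exact h3.2.2 hwX
              · exact h3.2.2 hsX
            · rcases hbf b' hb' h with h3 | h3
              · exact h3.2.2 hxX
              · exact h3.2.2 hwX
          · intro b' _ _ _ _; simp
        · push Not at hex
          refine hcon W (sp_same hW hex ?_ ?_)
          · intro b' hb' _
            refine ⟨fun h => ?_, fun h => ?_⟩
            · rcases hbe b' hb' h with h3 | h3
              · exact h3.2.2 hwX
              · exact h3.2.2 hsX
            · rcases hbf b' hb' h with h3 | h3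
              · exact h3.2.2 hxX
              · exact h3.2.2 hwX
          · intro b' _ _ _; simp
      · -- the real case
        have heX : e ∈ Lv G A X := ⟨he, hsX, hwX⟩
        have htre : IsTr G A (Sc c t') X [e] := isTr_single heX hs hreg.1
        by_cases hex : ∃ L ∈ W, ∃ d ∈ L, d.1 = e.1
        · obtain ⟨L, hLW, d, hd, hde⟩ := hex
          obtain ⟨hd2, β, hβ⟩ := huse L hLW d hd hde
          have tr := hW.tr L hLW
          obtain ⟨b, hb, hl⟩ := hW.last L hLW
          have hbne : b ≠ e := by
            rintro rfl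
            apply hb.1.2.2
            rw [os_spl_hd]; exact hxX
          have hbe1 : b.1 ≠ e.1 := by
            intro h
            exact hbne (huse L hLW b (mem_of_getLast? hl) h).1
          have hbf1 : b.1 ≠ f.1 := hff L hLW b (mem_of_getLast? hl)
          have key := sp_replace (K := {b, rv f}) (M := [e]) (bM := e) hW hLW hd hde hl htre rfl
            ⟨heX, by
              rintro (h | h)
              · exact hbne h.symm
              · exact hne (by rw [h]; rfl)⟩ (by
            intro d' hd'
            rw [List.mem_singleton.1 hd']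
            exact Or.inr ⟨e, by rw [hβ]; simp, rfl⟩) (by
            intro b' hb' hbK hne'
            refine ⟨fun h => ?_, fun h => ?_, fun h => hbK (Or.inl h)⟩
            · rcases hbe b' hb' h with h3 | h3
              · exact hne' h3.1
              · exact h3.2.2 hsX
            · rcases hbf b' hb' h with h3 | h3
              · exact h3.2.2 hxX
              · exact hbK (Or.inr h3.1)) (by
            intro b' hb' h1 h2 h3
            rintro (h | h)
            · exact h3 h
            · exact h2 (by rw [h]; rfl))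
          have hd2 := def_two hA hL hreg key Set.inter_subset_left hXS
          refine ⟨sp_full_back hne hwS hfw hx ?_ (fun _ => ⟨L, hLW, by rw [hβ]; rfl⟩),
            fun _ _ => ⟨hxX, hwX, L, hLW, by rw [hβ]; rfl⟩⟩
          intro b' hb' hb'e
          obtain ⟨L', hL', hh⟩ := hd2.1 b' hb'
          rcases hL' with rfl | hL'
          · exfalso
            have : e = b' := by simpa using hh
            exact hb'e (by rw [this])
          · exact ⟨L', hL'.1, hh⟩
        · exfalso
          push Not at hex
          have h1 : Lk G A (Sc c t') X {e, rv f} W := by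
            refine sp_same hW hex ?_ ?_
            · intro b' hb' hbK
              refine ⟨fun h => ?_, fun h => ?_⟩
              · rcases hbe b' hb' h with h3 | h3
                · exact hbK (Or.inl h3.1)
                · exact h3.2.2 hsX
              · rcases hbf b' hb' h with h3 | h3
                · exact h3.2.2 hxX
                · exact hbK (Or.inr h3.1)
            · intro b' _ h1 h2
              rintro (h | h)
              · exact h1 (by rw [h])
              · exact h2 (by rw [h]; rfl)
          have := def_two hA hL hreg h1 Set.inter_subset_left hXS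
          exact this.2.2.2.2.1 hs
    · -- x not in X : e leaves X in G1
      have heX1 : e ∈ Lv (spl G e f) (A \ {f.1}) X :=
        ⟨⟨he, hne⟩, by rw [os_spl_tl]; exact hsX, by rw [os_spl_hd]; exact hxX⟩
      obtain ⟨L, hLW, hl⟩ := hW.cov e ⟨heX1, by simp⟩
      have hLe : L = [e] := by
        obtain ⟨α, hα⟩ := List.getLast?_eq_some_iff.1 hl
        have := ((hW.tr L hLW).first_iff (β := []) hα).1 (by rw [os_spl_tl]; exact hs)
        rw [hα, this]; rfl
      subst hLe
      exfalso
      by_cases hwX : hd G e ∈ X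
      · refine hcon _ (sp_replace (K := ∅) (M := [e, f]) (bM := f) hW hLW (d0 := e) (by simp) rfl hl
          ?_ rfl ?_ ?_ ?_ ?_)
        · refine ⟨by simp, ⟨tl G e, hs, hd G f, rfl, hfw, rfl⟩, by simpa using hne, ?_, ?_, ?_⟩
          · intro d hd
            simp only [List.mem_cons, List.not_mem_nil, or_false] at hd
            rcases hd with rfl | rfl
            · exact he
            · exact hf
          · intro d hd
            simp only [List.mem_cons, List.not_mem_nil, or_false] at hd
            rcases hd with rfl | rfl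
            · exact hwS
            · exact hx
          · intro d hd
            simp only [List.mem_cons, List.not_mem_nil, or_false] at hd
            rcases hd with rfl | rfl
            · exact hsX
            · rw [hfw]; exact hwX
        · exact ⟨⟨hf, by rw [hfw]; exact hwX, hxX⟩, by simp⟩
        · intro d hd
          simp only [List.mem_cons, List.not_mem_nil, or_false] at hd
          rcases hd with rfl | rfl
          · exact Or.inr ⟨d, by simp, rfl⟩
          · exact Or.inl rfl
        · intro b' hb' _ hne'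
          refine ⟨fun h => ?_, fun h => ?_, ?_⟩
          · rcases hbe b' hb' h with h3 | h3
            · exact h3.2.2 hwX
            · exact h3.2.2 hsX
          · rcases hbf b' hb' h with h3 | h3
            · exact hne' h3.1
            · exact h3.2.2 hwX
          · rintro rfl
            exact hb'.2.2 hwX
        · intro b' _ _ _ _; simp
      · refine hcon _ (sp_replace (K := ∅) (M := [e]) (bM := e) hW hLW (d0 := e) (by simp) rfl hl
          (isTr_single ⟨he, hsX, hwX⟩ hs hreg.1) rfl ⟨⟨he, hsX, hwX⟩, by simp⟩ ?_ ?_ ?_)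
        · intro d hd
          rw [List.mem_singleton.1 hd]
          exact Or.inr ⟨e, by simp, rfl⟩
        · intro b' hb' _ hne'
          refine ⟨fun h => ?_, fun h => ?_, hne'⟩
          · rcases hbe b' hb' h with h3 | h3
            · exact hne' h3.1
            · exact h3.2.2 hsX
          · rcases hbf b' hb' h with h3 | h3
            · exact hwX h3.2.1
            · exact hxX h3.2.1
        · intro b' _ _ _ _; simp
  · -- t' ≠ t
    refine ⟨?_, fun h => absurd h htt⟩
    have hsX : tl G e ∉ X := by
      intro h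
      by_cases h2 : tl G e ∈ Sc c t'
      · exact htt (sc_disj h2 hs)
      · exact nc_sc (hreg.2 ⟨h, h2⟩) hs
    have hsS : tl G e ∉ Sc c t' := fun h => hsX (hreg.1 h)
    have huse : ∀ L ∈ W, ∀ d ∈ L, d.1 = e.1 → d = rv e ∧ hd G f ∈ X := by
      intro L hLW d hd h
      rcases eq_or_eq_rv h.symm with h2 | h2
      · exfalso
        have := (hW.tr L hLW).tlX d hd
        rw [h2, os_spl_tl] at this
        exact hsX this
      · refine ⟨h2, ?_⟩
        have := (hW.tr L hLW).tlX d hd
        rw [h2, tl_rv, os_spl_hd] at this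
        exact this
    by_cases hxX : hd G f ∈ X
    · -- contradiction in both cases
      exfalso
      have heX1 : rv e ∈ Lv (spl G e f) (A \ {f.1}) X :=
        ⟨⟨he, hne⟩, by rw [tl_rv, os_spl_hd]; exact hxX, by rw [hd_rv, os_spl_tl]; exact hsX⟩
      obtain ⟨L, hLW, hl⟩ := hW.cov (rv e) ⟨heX1, by simp⟩
      obtain ⟨α, hα⟩ := List.getLast?_eq_some_iff.1 hl
      have tr := hW.tr L hLW
      have hmem : rv e ∈ L := mem_of_getLast? hl
      have hnd := tr.nodup
      rw [hα, nodup_fst_append] at hnd
      have hαe : ∀ d ∈ α, d.1 ≠ e.1 := fun d hd => hnd.2.2 d hd (rv e) (by simp)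
      have hαf : ∀ d ∈ α, d.1 ≠ f.1 := fun d hd => hff L hLW d (by rw [hα]; simp [hd])
      obtain ⟨u, hu, v, huv⟩ := tr.wk
      rw [hα, wk_concat, tl_rv, os_spl_hd] at huv
      have hαw : Wk G u α (hd G f) := wk_congr (fun d hd => (os_spl_ne (hαe d hd)).symm) huv.1
      have hαh : ∀ d ∈ α, hd G d ∉ Sc c t' := by
        intro d hd
        have := tr.hdS d (by rw [hα]; simp [hd])
        rwa [← hd_congr (os_spl_ne (hαe d hd))] at this
      have hαt : ∀ d ∈ α, tl G d ∈ X := by
        intro d hd
        have := tr.tlX d (by rw [hα]; simp [hd])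
        rwa [← tl_congr (os_spl_ne (hαe d hd))] at this
      have hαA : ∀ d ∈ α, d.1 ∈ A := fun d hd => (tr.sub d (by rw [hα]; simp [hd])).1
      by_cases hwX : hd G e ∈ X
      · refine hcon _ (sp_replace (K := ∅) (M := α ++ [rv f, rv e]) (bM := rv e) hW hLW (d0 := rv e)
          hmem rfl hl ?_ (by simp) ?_ ?_ ?_ ?_)
        · refine ⟨by simp, ⟨u, hu, tl G e, ?_⟩, ?_, ?_, ?_, ?_⟩
          · refine hαw.append ⟨by simp, ?_, by simp⟩
            rw [hd_rv, tl_rv, hfw]
          · rw [nodup_fst_append]
            refine ⟨hnd.1, by simpa using hnf, ?_⟩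
            intro d hd d' hd' h
            simp only [List.mem_cons, List.not_mem_nil, or_false] at hd'
            rcases hd' with rfl | rfl
            · exact hαf d hd h
            · exact hαe d hd h
          · intro d hd
            rcases List.mem_append.1 hd with hd | hd
            · exact hαA d hd
            · simp only [List.mem_cons, List.not_mem_nil, or_false] at hd
              rcases hd with rfl | rfl
              · exact hf
              · exact he
          · intro d hd
            rcases List.mem_append.1 hd with hd | hd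
            · exact hαh d hd
            · simp only [List.mem_cons, List.not_mem_nil, or_false] at hd
              rcases hd with rfl | rfl
              · rw [hd_rv, hfw]; exact hwS
              · rw [hd_rv]; exact hsS
          · intro d hd
            rcases List.mem_append.1 hd with hd | hd
            · exact hαt d hd
            · simp only [List.mem_cons, List.not_mem_nil, or_false] at hd
              rcases hd with rfl | rfl
              · rw [tl_rv]; exact hxX
              · rw [tl_rv]; exact hwX
        · exact ⟨⟨he, by rw [tl_rv]; exact hwX, by rw [hd_rv]; exact hsX⟩, by simp⟩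
        · intro d hd
          rcases List.mem_append.1 hd with hd | hd
          · exact Or.inr ⟨d, by rw [hα]; simp [hd], rfl⟩
          · simp only [List.mem_cons, List.not_mem_nil, or_false] at hd
            rcases hd with rfl | rfl
            · exact Or.inl rfl
            · exact Or.inr ⟨_, hmem, rfl⟩
        · intro b' hb' _ hne'
          refine ⟨fun h => ?_, fun h => ?_, hne'⟩
          · rcases hbe b' hb' h with h3 | h3
            · exact hsX h3.2.1
            · exact hne' h3.1
          · rcases hbf b' hb' h with h3 | h3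
            · exact h3.2.2 hxX
            · exact h3.2.2 hwX
        · intro b' _ _ _ _; simp
      · refine hcon _ (sp_replace (K := ∅) (M := α ++ [rv f]) (bM := rv f) hW hLW (d0 := rv e)
          hmem rfl hl ?_ (by simp) ?_ ?_ ?_ ?_)
        · refine ⟨by simp, ⟨u, hu, tl G f, ?_⟩, ?_, ?_, ?_, ?_⟩
          · exact hαw.append ⟨by simp, by simp⟩
          · rw [nodup_fst_append]
            refine ⟨hnd.1, by simp, ?_⟩
            intro d hd d' hd' h
            rw [List.mem_singleton.1 hd'] at h
            exact hαf d hd h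
          · intro d hd
            rcases List.mem_append.1 hd with hd | hd
            · exact hαA d hd
            · rw [List.mem_singleton.1 hd]; exact hf
          · intro d hd
            rcases List.mem_append.1 hd with hd | hd
            · exact hαh d hd
            · rw [List.mem_singleton.1 hd, hd_rv, hfw]; exact hwS
          · intro d hd
            rcases List.mem_append.1 hd with hd | hd
            · exact hαt d hd
            · rw [List.mem_singleton.1 hd, tl_rv]; exact hxX
        · exact ⟨⟨hf, by rw [tl_rv]; exact hxX, by rw [hd_rv, hfw]; exact hwX⟩, by simp⟩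
        · intro d hd
          rcases List.mem_append.1 hd with hd | hd
          · exact Or.inr ⟨d, by rw [hα]; simp [hd], rfl⟩
          · rw [List.mem_singleton.1 hd]; exact Or.inl rfl
        · intro b' hb' _ hne'
          refine ⟨fun h => ?_, fun h => ?_, ?_⟩
          · rcases hbe b' hb' h with h3 | h3
            · exact hsX h3.2.1
            · exact hwX h3.2.1
          · rcases hbf b' hb' h with h3 | h3
            · exact h3.2.2 hxX
            · exact hne' h3.1
          · rintro rfl
            exact hwX (by simpa using hb'.2.1)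
        · intro b' _ _ _ _; simp
    · -- x not in X : e is not used
      have hun : ∀ L ∈ W, ∀ d ∈ L, d.1 ≠ e.1 := fun L hLW d hd h => hxX (huse L hLW d hd h).2
      have hxS : hd G f ∉ Sc c t' := fun h => hxX (hreg.1 h)
      by_cases hwX : hd G e ∈ X
      · have h1 : Lk G A (Sc c t') X {rv e, f} W := by
          refine sp_same hW hun ?_ ?_
          · intro b' hb' hbK
            refine ⟨fun h => ?_, fun h => ?_⟩
            · rcases hbe b' hb' h with h3 | h3
              · exact hsX h3.2.1
              · exact hbK (Or.inl h3.1)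
            · rcases hbf b' hb' h with h3 | h3
              · exact hbK (Or.inr h3.1)
              · exact hxX h3.2.1
          · intro b' _ h1 h2
            rintro (h | h)
            · exact h1 (by rw [h]; rfl)
            · exact h2 (by rw [h])
        have := (def_two hA hL hreg h1 Set.inter_subset_left hXS).1
        refine sp_full_back hne hwS hfw hxS (fun b hb _ => this b hb) ?_
        intro h
        have := h.2.1
        rw [os_spl_tl] at this
        exact absurd this hsS
      · exfalso
        refine hcon W (sp_same hW hun ?_ ?_)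
        · intro b' hb' _
          refine ⟨fun h => ?_, fun h => ?_⟩
          · rcases hbe b' hb' h with h3 | h3
            · exact hsX h3.2.1
            · exact hwX h3.2.1
          · rcases hbf b' hb' h with h3 | h3
            · exact hwX h3.2.1
            · exact hxX h3.2.1
        · intro b' _ _ _; simp

end

end Pool.Agent.LC
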