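import Pool.Agent.Lib_helper64.OSBase
import Pool.Agent.Lib_helper64.Lift
import Pool.Agent.Lib_helper64.Split

set_option autoImplicit false
set_option linter.unusedVariables false

namespace Pool.Agent.LC

universe u uV uE uI

variable {V : Type uV} {E : Type u} {ι : Type uI}
variable {G : E → Bool → V} {A : Set E} {c c1 : V → Option ι}

/-- the choice of linkage in the nontrivial case -/
lemma os_caseB (hA : Adm G A c) (hL : Loose G A c)
    {t : ι} {e f : E × Bool} (he : e.1 ∈ A) (hf : f.1 ∈ A) (hne : e.1 ≠ f.1)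
    (hs : tl G e ∈ Sc c t) (hw : hd G e ∈ Nc c) (hfw : tl G f = hd G e)
    (hx : hd G f ∉ Sc c t) {X : Set V} {W : Set (List (E × Bool))}
    (hreg : Reg c t X) (hW : Lk (spl G e f) (A \ {f.1}) (Sc c t) X ∅ W)
    (hxX : hd G f ∈ X) (hwX : hd G e ∉ X) {L1 : List (E × Bool)} (hL1 : L1 ∈ W)
    (hL1e : L1.head? = some e) {g0 : E × Bool} (hg0 : g0 ∈ Lv G A X) (hg0e : g0.1 ≠ e.1)
    (hg0f : g0.1 ≠ f.1) (hg0S : tl G g0 ∉ Sc c t) :
    ∃ W', Lk (spl G e f) (A \ {f.1}) (Sc c t) X ∅ W' ∧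
      Full (spl G e f) (A \ {f.1}) (Sc c t) W' ∧
      ∃ L ∈ W', L.head? = some e ∧ L.getLast? = some g0 := by
  classical
  set G1 := spl G e f with hG1
  have hXS : X ≠ Sc c t := by
    intro h; rw [h] at hxX; exact hx hxX
  have htlX : tl G e ∈ X := hreg.1 hs
  -- darts of L1
  obtain ⟨β, hβ⟩ := List.head?_eq_some_iff.1 hL1e
  have t1 := hW.tr L1 hL1
  obtain ⟨b, hb, hlb⟩ := hW.last L1 hL1
  have hGe : ∀ a : E, a ≠ e.1 → G1 a = G a := fun a ha => (os_spl_ne ha).symm
  have hβne : β ≠ [] := by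
    rintro rfl
    rw [hβ] at hlb
    have : e = b := by simpa using hlb
    subst this
    apply hb.1.2.2
    rw [hG1, os_spl_hd]
    exact hxX
  have hbβ : b ∈ β := by
    rw [hβ] at hlb
    obtain ⟨a, β', rfl⟩ := List.exists_cons_of_ne_nil hβne
    rw [List.getLast?_cons_cons] at hlb
    exact mem_of_getLast? hlb
  have hnd : e.1 ∉ β.map Prod.fst := by
    have := t1.nodup
    rw [hβ, List.map_cons, List.nodup_cons] at this
    exact this.1
  have hbe : b.1 ≠ e.1 := by
    intro h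
    exact hnd (h ▸ List.mem_map_of_mem (f := Prod.fst) hbβ)
  have hbf : b.1 ≠ f.1 := fun h => hb.1.1.2 h
  have hbX : b ∈ Lv G A X := by
    refine ⟨hb.1.1.1, ?_, ?_⟩
    · rw [← tl_congr (hGe _ hbe)]; exact hb.1.2.1
    · rw [← hd_congr (hGe _ hbe)]; exact hb.1.2.2
  have heX : e ∈ Lv G A X := ⟨he, htlX, hwX⟩
  -- the other trails do not use e
  have hoth : ∀ L ∈ W \ {L1}, ∀ d ∈ L, d.1 ≠ e.1 := by
    rintro L ⟨hLW, hLne⟩ d hd h
    exact hLne (hW.disj L hLW L1 hL1 d hd e (by rw [hβ]; simp) h)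
  have hothf : ∀ L ∈ W, ∀ d ∈ L, d.1 ≠ f.1 := by
    intro L hLW d hd h
    exact ((hW.tr L hLW).sub d hd).2 h
  have key0 : Lk G A (Sc c t) X {rv f, b} (insert [e] (W \ {L1})) := by
    refine ⟨⟨?_, ?_⟩, ?_, ?_⟩
    · rintro L (rfl | hLW)
      · exact isTr_single heX hs hreg.1
      · exact isTr_congr (hW.tr L hLW.1) (fun d hd => hGe _ (hoth L hLW d hd))
          (fun d hd => ((hW.tr L hLW.1).sub d hd).1)
    · rintro L (rfl | hLW) L' (rfl | hLW') d hd d' hd' h
      · rfl
      · rw [List.mem_singleton.1 hd] at h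
        exact absurd h.symm (hoth L' hLW' d' hd')
      · rw [List.mem_singleton.1 hd'] at h
        exact absurd h (hoth L hLW d hd)
      · exact hW.disj L hLW.1 L' hLW'.1 d hd d' hd' h
    · rintro L (rfl | hLW)
      · refine ⟨e, ⟨heX, ?_⟩, rfl⟩
        rintro (h | h)
        · exact hne (by rw [h]; rfl)
        · exact hbe (by rw [h])
      · obtain ⟨b', hb', hl'⟩ := hW.last L hLW.1
        have hb'e := hoth L hLW b' (mem_of_getLast? hl')
        refine ⟨b', ⟨⟨hb'.1.1.1, ?_, ?_⟩, ?_⟩, hl'⟩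
        · rw [← tl_congr (hGe _ hb'e)]; exact hb'.1.2.1
        · rw [← hd_congr (hGe _ hb'e)]; exact hb'.1.2.2
        · rintro (h | h)
          · exact hothf L hLW.1 b' (mem_of_getLast? hl') (by rw [h]; rfl)
          · rw [Set.mem_singleton_iff] at h
            subst h
            exact hLW.2 (hW.unique hLW.1 hL1 (mem_of_getLast? hl') (mem_of_getLast? hlb))
    · rintro b' ⟨hb', hbn⟩
      by_cases h1 : b'.1 = e.1
      · rcases eq_or_eq_rv h1.symm with h2 | h2
        · exact ⟨[e], Or.inl rfl, by rw [h2]; rfl⟩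
        · exfalso
          rw [h2] at hb'
          exact hwX (by simpa using hb'.2.1)
      by_cases h2 : b'.1 = f.1
      · exfalso
        rcases eq_or_eq_rv h2.symm with h3 | h3
        · rw [h3] at hb'
          apply hwX
          have := hb'.2.1
          rwa [hfw] at this
        · exact hbn (Or.inl h3)
      · obtain ⟨L, hLW, hl⟩ := hW.cov b' ⟨⟨⟨hb'.1, h2⟩, by
          rw [tl_congr (hGe _ h1)]; exact hb'.2.1, by
          rw [hd_congr (hGe _ h1)]; exact hb'.2.2⟩, by simp⟩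
        refine ⟨L, Or.inr ⟨hLW, ?_⟩, hl⟩
        intro h3
        rw [Set.mem_singleton_iff.1 h3, hlb] at hl
        exact hbn (Or.inr (Option.some.inj hl).symm)
  have key1 : ∃ W1, Lk G A (Sc c t) X {rv f, g0} W1 := by
    by_cases h1 : g0 = b
    · rw [h1]; exact ⟨_, key0⟩
    · exact exchange hA hL hreg key0 hXS hg0 (fun h => hg0f (by rw [h]; rfl)) h1 hg0S
  obtain ⟨W1, hW1⟩ := key1
  obtain ⟨Q0, hQ0w, hQ0⟩ := connect hA hL hreg hW1 hXS
  obtain ⟨Q, hQw, hQn, hQs⟩ := exists_nodup_walk G hQ0w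
  have hQ : ∀ d ∈ Q, d.1 ∈ A ∧ tl G d ∈ X \ Sc c t ∧ hd G d ∈ X \ Sc c t ∧
        ∀ L' ∈ W1, ∀ d' ∈ L', d'.1 ≠ d.1 := fun d hd => hQ0 d (hQs d hd)
  obtain ⟨hfull1, -, hrfK, hg0K, -, -⟩ := def_two hA hL hreg hW1 Set.inter_subset_left hXS
  have heS : e ∈ Lv G A (Sc c t) := ⟨he, hs, fun h => nc_sc hw h⟩
  have he1 : [e] ∈ W1 := by
    obtain ⟨L, hLW, hh⟩ := hfull1 e heS
    obtain ⟨γ, hγ⟩ := List.head?_eq_some_iff.1 hh
    have := (hW1.tr L hLW).leave_last (α := []) hγ heX.2.2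
    subst this
    rw [← hγ]; exact hLW
  have hoth1 : ∀ L ∈ W1 \ {[e]}, ∀ d ∈ L, d.1 ≠ e.1 := by
    rintro L ⟨hLW, hLne⟩ d hd h
    exact hLne (hW1.disj L hLW [e] he1 d hd e (by simp) h)
  have hf1 : ∀ L ∈ W1, ∀ d ∈ L, d.1 ≠ f.1 := hW1.unused_K (k := rv f) (by simp) hrfK.2
  have hg1 : ∀ L ∈ W1, ∀ d ∈ L, d.1 ≠ g0.1 := hW1.unused_K (k := g0) (by simp) hg0K.2
  have hQe : ∀ d ∈ Q, d.1 ≠ e.1 := by
    intro d hd h
    rcases eq_or_eq_rv h.symm with h2 | h2
    · apply (hQ d hd).2.1.2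
      rw [h2]; exact hs
    · apply (hQ d hd).2.2.1.2
      rw [h2, hd_rv]; exact hs
  have hQf : ∀ d ∈ Q, d.1 ≠ f.1 := by
    intro d hd h
    rcases eq_or_eq_rv h.symm with h2 | h2
    · apply hwX
      rw [← hfw, ← h2]
      exact (hQ d hd).2.1.1
    · apply hwX
      have := (hQ d hd).2.2.1.1
      rw [h2, hd_rv, hfw] at this
      exact this
  have hQg : ∀ d ∈ Q, d.1 ≠ g0.1 := by
    intro d hd h
    rcases eq_or_eq_rv h.symm with h2 | h2
    · apply hg0.2.2
      rw [← h2]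
      exact (hQ d hd).2.2.1.1
    · apply hg0.2.2
      have := (hQ d hd).2.1.1
      rw [h2, tl_rv] at this
      exact this
  have hQG1 : Wk G1 (hd G f) Q (tl G g0) := by
    have := wk_congr (G1 := G1) (fun d hd => (hGe _ (hQe d hd)).symm) hQw
    rwa [tl_rv] at this
  have hg0t : tl G1 g0 = tl G g0 := tl_congr (hGe _ hg0e)
  have hg0h : hd G1 g0 = hd G g0 := hd_congr (hGe _ hg0e)
  set M : List (E × Bool) := e :: (Q ++ [g0]) with hM
  have hMtr : IsTr G1 (A \ {f.1}) (Sc c t) X M := by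
    refine ⟨by simp [hM], ⟨tl G e, hs, hd G g0, ?_⟩, ?_, ?_, ?_, ?_⟩
    · rw [hM, wk_cons, hG1, os_spl_tl, os_spl_hd, ← hG1]
      refine ⟨rfl, ?_⟩
      rw [wk_concat, hg0t, hg0h]
      exact ⟨hQG1, rfl⟩
    · rw [hM, List.map_cons, List.nodup_cons]
      refine ⟨?_, ?_⟩
      · intro h
        obtain ⟨d, hd, hde⟩ := List.mem_map.1 h
        rcases List.mem_append.1 hd with hd | hd
        · exact hQe d hd hde
        · rw [List.mem_singleton.1 hd] at hde; exact hg0e hde
      · rw [nodup_fst_append]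
        refine ⟨hQn, by simp, ?_⟩
        intro d hd d' hd' h
        rw [List.mem_singleton.1 hd'] at h
        exact hQg d hd h
    · intro d hd
      rcases List.mem_cons.1 hd with rfl | hd
      · exact ⟨he, hne⟩
      · rcases List.mem_append.1 hd with hd | hd
        · exact ⟨(hQ d hd).1, hQf d hd⟩
        · rw [List.mem_singleton.1 hd]; exact ⟨hg0.1, hg0f⟩
    · intro d hd
      rcases List.mem_cons.1 hd with rfl | hd
      · rw [hG1, os_spl_hd]; exact hx
      · rcases List.mem_append.1 hd with hd | hd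
        · rw [hd_congr (hGe _ (hQe d hd))]; exact (hQ d hd).2.2.1.2
        · rw [List.mem_singleton.1 hd, hg0h]; exact fun h => hg0.2.2 (hreg.1 h)
    · intro d hd
      rcases List.mem_cons.1 hd with rfl | hd
      · rw [hG1, os_spl_tl]; exact htlX
      · rcases List.mem_append.1 hd with hd | hd
        · rw [tl_congr (hGe _ (hQe d hd))]; exact (hQ d hd).2.1.1
        · rw [List.mem_singleton.1 hd, hg0t]; exact hg0.2.1
  have hMlast : M.getLast? = some g0 := by
    rw [hM, ← List.cons_append, List.getLast?_concat]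
  have hMdj : ∀ L ∈ W1 \ {[e]}, EDisj M L := by
    intro L hLW d hd d' hd' h
    rcases List.mem_cons.1 hd with rfl | hd
    · exact hoth1 L hLW d' hd' h.symm
    · rcases List.mem_append.1 hd with hd | hd
      · exact (hQ d hd).2.2.2 L hLW.1 d' hd' h.symm
      · rw [List.mem_singleton.1 hd] at h
        exact hg1 L hLW.1 d' hd' h.symm
  refine ⟨insert M (W1 \ {[e]}), ⟨⟨?_, ?_⟩, ?_, ?_⟩, ?_, M, Or.inl rfl, rfl, hMlast⟩
  · rintro L (rfl | hLW)
    · exact hMtr
    · exact isTr_congr (hW1.tr L hLW.1) (fun d hd => (hGe _ (hoth1 L hLW d hd)).symm)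
        (fun d hd => ⟨(hW1.tr L hLW.1).sub d hd, hf1 L hLW.1 d hd⟩)
  · rintro L (rfl | hLW) L' (rfl | hLW') d hd d' hd' h
    · rfl
    · exact absurd h (hMdj L' hLW' d hd d' hd')
    · exact absurd h.symm (hMdj L hLW d' hd' d hd)
    · exact hW1.disj L hLW.1 L' hLW'.1 d hd d' hd' h
  · rintro L (rfl | hLW)
    · refine ⟨g0, ⟨⟨⟨hg0.1, hg0f⟩, ?_, ?_⟩, by simp⟩, hMlast⟩
      · rw [hg0t]; exact hg0.2.1
      · rw [hg0h]; exact hg0.2.2
    · obtain ⟨b', hb', hl'⟩ := hW1.last L hLW.1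
      have hmem := mem_of_getLast? hl'
      have hb'e := hoth1 L hLW b' hmem
      refine ⟨b', ⟨⟨⟨hb'.1.1, hf1 L hLW.1 b' hmem⟩, ?_, ?_⟩, by simp⟩, hl'⟩
      · rw [tl_congr (hGe _ hb'e)]; exact hb'.1.2.1
      · rw [hd_congr (hGe _ hb'e)]; exact hb'.1.2.2
  · rintro b' ⟨hb', -⟩
    have hb'e : b'.1 ≠ e.1 := by
      intro h
      rcases eq_or_eq_rv h.symm with h2 | h2
      · apply hb'.2.2
        rw [h2, hG1, os_spl_hd]; exact hxX
      · apply hb'.2.2
        rw [h2, hd_rv, hG1, os_spl_tl]; exact htlX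
    by_cases h1 : b' = g0
    · exact ⟨M, Or.inl rfl, by rw [h1]; exact hMlast⟩
    · obtain ⟨L, hLW, hl⟩ := hW1.cov b' ⟨⟨hb'.1.1, by
        rw [← tl_congr (hGe _ hb'e)]; exact hb'.2.1, by
        rw [← hd_congr (hGe _ hb'e)]; exact hb'.2.2⟩, by
        rintro (h | h)
        · exact hb'.1.2 (by rw [h]; rfl)
        · exact h1 h⟩
      refine ⟨L, Or.inr ⟨hLW, ?_⟩, hl⟩
      intro h
      rw [Set.mem_singleton_iff.1 h] at hl
      have : e = b' := by simpa using hl
      exact hb'e (by rw [this])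
  · intro e' he'
    by_cases h1 : e'.1 = e.1
    · rcases eq_or_eq_rv h1.symm with h2 | h2
      · exact ⟨M, Or.inl rfl, by rw [h2]; rfl⟩
      · exfalso
        have := he'.2.1
        rw [h2, tl_rv, hG1, os_spl_hd] at this
        exact hx this
    · obtain ⟨L, hLW, hh⟩ := hfull1 e' ⟨he'.1.1, by
        rw [← tl_congr (hGe _ h1)]; exact he'.2.1, by
        rw [← hd_congr (hGe _ h1)]; exact he'.2.2⟩
      refine ⟨L, Or.inr ⟨hLW, ?_⟩, hh⟩
      intro h
      rw [Set.mem_singleton_iff.1 h] at hh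
      have : e = e' := by simpa using hh
      exact h1 (by rw [this])

/-- existence of a short walk to another terminal set -/
def DistLe (G : E → Bool → V) (A : Set E) (c : V → Option ι) (t : ι) (w : V) (n : ℕ) : Prop :=
  ∃ Q z, Q.length ≤ n ∧ Wk G w Q z ∧ (∀ d ∈ Q, d.1 ∈ A ∧ tl G d ∈ Nc c) ∧ ∃ t' ≠ t, z ∈ Sc c t'

lemma lk_full_self {S : Set V} {W : Set (List (E × Bool))} (hW : Lk G A S S ∅ W) {e : E × Bool}
    (he : e ∈ Lv G A S) {L : List (E × Bool)} (hL : L ∈ W) (hh : L.head? = some e) : L = [e] := by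
  obtain ⟨γ, hγ⟩ := List.head?_eq_some_iff.1 hh
  have := (hW.tr L hL).leave_last (α := []) hγ he.2.2
  rw [hγ, this]

theorem os_loose (n : ℕ) : ∀ (G : E → Bool → V) (A : Set E) (c : V → Option ι), Adm G A c →
    Loose G A c → ∀ (t : ι), ∀ e ∈ Lv G A (Sc c t), DistLe G A c t (hd G e) n →
    ∃ t' R, IsTT G A c t t' R ∧ R.head? = some e ∧ Good G (A \ edg R) c := by
  classical
  induction n using Nat.strong_induction_on with
  | _ n ih =>
  intro G A c hA hL t e he hdist
  -- choose a walk of minimal length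
  have hex : ∃ m, DistLe G A c t (hd G e) m := ⟨n, hdist⟩
  obtain ⟨Q, z, hQlen, hQw, hQ, t', ht', hz⟩ := Nat.find_spec hex
  have hmn : Nat.find hex ≤ n := Nat.find_min' hex hdist
  have hmin : ∀ Q' z', Wk G (hd G e) Q' z' → (∀ d ∈ Q', d.1 ∈ A ∧ tl G d ∈ Nc c) →
      (∃ t' ≠ t, z' ∈ Sc c t') → Q.length ≤ Q'.length := by
    intro Q' z' h1 h2 h3
    exact hQlen.trans (Nat.find_min' hex ⟨Q', z', le_rfl, h1, h2, h3⟩)
  cases Q with
  | nil =>
    have hzz : hd G e = z := hQw
    have htt : IsTT G A c t t' [e] := by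
      refine ⟨ht'.symm, ⟨tl G e, he.2.1, z, hz, rfl, hzz⟩, by simp, ?_, by simp⟩
      intro d hd
      rw [List.mem_singleton.1 hd]; exact he.1
    refine ⟨t', [e], htt, rfl, ?_⟩
    have : A \ edg [e] = A \ {e.1} := by
      ext a
      simp [edg, eq_comm]
    rw [this]
    exact good_of_loose (loose_remove hA hL e.1)
  | cons f Q =>
    have hfA : f.1 ∈ A := (hQ f (by simp)).1
    have hfw : tl G f = hd G e := hQw.1
    have hw : hd G e ∈ Nc c := by rw [← hfw]; exact (hQ f (by simp)).2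
    have hQw' : Wk G (hd G f) Q z := hQw.2
    have hQ' : ∀ d ∈ Q, d.1 ∈ A ∧ tl G d ∈ Nc c := fun d hd => hQ d (List.mem_cons_of_mem _ hd)
    have hzS : z ∉ Sc c t := fun h => ht' (sc_disj hz h)
    have hx : hd G f ∉ Sc c t := by
      cases Q with
      | nil => have : hd G f = z := hQw'
               rw [this]; exact hzS
      | cons a Q =>
        have : tl G a = hd G f := hQw'.1
        rw [← this]
        exact fun h => nc_sc (hQ' a (by simp)).2 h
    have hne : e.1 ≠ f.1 := by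
      intro h
      rcases eq_or_eq_rv h with h1 | h1
      · rw [h1] at hfw
        exact nc_sc (hfw ▸ hw) he.2.1
      · apply hx
        rw [h1, hd_rv]; exact he.2.1
    have hQhd : ∀ d ∈ Q, hd G d ∉ Sc c t :=
      hQw'.hd_mem (P := fun v => v ∉ Sc c t) (fun d hd => fun h => nc_sc (hQ' d hd).2 h) hzS
    have hQe : ∀ d ∈ Q, d.1 ≠ e.1 := by
      intro d hd h
      rcases eq_or_eq_rv h.symm with h1 | h1
      · rw [h1] at hd
        exact nc_sc (hQ' _ hd).2 he.2.1
      · apply hQhd d hd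
        rw [h1, hd_rv]; exact he.2.1
    have hQf : ∀ d ∈ Q, d.1 ≠ f.1 := by
      intro d hd h
      obtain ⟨α, β, hαβ⟩ := List.append_of_mem hd
      have h2 := hQw'
      rw [hαβ, wk_split] at h2
      have hβ : ∀ d' ∈ β, d'.1 ∈ A ∧ tl G d' ∈ Nc c := by
        intro d' hd'
        exact hQ' d' (by rw [hαβ]; simp [hd'])
      rcases eq_or_eq_rv h.symm with h1 | h1
      · have := hmin (f :: β) z ⟨hfw, by rw [← h1]; exact h2.2⟩ (by
          intro d' hd'
          rcases List.mem_cons.1 hd' with rfl | hd'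
          · exact hQ d' (by simp)
          · exact hβ d' hd') ⟨t', ht', hz⟩
        rw [hαβ] at this
        simp at this
        omega
      · have := hmin β z (by
          have h3 := h2.2
          rw [h1, hd_rv, hfw] at h3
          exact h3) hβ ⟨t', ht', hz⟩
        rw [hαβ] at this
        simp at this
        omega
    set G1 := spl G e f with hG1
    have hGe : ∀ a : E, a ≠ e.1 → G1 a = G a := fun a ha => (os_spl_ne ha).symm
    have hA1 : Adm G1 (A \ {f.1}) c := split_adm hA he.1 hfA hne he.2.1 hw hfw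
    obtain ⟨c1, W, hext, hL1, hlk⟩ := exists_max G1 (A \ {f.1}) c
    have hfull : ∀ s, Full G1 (A \ {f.1}) (Sc c s) (W s) := fun s =>
      (split_full hA hL he.1 hfA hne he.2.1 hw hfw hx (hext.reg s) (hlk s)).1
    have hQ1 : Wk G1 (hd G f) Q z := wk_congr (fun d hd => (hGe _ (hQe d hd)).symm) hQw'
    have hz1 : z ∈ Sc c1 t' := hext.sc t' hz
    have hzX : z ∉ Sc c1 t := fun h => ht' (sc_disj hz1 h)
    have hlen : Q.length < n := by
      have h5 := hQlen.trans hmn
      rw [List.length_cons] at h5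
      omega
    -- the choice of the linkage at t
    have key : ∃ g ∈ Lv G1 (A \ {f.1}) (Sc c1 t), ∃ Wt, Lk G1 (A \ {f.1}) (Sc c t) (Sc c1 t) ∅ Wt ∧
        Full G1 (A \ {f.1}) (Sc c t) Wt ∧ (∃ L ∈ Wt, L.head? = some e ∧ L.getLast? = some g) ∧
        ∃ m < n, DistLe G1 (A \ {f.1}) c1 t (hd G1 g) m := by
      by_cases hX : Sc c1 t = Sc c t
      · have heL : e ∈ Lv G1 (A \ {f.1}) (Sc c t) := by
          refine ⟨⟨he.1, hne⟩, ?_, ?_⟩
          · rw [hG1, os_spl_tl]; exact he.2.1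
          · rw [hG1, os_spl_hd]; exact hx
        obtain ⟨L, hLW, hh⟩ := hfull t e heL
        have hlkt := hlk t
        rw [hX] at hlkt
        have hLe := lk_full_self hlkt heL hLW hh
        refine ⟨e, by rw [hX]; exact heL, W t, hlk t, hfull t, ⟨L, hLW, hh, by rw [hLe]; rfl⟩,
          Q.length, hlen, ?_⟩
        obtain ⟨Q', z', h1, h2, h3, h4⟩ := trunc (c := c1) (A := A \ {f.1}) (t := t) Q hQ1 (by
          intro d hd
          refine ⟨⟨(hQ' d hd).1, hQf d hd⟩, ?_⟩
          rw [hX, tl_congr (hGe _ (hQe d hd))]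
          exact fun h => nc_sc (hQ' d hd).2 h) ⟨t', ht', hz1⟩
        refine ⟨Q', z', h1, ?_, h3, h4⟩
        rw [hG1, os_spl_hd, ← hG1]; exact h2
      · obtain ⟨hxX, hwX, L1, hL1W, hL1e⟩ :=
          (split_full hA hL he.1 hfA hne he.2.1 hw hfw hx (hext.reg t) (hlk t)).2 rfl hX
        -- the last exit of Q
        have hQne : ∃ d ∈ Q, tl G d ∈ Sc c1 t := by
          cases Q with
          | nil =>
            exfalso
            have : hd G f = z := hQw'
            rw [this] at hxX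
            exact hzX hxX
          | cons a Q =>
            refine ⟨a, by simp, ?_⟩
            have : tl G a = hd G f := hQw'.1
            rw [this]; exact hxX
        obtain ⟨Q1, g0, Q2, hQe2, hg0t, hQ2⟩ := exists_last_split (fun d => tl G d ∈ Sc c1 t) Q hQne
        have hg0Q : g0 ∈ Q := by rw [hQe2]; simp
        have hQ2Q : ∀ d ∈ Q2, d ∈ Q := by
          intro d hd; rw [hQe2]; simp [hd]
        have hw2 := hQw'
        rw [hQe2, wk_split] at hw2
        have hg0h : hd G g0 ∉ Sc c1 t := by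
          cases Q2 with
          | nil => have : hd G g0 = z := hw2.2
                   rw [this]; exact hzX
          | cons a Q2 =>
            have : tl G a = hd G g0 := hw2.2.1
            rw [← this]
            exact hQ2 a (by simp)
        obtain ⟨W', h1, h2, L, hLW, h3, h4⟩ := os_caseB hA hL he.1 hfA hne he.2.1 hw hfw hx
          (hext.reg t) (hlk t) hxX hwX hL1W hL1e (g0 := g0) ⟨(hQ' g0 hg0Q).1, hg0t, hg0h⟩
          (hQe g0 hg0Q) (hQf g0 hg0Q) (fun h => nc_sc (hQ' g0 hg0Q).2 h)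
        have hgt : tl G1 g0 = tl G g0 := tl_congr (hGe _ (hQe g0 hg0Q))
        have hgh : hd G1 g0 = hd G g0 := hd_congr (hGe _ (hQe g0 hg0Q))
        refine ⟨g0, ⟨⟨(hQ' g0 hg0Q).1, hQf g0 hg0Q⟩, by rw [hgt]; exact hg0t,
          by rw [hgh]; exact hg0h⟩, W', h1, h2, ⟨L, hLW, h3, h4⟩, Q2.length, ?_, ?_⟩
        · rw [hQe2] at hlen
          simp at hlen
          omega
        · have hQ21 : Wk G1 (hd G g0) Q2 z :=
            wk_congr (fun d hd => (hGe _ (hQe d (hQ2Q d hd))).symm) hw2.2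
          obtain ⟨Q', z', h1, h2, h3, h4⟩ := trunc (c := c1) (A := A \ {f.1}) (t := t) Q2 hQ21 (by
            intro d hd
            refine ⟨⟨(hQ' d (hQ2Q d hd)).1, hQf d (hQ2Q d hd)⟩, ?_⟩
            rw [tl_congr (hGe _ (hQe d (hQ2Q d hd)))]
            exact hQ2 d hd) ⟨t', ht', hz1⟩
          exact ⟨Q', z', h1, by rw [hgh]; exact h2, h3, h4⟩
    obtain ⟨g, hg, Wt, hlkt, hfullt, ⟨L, hLWt, hLh, hLl⟩, m, hm, hdm⟩ := key
    obtain ⟨t1, R1, hR1, hR1h, hgood1⟩ := ih m hm G1 (A \ {f.1}) c1 (hA1.ext hext) hL1 t g hg hdm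
    obtain ⟨R2, hR2, hR2h, hgood2⟩ := lift_good hext (Function.update W t Wt) (by
      intro s
      by_cases hs : s = t
      · subst hs; rw [Function.update_self]; exact hlkt
      · rw [Function.update_of_ne hs]; exact hlk s) (by
      intro s
      by_cases hs : s = t
      · subst hs; rw [Function.update_self]; exact hfullt
      · rw [Function.update_of_ne hs]; exact hfull s) hR1 hR1h (L := L)
      (by rw [Function.update_self]; exact hLWt) hLh hLl hgood1
    obtain ⟨ρ, hρ⟩ := List.head?_eq_some_iff.1 hR2h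
    subst hρ
    obtain ⟨u, hu, v, hv, huv⟩ := hR2.wk
    rw [wk_cons, hG1, os_spl_tl, os_spl_hd, ← hG1] at huv
    have hnd := hR2.nodup
    rw [List.map_cons, List.nodup_cons] at hnd
    have hρe : ∀ d ∈ ρ, d.1 ≠ e.1 := by
      intro d hd h
      exact hnd.1 (h ▸ List.mem_map_of_mem (f := Prod.fst) hd)
    have hρf : ∀ d ∈ ρ, d.1 ≠ f.1 := by
      intro d hd h
      exact (hR2.sub d (List.mem_cons_of_mem _ hd)).2 h
    have hedg : A \ edg (e :: f :: ρ) = (A \ {f.1}) \ edg (e :: ρ) := by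
      ext a
      simp only [edg, Set.mem_sdiff, Set.mem_ofPred_eq, List.mem_cons, Set.mem_singleton_iff]
      constructor
      · rintro ⟨h1, h2⟩
        refine ⟨⟨h1, fun h => h2 ⟨f, by simp, h.symm⟩⟩, ?_⟩
        rintro ⟨d, hd | hd, rfl⟩
        · exact h2 ⟨d, Or.inl hd, rfl⟩
        · exact h2 ⟨d, Or.inr (Or.inr hd), rfl⟩
      · rintro ⟨⟨h1, h2⟩, h3⟩
        refine ⟨h1, ?_⟩
        rintro ⟨d, hd | hd | hd, rfl⟩
        · exact h3 ⟨d, Or.inl hd, rfl⟩
        · exact h2 (by rw [hd])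
        · exact h3 ⟨d, Or.inr hd, rfl⟩
    refine ⟨t1, e :: f :: ρ, ⟨hR2.ne, ⟨u, hu, v, hv, ?_⟩, ?_, ?_, ?_⟩, rfl, ?_⟩
    · refine ⟨huv.1, hfw, ?_⟩
      exact wk_congr (fun d hd => hGe _ (hρe d hd)) huv.2
    · rw [List.map_cons, List.map_cons, List.nodup_cons, List.nodup_cons]
      refine ⟨?_, ?_, hnd.2⟩
      · intro h
        rcases List.mem_cons.1 h with h | h
        · exact hne h
        · exact hnd.1 h
      · intro h
        obtain ⟨d, hd, hde⟩ := List.mem_map.1 h
        exact hρf d hd hde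
    · intro d hd
      rcases List.mem_cons.1 hd with rfl | hd
      · exact he.1
      · rcases List.mem_cons.1 hd with rfl | hd
        · exact hfA
        · exact (hR2.sub d (List.mem_cons_of_mem _ hd)).1
    · intro d hd
      cases ρ with
      | nil =>
        have : d = e := by simpa using hd
        rw [this]; exact hw
      | cons a ρ =>
        have hinner := hR2.inner
        rw [List.dropLast_cons_of_ne_nil (by simp)] at hinner
        rw [List.dropLast_cons_of_ne_nil (by simp), List.dropLast_cons_of_ne_nil (by simp)] at hd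
        rcases List.mem_cons.1 hd with rfl | hd
        · exact hw
        · rcases List.mem_cons.1 hd with rfl | hd
          · have := hinner e (by simp)
            rwa [hG1, os_spl_hd] at this
          · have := hinner d (List.mem_cons_of_mem _ hd)
            rwa [hd_congr (hGe _ (hρe d (List.mem_of_mem_dropLast hd)))] at this
    · rw [hedg]
      refine hgood2.congrG ?_
      rintro a ⟨_, ha⟩
      apply hGe
      rintro rfl
      exact ha ⟨e, by simp, rfl⟩

/-- one step: a T-trail through a given dart -/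
theorem os_good (hA : Adm G A c) (hG : Good G A c) {t : ι} {e : E × Bool}
    (he : e ∈ Lv G A (Sc c t)) :
    ∃ t' R, IsTT G A c t t' R ∧ R.head? = some e ∧ Adm G (A \ edg R) c ∧
      Good G (A \ edg R) c := by
  obtain ⟨c1, hext, hL1, hW⟩ := hG
  choose W hlk hfull using hW
  obtain ⟨L, hLW, hLe⟩ := hfull t e he
  obtain ⟨g, hg, hLg⟩ := (hlk t).last L hLW
  obtain ⟨Q, z, h1, h2, h3⟩ := exists_walk hL1 hg.1
  obtain ⟨t1, R1, hR1, hR1h, hgood1⟩ := os_loose Q.length G A c1 (hA.ext hext) hL1 t g hg.1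
    ⟨Q, z, le_rfl, h1, h2, h3⟩
  obtain ⟨R, hR, hRh, hgood⟩ := lift_good hext W hlk hfull hR1 hR1h hLW hLe hLg hgood1
  exact ⟨t1, R, hR, hRh, adm_remove_tt hA hR, hgood⟩

end Pool.Agent.LC
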