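import Pool.Agent.Lib_helper64.Def

set_option autoImplicit false
set_option linter.unusedVariables false

namespace Pool.Agent.LC

universe uV uE uI

variable {V : Type uV} {E : Type uE} {ι : Type uI}

section congr
variable {G G1 : E → Bool → V} {A : Set E} {S X : Set V} {K : Set (E × Bool)}
  {W : Set (List (E × Bool))}

lemma tl_congr {d : E × Bool} (h : G d.1 = G1 d.1) : tl G d = tl G1 d := by
  simp [tl, h]

lemma hd_congr {d : E × Bool} (h : G d.1 = G1 d.1) : hd G d = hd G1 d := by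
  simp [hd, h]

lemma wk_congr {u v : V} {L : List (E × Bool)} (h : ∀ d ∈ L, G d.1 = G1 d.1) :
    Wk G u L v → Wk G1 u L v := by
  induction L generalizing u with
  | nil => exact id
  | cons d L ih =>
    rintro ⟨h1, h2⟩
    refine ⟨?_, ?_⟩
    · rw [← tl_congr (h d (by simp))]; exact h1
    · rw [← hd_congr (h d (by simp))]
      exact ih (fun d' hd' => h d' (List.mem_cons_of_mem _ hd')) h2

lemma isTr_congr {B : Set E} {L : List (E × Bool)} (h : IsTr G A S X L)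
    (hG : ∀ d ∈ L, G d.1 = G1 d.1) (hB : ∀ d ∈ L, d.1 ∈ B) : IsTr G1 B S X L := by
  obtain ⟨u, hu, v, hw⟩ := h.wk
  refine ⟨h.ne, ⟨u, hu, v, wk_congr hG hw⟩, h.nodup, hB, ?_, ?_⟩
  · intro d hd
    rw [← hd_congr (hG d hd)]; exact h.hdS d hd
  · intro d hd
    rw [← tl_congr (hG d hd)]; exact h.tlX d hd

lemma lv_congr (hG : ∀ e ∈ A, G e = G1 e) : Lv G A X = Lv G1 A X := by
  ext b
  constructor
  · rintro ⟨h1, h2, h3⟩
    have h := hG b.1 h1
    refine ⟨h1, ?_, ?_⟩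
    · rw [← tl_congr h]; exact h2
    · rw [← hd_congr h]; exact h3
  · rintro ⟨h1, h2, h3⟩
    have h := hG b.1 h1
    refine ⟨h1, ?_, ?_⟩
    · rw [tl_congr h]; exact h2
    · rw [hd_congr h]; exact h3

lemma Lk.congrG (h : Lk G A S X K W) (hG : ∀ e ∈ A, G e = G1 e) : Lk G1 A S X K W := by
  refine ⟨⟨?_, h.disj⟩, ?_, ?_⟩
  · intro L hL
    exact isTr_congr (h.tr L hL) (fun d hd => hG _ ((h.tr L hL).sub d hd)) (h.tr L hL).sub
  · rw [← lv_congr hG]; exact h.last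
  · rw [← lv_congr hG]; exact h.cov

lemma Full.congrG (h : Full G A S W) (hG : ∀ e ∈ A, G e = G1 e) : Full G1 A S W := by
  unfold Full
  rw [← lv_congr hG]; exact h

lemma Loose.congrG {c : V → Option ι} (h : Loose G A c) (hG : ∀ e ∈ A, G e = G1 e) :
    Loose G1 A c :=
  fun t X W hreg hW => h t X W hreg (hW.congrG (fun e he => (hG e he).symm))

lemma Good.congrG {c : V → Option ι} (h : Good G A c) (hG : ∀ e ∈ A, G e = G1 e) :
    Good G1 A c := by
  obtain ⟨c1, h1, h2, h3⟩ := h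
  refine ⟨c1, h1, h2.congrG hG, fun t => ?_⟩
  obtain ⟨W, hW, hF⟩ := h3 t
  exact ⟨W, hW.congrG hG, hF.congrG hG⟩

end congr

section
variable {G : E → Bool → V} {A : Set E} {S X : Set V} {c c1 : V → Option ι}

/-- the trivial linkage -/
lemma lk_trivial (hSX : S ⊆ X) (h : ∀ b ∈ Lv G A X, tl G b ∈ S) :
    Lk G A S X ∅ {L | ∃ b ∈ Lv G A X, L = [b]} := by
  refine ⟨⟨?_, ?_⟩, ?_, ?_⟩
  · rintro L ⟨b, hb, rfl⟩
    exact isTr_single hb (h b hb) hSX
  · rintro L ⟨b, hb, rfl⟩ L' ⟨b', hb', rfl⟩ d hd d' hd' he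
    rw [List.mem_singleton.1 hd, List.mem_singleton.1 hd'] at he
    rcases eq_or_eq_rv he with h1 | h1
    · rw [h1]
    · exfalso
      apply hb.2.2
      have := hb'.2.1
      rw [h1] at this
      simpa using this
  · rintro L ⟨b, hb, rfl⟩
    exact ⟨b, ⟨hb, by simp⟩, by simp⟩
  · rintro b ⟨hb, _⟩
    exact ⟨[b], ⟨b, hb, rfl⟩, by simp⟩

lemma good_of_loose (h : Loose G A c) : Good G A c := by
  refine ⟨c, Ext.refl c, h, fun t => ⟨_, lk_trivial subset_rfl (fun b hb => hb.2.1), ?_⟩⟩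
  intro e he
  exact ⟨[e], ⟨e, he, rfl⟩, rfl⟩

lemma sc_disj {t t' : ι} {v : V} (h : v ∈ Sc c t) (h' : v ∈ Sc c t') : t = t' := by
  have h1 : c v = some t := h
  have h2 : c v = some t' := h'
  rw [h1] at h2
  exact Option.some.inj h2

lemma nc_sc {t : ι} {v : V} (h : v ∈ Nc c) (h' : v ∈ Sc c t) : False := by
  have h1 : c v = none := h
  have h2 : c v = some t := h'
  rw [h1] at h2
  exact absurd h2 (by simp)

lemma nc_or (c : V → Option ι) (v : V) : v ∈ Nc c ∨ ∃ t, v ∈ Sc c t := by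
  rcases h : c v with _ | t
  · exact Or.inl h
  · exact Or.inr ⟨t, h⟩

lemma Ext.reg (h : Ext c c1) (t : ι) : Reg c t (Sc c1 t) := by
  refine ⟨h.sc t, ?_⟩
  rintro v ⟨h1, h2⟩
  rcases nc_or c v with h3 | ⟨t', h3⟩
  · exact h3
  · have := sc_disj h1 (h.sc t' h3)
    subst this
    exact absurd h3 h2

lemma Adm.ext (h : Adm G A c) (he : Ext c c1) : Adm G A c1 :=
  fun X hX hf => h X (hX.trans he.nc) hf

/-- removing a T-trail preserves admissibility -/
lemma adm_remove_tt (hA : Adm G A c) {t t' : ι} {R : List (E × Bool)}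
    (hR : IsTT G A c t t' R) : Adm G (A \ edg R) c := by
  intro X hX hfin
  obtain ⟨u, hu, v, hv, hw⟩ := hR.wk
  obtain ⟨h1, h2⟩ := cut_ncard G (edg R) X R hR.nodup (by
    intro e
    constructor
    · rintro ⟨⟨d, hd, rfl⟩, h2⟩
      exact ⟨d, hd, rfl, fun h3 => h2 ((crossing_iff G X d).1 h3)⟩
    · rintro ⟨d, hd, rfl, h2⟩
      exact ⟨⟨d, hd, rfl⟩, fun h3 => h2 ((crossing_iff G X d).2 h3)⟩)
  have hev : Even (cutE G (edg R) X).ncard := by
    rw [h2, cr_parity G X hw]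
    constructor
    · intro h3; exact absurd hu (fun h4 => nc_sc (hX h3) h4)
    · intro h3; exact absurd hv (fun h4 => nc_sc (hX h3) h4)
  have hun : cutE G A X = cutE G (A \ edg R) X ∪ cutE G (edg R) X := by
    ext e
    constructor
    · rintro ⟨h3, h4⟩
      by_cases h5 : e ∈ edg R
      · exact Or.inr ⟨h5, h4⟩
      · exact Or.inl ⟨⟨h3, h5⟩, h4⟩
    · rintro (⟨h3, h4⟩ | ⟨h3, h4⟩)
      · exact ⟨h3.1, h4⟩
      · obtain ⟨d, hd, rfl⟩ := h3
        exact ⟨hR.sub d hd, h4⟩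
  have hdis : Disjoint (cutE G (A \ edg R) X) (cutE G (edg R) X) := by
    rw [Set.disjoint_left]
    rintro e ⟨h3, _⟩ ⟨h4, _⟩
    exact h3.2 h4
  have hAe := hA X hX (by rw [hun]; exact hfin.union h1)
  rw [hun, Set.ncard_union_eq hdis hfin h1] at hAe
  exact (Nat.even_add.1 hAe).2 hev

/-- removing one edge preserves looseness -/
lemma loose_remove (hA : Adm G A c) (hL : Loose G A c) (e : E) : Loose G (A \ {e}) c := by
  intro t X W hreg hW
  refine def_one hA hL hreg (K := {k | k.1 = e}) (W := W) ⟨⟨?_, hW.disj⟩, ?_, ?_⟩ ?_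
  · intro L hL
    exact isTr_congr (hW.tr L hL) (fun _ _ => rfl) (fun d hd => ((hW.tr L hL).sub d hd).1)
  · intro L hL
    obtain ⟨b, hb, hl⟩ := hW.last L hL
    exact ⟨b, ⟨⟨hb.1.1.1, hb.1.2⟩, hb.1.1.2⟩, hl⟩
  · rintro b ⟨hb, hbe⟩
    exact hW.cov b ⟨⟨⟨hb.1, hbe⟩, hb.2⟩, by simp⟩
  · rintro a ⟨ha1, ha2⟩ b ⟨hb1, hb2⟩
    have hab : a.1 = b.1 := by
      have h1 : a.1 = e := ha1
      have h2 : b.1 = e := hb1
      rw [h1, h2]
    rcases eq_or_eq_rv hab with h1 | h1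
    · exact h1.symm
    · exfalso
      apply ha2.2.2
      have := hb2.2.1
      rw [h1] at this
      simpa using this

/-- a walk to another terminal set -/
lemma exists_walk (hL : Loose G A c) {t : ι} {e : E × Bool} (he : e ∈ Lv G A (Sc c t)) :
    ∃ Q z, Wk G (hd G e) Q z ∧ (∀ d ∈ Q, d.1 ∈ A ∧ tl G d ∈ Nc c) ∧ ∃ t' ≠ t, z ∈ Sc c t' := by
  by_contra hcon
  push Not at hcon
  let C : Set V := {v | v ∈ Nc c ∧ ∃ Q, Wk G (hd G e) Q v ∧ ∀ d ∈ Q, d.1 ∈ A ∧ tl G d ∈ Nc c}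
  have hreg : Reg c t (Sc c t ∪ C) := by
    refine ⟨Set.subset_union_left, ?_⟩
    rintro v ⟨h1 | h1, h2⟩
    · exact absurd h1 h2
    · exact h1.1
  have hw : hd G e ∈ C := by
    refine ⟨?_, [], rfl, by simp⟩
    rcases nc_or c (hd G e) with h1 | ⟨t', h1⟩
    · exact h1
    · exfalso
      refine hcon [] _ rfl (by simp) t' ?_ h1
      rintro rfl
      exact he.2.2 h1
  have := hL t _ _ hreg (lk_trivial Set.subset_union_left (by
    rintro b ⟨hb1, hb2, hb3⟩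
    rcases hb2 with hb2 | ⟨hb2, Q, hQ1, hQ2⟩
    · exact hb2
    · exfalso
      have hQ' : Wk G (hd G e) (Q ++ [b]) (hd G b) := (wk_concat G Q b).2 ⟨hQ1, rfl⟩
      have hQ2' : ∀ d ∈ Q ++ [b], d.1 ∈ A ∧ tl G d ∈ Nc c := by
        intro d hd
        rcases List.mem_append.1 hd with hd | hd
        · exact hQ2 d hd
        · rw [List.mem_singleton.1 hd]; exact ⟨hb1, hb2⟩
      rcases nc_or c (hd G b) with h1 | ⟨t', h1⟩
      · exact hb3 (Or.inr ⟨h1, _, hQ', hQ2'⟩)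
      · refine hcon _ _ hQ' hQ2' t' ?_ h1
        rintro rfl
        exact hb3 (Or.inl h1)))
  have h2 : hd G e ∈ Sc c t := by
    rw [← this]; exact Or.inr hw
  exact nc_sc hw.1 h2

/-- truncation of a walk at the first vertex of another terminal set -/
lemma trunc {t : ι} (Q : List (E × Bool)) {y z : V} (hw : Wk G y Q z)
    (hQ : ∀ d ∈ Q, d.1 ∈ A ∧ tl G d ∉ Sc c t) (hz : ∃ t' ≠ t, z ∈ Sc c t') :
    ∃ Q' z', Q'.length ≤ Q.length ∧ Wk G y Q' z' ∧ (∀ d ∈ Q', d.1 ∈ A ∧ tl G d ∈ Nc c) ∧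
      ∃ t' ≠ t, z' ∈ Sc c t' := by
  induction Q generalizing y with
  | nil =>
    have : y = z := hw
    subst this
    exact ⟨[], y, le_rfl, rfl, by simp, hz⟩
  | cons d Q ih =>
    have hy : tl G d = y := hw.1
    rcases nc_or c y with h1 | ⟨t', h1⟩
    · obtain ⟨Q', z', h2, h3, h4, h5⟩ := ih hw.2 (fun d' hd' => hQ d' (List.mem_cons_of_mem _ hd'))
      refine ⟨d :: Q', z', by simpa using h2, ⟨hy, h3⟩, ?_, h5⟩
      intro d' hd'
      rcases List.mem_cons.1 hd' with rfl | hd'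
      · exact ⟨(hQ d' (by simp)).1, by rw [hy]; exact h1⟩
      · exact h4 d' hd'
    · refine ⟨[], y, by simp, rfl, by simp, t', ?_, h1⟩
      rintro rfl
      apply (hQ d (by simp)).2
      rw [hy]; exact h1

end

end Pool.Agent.LC
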