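import Pool.Agent.Lib_helper64.OSBase

set_option autoImplicit false
set_option linter.unusedVariables false

namespace Pool.Agent.LC

universe uV uE uI

section
variable {V : Type uV} {E : Type uE} {ι : Type uI} {G : E → Bool → V} {A : Set E} {c : V → Option ι}

/-- first dart of a trail leaves the terminal set -/
lemma IsTT.first {t t' : ι} {R : List (E × Bool)} (h : IsTT G A c t t' R) :
    ∃ g R', R = g :: R' ∧ g ∈ Lv G A (Sc c t) := by
  obtain ⟨u, hu, v, hv, hw⟩ := h.wk
  cases R with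
  | nil =>
    exfalso
    have : u = v := hw
    subst this
    have h1 : c u = some t := hu
    have h2 : c u = some t' := hv
    rw [h1] at h2
    exact h.ne (Option.some.inj h2)
  | cons g R' =>
    refine ⟨g, R', rfl, h.sub _ (by simp), ?_, ?_⟩
    · rw [hw.1]; exact hu
    · cases R' with
      | nil =>
        have h1 : hd G g = v := hw.2
        rw [h1]
        intro h3
        have h1 : c v = some t := h3
        have h2 : c v = some t' := hv
        rw [h1] at h2
        exact h.ne (Option.some.inj h2)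
      | cons a R' =>
        have h3 := h.inner g (by simp)
        intro h4
        have h5 : c (hd G g) = none := h3
        have h6 : c (hd G g) = some t := h4
        rw [h5] at h6
        exact absurd h6 (by simp)

lemma dropLast_rvl_mem {L : List (E × Bool)} {d : E × Bool} (hd' : d ∈ (rvl L).dropLast) :
    ∃ a L', L = a :: L' ∧ rv d ∈ L' := by
  cases L with
  | nil => simp at hd'
  | cons a L' =>
    refine ⟨a, L', rfl, ?_⟩
    rw [rvl_cons, List.dropLast_concat] at hd'
    exact mem_rvl.1 hd'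

/-- walk: heads of darts in `dropLast` are tails of later darts -/
lemma tl_of_mem_tail {G : E → Bool → V} {u v : V} {a : E × Bool} {L : List (E × Bool)}
    (h : Wk G u (a :: L) v) {d : E × Bool} (hd' : d ∈ L) :
    ∃ d' ∈ (a :: L).dropLast, hd G d' = tl G d := by
  induction L generalizing u a with
  | nil => simp at hd'
  | cons b L ih =>
    rcases List.mem_cons.1 hd' with rfl | h'
    · exact ⟨a, by simp, h.2.1.symm⟩
    · obtain ⟨d', h1, h2⟩ := ih h.2 h'
      exact ⟨d', by rw [List.dropLast_cons_of_ne_nil (by simp)]; exact List.mem_cons_of_mem _ h1, h2⟩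

/-- reversal of a T-trail -/
lemma IsTT.rev {t t' : ι} {R : List (E × Bool)} (h : IsTT G A c t t' R) :
    IsTT G A c t' t (rvl R) := by
  obtain ⟨u, hu, v, hv, hw⟩ := h.wk
  refine ⟨h.ne.symm, ⟨v, hv, u, hu, hw.rvl⟩, ?_, ?_, ?_⟩
  · rw [map_fst_rvl]; exact List.nodup_reverse.2 h.nodup
  · intro d hd'
    exact h.sub (rv d) (mem_rvl.1 hd')
  · intro d hd'
    obtain ⟨a, L', rfl, hm⟩ := dropLast_rvl_mem hd'
    obtain ⟨d', h1, h2⟩ := tl_of_mem_tail hw hm
    have := h.inner d' h1
    rwa [h2, tl_rv] at this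

/-- the darts of a T-trail: tails are the start or inner, heads are inner or the end -/
lemma IsTT.hd_cases {t t' : ι} {R : List (E × Bool)} (h : IsTT G A c t t' R) {d : E × Bool}
    (hd' : d ∈ R) : hd G d ∈ Nc c ∨ (hd G d ∈ Sc c t' ∧ R.getLast? = some d) := by
  obtain ⟨u, hu, v, hv, hw⟩ := h.wk
  have hne : R ≠ [] := List.ne_nil_of_mem hd'
  have e1 := (List.dropLast_append_getLast hne).symm
  rw [e1, List.mem_append, List.mem_singleton] at hd'
  rcases hd' with hd' | hd'
  · exact Or.inl (h.inner d hd')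
  · right
    rw [e1, wk_concat] at hw
    refine ⟨?_, ?_⟩
    · rw [hd', hw.2]; exact hv
    · rw [hd']; exact List.getLast?_eq_some_getLast hne

lemma IsTT.tl_cases {t t' : ι} {R : List (E × Bool)} (h : IsTT G A c t t' R) {d : E × Bool}
    (hd' : d ∈ R) : tl G d ∈ Nc c ∨ (tl G d ∈ Sc c t ∧ R.head? = some d) := by
  have h1 := h.rev.hd_cases (d := rv d) (by simpa using hd')
  rw [hd_rv] at h1
  rcases h1 with h1 | ⟨h1, h2⟩
  · exact Or.inl h1
  · refine Or.inr ⟨h1, ?_⟩
    cases R with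
    | nil => simp at hd'
    | cons a R' =>
      rw [rvl_cons, List.getLast?_concat] at h2
      have h3 := rv_injective (Option.some.inj h2)
      rw [h3]; rfl

/-- no dart of a T-trail lies inside a terminal set -/
lemma IsTT.not_inside {t t' s : ι} {R : List (E × Bool)} (h : IsTT G A c t t' R) {d : E × Bool}
    (hd' : d ∈ R) (h1 : tl G d ∈ Sc c s) (h2 : hd G d ∈ Sc c s) : False := by
  have g1 : c (tl G d) = some s := h1
  have g2 : c (hd G d) = some s := h2
  rcases h.tl_cases hd' with h3 | ⟨h3, _⟩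
  · have : c (tl G d) = none := h3
    rw [g1] at this; exact absurd this (by simp)
  · rcases h.hd_cases hd' with h4 | ⟨h4, _⟩
    · have : c (hd G d) = none := h4
      rw [g2] at this; exact absurd this (by simp)
    · have h5 : c (tl G d) = some t := h3
      have h6 : c (hd G d) = some t' := h4
      rw [g1] at h5; rw [g2] at h6
      exact h.ne ((Option.some.inj h5).symm.trans (Option.some.inj h6))

/-- in a linkage trail, darts other than the last one are inside -/
lemma lk_dropLast {S X : Set V} {L : List (E × Bool)} (h : IsTr G A S X L) {d : E × Bool}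
    (hd' : d ∈ L.dropLast) : tl G d ∈ X ∧ hd G d ∈ X := by
  refine ⟨h.tlX d (List.mem_of_mem_dropLast hd'), ?_⟩
  obtain ⟨u, hu, v, hw⟩ := h.wk
  have e1 := (List.dropLast_append_getLast h.ne).symm
  rw [e1, wk_concat] at hw
  refine hw.1.hd_mem (P := fun x => x ∈ X) ?_ ?_ d hd'
  · intro d' hd''
    exact h.tlX d' (List.mem_of_mem_dropLast hd'')
  · exact h.tlX _ (List.getLast_mem h.ne)

end


section
variable {V : Type uV} {E : Type uE} {ι : Type uI}

lemma Lk.restrictM {G : E → Bool → V} {A M : Set E} {S X : Set V} {K : Set (E × Bool)}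
    {W : Set (List (E × Bool))} (h : Lk G A S X K W)
    (hM : ∀ L ∈ W, (∃ d ∈ L, d.1 ∈ M) → ∀ d ∈ L, d.1 ∈ M) :
    Lk G (A \ M) S X K {L | L ∈ W ∧ ∀ d ∈ L, d.1 ∉ M} := by
  refine ⟨⟨?_, ?_⟩, ?_, ?_⟩
  · rintro L ⟨hL, hLM⟩
    exact isTr_congr (h.tr L hL) (fun _ _ => rfl) (fun d hd => ⟨(h.tr L hL).sub d hd, hLM d hd⟩)
  · rintro L ⟨hL, _⟩ L' ⟨hL', _⟩ d hd d' hd' he
    exact h.disj L hL L' hL' d hd d' hd' he
  · rintro L ⟨hL, hLM⟩
    obtain ⟨b, hb, hl⟩ := h.last L hL
    exact ⟨b, ⟨⟨⟨hb.1.1, hLM b (mem_of_getLast? hl)⟩, hb.1.2⟩, hb.2⟩, hl⟩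
  · rintro b ⟨⟨⟨h1, h2⟩, h3⟩, hbK⟩
    obtain ⟨L, hL, hl⟩ := h.cov b ⟨⟨h1, h3⟩, hbK⟩
    refine ⟨L, ⟨hL, ?_⟩, hl⟩
    intro d hd hdM
    exact h2 (hM L hL ⟨d, hd, hdM⟩ b (mem_of_getLast? hl))

lemma Full.restrictM {G : E → Bool → V} {A M : Set E} {S : Set V}
    {W : Set (List (E × Bool))} (h : Full G A S W)
    (hM : ∀ L ∈ W, (∃ d ∈ L, d.1 ∈ M) → ∀ d ∈ L, d.1 ∈ M) :
    Full G (A \ M) S {L | L ∈ W ∧ ∀ d ∈ L, d.1 ∉ M} := by
  rintro b ⟨⟨h1, h2⟩, h3⟩
  obtain ⟨L, hL, hh⟩ := h b ⟨h1, h3⟩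
  refine ⟨L, ⟨hL, ?_⟩, hh⟩
  intro d hd hdM
  exact h2 (hM L hL ⟨d, hd, hdM⟩ b (mem_of_head? hh))

lemma IsTT.mono {G : E → Bool → V} {A B : Set E} {c : V → Option ι} {t t' : ι}
    {R : List (E × Bool)} (h : IsTT G A c t t' R) (hB : ∀ d ∈ R, d.1 ∈ B) : IsTT G B c t t' R :=
  ⟨h.ne, h.wk, h.nodup, hB, h.inner⟩

/-- a dart of a T-trail with tail in a terminal set is the first one; with head in a terminal set
it is the last one -/
lemma IsTT.ends {G : E → Bool → V} {A : Set E} {c : V → Option ι} {t t' s : ι}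
    {R : List (E × Bool)} (h : IsTT G A c t t' R) {d : E × Bool} (hd : d ∈ R) :
    (tl G d ∈ Sc c s → R.head? = some d) ∧ (LC.hd G d ∈ Sc c s → R.getLast? = some d) := by
  obtain ⟨u, hu, v, hv, hw⟩ := h.wk
  obtain ⟨α, β, hαβ⟩ := List.append_of_mem hd
  constructor
  · intro hS
    rcases List.eq_nil_or_concat α with h0 | ⟨α', a, h0⟩
    · rw [hαβ, h0]; rfl
    · exfalso
      rw [List.concat_eq_append] at h0
      have h1 : a ∈ R.dropLast := by
        rw [hαβ, h0, List.dropLast_append_of_ne_nil (by simp)]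
        simp
      have h2 := h.inner a h1
      rw [hαβ, h0] at hw
      have h3 := ((wk_split G _ _ _).1 hw).1
      have h4 := ((wk_concat G _ _).1 h3).2
      rw [h4] at h2
      exact nc_sc h2 hS
  · intro hS
    cases β with
    | nil => rw [hαβ, List.getLast?_concat]
    | cons b β =>
      exfalso
      have h1 : d ∈ R.dropLast := by
        rw [hαβ, List.dropLast_append_of_ne_nil (by simp), List.dropLast_cons_of_ne_nil (by simp)]
        simp
      exact nc_sc (h.inner d h1) hS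


end

end Pool.Agent.LC
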