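import Pool.Agent.Lib_helper64.Aug

set_option autoImplicit false
set_option linter.unusedVariables false

namespace Pool.Agent.LC

universe uV uE uI

variable {V : Type uV} {E : Type uE} {ι : Type uI}
variable {G : E → Bool → V} {A : Set E} {S X P : Set V} {K : Set (E × Bool)}
  {W : Set (List (E × Bool))}

lemma IsTr.tl_notMem {L : List (E × Bool)} {g : E × Bool} {β : List (E × Bool)}
    (h : IsTr G A S X L) (hL : L = g :: β) : tl G g ∈ S ∧ ∀ d ∈ β, tl G d ∉ S := by
  refine ⟨(h.first_iff (α := []) hL).2 rfl, ?_⟩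
  intro d hd hS
  obtain ⟨β1, β2, rfl⟩ := List.append_of_mem hd
  have := (h.first_iff (α := g :: β1) (β := β2) (d := d) (by rw [hL]; simp)).1 hS
  simp at this

/-- tails and heads of the non-last darts lie in `X` -/
lemma IsTr.hd_mem_X {L α : List (E × Bool)} {g : E × Bool} (h : IsTr G A S X L)
    (hL : L = α ++ [g]) : ∀ a ∈ α, hd G a ∈ X := by
  intro a ha
  obtain ⟨α1, α2, rfl⟩ := List.append_of_mem ha
  by_contra hcon
  have := h.leave_last (α := α1) (β := α2 ++ [g]) (d := a) (by rw [hL]; simp) hcon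
  simp at this

/-- extension relation between waves -/
def ExtW (G : E → Bool → V) (A : Set E) (X : Set V) (W : Set (List (E × Bool))) (X' : Set V)
    (W' : Set (List (E × Bool))) : Prop :=
  X ⊆ X' ∧ (∀ L ∈ W, ∀ b, L.getLast? = some b → b ∈ Lv G A X' → L ∈ W') ∧
    (∀ L ∈ W', ∀ d ∈ L, tl G d ∈ X → ∃ L1 ∈ W, d ∈ L1)

/-- the composed system -/
def compW (W1 W2 : Set (List (E × Bool))) : Set (List (E × Bool)) :=
  {M | ∃ α g β, α ++ [g] ∈ W1 ∧ g :: β ∈ W2 ∧ M = α ++ g :: β}

theorem Lk.comp {K1 K2 : Set (E × Bool)} {W1 W2 : Set (List (E × Bool))}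
    (h1 : Lk G A S P K1 W1) (h2 : Lk G A P X K2 W2) (hSP : S ⊆ P) (hPX : P ⊆ X)
    (hK : ∀ L ∈ W2, ∀ g, L.head? = some g → g ∉ K1) : Lk G A S X K2 (compW W1 W2) := by
  -- ends of the initial darts are in P, heads of darts of W2 are not in P
  have hα : ∀ α g, α ++ [g] ∈ W1 → ∀ a ∈ α, tl G a ∈ P ∧ hd G a ∈ P := by
    intro α g hm a ha
    exact ⟨(h1.tr _ hm).tlX a (List.mem_append_left _ ha), (h1.tr _ hm).hd_mem_X rfl a ha⟩
  have hno : ∀ α g, α ++ [g] ∈ W1 → ∀ L ∈ W2, EDisj α L := by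
    intro α g hm L hL a ha c hc he
    have h3 := hα α g hm a ha
    have h4 := (h2.tr L hL).hdS c hc
    rcases eq_or_eq_rv he with h | h
    · rw [h] at h4; exact h4 h3.2
    · rw [h] at h4; simp at h4; exact h4 h3.1
  refine ⟨⟨?_, ?_⟩, ?_, ?_⟩
  · rintro M ⟨α, g, β, hm1, hm2, rfl⟩
    have t1 := h1.tr _ hm1
    have t2 := h2.tr _ hm2
    obtain ⟨u, hu, v, hw⟩ := t1.wk
    obtain ⟨u2, hu2, v2, hw2⟩ := t2.wk
    have hw1 := (wk_concat G α g).1 hw
    refine ⟨by simp, ⟨u, hu, v2, ?_⟩, ?_, ?_, ?_, ?_⟩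
    · rw [wk_split]
      exact ⟨hw1.1, hw2.2⟩
    · rw [nodup_fst_append]
      exact ⟨(nodup_fst_append.1 t1.nodup).1, t2.nodup, hno α g hm1 _ hm2⟩
    · intro d hd
      rcases List.mem_append.1 hd with h | h
      · exact t1.sub d (List.mem_append_left _ h)
      · exact t2.sub d h
    · intro d hd
      rcases List.mem_append.1 hd with h | h
      · exact t1.hdS d (List.mem_append_left _ h)
      · exact fun hS => t2.hdS d h (hSP hS)
    · intro d hd
      rcases List.mem_append.1 hd with h | h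
      · exact hPX (t1.tlX d (List.mem_append_left _ h))
      · exact t2.tlX d h
  · rintro M ⟨α, g, β, hm1, hm2, rfl⟩ M' ⟨α', g', β', hm1', hm2', rfl⟩ a ha c hc he
    have fin1 : α ++ [g] = α' ++ [g'] → α ++ g :: β = α' ++ g' :: β' := by
      intro heq
      have h3 := List.append_inj' heq (by simp)
      have hg : g = g' := by simpa using h3.2
      have : g :: β = g' :: β' :=
        h2.disj _ hm2 _ hm2' g (by simp) g' (by simp) (by rw [hg])
      rw [h3.1, this]
    have fin2 : g :: β = g' :: β' → α ++ g :: β = α' ++ g' :: β' := by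
      intro heq
      have hg : g = g' := by
        have := List.cons.inj heq
        exact this.1
      have : α ++ [g] = α' ++ [g'] :=
        h1.disj _ hm1 _ hm1' g (by simp) g' (by simp) (by rw [hg])
      exact fin1 this
    rcases List.mem_append.1 ha with ha | ha <;> rcases List.mem_append.1 hc with hc | hc
    · exact fin1 (h1.disj _ hm1 _ hm1' a (List.mem_append_left _ ha) c
        (List.mem_append_left _ hc) he)
    · exact absurd he (hno α g hm1 _ hm2' a ha c hc)
    · exact absurd he.symm (hno α' g' hm1' _ hm2 c hc a ha)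
    · exact fin2 (h2.disj _ hm2 _ hm2' a ha c hc he)
  · rintro M ⟨α, g, β, hm1, hm2, rfl⟩
    obtain ⟨b, hb, hl⟩ := h2.last _ hm2
    refine ⟨b, hb, ?_⟩
    rw [List.getLast?_append, hl]; rfl
  · intro b hb
    obtain ⟨L2, hL2, hl⟩ := h2.cov b hb
    obtain ⟨g, β, rfl⟩ := List.exists_cons_of_ne_nil (h2.tr L2 hL2).ne
    have hg : g ∈ Lv G A P \ K1 := by
      refine ⟨⟨(h2.tr _ hL2).sub g (by simp), ((h2.tr _ hL2).tl_notMem rfl).1,
        (h2.tr _ hL2).hdS g (by simp)⟩, hK _ hL2 g rfl⟩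
    obtain ⟨L1, hL1, hl1⟩ := h1.cov g hg
    obtain ⟨α, rfl⟩ := List.getLast?_eq_some_iff.1 hl1
    refine ⟨α ++ g :: β, ⟨α, g, β, hL1, hL2, rfl⟩, ?_⟩
    rw [List.getLast?_append, hl]; rfl

lemma full_comp {W1 W2 : Set (List (E × Bool))} (hf1 : Full G A S W1)
    (h1 : Lk G A S P ∅ W1) (hf2 : Full G A P W2) : Full G A S (compW W1 W2) := by
  intro e he
  obtain ⟨L1, hL1, hh⟩ := hf1 e he
  obtain ⟨g, hg, hl⟩ := h1.last L1 hL1
  obtain ⟨L2, hL2, hh2⟩ := hf2 g hg.1
  obtain ⟨α, rfl⟩ := List.getLast?_eq_some_iff.1 hl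
  obtain ⟨β, rfl⟩ := List.head?_eq_some_iff.1 hh2
  refine ⟨α ++ g :: β, ⟨α, g, β, hL1, hL2, rfl⟩, ?_⟩
  cases α with
  | nil => simpa using hh
  | cons a α => simpa using hh

theorem extW_comp {K2 : Set (E × Bool)} {W1 W2 : Set (List (E × Bool))}
    (h1 : Lk G A S P ∅ W1) (h2 : Lk G A P X ∅ W2) (hSP : S ⊆ P) (hPX : P ⊆ X) :
    ExtW G A P W1 X (compW W1 W2) := by
  refine ⟨hPX, ?_, ?_⟩
  · intro L hL b hl hb
    obtain ⟨L2, hL2, hl2⟩ := h2.cov b ⟨hb, by simp⟩
    obtain ⟨b', hb', hl'⟩ := h1.last L hL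
    have hbb : b = b' := by rw [hl] at hl'; exact Option.some.inj hl'
    have htl : tl G b ∈ P := by rw [hbb]; exact hb'.1.2.1
    obtain ⟨ys, rfl⟩ := List.getLast?_eq_some_iff.1 hl2
    have hys : ys = [] := ((h2.tr _ hL2).first_iff (β := []) rfl).1 htl
    subst hys
    obtain ⟨α, rfl⟩ := List.getLast?_eq_some_iff.1 hl
    exact ⟨α, b, [], hL, hL2, rfl⟩
  · rintro M ⟨α, g, β, hm1, hm2, rfl⟩ d hd htl
    rcases List.mem_append.1 hd with h | h
    · exact ⟨_, hm1, List.mem_append_left _ h⟩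
    · rcases List.mem_cons.1 h with rfl | h
      · exact ⟨_, hm1, by simp⟩
      · exact absurd htl (((h2.tr _ hm2).tl_notMem rfl).2 d h)

lemma exists_last_split {α : Type*} (p : α → Prop) (L : List α) (h : ∃ d ∈ L, p d) :
    ∃ a g b, L = a ++ g :: b ∧ p g ∧ ∀ d ∈ b, ¬ p d := by
  induction L with
  | nil => obtain ⟨d, hd, _⟩ := h; simp at hd
  | cons x L ih =>
    by_cases h' : ∃ d ∈ L, p d
    · obtain ⟨a, g, b, rfl, h1, h2⟩ := ih h'
      exact ⟨x :: a, g, b, rfl, h1, h2⟩
    · push Not at h'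
      obtain ⟨d, hd, hp⟩ := h
      rcases List.mem_cons.1 hd with rfl | hd
      · exact ⟨[], d, L, rfl, hp, h'⟩
      · exact absurd hp (h' d hd)

theorem Lk.restart (h : Lk G A S X K W) (hSP : S ⊆ P) (hKX : ∀ k ∈ K, hd G k ∉ X) :
    ∃ W2, Lk G A P (P ∪ X) K W2 ∧ (∀ L ∈ W2, ∀ g, L.head? = some g → g ∉ K) ∧
      (∀ L ∈ W2, (∃ b, L = [b]) ∨ ∃ L' ∈ W, ∃ α, L' = α ++ L) := by
  have hlastmem : ∀ (α β : List (E × Bool)) (g b : E × Bool),
      (α ++ g :: β).getLast? = some b → (g :: β).getLast? = some b := by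
    intro α β g b hl
    rw [List.getLast?_append] at hl
    cases h' : (g :: β).getLast? with
    | none => simp at h'
    | some c => rw [h'] at hl; simpa using hl
  refine ⟨{M | (∃ b ∈ Lv G A (P ∪ X) \ K, tl G b ∈ P ∧ M = [b]) ∨
    (∃ L ∈ W, ∃ b ∈ Lv G A (P ∪ X) \ K, tl G b ∉ P ∧ L.getLast? = some b ∧
      ∃ α g β, L = α ++ g :: β ∧ tl G g ∈ P ∧ (∀ d ∈ β, tl G d ∉ P) ∧ M = g :: β)},
    ⟨⟨?_, ?_⟩, ?_, ?_⟩, ?_, ?_⟩
  · rintro M (⟨b, hb, htl, rfl⟩ | ⟨L, hL, b, hb, htl, hl, α, g, β, hLe, hg, hβ, rfl⟩)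
    · refine ⟨by simp, ⟨_, htl, hd G b, rfl, rfl⟩, by simp, ?_, ?_, ?_⟩
      · intro d hdm; rw [List.mem_singleton.1 hdm]; exact hb.1.1
      · intro d hdm; rw [List.mem_singleton.1 hdm]; exact fun h' => hb.1.2.2 (Or.inl h')
      · intro d hdm; rw [List.mem_singleton.1 hdm]; exact Or.inl htl
    · have t := h.tr L hL
      subst hLe
      obtain ⟨u, hu, v, hw⟩ := t.wk
      have hw2 := (wk_split G α β g).1 hw
      have hwg : Wk G (tl G g) (g :: β) v := ⟨rfl, hw2.2⟩
      refine ⟨by simp, ⟨_, hg, v, hwg⟩, ?_, ?_, ?_, ?_⟩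
      · exact (nodup_fst_append.1 t.nodup).2.1
      · intro d hdm; exact t.sub d (List.mem_append_right _ hdm)
      · -- heads are outside P
        have hl' := hlastmem _ _ _ _ hl
        obtain ⟨ys, hys⟩ := List.getLast?_eq_some_iff.1 hl'
        have hv : v = hd G b := by
          rw [hys] at hwg
          exact ((wk_concat G ys b).1 hwg).2.symm
        have hvP : v ∉ P := by rw [hv]; exact fun h' => hb.1.2.2 (Or.inl h')
        intro d hdm
        rcases List.mem_cons.1 hdm with rfl | hdm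
        · cases β with
          | nil => have : hd G d = v := hw2.2
                   rw [this]; exact hvP
          | cons c β =>
            have : tl G c = hd G d := hw2.2.1
            rw [← this]; exact hβ c (by simp)
        · exact hw2.2.hd_mem (P := fun x => x ∉ P) hβ hvP d hdm
      · intro d hdm; exact Or.inr (t.tlX d (List.mem_append_right _ hdm))
  · have aux : ∀ b ∈ Lv G A (P ∪ X) \ K, tl G b ∈ P → ∀ L ∈ W, ∀ b' ∈ Lv G A (P ∪ X) \ K,
        tl G b' ∉ P → L.getLast? = some b' → ∀ α g β, L = α ++ g :: β → tl G g ∈ P →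
        (∀ d ∈ β, tl G d ∉ P) → ∀ c ∈ g :: β, b.1 ≠ c.1 := by
      intro b hb htl L hL b' hb' htl' hl α g β hLe hg hβ c hc he
      have t := h.tr L hL
      have hcX : tl G c ∈ X := t.tlX c (by rw [hLe]; exact List.mem_append_right _ hc)
      rcases eq_or_eq_rv he with h1 | h1
      · -- c = b
        subst h1
        have hβ0 : β = [] := by
          rcases List.mem_cons.1 hc with h2 | h2
          · have hhd : hd G g ∉ X := by rw [← h2]; exact fun h' => hb.1.2.2 (Or.inr h')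
            exact t.leave_last hLe hhd
          · exact absurd htl (hβ _ h2)
        subst hβ0
        subst hLe
        rw [List.getLast?_concat] at hl
        have : g = b' := Option.some.inj hl
        rw [← this] at htl'
        exact htl' hg
      · rw [h1] at hcX
        simp at hcX
        exact hb.1.2.2 (Or.inr hcX)
    rintro M (⟨b, hb, htl, rfl⟩ | ⟨L, hL, b, hb, htl, hl, α, g, β, hLe, hg, hβ, rfl⟩)
      M' (⟨b', hb', htl', rfl⟩ | ⟨L', hL', b', hb', htl', hl', α', g', β', hLe', hg', hβ', rfl⟩)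
      a ha c hc he
    · rw [List.mem_singleton.1 ha, List.mem_singleton.1 hc] at he
      rcases eq_or_eq_rv he with h1 | h1
      · rw [h1]
      · rw [h1] at htl'
        simp at htl'
        exact absurd (Or.inl htl') hb.1.2.2
    · rw [List.mem_singleton.1 ha] at he
      exact absurd he (aux b hb htl L' hL' b' hb' htl' hl' α' g' β' hLe' hg' hβ' c hc)
    · rw [List.mem_singleton.1 hc] at he
      exact absurd he.symm (aux b' hb' htl' L hL b hb htl hl α g β hLe hg hβ a ha)
    · have hLL : L = L' := h.disj L hL L' hL' a (by rw [hLe]; exact List.mem_append_right _ ha)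
        c (by rw [hLe']; exact List.mem_append_right _ hc) he
      subst hLL
      rw [hLe] at hLe'
      rcases List.append_eq_append_iff.1 hLe' with ⟨δ, h1, h2⟩ | ⟨δ, h1, h2⟩
      · cases δ with
        | nil => simpa using h2
        | cons x δ =>
          exfalso
          have h3 := List.cons.inj h2
          have : g' ∈ β := by rw [h3.2]; simp
          exact hβ g' this hg'
      · cases δ with
        | nil => simpa using h2.symm
        | cons x δ =>
          exfalso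
          have h3 := List.cons.inj h2
          have : g ∈ β' := by rw [h3.2]; simp
          exact hβ' g this hg
  · rintro M (⟨b, hb, htl, rfl⟩ | ⟨L, hL, b, hb, htl, hl, α, g, β, hLe, hg, hβ, rfl⟩)
    · exact ⟨b, hb, by simp⟩
    · exact ⟨b, hb, hlastmem _ _ _ _ (hLe ▸ hl)⟩
  · intro b hb
    by_cases htl : tl G b ∈ P
    · exact ⟨[b], Or.inl ⟨b, hb, htl, rfl⟩, by simp⟩
    · have hbX : b ∈ Lv G A X \ K := by
        refine ⟨⟨hb.1.1, ?_, fun h' => hb.1.2.2 (Or.inr h')⟩, hb.2⟩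
        rcases hb.1.2.1 with h' | h'
        · exact absurd h' htl
        · exact h'
      obtain ⟨L, hL, hl⟩ := h.cov b hbX
      have hex : ∃ d ∈ L, tl G d ∈ P := by
        obtain ⟨g, β, rfl⟩ := List.exists_cons_of_ne_nil (h.tr L hL).ne
        exact ⟨g, by simp, hSP ((h.tr _ hL).tl_notMem rfl).1⟩
      obtain ⟨α, g, β, hLe, hg, hβ⟩ := exists_last_split (fun d => tl G d ∈ P) L hex
      exact ⟨g :: β, Or.inr ⟨L, hL, b, hb, htl, hl, α, g, β, hLe, hg, hβ, rfl⟩,
        hlastmem _ _ _ _ (hLe ▸ hl)⟩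
  · rintro M (⟨b, hb, htl, rfl⟩ | ⟨L, hL, b, hb, htl, hl, α, g, β, hLe, hg, hβ, rfl⟩) g' hg'
    · have : b = g' := by simpa using hg'
      rw [← this]; exact hb.2
    · have hgg : g = g' := by simpa using hg'
      subst hgg
      intro hK
      have hhd := hKX g hK
      have hβ0 := (h.tr L hL).leave_last hLe hhd
      subst hβ0
      rw [hLe, List.getLast?_concat] at hl
      have : g = b := Option.some.inj hl
      rw [← this] at htl
      exact htl hg
  · rintro M (⟨b, hb, htl, rfl⟩ | ⟨L, hL, b, hb, htl, hl, α, g, β, hLe, hg, hβ, rfl⟩)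
    · exact Or.inl ⟨b, rfl⟩
    · exact Or.inr ⟨L, hL, α, hLe⟩

end Pool.Agent.LC
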