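import Pool.Agent.Lib_helper64.Waves

set_option autoImplicit false
set_option linter.unusedVariables false

namespace Pool.Agent.LC

universe uV uE uI uJ

variable {V : Type uV} {E : Type uE} {ι : Type uI}
variable {G : E → Bool → V} {A : Set E} {S X P : Set V} {K : Set (E × Bool)}
  {W : Set (List (E × Bool))}

lemma ExtW.refl (X : Set V) (W : Set (List (E × Bool))) : ExtW G A X W X W :=
  ⟨subset_rfl, fun L hL _ _ _ => hL, fun L hL d hd _ => ⟨L, hL, hd⟩⟩

lemma ExtW.trans {X X' X'' : Set V} {W W' W'' : Set (List (E × Bool))}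
    (hX : ∀ L ∈ W, ∀ d ∈ L, tl G d ∈ X) (h : ExtW G A X W X' W') (h' : ExtW G A X' W' X'' W'') :
    ExtW G A X W X'' W'' := by
  refine ⟨h.1.trans h'.1, ?_, ?_⟩
  · intro L hL b hl hb
    have htl : tl G b ∈ X := hX L hL b (mem_of_getLast? hl)
    exact h'.2.1 L (h.2.1 L hL b hl ⟨hb.1, h.1 htl, fun hh => hb.2.2 (h'.1 hh)⟩) b hl hb
  · intro L hL d hd htl
    obtain ⟨L1, hL1, hd1⟩ := h'.2.2 L hL d hd (h.1 htl)
    exact h.2.2 L1 hL1 d hd1 htl

/-- limit of a chain of waves -/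
def limW {J : Type uJ} (r : J → J → Prop) (Ws : J → Set (List (E × Bool))) :
    Set (List (E × Bool)) := {L | ∃ i, ∀ j, r i j → L ∈ Ws j}

theorem lk_chain {J : Type uJ} (r : J → J → Prop) (Xs : J → Set V)
    (Ws : J → Set (List (E × Bool))) (hrefl : ∀ i, r i i) (htot : ∀ i j, r i j ∨ r j i)
    (hr : ∀ i j, r i j → ExtW G A (Xs i) (Ws i) (Xs j) (Ws j))
    (h : ∀ i, Lk G A S (Xs i) ∅ (Ws i)) :
    Lk G A S (⋃ i, Xs i) ∅ (limW r Ws) ∧
      ∀ i, ExtW G A (Xs i) (Ws i) (⋃ i, Xs i) (limW r Ws) := by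
  have hex : ∀ i, ExtW G A (Xs i) (Ws i) (⋃ i, Xs i) (limW r Ws) := by
    intro i
    refine ⟨Set.subset_iUnion _ i, ?_, ?_⟩
    · intro L hL b hl hb
      refine ⟨i, fun j hij => (hr i j hij).2.1 L hL b hl ?_⟩
      refine ⟨hb.1, (hr i j hij).1 ((h i).tr L hL |>.tlX b (mem_of_getLast? hl)), ?_⟩
      exact fun hh => hb.2.2 (Set.mem_iUnion.2 ⟨j, hh⟩)
    · rintro L ⟨i', hi'⟩ d hd htl
      rcases htot i i' with h1 | h1
      · exact (hr i i' h1).2.2 L (hi' i' (hrefl i')) d hd htl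
      · exact ⟨L, hi' i h1, hd⟩
  refine ⟨⟨⟨?_, ?_⟩, ?_, ?_⟩, hex⟩
  · rintro L ⟨i, hi⟩
    have := (h i).tr L (hi i (hrefl i))
    exact this.mono_X (fun d hd => Set.mem_iUnion.2 ⟨i, this.tlX d hd⟩)
  · rintro L ⟨i, hi⟩ L' ⟨i', hi'⟩ d hd d' hd' he
    rcases htot i i' with h1 | h1
    · exact (h i').disj L (hi i' h1) L' (hi' i' (hrefl i')) d hd d' hd' he
    · exact (h i).disj L (hi i (hrefl i)) L' (hi' i h1) d hd d' hd' he
  · rintro L ⟨i, hi⟩
    obtain ⟨b, hb, hl⟩ := (h i).last L (hi i (hrefl i))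
    refine ⟨b, ⟨⟨hb.1.1, Set.mem_iUnion.2 ⟨i, hb.1.2.1⟩, ?_⟩, by simp⟩, hl⟩
    intro hh
    obtain ⟨j, hj⟩ := Set.mem_iUnion.1 hh
    rcases htot i j with h1 | h1
    · obtain ⟨b', hb', hl'⟩ := (h j).last L (hi j h1)
      have : b = b' := by rw [hl] at hl'; exact Option.some.inj hl'
      subst this
      exact hb'.1.2.2 hj
    · exact hb.1.2.2 ((hr j i h1).1 hj)
  · rintro b ⟨hb, _⟩
    obtain ⟨i, hi⟩ := Set.mem_iUnion.1 hb.2.1
    have hbi : b ∈ Lv G A (Xs i) := ⟨hb.1, hi, fun hh => hb.2.2 (Set.mem_iUnion.2 ⟨i, hh⟩)⟩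
    obtain ⟨L, hL, hl⟩ := (h i).cov b ⟨hbi, by simp⟩
    exact ⟨L, (hex i).2.1 L hL b hl hb, hl⟩

/-- union of waves -/
theorem lk_union {X' : Set V} {W' : Set (List (E × Bool))} (h : Lk G A S X ∅ W)
    (h' : Lk G A S X' ∅ W') (hSX : S ⊆ X) :
    ∃ W'', Lk G A S (X ∪ X') ∅ W'' ∧ ExtW G A X W (X ∪ X') W'' := by
  obtain ⟨W2, h2, hK, _⟩ := h'.restart (P := X) hSX (by simp)
  exact ⟨_, h.comp h2 hSX Set.subset_union_left (by simp),
    extW_comp (K2 := ∅) h h2 hSX Set.subset_union_left⟩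

theorem wave_union {X0 : Set V} {W0 : Set (List (E × Bool))} (hSX : S ⊆ X0)
    (h0 : Lk G A S X0 ∅ W0) (XX : Set (Set V)) (hXX : ∀ X ∈ XX, ∃ W, Lk G A S X ∅ W) :
    ∃ W, Lk G A S (X0 ∪ ⋃₀ XX) ∅ W ∧ ExtW G A X0 W0 (X0 ∪ ⋃₀ XX) W := by
  classical
  let α := {p : Set V × Set (List (E × Bool)) //
    Lk G A S p.1 ∅ p.2 ∧ ExtW G A X0 W0 p.1 p.2 ∧ p.1 ⊆ X0 ∪ ⋃₀ XX}
  let r : α → α → Prop := fun p q => ExtW G A p.1.1 p.1.2 q.1.1 q.1.2
  have htr : ∀ p : α, ∀ L ∈ p.1.2, ∀ d ∈ L, tl G d ∈ p.1.1 := fun p L hL d hd =>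
    (p.2.1.tr L hL).tlX d hd
  have h0tr : ∀ L ∈ W0, ∀ d ∈ L, tl G d ∈ X0 := fun L hL d hd => (h0.tr L hL).tlX d hd
  obtain ⟨m, hm⟩ := exists_maximal_of_chains_bounded (r := r) (by
    intro C hC
    rcases C.eq_empty_or_nonempty with rfl | ⟨p0, hp0⟩
    · exact ⟨⟨(X0, W0), h0, ExtW.refl _ _, Set.subset_union_left⟩, by simp⟩
    · have htot : ∀ i j : C, r i.1 j.1 ∨ r j.1 i.1 := by
        intro i j
        by_cases hij : i.1 = j.1
        · rw [hij]; exact Or.inl (ExtW.refl _ _)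
        · exact hC i.2 j.2 hij
      obtain ⟨h1, h2⟩ := lk_chain (G := G) (A := A) (S := S) (fun i j : C => r i.1 j.1)
        (fun i => i.1.1.1) (fun i => i.1.1.2) (fun i => ExtW.refl _ _) htot (fun i j h => h)
        (fun i => i.1.2.1)
      refine ⟨⟨(_, _), h1, ?_, ?_⟩, fun a ha => h2 ⟨a, ha⟩⟩
      · exact ExtW.trans h0tr p0.2.2.1 (h2 ⟨p0, hp0⟩)
      · exact Set.iUnion_subset (fun i => i.1.2.2.2)) (by
    intro a b c hab hbc
    exact ExtW.trans (htr a) hab hbc)
  have hsub : ∀ X ∈ XX, X ⊆ m.1.1 := by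
    intro X hX
    obtain ⟨W, hW⟩ := hXX X hX
    obtain ⟨W'', h1, h2⟩ := lk_union m.2.1 hW (hSX.trans m.2.2.1.1)
    have := hm ⟨(_, _), h1, ExtW.trans h0tr m.2.2.1 h2, Set.union_subset m.2.2.2
      ((Set.subset_sUnion_of_mem hX).trans Set.subset_union_right)⟩ h2
    exact Set.subset_union_right.trans this.1
  have heq : m.1.1 = X0 ∪ ⋃₀ XX :=
    Set.Subset.antisymm m.2.2.2 (Set.union_subset m.2.2.1.1 (Set.sUnion_subset hsub))
  rw [← heq]
  exact ⟨m.1.2, m.2.1, m.2.2.1⟩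

/-- recolour the vertices of `X` with `t` -/
noncomputable def recol (c : V → Option ι) (t : ι) (X : Set V) : V → Option ι := by
  classical
  exact fun v => if v ∈ X then some t else c v

lemma sc_recol_self {c : V → Option ι} {t : ι} {X : Set V} (h : Sc c t ⊆ X) :
    Sc (recol c t X) t = X := by
  classical
  ext v
  simp only [Sc, recol, Set.mem_ofPred_eq]
  constructor
  · intro hv
    by_contra hX
    rw [if_neg hX] at hv
    exact hX (h hv)
  · intro hv
    rw [if_pos hv]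

lemma sc_recol_ne {c : V → Option ι} {t t' : ι} {X : Set V} (h : Reg c t X) (hne : t' ≠ t) :
    Sc (recol c t X) t' = Sc c t' := by
  classical
  ext v
  simp only [Sc, recol, Set.mem_ofPred_eq]
  constructor
  · intro hv
    by_cases hX : v ∈ X
    · rw [if_pos hX] at hv
      exact absurd (Option.some.inj hv).symm hne
    · rwa [if_neg hX] at hv
  · intro hv
    have hX : v ∉ X := by
      intro hX
      by_cases hvt : v ∈ Sc c t
      · have : c v = some t := hvt
        rw [hv] at this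
        exact hne (Option.some.inj this)
      · have : c v = none := h.2 ⟨hX, hvt⟩
        rw [hv] at this
        exact absurd this (by simp)
    rw [if_neg hX]
    exact hv

lemma ext_recol {c : V → Option ι} {t : ι} {X : Set V} (h : Reg c t X) : Ext c (recol c t X) := by
  classical
  intro v t' hv
  by_cases ht : t' = t
  · subst ht
    have : v ∈ Sc (recol c t' X) t' := by
      rw [sc_recol_self h.1]
      exact h.1 hv
    exact this
  · have : v ∈ Sc (recol c t X) t' := by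
      rw [sc_recol_ne h ht]
      exact hv
    exact this

lemma Ext.sc {c c' : V → Option ι} (h : Ext c c') (t : ι) : Sc c t ⊆ Sc c' t :=
  fun v hv => h v t hv

lemma Ext.nc {c c' : V → Option ι} (h : Ext c c') : Nc c' ⊆ Nc c := by
  intro v hv
  by_contra hn
  rcases hc : c v with _ | t
  · exact hn hc
  · have := h v t hc
    rw [show c' v = none from hv] at this
    exact absurd this (by simp)

lemma Ext.trans {c c' c'' : V → Option ι} (h : Ext c c') (h' : Ext c' c'') : Ext c c'' :=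
  fun v t hv => h' v t (h v t hv)

lemma Ext.refl (c : V → Option ι) : Ext c c := fun v t hv => hv

theorem exists_max (G : E → Bool → V) (A : Set E) (c : V → Option ι) :
    ∃ (c₁ : V → Option ι) (W : ι → Set (List (E × Bool))), Ext c c₁ ∧ Loose G A c₁ ∧
      ∀ t, Lk G A (Sc c t) (Sc c₁ t) ∅ (W t) := by
  classical
  let α := {p : (V → Option ι) × (ι → Set (List (E × Bool))) //
    Ext c p.1 ∧ ∀ t, Lk G A (Sc c t) (Sc p.1 t) ∅ (p.2 t)}
  let r : α → α → Prop := fun p q =>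
    Ext p.1.1 q.1.1 ∧ ∀ t, ExtW G A (Sc p.1.1 t) (p.1.2 t) (Sc q.1.1 t) (q.1.2 t)
  have htr : ∀ (p : α) t, ∀ L ∈ p.1.2 t, ∀ d ∈ L, tl G d ∈ Sc p.1.1 t := fun p t L hL d hd =>
    ((p.2.2 t).tr L hL).tlX d hd
  have hrefl : ∀ p : α, r p p := fun p => ⟨Ext.refl _, fun t => ExtW.refl _ _⟩
  have htriv : ∀ t, Lk G A (Sc c t) (Sc c t) ∅ {L | ∃ b ∈ Lv G A (Sc c t), L = [b]} := by
    intro t
    refine ⟨⟨?_, ?_⟩, ?_, ?_⟩
    · rintro L ⟨b, hb, rfl⟩
      refine ⟨by simp, ⟨tl G b, hb.2.1, hd G b, rfl, rfl⟩, by simp, ?_, ?_, ?_⟩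
      · intro d hd; rw [List.mem_singleton.1 hd]; exact hb.1
      · intro d hd; rw [List.mem_singleton.1 hd]; exact hb.2.2
      · intro d hd; rw [List.mem_singleton.1 hd]; exact hb.2.1
    · rintro L ⟨b, hb, rfl⟩ L' ⟨b', hb', rfl⟩ d hd d' hd' he
      rw [List.mem_singleton.1 hd, List.mem_singleton.1 hd'] at he
      rcases eq_or_eq_rv he with h1 | h1
      · rw [h1]
      · exfalso
        apply hb.2.2
        have := hb'.2.1
        rw [h1] at this
        simpa using this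
    · rintro L ⟨b, hb, rfl⟩
      exact ⟨b, ⟨hb, by simp⟩, by simp⟩
    · rintro b ⟨hb, _⟩
      exact ⟨[b], ⟨b, hb, rfl⟩, by simp⟩
  obtain ⟨m, hm⟩ := exists_maximal_of_chains_bounded (r := r) (by
    intro C hC
    rcases C.eq_empty_or_nonempty with rfl | ⟨p0, hp0⟩
    · exact ⟨⟨(c, fun t => {L | ∃ b ∈ Lv G A (Sc c t), L = [b]}), Ext.refl _, htriv⟩, by simp⟩
    · have htot : ∀ i j : C, r i.1 j.1 ∨ r j.1 i.1 := by
        intro i j
        by_cases hij : i.1 = j.1
        · rw [hij]; exact Or.inl (hrefl _)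
        · exact hC i.2 j.2 hij
      -- the limit colouring
      let cl : V → Option ι := fun v =>
        if h : ∃ t, ∃ p : C, p.1.1.1 v = some t then some h.choose else none
      have hcl : ∀ v t, cl v = some t ↔ ∃ p : C, p.1.1.1 v = some t := by
        intro v t
        constructor
        · intro h
          by_cases hex : ∃ t, ∃ p : C, p.1.1.1 v = some t
          · simp only [cl, dif_pos hex] at h
            have := hex.choose_spec
            rw [Option.some.inj h] at this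
            exact this
          · simp only [cl, dif_neg hex] at h
            exact absurd h (by simp)
        · rintro ⟨p, hp⟩
          have hex : ∃ t, ∃ p : C, p.1.1.1 v = some t := ⟨t, p, hp⟩
          simp only [cl, dif_pos hex]
          obtain ⟨q, hq⟩ := hex.choose_spec
          rcases htot p q with h1 | h1
          · have := h1.1 v t hp
            rw [hq] at this
            exact this
          · have := h1.1 v _ hq
            rw [hp] at this
            exact this.symm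
      have hSc : ∀ t, Sc cl t = ⋃ i : C, Sc i.1.1.1 t := by
        intro t
        ext v
        rw [Set.mem_iUnion]
        exact hcl v t
      have key : ∀ t, _ := fun t => lk_chain (G := G) (A := A) (S := Sc c t)
        (fun i j : C => r i.1 j.1)
        (fun i => Sc i.1.1.1 t) (fun i => i.1.1.2 t) (fun i => hrefl _) htot
        (fun i j h => h.2 t) (fun i => i.1.2.2 t)
      refine ⟨⟨(cl, fun t => limW (fun i j : C => r i.1 j.1) (fun i => i.1.1.2 t)), ?_, ?_⟩, ?_⟩
      · intro v t hv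
        exact (hcl v t).2 ⟨⟨p0, hp0⟩, p0.2.1 v t hv⟩
      · intro t
        show Lk G A (Sc c t) (Sc cl t) ∅ _
        rw [hSc t]
        exact (key t).1
      · intro a ha
        refine ⟨fun v t hv => (hcl v t).2 ⟨⟨a, ha⟩, hv⟩, fun t => ?_⟩
        show ExtW G A _ _ (Sc cl t) _
        rw [hSc t]
        exact (key t).2 ⟨a, ha⟩) (by
    intro a b c' hab hbc
    exact ⟨hab.1.trans hbc.1, fun t => ExtW.trans (htr a t) (hab.2 t) (hbc.2 t)⟩)
  refine ⟨m.1.1, m.1.2, m.2.1, ?_, m.2.2⟩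
  intro t X W hreg hW
  by_contra hne
  have hlk := (m.2.2 t).comp hW (m.2.1.sc t) hreg.1 (by simp)
  have hext := extW_comp (K2 := ∅) (m.2.2 t) hW (m.2.1.sc t) hreg.1
  have hS : ∀ t', Sc (recol m.1.1 t X) t' = if t' = t then X else Sc m.1.1 t' := by
    intro t'
    by_cases ht : t' = t
    · rw [if_pos ht, ht, sc_recol_self hreg.1]
    · rw [if_neg ht, sc_recol_ne hreg ht]
  have := hm ⟨(recol m.1.1 t X, fun t' => if t' = t then compW (m.1.2 t) W else m.1.2 t'),
    m.2.1.trans (ext_recol hreg), ?_⟩ ⟨ext_recol hreg, ?_⟩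
  · have h2 := this.1
    have h3 := Ext.sc h2 t
    rw [sc_recol_self hreg.1] at h3
    exact hne (Set.Subset.antisymm h3 hreg.1)
  · intro t'
    show Lk G A _ (Sc (recol m.1.1 t X) t') ∅ (if t' = t then compW (m.1.2 t) W else m.1.2 t')
    rw [hS t']
    by_cases ht : t' = t
    · subst ht
      rw [if_pos rfl, if_pos rfl]
      exact hlk
    · rw [if_neg ht, if_neg ht]
      exact m.2.2 t'
  · intro t'
    show ExtW G A _ _ (Sc (recol m.1.1 t X) t') (if t' = t then compW (m.1.2 t) W else m.1.2 t')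
    rw [hS t']
    by_cases ht : t' = t
    · subst ht
      rw [if_pos rfl, if_pos rfl]
      exact hext
    · rw [if_neg ht, if_neg ht]
      exact ExtW.refl _ _

end Pool.Agent.LC
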